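import Pool.Agent.Lib.MP_e7dab6_pr.Second

/-!
# Asymptotics of the second moment as the density tends to zero
-/

set_option autoImplicit false

open Filter Topology

namespace Pool.Agent.MP_e7dab6_pr

lemma ev_pos : ∀ᶠ p : ℝ in 𝓝[>] 0, 0 < p ∧ p < 1 := by
  have h1 : ∀ᶠ p : ℝ in 𝓝[>] 0, p ∈ Set.Ioo (0 : ℝ) 1 := Ioo_mem_nhdsGT one_pos
  exact h1

lemma ev_rpow_lt {e ε : ℝ} (he : 0 < e) (hε : 0 < ε) : ∀ᶠ p : ℝ in 𝓝[>] 0, p ^ e < ε := by
  have h1 : Tendsto (fun p : ℝ => p ^ e) (𝓝 0) (𝓝 0) := by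
    have := (Real.continuousAt_rpow_const 0 e (Or.inr he.le)).tendsto
    rwa [Real.zero_rpow he.ne'] at this
  have h2 : Tendsto (fun p : ℝ => p ^ e) (𝓝[>] 0) (𝓝 0) := h1.mono_left nhdsWithin_le_nhds
  exact h2.eventually (gt_mem_nhds hε)

section
variable {g gp : Bool → ℝ} {M : ℝ → Bool → ℕ}

lemma inv_M_le {gpo : ℝ} {p : ℝ} {m : ℕ} (hp : 0 < p) (h : p ^ (-gpo) ≤ (m : ℝ)) :
    1 / (m : ℝ) ≤ p ^ gpo := by
  have h1 : 0 < p ^ (-gpo) := Real.rpow_pos_of_pos hp _
  rw [Real.rpow_neg hp.le] at h h1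
  have h2 : 0 < p ^ gpo := Real.rpow_pos_of_pos hp _
  calc 1 / (m : ℝ) ≤ 1 / (p ^ gpo)⁻¹ := one_div_le_one_div_of_le h1 h
    _ = p ^ gpo := by rw [one_div, inv_inv]

theorem DS_asym (hg : ∀ o, g o < gp o)
    (hM : ∀ o, ∀ᶠ p : ℝ in 𝓝[>] 0, p ^ (-(gp o)) ≤ (M p o : ℝ)) (t : Tr) :
    ∀ o, pres g t o →
      (∃ C : ℝ, 0 < C ∧ ∀ᶠ p : ℝ in 𝓝[>] 0, DS (M p) p t o true ≤ C * p ^ (-(g o - ex g t o))) ∧
      (∀ ε : ℝ, 0 < ε → ∀ᶠ p : ℝ in 𝓝[>] 0, DS (M p) p t o false ≤ 1 + ε) := by
  induction t with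
  | leaf =>
    intro o _
    refine ⟨⟨1, one_pos, ?_⟩, ?_⟩
    · filter_upwards [ev_pos] with p hp
      simp [DS, ex]
    · intro ε hε
      filter_upwards with p
      simp only [DS]
      linarith
  | att t F c iht ihc =>
    intro o hpres
    obtain ⟨hp1, hp2, hp3⟩ := hpres
    obtain ⟨⟨Ct, hCt, hSt⟩, hDt⟩ := iht o hp1
    obtain ⟨⟨Cc, hCc, hSc⟩, hDc⟩ := ihc (!o) hp2
    have hη : 0 < gp (!o) - g (!o) := by linarith [hg (!o)]
    have hexc := ex_pos_of_pres hp2
    -- bound for the ratio of the second moment of the child and the number of positions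
    have hratio : ∀ᶠ p : ℝ in 𝓝[>] 0, DS (M p) p c (!o) true / (M p (!o)) ≤
        Cc * p ^ (ex g c (!o) + (gp (!o) - g (!o))) := by
      filter_upwards [ev_pos, hSc, hM (!o)] with p hp h1 h2
      have h3 := inv_M_le hp.1 h2
      have h4 : 0 < p ^ (gp (!o)) := Real.rpow_pos_of_pos hp.1 _
      calc DS (M p) p c (!o) true / (M p (!o)) = DS (M p) p c (!o) true * (1 / (M p (!o))) := by
            ring
        _ ≤ (Cc * p ^ (-(g (!o) - ex g c (!o)))) * p ^ (gp (!o)) :=
            mul_le_mul h1 h3 (by positivity)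
              (mul_nonneg hCc.le (Real.rpow_nonneg hp.1.le _))
        _ = Cc * p ^ (ex g c (!o) + (gp (!o) - g (!o))) := by
            rw [mul_assoc, ← Real.rpow_add hp.1]
            congr 2
            ring
    constructor
    · refine ⟨Ct * (2 + Cc), by positivity, ?_⟩
      filter_upwards [ev_pos, hSt, hDc 1 one_pos, hratio] with p hp h1 h2 h3
      have hpf : 0 < p ^ F.card := pow_pos hp.1 _
      have h4 : DS (M p) p c (!o) true / (M p (!o) * p ^ F.card) ≤
          Cc * p ^ (min 0 (ex g c (!o) - F.card)) := by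
        have e1 : DS (M p) p c (!o) true / (M p (!o) * p ^ F.card) =
            (DS (M p) p c (!o) true / M p (!o)) * p ^ (-(F.card : ℝ)) := by
          rw [Real.rpow_neg hp.1.le, Real.rpow_natCast]
          field_simp
        rw [e1]
        calc (DS (M p) p c (!o) true / M p (!o)) * p ^ (-(F.card : ℝ)) ≤
            (Cc * p ^ (ex g c (!o) + (gp (!o) - g (!o)))) * p ^ (-(F.card : ℝ)) :=
              mul_le_mul_of_nonneg_right h3 (Real.rpow_nonneg hp.1.le _)
          _ = Cc * p ^ (ex g c (!o) + (gp (!o) - g (!o)) - F.card) := by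
              rw [mul_assoc, ← Real.rpow_add hp.1]
              congr 2
          _ ≤ Cc * p ^ (min 0 (ex g c (!o) - F.card)) := by
              refine mul_le_mul_of_nonneg_left ?_ hCc.le
              apply Real.rpow_le_rpow_of_exponent_ge hp.1 hp.2.le
              have := min_le_right 0 (ex g c (!o) - F.card)
              linarith
      have h5 : DS (M p) p c (!o) false ≤ 2 * p ^ (min 0 (ex g c (!o) - F.card)) := by
        have h6 : (1 : ℝ) ≤ p ^ (min 0 (ex g c (!o) - F.card)) :=
          Real.one_le_rpow_of_pos_of_le_one_of_nonpos hp.1 hp.2.le (min_le_left _ _)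
        linarith
      have h7 := DS_nonneg (M := M p) hp.1.le t o true
      have h8 := DS_nonneg (M := M p) hp.1.le c (!o) true
      have h9 := DS_nonneg (M := M p) hp.1.le c (!o) false
      have h10 : 0 < p ^ (-(g o - ex g t o)) := Real.rpow_pos_of_pos hp.1 _
      simp only [DS]
      calc DS (M p) p t o true *
          (DS (M p) p c (!o) false + DS (M p) p c (!o) true / (M p (!o) * p ^ F.card)) ≤
          (Ct * p ^ (-(g o - ex g t o))) * (2 * p ^ (min 0 (ex g c (!o) - F.card)) +
            Cc * p ^ (min 0 (ex g c (!o) - F.card))) :=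
            mul_le_mul h1 (add_le_add h5 h4) (by positivity) (by positivity)
        _ = Ct * (2 + Cc) * (p ^ (-(g o - ex g t o)) * p ^ (min 0 (ex g c (!o) - F.card))) := by
            ring
        _ = Ct * (2 + Cc) * p ^ (-(g o - ex g (.att t F c) o)) := by
            rw [← Real.rpow_add hp.1]
            congr 2
            simp only [ex]
            ring
    · intro ε hε
      set δ := min 1 (ε / 8) with hδ
      have hδ0 : 0 < δ := lt_min one_pos (by linarith)
      have hδ1 : δ ≤ 1 := min_le_left _ _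
      have hδ2 : δ ≤ ε / 8 := min_le_right _ _
      filter_upwards [ev_pos, hDt δ hδ0, hDc δ hδ0, hratio,
        ev_rpow_lt (e := ex g c (!o) + (gp (!o) - g (!o))) (by linarith) (div_pos hδ0 hCc)]
        with p hp h1 h2 h3 h4
      simp only [DS]
      have h5 : Cc * p ^ (ex g c (!o) + (gp (!o) - g (!o))) ≤ δ := by
        have := mul_lt_mul_of_pos_left h4 hCc
        rw [mul_div_cancel₀ _ hCc.ne'] at this
        exact this.le
      have h6 := DS_nonneg (M := M p) hp.1.le t o false
      have h7 : DS (M p) p c (!o) false + DS (M p) p c (!o) true / (M p (!o)) ≤ 1 + 2 * δ := by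
        linarith
      have h8 : 0 ≤ DS (M p) p c (!o) false + DS (M p) p c (!o) true / (M p (!o)) := by
        have := DS_nonneg (M := M p) hp.1.le c (!o) true
        have := DS_nonneg (M := M p) hp.1.le c (!o) false
        positivity
      calc DS (M p) p t o false *
          (DS (M p) p c (!o) false + DS (M p) p c (!o) true / (M p (!o))) ≤
          (1 + δ) * (1 + 2 * δ) := mul_le_mul h1 h7 h8 (by linarith)
        _ ≤ 1 + ε := by nlinarith

/-- The bound for the probability that there is no copy tends to zero. -/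
theorem no_copy_small (hg : ∀ o, g o < gp o)
    (hM : ∀ o, ∀ᶠ p : ℝ in 𝓝[>] 0, p ^ (-(gp o)) ≤ (M p o : ℝ)) {t : Tr} {o : Bool}
    (hpres : pres g t o) {ε : ℝ} (hε : 0 < ε) :
    ∀ᶠ p : ℝ in 𝓝[>] 0, DS (M p) p t o false + DS (M p) p t o true / (M p o) - 1 ≤ ε := by
  obtain ⟨⟨C, hC, hS⟩, hD⟩ := DS_asym hg hM t o hpres
  have hex := ex_pos_of_pres hpres
  have hη : 0 < gp o - g o := by linarith [hg o]
  filter_upwards [ev_pos, hS, hD (ε / 2) (by linarith), hM o,
    ev_rpow_lt (e := ex g t o + (gp o - g o)) (by linarith)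
      (div_pos (half_pos hε) hC)] with p hp h1 h2 h3 h4
  have h5 := inv_M_le hp.1 h3
  have h6 : DS (M p) p t o true / (M p o) ≤ ε / 2 := by
    calc DS (M p) p t o true / (M p o) = DS (M p) p t o true * (1 / (M p o)) := by ring
      _ ≤ (C * p ^ (-(g o - ex g t o))) * p ^ (gp o) :=
          mul_le_mul h1 h5 (by positivity) (mul_nonneg hC.le (Real.rpow_nonneg hp.1.le _))
      _ = C * p ^ (ex g t o + (gp o - g o)) := by
          rw [mul_assoc, ← Real.rpow_add hp.1]
          congr 2
          ring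
      _ ≤ ε / 2 := by
          have := mul_lt_mul_of_pos_left h4 hC
          rw [mul_div_cancel₀ _ hC.ne'] at this
          exact this.le
  linarith

end

end Pool.Agent.MP_e7dab6_pr
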