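import Pool.Agent.Lib.MP_e7dab6_pr.Defs

/-!
# Orientation-aware coordinates, local rule in terms of finite witnesses
-/

set_option autoImplicit false

namespace Pool.Agent.MP_e7dab6_pr

/-- The point with `o`-coordinate `a` and other coordinate `b`. -/
def pt (o : Bool) (a b : ℤ) : ℤ × ℤ := cond o (a, b) (b, a)

/-- The `o`-coordinate. -/
def crd (o : Bool) (z : ℤ × ℤ) : ℤ := cond o z.1 z.2

@[simp] lemma pt_true (a b : ℤ) : pt true a b = (a, b) := rfl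
@[simp] lemma pt_false (a b : ℤ) : pt false a b = (b, a) := rfl
@[simp] lemma crd_true (z : ℤ × ℤ) : crd true z = z.1 := rfl
@[simp] lemma crd_false (z : ℤ × ℤ) : crd false z = z.2 := rfl

@[simp] lemma crd_pt (o : Bool) (a b : ℤ) : crd o (pt o a b) = a := by cases o <;> rfl
@[simp] lemma crd_not_pt (o : Bool) (a b : ℤ) : crd (!o) (pt o a b) = b := by cases o <;> rfl
@[simp] lemma crd_pt_not (o : Bool) (a b : ℤ) : crd o (pt (!o) a b) = b := by cases o <;> rfl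
@[simp] lemma pt_crd (o : Bool) (z : ℤ × ℤ) : pt o (crd o z) (crd (!o) z) = z := by
  cases o <;> rfl
lemma pt_not (o : Bool) (a b : ℤ) : pt (!o) b a = pt o a b := by cases o <;> rfl

lemma pt_inj {o : Bool} {a b a' b' : ℤ} : pt o a b = pt o a' b' ↔ a = a' ∧ b = b' := by
  cases o <;> simp [and_comm]

lemma pt_add (o : Bool) (a b a' b' : ℤ) : pt o a b + pt o a' b' = pt o (a + a') (b + b') := by
  cases o <;> simp

lemma crd_add (o : Bool) (z w : ℤ × ℤ) : crd o (z + w) = crd o z + crd o w := by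
  cases o <;> simp

lemma crd_sub (o : Bool) (z w : ℤ × ℤ) : crd o (z - w) = crd o z - crd o w := by
  cases o <;> simp

lemma ext_crd {z w : ℤ × ℤ} (o : Bool) (h : crd o z = crd o w) (h' : crd (!o) z = crd (!o) w) :
    z = w := by
  rw [← pt_crd o z, ← pt_crd o w, h, h']

/-- `u` occupied sites in the `o`-direction and `v` in the other one suffice. -/
def bad (Z : Set (ℕ × ℕ)) (o : Bool) (u v : ℕ) : Prop := (cond o (u, v) (v, u)) ∉ Z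

lemma bad_not {Z : Set (ℕ × ℕ)} {o : Bool} {u v : ℕ} : bad Z (!o) v u ↔ bad Z o u v := by
  cases o <;> rfl

lemma bad.mono {Z : Set (ℕ × ℕ)} (hZ : IsLowerSet Z) {o : Bool} {u v u' v' : ℕ}
    (h : bad Z o u v) (hu : u ≤ u') (hv : v ≤ v') : bad Z o u' v' := by
  intro h'
  apply h
  cases o
  · exact hZ (Prod.mk_le_mk.2 ⟨hv, hu⟩) h'
  · exact hZ (Prod.mk_le_mk.2 ⟨hu, hv⟩) h'

/-- A set which no step of the dynamics enlarges, in terms of finite witnesses. -/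
def Closed (ρ : ℕ) (Z : Set (ℕ × ℕ)) (Q : Set (ℤ × ℤ)) : Prop :=
  ∀ (o : Bool) (a b : ℤ) (U V : Finset ℤ), (∀ a' ∈ U, |a' - a| ≤ (ρ : ℤ) ∧ pt o a' b ∈ Q) →
    (∀ b' ∈ V, |b' - b| ≤ (ρ : ℤ) ∧ pt o a b' ∈ Q) → bad Z o U.card V.card → pt o a b ∈ Q

lemma finite_win (ρ : ℕ) (a : ℤ) (P : ℤ → Prop) : {a' : ℤ | |a' - a| ≤ (ρ : ℤ) ∧ P a'}.Finite := by
  refine (Set.finite_Icc (a - ρ) (a + ρ)).subset ?_
  rintro x ⟨hx, -⟩
  rw [abs_le] at hx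
  exact ⟨by linarith [hx.1], by linarith [hx.2]⟩

lemma hCount_eq (ρ : ℕ) (ξ : Set (ℤ × ℤ)) (x : ℤ × ℤ) :
    hCount ρ ξ x = Set.ncard {a : ℤ | |a - x.1| ≤ (ρ : ℤ) ∧ (a, x.2) ∈ ξ} := by
  unfold hCount
  symm
  apply Set.ncard_congr (fun a _ => (a, x.2))
  · rintro a ⟨h1, h2⟩
    exact ⟨h2, rfl, h1⟩
  · intro a b _ _ h
    exact (Prod.mk.inj h).1
  · rintro ⟨a, b⟩ ⟨h1, h2, h3⟩
    simp only at h2 h3
    subst h2
    exact ⟨a, ⟨h3, h1⟩, rfl⟩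

lemma vCount_eq (ρ : ℕ) (ξ : Set (ℤ × ℤ)) (x : ℤ × ℤ) :
    vCount ρ ξ x = Set.ncard {a : ℤ | |a - x.2| ≤ (ρ : ℤ) ∧ (x.1, a) ∈ ξ} := by
  unfold vCount
  symm
  apply Set.ncard_congr (fun a _ => (x.1, a))
  · rintro a ⟨h1, h2⟩
    exact ⟨h2, rfl, h1⟩
  · intro a b _ _ h
    exact (Prod.mk.inj h).2
  · rintro ⟨a, b⟩ ⟨h1, h2, h3⟩
    simp only at h2 h3
    subst h2
    exact ⟨b, ⟨h3, h1⟩, rfl⟩

lemma mem_step_iff {ρ : ℕ} {Z : Set (ℕ × ℕ)} (hZ : IsLowerSet Z) {ξ : Set (ℤ × ℤ)}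
    (o : Bool) (a b : ℤ) :
    pt o a b ∈ step ρ Z ξ ↔ pt o a b ∈ ξ ∨ ∃ U V : Finset ℤ,
      (∀ a' ∈ U, |a' - a| ≤ (ρ : ℤ) ∧ pt o a' b ∈ ξ) ∧
      (∀ b' ∈ V, |b' - b| ≤ (ρ : ℤ) ∧ pt o a b' ∈ ξ) ∧ bad Z o U.card V.card := by
  classical
  set A : Bool → Set ℤ := fun o' => {c : ℤ | |c - crd o' (pt o a b)| ≤ (ρ : ℤ) ∧
    pt o' c (crd (!o') (pt o a b)) ∈ ξ} with hA
  have hfin : ∀ o', (A o').Finite := fun o' => finite_win ρ _ _
  have key : pt o a b ∈ step ρ Z ξ ↔ pt o a b ∈ ξ ∨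
      (Set.ncard (A true), Set.ncard (A false)) ∉ Z := by
    unfold step
    rw [Set.mem_union, Set.mem_ofPred_eq, hCount_eq, vCount_eq]
    rfl
  rw [key]
  refine or_congr Iff.rfl ?_
  have hAo : A o = {c : ℤ | |c - a| ≤ (ρ : ℤ) ∧ pt o c b ∈ ξ} := by
    simp [hA]
  have hAn : A (!o) = {c : ℤ | |c - b| ≤ (ρ : ℤ) ∧ pt o a c ∈ ξ} := by
    simp only [hA, crd_not_pt, Bool.not_not, crd_pt]
    ext c
    rw [Set.mem_ofPred_eq, Set.mem_ofPred_eq, pt_not]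
  have hbad : (Set.ncard (A true), Set.ncard (A false)) ∉ Z ↔
      bad Z o (A o).ncard (A (!o)).ncard := by
    cases o <;> rfl
  rw [hbad]
  constructor
  · intro h
    refine ⟨(hfin o).toFinset, (hfin (!o)).toFinset, ?_, ?_, ?_⟩
    · intro a' ha'
      rw [Set.Finite.mem_toFinset, hAo] at ha'
      exact ha'
    · intro a' ha'
      rw [Set.Finite.mem_toFinset, hAn] at ha'
      exact ha'
    · rw [← Set.ncard_eq_toFinset_card _ (hfin o), ← Set.ncard_eq_toFinset_card _ (hfin (!o))]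
      exact h
  · rintro ⟨U, V, hU, hV, hb⟩
    refine hb.mono hZ ?_ ?_
    · rw [← Set.ncard_coe_finset]
      refine Set.ncard_le_ncard ?_ (hfin o)
      intro x hx
      rw [hAo]
      exact hU x hx
    · rw [← Set.ncard_coe_finset]
      refine Set.ncard_le_ncard ?_ (hfin (!o))
      intro x hx
      rw [hAn]
      exact hV x hx

lemma evolve_mono_succ (ρ : ℕ) (Z : Set (ℕ × ℕ)) (ξ : Set (ℤ × ℤ)) (t : ℕ) :
    evolve ρ Z ξ t ⊆ evolve ρ Z ξ (t + 1) := Set.subset_union_left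

lemma evolve_mono (ρ : ℕ) (Z : Set (ℕ × ℕ)) (ξ : Set (ℤ × ℤ)) : Monotone (evolve ρ Z ξ) :=
  monotone_nat_of_le_succ (evolve_mono_succ ρ Z ξ)

lemma evolve_subset_of_closed {ρ : ℕ} {Z : Set (ℕ × ℕ)} (hZ : IsLowerSet Z)
    {ξ Q : Set (ℤ × ℤ)} (h : ξ ⊆ Q) (hQ : Closed ρ Z Q) (t : ℕ) : evolve ρ Z ξ t ⊆ Q := by
  induction t with
  | zero => exact h
  | succ t ih =>
    rintro ⟨a, b⟩ hz
    change pt true a b ∈ step ρ Z _ at hz
    rw [mem_step_iff hZ] at hz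
    rcases hz with hz | ⟨U, V, hU, hV, hb⟩
    · exact ih hz
    · exact hQ true a b U V (fun a' ha' => ⟨(hU a' ha').1, ih (hU a' ha').2⟩)
        (fun a' ha' => ⟨(hV a' ha').1, ih (hV a' ha').2⟩) hb

/-- One step, in terms of finite witnesses. -/
lemma mem_evolve_succ {ρ : ℕ} {Z : Set (ℕ × ℕ)} (hZ : IsLowerSet Z) {ξ : Set (ℤ × ℤ)} {t : ℕ}
    (o : Bool) {a b : ℤ} (U V : Finset ℤ)
    (hU : ∀ a' ∈ U, |a' - a| ≤ (ρ : ℤ) ∧ pt o a' b ∈ evolve ρ Z ξ t)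
    (hV : ∀ b' ∈ V, |b' - b| ≤ (ρ : ℤ) ∧ pt o a b' ∈ evolve ρ Z ξ t)
    (hb : bad Z o U.card V.card) : pt o a b ∈ evolve ρ Z ξ (t + 1) :=
  (mem_step_iff hZ o a b).2 (Or.inr ⟨U, V, hU, hV, hb⟩)

end Pool.Agent.MP_e7dab6_pr
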