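import Pool.Agent.Lib.MP_e7dab6_pr.Force

/-!
# Nodes have a bounded number of lines unless a present tree fills
-/

set_option autoImplicit false

namespace Pool.Agent.MP_e7dab6_pr

/-- `x` lies between two elements of `s` at distance at most `d`. -/
def Fl (d : ℤ) (s : Set ℤ) : Set ℤ := {x | ∃ a ∈ s, ∃ a' ∈ s, a ≤ x ∧ x ≤ a' ∧ a' - a ≤ d}

lemma Fl_mono {d : ℤ} {s s' : Set ℤ} (h : s ⊆ s') : Fl d s ⊆ Fl d s' :=
  fun _ ⟨a, ha, a', ha', h1⟩ => ⟨a, h ha, a', h ha', h1⟩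

lemma Fl_between {d : ℤ} {s : Set ℤ} {a a' x : ℤ} (ha : a ∈ Fl d s) (ha' : a' ∈ Fl d s)
    (h1 : a ≤ x) (h2 : x ≤ a') (h3 : a' - a ≤ d) : x ∈ Fl d s := by
  obtain ⟨b, hb, b', hb', h4, h5, h6⟩ := ha
  obtain ⟨c, hc, c', hc', h7, h8, h9⟩ := ha'
  by_cases hx : x ≤ b'
  · exact ⟨b, hb, b', hb', by omega, hx, h6⟩
  · by_cases hx' : c ≤ x
    · exact ⟨c, hc, c', hc', hx', by omega, h9⟩
    · exact ⟨b', hb', c, hc, by omega, by omega, by omega⟩

lemma subset_Fl {d : ℤ} (hd : 0 ≤ d) (s : Set ℤ) : s ⊆ Fl d s :=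
  fun x hx => ⟨x, hx, x, hx, le_rfl, le_rfl, by simpa⟩

/-- The seeds of a node: coordinates of the sites in the labels of costly edges. -/
noncomputable def seeds (E : Finset Ed) (g : Bool → ℝ) (n' : ℕ) (o : Bool) (c : ℤ) : Finset ℤ :=
  (E.filter (fun e => nd e o = c ∧
    ¬ ((lb e).card : ℝ) ≤ ex g (cov E n' (!o) (nd e (!o)) (some e)) (!o))).biUnion
      (fun e => (lb e).image (crd o))

section
variable {ρ : ℕ} {Z : Set (ℕ × ℕ)} {st : Bool → Finset ℤ} {rk : Bool → ℤ → ℕ}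
  {node : Bool → ℤ → ℤ} {E : Finset Ed} {hat : Bool → ℕ} {g0 g g2 : Bool → ℝ} {κ : ℝ}
  {K0 K n' : ℕ} {d1 : ℤ}

variable (ρ Z st rk node E d1) in
/-- Derivation of every line with the gap condition for labelled edges. -/
def DerG : Prop := ∀ o, ∀ x ∈ st o, ∃ e ∈ E, nd e o = node o x ∧
  Der ρ Z (Lk st rk node e (rk o x)) (lb e) (.line o x) ∧
  (lb e = ∅ ∨ x ∈ Fl d1 (Lk st rk node e (rk o x) o ∪ (((lb e).image (crd o) : Finset ℤ) : Set ℤ)))

lemma DerG.derH (h : DerG ρ Z st rk node E d1) : DerH ρ Z st rk node E := by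
  intro o x hx
  obtain ⟨e, he, h1, h2, -⟩ := h o x hx
  exact ⟨e, he, h1, h2⟩

lemma pres_tstar (hd : CovData E g0 g κ K0) (hg2 : ∀ o, g o ≤ g2 o) {n : ℕ} {o : Bool} {c : ℤ}
    {e : Ed} {x ε : ℤ}
    (hfree : ((lb e).card : ℝ) ≤ ex g2 (cov E n' (!o) (nd e (!o)) (some e)) (!o)) (m : ℕ) :
    pres g2 (tstar E n n' o c e x ε m) o := by
  induction m with
  | zero => exact pres_mono hg2 (pres_cov hd n o c none)
  | succ m ih =>
    refine ⟨ih, pres_mono hg2 (pres_cov hd n' (!o) _ _), ?_⟩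
    simp only [ex]
    have h1 : ((mvF o x ε (m + 1) (lb e)).card : ℝ) ≤ ((lb e).card : ℝ) := by
      exact_mod_cast card_mvF_le o x ε (m + 1) (lb e)
    rw [min_eq_left (by linarith)]
    simpa [tstar] using ex_pos_of_pres ih

/-- A free edge derives only lines lying between two earlier lines. -/
lemma free_between (hZ : IsLowerSet Z) (hρ : 1 ≤ ρ) (hd : CovData E g0 g κ K0)
    (hg2 : ∀ o, g o ≤ g2 o) (hhat : ∀ o, 1 ≤ hat o) (hnofill : ¬ HasFill ρ Z hat g2)
    (hH : DerH ρ Z st rk node E)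
    (hn' : ∀ o, ∀ x ∈ st o, rk o x < n') {o : Bool} {x : ℤ} (hx : x ∈ st o) {e : Ed}
    (hne : nd e o = node o x)
    (hder : Der ρ Z (Lk st rk node e (rk o x)) (lb e) (.line o x))
    (hfree : ((lb e).card : ℝ) ≤ ex g2 (cov E n' (!o) (nd e (!o)) (some e)) (!o))
    {ε : ℤ} (hε : ε = 1 ∨ ε = -1) :
    ∃ i : ℕ, 1 ≤ i ∧ i < hat o ∧ x + i * ε ∈ Lk st rk node e (rk o x) o := by
  by_contra hcon
  push Not at hcon
  apply hnofill
  have hm : hat o - 1 + 1 = hat o := by have := hhat o; omega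
  have hforce := tstar_forces hZ hρ hH (n := n') (n' := n') hε hne.symm hder hx (hn' o x hx)
    (hn' o x hx).le (hat o - 1) (fun i h1 h2 => hcon i h1 (by omega))
  have hpres := pres_tstar hd hg2 (n := n') (o := o) (c := node o x) (e := e) (x := x) (ε := ε)
    hfree (hat o - 1)
  rcases hε with rfl | rfl
  · refine ⟨_, o, x, hpres, fun j hj => ?_⟩
    have := hforce j (by omega)
    simpa using this
  · refine ⟨_, o, x - ((hat o - 1 : ℕ) : ℤ), hpres, fun j hj => ?_⟩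
    have := hforce (hat o - 1 - j) (by omega)
    have h2 : x + ((hat o - 1 - j : ℕ) : ℤ) * (-1) = x - ((hat o - 1 : ℕ) : ℤ) + j := by
      have h3 : ((hat o - 1 - j : ℕ) : ℤ) = ((hat o - 1 : ℕ) : ℤ) - j := by
        rw [Nat.cast_sub (by omega)]
      rw [h3]
      ring
    rw [h2] at this
    exact this

lemma mem_seeds {o : Bool} {c y : ℤ} : y ∈ seeds E g n' o c ↔ ∃ e ∈ E, nd e o = c ∧
    ¬ ((lb e).card : ℝ) ≤ ex g (cov E n' (!o) (nd e (!o)) (some e)) (!o) ∧
    y ∈ (lb e).image (crd o) := by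
  unfold seeds
  rw [Finset.mem_biUnion]
  constructor
  · rintro ⟨e, he, hy⟩
    rw [Finset.mem_filter] at he
    exact ⟨e, he.1, he.2.1, he.2.2, hy⟩
  · rintro ⟨e, h1, h2, h3, hy⟩
    exact ⟨e, Finset.mem_filter.2 ⟨h1, h2, h3⟩, hy⟩

/-- Every line lies between two seeds of its node at distance at most `d1`. -/
theorem line_mem_Fl_seeds (hZ : IsLowerSet Z) (hρ : 1 ≤ ρ) (hd : CovData E g0 g κ K0)
    (hg2 : ∀ o, g o ≤ g2 o) (hhat : ∀ o, 1 ≤ hat o) (hhat' : ∀ o, 2 * (hat o : ℤ) ≤ d1 + 2)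
    (hnofill : ¬ HasFill ρ Z hat g2) (hH : DerG ρ Z st rk node E d1)
    (hn' : ∀ o, ∀ x ∈ st o, rk o x < n') (o : Bool) (x : ℤ) (hx : x ∈ st o) :
    x ∈ Fl d1 (seeds E g2 n' o (node o x)) := by
  have hd1 : 0 ≤ d1 := by
    have h1 := hhat o
    have h2 := hhat' o
    omega
  have main : ∀ r : ℕ, ∀ x ∈ st o, rk o x = r → x ∈ Fl d1 (seeds E g2 n' o (node o x)) := by
    intro r
    induction r using Nat.strong_induction_on with
    | _ r ih =>
    intro x hx hr
    obtain ⟨e, he, hne, hder, hgap⟩ := hH o x hx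
    have hlow : ∀ a ∈ Lk st rk node e (rk o x) o, a ∈ Fl d1 (seeds E g2 n' o (node o x)) := by
      intro a ha
      have h1 := ih (rk o a) (by rw [← hr]; exact ha.2.2) a ha.1 rfl
      rwa [ha.2.1, hne] at h1
    by_cases hfree : ((lb e).card : ℝ) ≤ ex g2 (cov E n' (!o) (nd e (!o)) (some e)) (!o)
    · obtain ⟨i, hi1, hi2, hi3⟩ := free_between hZ hρ hd hg2 hhat hnofill hH.derH hn' hx hne hder
        hfree (ε := 1) (Or.inl rfl)
      obtain ⟨i', hi1', hi2', hi3'⟩ := free_between hZ hρ hd hg2 hhat hnofill hH.derH hn' hx hne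
        hder hfree (ε := -1) (Or.inr rfl)
      have h1 := hhat' o
      exact Fl_between (hlow _ hi3') (hlow _ hi3) (by omega) (by omega) (by omega)
    · have hseed : ∀ y ∈ (lb e).image (crd o), y ∈ Fl d1 (seeds E g2 n' o (node o x)) := by
        intro y hy
        exact subset_Fl hd1 _ (mem_seeds.2 ⟨e, he, hne, hfree, hy⟩)
      rcases hgap with h0 | ⟨a, ha, a', ha', h1, h2, h3⟩
      · exfalso
        apply hfree
        rw [h0, Finset.card_empty, Nat.cast_zero]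
        have h4 := ex_cov_ge hd n' (!o) (nd e (!o)) (some e)
        have h5 := ex_mono hg2 (cov E n' (!o) (nd e (!o)) (some e)) (!o)
        have h6 := hd.κ_pos
        linarith
      · refine Fl_between (a := a) (a' := a') ?_ ?_ h1 h2 h3
        · rcases ha with ha | ha
          · exact hlow a ha
          · exact hseed a (by exact_mod_cast ha)
        · rcases ha' with ha' | ha'
          · exact hlow a' ha'
          · exact hseed a' (by exact_mod_cast ha')
  exact main (rk o x) x hx rfl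

/-- The sum over the edges at a node, with costly edges costing more than `κ` each. -/
lemma costly_sum (hd : CovData E g0 g κ K0) (hg2 : ∀ o, g2 o = g o + κ) (o : Bool) (c : ℤ) :
    ex g (cov E (n' + 1) o c none) o + κ * ((E.filter (fun e => nd e o = c ∧
      ¬ ((lb e).card : ℝ) ≤ ex g2 (cov E n' (!o) (nd e (!o)) (some e)) (!o))).card : ℝ) ≤ g o := by
  rw [cov, ex_attList]
  have h1 : ∀ l : List Ed, l.Nodup →
      (l.map (fun e => min 0 (ex g (cov E n' (!o) (nd e (!o)) (some e)) (!o) -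
        ((lb e).card : ℝ)))).sum + κ * ((l.toFinset.filter (fun e =>
      ¬ ((lb e).card : ℝ) ≤ ex g2 (cov E n' (!o) (nd e (!o)) (some e)) (!o))).card : ℝ) ≤ 0 := by
    intro l hl
    induction l with
    | nil => simp
    | cons a l ih =>
      rw [List.nodup_cons] at hl
      have ih' := ih hl.2
      rw [List.map_cons, List.sum_cons, List.toFinset_cons, Finset.filter_insert]
      split_ifs with h
      swap
      · have h2 : a ∉ l.toFinset.filter (fun e =>
            ¬ ((lb e).card : ℝ) ≤ ex g2 (cov E n' (!o) (nd e (!o)) (some e)) (!o)) := by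
          intro hm
          exact hl.1 (List.mem_toFinset.1 (Finset.mem_filter.1 hm).1)
        rw [Finset.card_insert_of_notMem h2]
        rw [not_le] at h
        have h3 := ex_shift (g := g2) (g' := g) hd.κ_pos.le (fun o => by rw [hg2])
          (cov E n' (!o) (nd a (!o)) (some a)) (!o)
        have h4 : min 0 (ex g (cov E n' (!o) (nd a (!o)) (some a)) (!o) - ((lb a).card : ℝ)) ≤
            -κ := (min_le_right _ _).trans (by linarith)
        push_cast
        linarith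
      · have h4 : min 0 (ex g (cov E n' (!o) (nd a (!o)) (some a)) (!o) - ((lb a).card : ℝ)) ≤
            0 := min_le_left _ _
        linarith
  have h2 := h1 (inc E o c none) (nodup_inc E o c none)
  have h3 : (inc E o c none).toFinset.filter (fun e =>
      ¬ ((lb e).card : ℝ) ≤ ex g2 (cov E n' (!o) (nd e (!o)) (some e)) (!o)) =
      E.filter (fun e => nd e o = c ∧
      ¬ ((lb e).card : ℝ) ≤ ex g2 (cov E n' (!o) (nd e (!o)) (some e)) (!o)) := by
    ext e
    simp only [Finset.mem_filter, List.mem_toFinset, mem_inc]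
    simp [and_assoc]
  rw [h3] at h2
  linarith

lemma costly_card (hd : CovData E g0 g κ K0) (hg2 : ∀ o, g2 o = g o + κ) (o : Bool) (c : ℤ) :
    (E.filter (fun e => nd e o = c ∧
      ¬ ((lb e).card : ℝ) ≤ ex g2 (cov E n' (!o) (nd e (!o)) (some e)) (!o))).card ≤ K0 := by
  classical
  have h1 := costly_sum (n' := n') hd hg2 o c
  have h2 := ex_cov_ge hd (n' + 1) o c none
  have h3 := hd.K0_large o
  have h4 := hd.κ_pos
  by_contra hcon
  rw [not_le] at hcon
  have h5 : ((K0 : ℝ) + 1) ≤ ((E.filter (fun e => nd e o = c ∧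
      ¬ ((lb e).card : ℝ) ≤ ex g2 (cov E n' (!o) (nd e (!o)) (some e)) (!o))).card : ℝ) := by
    exact_mod_cast hcon
  nlinarith

lemma seeds_card (hd : CovData E g0 g κ K0) (hg2 : ∀ o, g2 o = g o + κ)
    (hK : ∀ e ∈ E, (lb e).card ≤ K) (o : Bool) (c : ℤ) : (seeds E g2 n' o c).card ≤ K0 * K := by
  unfold seeds
  refine Finset.card_biUnion_le.trans ?_
  refine (Finset.sum_le_card_nsmul _ _ K ?_).trans ?_
  · intro e he
    rw [Finset.mem_filter] at he
    exact Finset.card_image_le.trans (hK e he.1)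
  · rw [smul_eq_mul]
    exact Nat.mul_le_mul_right _ (costly_card (n' := n') hd hg2 o c)

/-- Bound for the number of lines of a node. -/
theorem node_card (hZ : IsLowerSet Z) (hρ : 1 ≤ ρ) (hd : CovData E g0 g κ K0)
    (hg2 : ∀ o, g2 o = g o + κ) (hhat : ∀ o, 1 ≤ hat o)
    (hhat' : ∀ o, 2 * (hat o : ℤ) ≤ d1 + 2)
    (hnofill : ¬ HasFill ρ Z hat g2) (hH : DerG ρ Z st rk node E d1)
    (hK : ∀ e ∈ E, (lb e).card ≤ K) (o : Bool) (c : ℤ) :
    ((st o).filter (fun x => node o x = c)).card ≤ (d1 + 1).toNat * (K0 * K) := by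
  classical
  obtain ⟨n', hn'⟩ : ∃ n' : ℕ, ∀ o, ∀ x ∈ st o, rk o x < n' := by
    refine ⟨max ((st true).sup (rk true)) ((st false).sup (rk false)) + 1, fun o x hx => ?_⟩
    cases o
    · exact Nat.lt_succ_of_le (le_trans (Finset.le_sup (f := rk false) hx) (le_max_right _ _))
    · exact Nat.lt_succ_of_le (le_trans (Finset.le_sup (f := rk true) hx) (le_max_left _ _))
  have hg2' : ∀ o, g o ≤ g2 o := fun o => by rw [hg2]; linarith [hd.κ_pos]
  have hsub : (st o).filter (fun x => node o x = c) ⊆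
      (seeds E g2 n' o c).biUnion (fun a => Finset.Icc a (a + d1)) := by
    intro x hx
    rw [Finset.mem_filter] at hx
    obtain ⟨hx1, rfl⟩ := hx
    obtain ⟨a, ha, a', ha', h1, h2, h3⟩ := line_mem_Fl_seeds hZ hρ hd hg2' hhat hhat' hnofill hH
      hn' o x hx1
    rw [Finset.mem_biUnion]
    exact ⟨a, by exact_mod_cast ha, Finset.mem_Icc.2 ⟨h1, by omega⟩⟩
  refine (Finset.card_le_card hsub).trans ?_
  refine Finset.card_biUnion_le.trans ?_
  refine (Finset.sum_le_card_nsmul _ _ (d1 + 1).toNat ?_).trans ?_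
  · intro a _
    rw [Int.card_Icc]
    exact le_of_eq (by congr 1; ring)
  · rw [smul_eq_mul, mul_comm]
    exact Nat.mul_le_mul_left _ (seeds_card hd hg2 hK o c)

/-- Every line lies between two sites of labels. -/
theorem line_between (hZ : IsLowerSet Z) (hρ : 1 ≤ ρ) (hd : CovData E g0 g κ K0)
    (hg2 : ∀ o, g2 o = g o + κ) (hhat : ∀ o, 1 ≤ hat o)
    (hhat' : ∀ o, 2 * (hat o : ℤ) ≤ d1 + 2)
    (hnofill : ¬ HasFill ρ Z hat g2) (hH : DerG ρ Z st rk node E d1) (o : Bool) (x : ℤ)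
    (hx : x ∈ st o) : ∃ e ∈ E, ∃ z ∈ lb e, ∃ e' ∈ E, ∃ z' ∈ lb e', crd o z ≤ x ∧ x ≤ crd o z' := by
  classical
  obtain ⟨n', hn'⟩ : ∃ n' : ℕ, ∀ o, ∀ x ∈ st o, rk o x < n' := by
    refine ⟨max ((st true).sup (rk true)) ((st false).sup (rk false)) + 1, fun o x hx => ?_⟩
    cases o
    · exact Nat.lt_succ_of_le (le_trans (Finset.le_sup (f := rk false) hx) (le_max_right _ _))
    · exact Nat.lt_succ_of_le (le_trans (Finset.le_sup (f := rk true) hx) (le_max_left _ _))
  have hg2' : ∀ o, g o ≤ g2 o := fun o => by rw [hg2]; linarith [hd.κ_pos]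
  obtain ⟨a, ha, a', ha', h1, h2, h3⟩ := line_mem_Fl_seeds hZ hρ hd hg2' hhat hhat' hnofill hH
    hn' o x hx
  obtain ⟨e, he, -, -, hy⟩ := mem_seeds.1 (by exact_mod_cast ha)
  obtain ⟨e', he', -, -, hy'⟩ := mem_seeds.1 (by exact_mod_cast ha')
  rw [Finset.mem_image] at hy hy'
  obtain ⟨z, hz, rfl⟩ := hy
  obtain ⟨z', hz', rfl⟩ := hy'
  exact ⟨e, he, z, hz, e', he', z', hz', h1, h2⟩

/-- If the graph is sparse relative to the node `c`, then `c` has no line. -/
theorem no_line_of_root (hZ : IsLowerSet Z) (hρ : 1 ≤ ρ) (hd : CovData E g0 g κ K0)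
    (hg2 : ∀ o, g2 o = g o + κ) (hhat : ∀ o, 1 ≤ hat o)
    (hhat' : ∀ o, 2 * (hat o : ℤ) ≤ d1 + 2)
    (hnofill : ¬ HasFill ρ Z hat g2) (hH : DerG ρ Z st rk node E d1) (o : Bool) (c : ℤ)
    (hr : ∀ U ⊆ E, U.card ≤ 2 * K0 →
      ∑ e ∈ U, ((lb e).card : ℝ) + g0 o ≤ ∑ v ∈ insert (o, c) (verts U), g0 v.1) :
    ∀ x ∈ st o, node o x ≠ c := by
  classical
  intro x hx hnx
  obtain ⟨n', hn'⟩ : ∃ n' : ℕ, ∀ o, ∀ x ∈ st o, rk o x < n' := by
    refine ⟨max ((st true).sup (rk true)) ((st false).sup (rk false)) + 1, fun o x hx => ?_⟩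
    cases o
    · exact Nat.lt_succ_of_le (le_trans (Finset.le_sup (f := rk false) hx) (le_max_right _ _))
    · exact Nat.lt_succ_of_le (le_trans (Finset.le_sup (f := rk true) hx) (le_max_left _ _))
  have hg2' : ∀ o, g o ≤ g2 o := fun o => by rw [hg2]; linarith [hd.κ_pos]
  obtain ⟨a, ha, -⟩ := line_mem_Fl_seeds hZ hρ hd hg2' hhat hhat' hnofill hH hn' o x hx
  obtain ⟨e, he, h1, h2, -⟩ := mem_seeds.1 (by exact_mod_cast ha)
  rw [hnx] at h1
  have h3 := costly_sum (n' := n') hd hg2 o c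
  have h4 := ex_cov_root hd (n' + 1) o c none hr
  have h5 : (1 : ℝ) ≤ ((E.filter (fun e => nd e o = c ∧
      ¬ ((lb e).card : ℝ) ≤ ex g2 (cov E n' (!o) (nd e (!o)) (some e)) (!o))).card : ℝ) := by
    have : 0 < (E.filter (fun e => nd e o = c ∧
      ¬ ((lb e).card : ℝ) ≤ ex g2 (cov E n' (!o) (nd e (!o)) (some e)) (!o))).card :=
      Finset.card_pos.2 ⟨e, Finset.mem_filter.2 ⟨he, h1, h2⟩⟩
    exact_mod_cast this
  have h6 := hd.κ_pos
  nlinarith

end

end Pool.Agent.MP_e7dab6_pr
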