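import Pool.Agent.Lib.MP_e7dab6_pr.Parts

/-!
# The closed set generated by lines and separated parts
-/

set_option autoImplicit false

namespace Pool.Agent.MP_e7dab6_pr

lemma slide {ρ u : ℕ} (hρ : 1 ≤ ρ) {D : ℤ → Prop} {ε : ℤ} (hε : ε = 1 ∨ ε = -1) (a : ℤ)
    (U : Finset ℤ) (hU : ∀ x ∈ U, D x ∧ 1 ≤ ε * (a - x) ∧ ε * (a - x) ≤ ρ) (hcard : u ≤ U.card)
    (hD : ∀ (b : ℤ) (W : Finset ℤ), (∀ x ∈ W, D x ∧ |x - b| ≤ (ρ : ℤ)) → u ≤ W.card → D b) :
    ∀ j : ℕ, D (a + ε * j) := by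
  classical
  have hε2 : ε * ε = 1 := by rcases hε with rfl | rfl <;> norm_num
  have habs : ∀ y : ℤ, 1 ≤ ε * y → ε * y ≤ ρ → |(-y)| ≤ (ρ : ℤ) := by
    intro y h1 h2
    rw [abs_le]
    rcases hε with rfl | rfl <;> constructor <;> linarith
  have key : ∀ j : ℕ, ∃ W : Finset ℤ, (∀ x ∈ W, D x ∧ 1 ≤ ε * (a + ε * j - x) ∧
      ε * (a + ε * j - x) ≤ ρ) ∧ u ≤ W.card := by
    intro j
    induction j with
    | zero => exact ⟨U, by simpa using hU, hcard⟩
    | succ j ih =>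
      obtain ⟨W, hW, hWc⟩ := ih
      have hDj : D (a + ε * j) := by
        refine hD _ W (fun x hx => ⟨(hW x hx).1, ?_⟩) hWc
        have := habs _ (hW x hx).2.1 (hW x hx).2.2
        rwa [show x - (a + ε * j) = -(a + ε * j - x) by ring]
      refine ⟨insert (a + ε * j) (W.erase (a + ε * j - ε * ρ)), ?_, ?_⟩
      · intro x hx
        rcases Finset.mem_insert.1 hx with rfl | hx
        · refine ⟨hDj, ?_, ?_⟩
          · push_cast
            rw [show ε * (a + ε * (j + 1) - (a + ε * j)) = ε * ε by ring, hε2]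
          · push_cast
            rw [show ε * (a + ε * (j + 1) - (a + ε * j)) = ε * ε by ring, hε2]
            exact_mod_cast hρ
        · have h1 := hW x (Finset.mem_of_mem_erase hx)
          have h2 := Finset.ne_of_mem_erase hx
          have h3 : ε * (a + ε * ((j + 1 : ℕ) : ℤ) - x) = ε * (a + ε * j - x) + 1 := by
            push_cast
            rw [show ε * (a + ε * (j + 1) - x) = ε * (a + ε * j - x) + ε * ε by ring, hε2]
          have h4 : ε * (a + ε * j - x) ≠ ρ := by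
            intro h
            apply h2
            have h5 : ε * ε * (a + ε * j - x) = ε * ρ := by rw [mul_assoc, h]
            rw [hε2] at h5
            linarith
          refine ⟨h1.1, by linarith [h1.2.1], ?_⟩
          rw [h3]
          have := h1.2.2
          omega
      · have hnot : a + ε * j ∉ W.erase (a + ε * j - ε * ρ) := by
          intro h
          have := (hW _ (Finset.mem_of_mem_erase h)).2.1
          rw [sub_self, mul_zero] at this
          omega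
        rw [Finset.card_insert_of_notMem hnot]
        have := Finset.pred_card_le_card_erase (s := W) (a := a + ε * j - ε * ρ)
        omega
  intro j
  obtain ⟨W, hW, hWc⟩ := key j
  refine hD _ W (fun x hx => ⟨(hW x hx).1, ?_⟩) hWc
  have := habs _ (hW x hx).2.1 (hW x hx).2.2
  rwa [show x - (a + ε * j) = -(a + ε * j - x) by ring]

/-- One-sided contributions at a site fill a whole line. -/
lemma slide_line {ρ : ℕ} {Z : Set (ℕ × ℕ)} (hZ : IsLowerSet Z) (hρ : 1 ≤ ρ) {L : Bool → Set ℤ}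
    {F : Set (ℤ × ℤ)} {o : Bool} {a b : ℤ} (U V : Finset ℤ)
    (hU : ∀ x ∈ U, |x - a| ≤ (ρ : ℤ) ∧ Der ρ Z L F (.site (pt o x b)))
    (hside : (∀ x ∈ U, x < a) ∨ (∀ x ∈ U, a < x))
    (hV : ∀ y ∈ V, |y - b| ≤ (ρ : ℤ) ∧ Der ρ Z L F (.line (!o) y))
    (hb : bad Z o U.card V.card) : Der ρ Z L F (.line (!o) b) := by
  have hD : ∀ (c : ℤ) (W : Finset ℤ), (∀ x ∈ W, Der ρ Z L F (.site (pt o x b)) ∧
      |x - c| ≤ (ρ : ℤ)) → U.card ≤ W.card → Der ρ Z L F (.site (pt o c b)) := by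
    intro c W hW hc
    refine .siteStep W V (fun x hx => (hW x hx).2) (fun y hy => (hV y hy).1)
      (fun x hx => (hW x hx).1) (fun y hy => ?_) (hb.mono hZ hc le_rfl)
    have := (hV y hy).2.ofLine (b := c)
    rwa [pt_not] at this
  have hfinish : ∀ c : ℤ, (∀ j : ℕ, j < ρ → Der ρ Z L F (.site (pt o (c + j) b))) →
      U.card ≤ ρ → Der ρ Z L F (.line (!o) b) := by
    intro c hc hcard
    refine .lineStep (b := c) V (fun y hy => (hV y hy).1) (fun y hy => (hV y hy).2) ?_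
      ((bad_not.2 hb).mono hZ le_rfl hcard)
    intro j hj
    rw [pt_not]
    exact hc j hj
  rcases hside with hs | hs
  · have hcard : U.card ≤ ρ := by
      have : U ⊆ Finset.Icc (a - ρ) (a - 1) := by
        intro x hx
        have h1 := (hU x hx).1
        have h2 := hs x hx
        rw [abs_le] at h1
        rw [Finset.mem_Icc]
        omega
      refine (Finset.card_le_card this).trans ?_
      rw [Int.card_Icc]
      omega
    have h := slide (D := fun x => Der ρ Z L F (.site (pt o x b))) hρ (Or.inl rfl) a U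
      (fun x hx => ⟨(hU x hx).2, by have := hs x hx; omega, by
        have h1 := (hU x hx).1
        rw [abs_le] at h1
        omega⟩) le_rfl hD
    refine hfinish a (fun j _ => ?_) hcard
    simpa using h j
  · have hcard : U.card ≤ ρ := by
      have : U ⊆ Finset.Icc (a + 1) (a + ρ) := by
        intro x hx
        have h1 := (hU x hx).1
        have h2 := hs x hx
        rw [abs_le] at h1
        rw [Finset.mem_Icc]
        omega
      refine (Finset.card_le_card this).trans ?_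
      rw [Int.card_Icc]
      omega
    have h := slide (D := fun x => Der ρ Z L F (.site (pt o x b))) hρ (Or.inr rfl) a U
      (fun x hx => ⟨(hU x hx).2, by have := hs x hx; omega, by
        have h1 := (hU x hx).1
        rw [abs_le] at h1
        omega⟩) le_rfl hD
    refine hfinish (a - ρ + 1) (fun j hj => ?_) hcard
    have h2 := h (ρ - 1 - j)
    have h3 : a + -1 * ((ρ - 1 - j : ℕ) : ℤ) = a - ρ + 1 + j := by omega
    rwa [h3] at h2

/-- Coordinates of the sites of `P`. -/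
def cols (o : Bool) (P : Finset (ℤ × ℤ)) : Finset ℤ := P.image (crd o)

lemma mem_cols {o : Bool} {P : Finset (ℤ × ℤ)} {x : ℤ} :
    x ∈ cols o P ↔ ∃ z ∈ P, crd o z = x := by
  simp [cols]

/-- `x` is within `D` of the hull of `P` in direction `o`. -/
def near (D : ℤ) (P : Finset (ℤ × ℤ)) (o : Bool) (x : ℤ) : Prop :=
  (∃ z ∈ P, crd o z - D ≤ x) ∧ ∃ z ∈ P, x ≤ crd o z + D

/-- The line `x` can be derived from the lines `st` and one part. -/
def StepAt (ρ : ℕ) (Z : Set (ℕ × ℕ)) (Pa : Finset (Finset (ℤ × ℤ))) (D Dc : ℤ)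
    (st : Bool → Finset ℤ) (o : Bool) (x : ℤ) : Prop :=
  x ∉ st o ∧ ∃ (A : Bool → Set ℤ) (F : Finset (ℤ × ℤ)), (∀ o', A o' ⊆ (st o' : Set ℤ)) ∧
    Der ρ Z A F (.line o x) ∧
    ((F ∈ Pa ∧ x ∈ Fl (2 * ρ) (A o ∪ (cols o F : Set ℤ)) ∧ near D F o x ∧
        ∀ o', ∀ a ∈ A o', near D F o' a) ∨
      (F = ∅ ∧ (∀ a ∈ A o, |a - x| ≤ Dc) ∧ ∀ b ∈ A (!o), ∀ b' ∈ A (!o), |b - b'| ≤ Dc))

/-- Generalised parts: a part with its coordinates, or a pair of crossing lines. -/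
abbrev GP : Type := Finset (ℤ × ℤ) × (Bool → Finset ℤ)

def IsP (Pa : Finset (Finset (ℤ × ℤ))) (π : GP) : Prop := ∃ P ∈ Pa, π = (P, fun o => cols o P)

def IsX (st : Bool → Finset ℤ) (π : GP) : Prop :=
  ∃ α : Bool → ℤ, (∀ o, α o ∈ st o) ∧ π = (∅, fun o => {α o})

/-- The zone of a generalised part. -/
def Gz (ρ : ℕ) (st : Bool → Finset ℤ) (π : GP) (o : Bool) : Set ℤ :=
  Gs (2 * ρ) (st o : Set ℤ) (π.2 o : Set ℤ)

/-- The lines in the zone of a generalised part. -/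
def Lz (ρ : ℕ) (st : Bool → Finset ℤ) (π : GP) (o : Bool) : Set ℤ := (st o : Set ℤ) ∩ Gz ρ st π o

/-- The closed set generated by the lines and the parts. -/
def QQ (ρ : ℕ) (Z : Set (ℕ × ℕ)) (Pa : Finset (Finset (ℤ × ℤ))) (st : Bool → Finset ℤ) :
    Set (ℤ × ℤ) :=
  {z | (∃ o, crd o z ∈ st o) ∨ ∃ π : GP, (IsP Pa π ∨ IsX st π) ∧ (∀ o, crd o z ∈ Gz ρ st π o) ∧
    Der ρ Z (Lz ρ st π) π.1 (.site z)}

section
variable {ρ : ℕ} {Z : Set (ℕ × ℕ)} {Pa : Finset (Finset (ℤ × ℤ))} {st : Bool → Finset ℤ}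
  {D Dc R : ℤ} {m : ℕ}

lemma der_dom {π π' : GP} (h : ∀ o, Gz ρ st π' o ⊆ Gz ρ st π o) (h' : π'.1 ⊆ π.1) {i : Item}
    (hd : Der ρ Z (Lz ρ st π') π'.1 i) : Der ρ Z (Lz ρ st π) π.1 i :=
  hd.mono (by exact_mod_cast h') (fun o _ hx => ⟨hx.1, h o hx.2⟩)

/-- Domination of a nearby generalised part. -/
lemma dom (hcomp : ∀ o, CompLe Dc (st o) m) (hDc : 2 * (ρ : ℤ) ≤ Dc)
    (hR : 2 * (2 * (ρ : ℤ) * m) + 2 * ρ ≤ R)
    (hsep : ∀ P ∈ Pa, ∀ P' ∈ Pa, P ≠ P' → Sep R P P') {π π' : GP}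
    (hπ : IsP Pa π ∨ IsX st π) (hπ' : IsP Pa π' ∨ IsX st π') (hpri : IsP Pa π ∨ IsX st π')
    {z : ℤ × ℤ} (hn : ∀ o, ∃ x ∈ Gz ρ st π o, |x - crd o z| ≤ (ρ : ℤ))
    (hn' : ∀ o, ∃ x ∈ Gz ρ st π' o, |x - crd o z| ≤ (ρ : ℤ)) :
    (∀ o, Gz ρ st π' o ⊆ Gz ρ st π o) ∧ π'.1 ⊆ π.1 := by
  rcases hπ' with hP' | hX'
  · rcases hpri with hP | hX
    · obtain ⟨P, hP, rfl⟩ := hP
      obtain ⟨P', hP', rfl⟩ := hP'
      have heq : P = P' := by
        by_contra hne
        obtain ⟨o, ho⟩ := hsep P hP P' hP' hne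
        obtain ⟨x, hx, h1⟩ := hn o
        obtain ⟨x', hx', h2⟩ := hn' o
        obtain ⟨c, hc, c', hc', h3, h4⟩ := Gs_bound (by positivity) hDc (hcomp o) hx
        obtain ⟨e, he, e', he', h5, h6⟩ := Gs_bound (by positivity) hDc (hcomp o) hx'
        simp only at hc hc' he he'
        rw [mem_cols] at hc hc' he he'
        obtain ⟨z1, hz1, rfl⟩ := hc
        obtain ⟨z2, hz2, rfl⟩ := hc'
        obtain ⟨z3, hz3, rfl⟩ := he
        obtain ⟨z4, hz4, rfl⟩ := he'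
        rw [abs_le] at h1 h2
        rcases ho with ho | ho
        · have := ho z2 hz2 z3 hz3
          linarith
        · have := ho z1 hz1 z4 hz4
          linarith
      subst heq
      exact ⟨fun _ => subset_rfl, subset_rfl⟩
    · obtain ⟨α, hα, rfl⟩ := hX
      refine ⟨fun o => ?_, Finset.empty_subset _⟩
      obtain ⟨x, hx, h1⟩ := hn o
      obtain ⟨x', hx', h2⟩ := hn' o
      simp only [Gz, Finset.coe_singleton] at hx' ⊢
      refine Gs_sub (by exact_mod_cast hα o) hx' hx ?_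
      rw [abs_le] at *
      constructor <;> linarith
  · obtain ⟨α, hα, rfl⟩ := hX'
    refine ⟨fun o => ?_, Finset.empty_subset _⟩
    obtain ⟨x, hx, h1⟩ := hn o
    obtain ⟨x', hx', h2⟩ := hn' o
    simp only [Gz, Finset.coe_singleton] at hx' ⊢
    refine Gs_sub (by exact_mod_cast hα o) hx' hx ?_
    rw [abs_le] at *
    constructor <;> linarith

/-- A line of the zone which is derivable gives a step. -/
lemma step_of_zone (hcomp : ∀ o, CompLe Dc (st o) m) (hDc : 2 * (ρ : ℤ) ≤ Dc)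
    (hD : 2 * (ρ : ℤ) * m ≤ D) (hDc' : 2 * (2 * (ρ : ℤ) * m) ≤ Dc) {π : GP}
    (hπ : IsP Pa π ∨ IsX st π) {o : Bool} {x : ℤ} (hx : x ∉ st o) (hG : x ∈ Gz ρ st π o)
    (hder : Der ρ Z (Lz ρ st π) π.1 (.line o x)) : StepAt ρ Z Pa D Dc st o x := by
  refine ⟨hx, Lz ρ st π, π.1, fun o' => Set.inter_subset_left, hder, ?_⟩
  rcases hπ with ⟨P, hP, rfl⟩ | ⟨α, hα, rfl⟩
  · left
    have hnear : ∀ o', ∀ y ∈ Gz ρ st (P, fun o => cols o P) o', near D P o' y := by
      intro o' y hy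
      obtain ⟨c, hc, c', hc', h3, h4⟩ := Gs_bound (by positivity) hDc (hcomp o') hy
      simp only at hc hc'
      rw [mem_cols] at hc hc'
      obtain ⟨z1, hz1, rfl⟩ := hc
      obtain ⟨z2, hz2, rfl⟩ := hc'
      exact ⟨⟨z1, hz1, by linarith⟩, ⟨z2, hz2, by linarith⟩⟩
    exact ⟨hP, Gs_gap (by positivity) hG, hnear o x hG, fun o' a ha => hnear o' a ha.2⟩
  · right
    have hnear : ∀ o', ∀ y ∈ Gz ρ st (∅, fun o => {α o}) o', |y - α o'| ≤ 2 * (ρ : ℤ) * m := by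
      intro o' y hy
      obtain ⟨c, hc, c', hc', h3, h4⟩ := Gs_bound (by positivity) hDc (hcomp o') hy
      simp only at hc hc'
      rw [Finset.mem_singleton] at hc hc'
      subst hc hc'
      rw [abs_le]
      constructor <;> linarith
    refine ⟨rfl, ?_, ?_⟩
    · intro a ha
      have h1 := hnear o a ha.2
      have h2 := hnear o x hG
      rw [abs_le] at *
      constructor <;> linarith
    · intro b hb b' hb'
      have h1 := hnear (!o) b hb.2
      have h2 := hnear (!o) b' hb'.2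
      rw [abs_le] at *
      constructor <;> linarith

/-- The main case of closedness: some generalised part contributes in direction `o`. -/
lemma closed_core (hZ : IsLowerSet Z) (hρ : 1 ≤ ρ) (hcomp : ∀ o, CompLe Dc (st o) m)
    (hDc : 2 * (ρ : ℤ) ≤ Dc) (hD : 2 * (ρ : ℤ) * m ≤ D) (hDc' : 2 * (2 * (ρ : ℤ) * m) ≤ Dc)
    (hR : 2 * (2 * (ρ : ℤ) * m) + 2 * ρ ≤ R)
    (hsep : ∀ P ∈ Pa, ∀ P' ∈ Pa, P ≠ P' → Sep R P P')
    (hno : ∀ o x, ¬ StepAt ρ Z Pa D Dc st o x) {o : Bool} {a b : ℤ} {U V : Finset ℤ}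
    (hU : ∀ a' ∈ U, |a' - a| ≤ (ρ : ℤ) ∧ pt o a' b ∈ QQ ρ Z Pa st)
    (hV : ∀ b' ∈ V, |b' - b| ≤ (ρ : ℤ) ∧ pt o a b' ∈ QQ ρ Z Pa st)
    (hb : bad Z o U.card V.card) {π : GP} (hπ : IsP Pa π ∨ IsX st π)
    (hpri : IsP Pa π ∨ (∀ a' ∈ U, ∀ π', IsP Pa π' → a' ∈ Gz ρ st π' o → b ∈ Gz ρ st π' (!o) →
      ¬ Der ρ Z (Lz ρ st π') π'.1 (.site (pt o a' b))) ∧
      (∀ b' ∈ V, ∀ π', IsP Pa π' → a ∈ Gz ρ st π' o → b' ∈ Gz ρ st π' (!o) →
      ¬ Der ρ Z (Lz ρ st π') π'.1 (.site (pt o a b'))))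
    {a0 : ℤ} (ha0 : a0 ∈ U) (ha0G : a0 ∈ Gz ρ st π o) (hbG : b ∈ Gz ρ st π (!o)) :
    pt o a b ∈ QQ ρ Z Pa st := by
  by_contra hz
  have hast : a ∉ st o := fun h => hz (Or.inl ⟨o, by simpa using h⟩)
  have hbst : b ∉ st (!o) := fun h => hz (Or.inl ⟨!o, by simpa using h⟩)
  have hnear : ∀ o', ∃ x ∈ Gz ρ st π o', |x - crd o' (pt o a b)| ≤ (ρ : ℤ) := by
    intro o'
    rcases Bool.eq_or_eq_not o' o with rfl | rfl
    · exact ⟨a0, ha0G, by simpa using (hU a0 ha0).1⟩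
    · exact ⟨b, hbG, by simp⟩
  have hd0 : (0 : ℤ) ≤ 2 * ρ := by positivity
  -- contributions in direction `o`
  have hUd : ∀ a' ∈ U, a' ∈ Gz ρ st π o ∧ Der ρ Z (Lz ρ st π) π.1 (.site (pt o a' b)) := by
    intro a' ha'
    obtain ⟨h1, h2⟩ := hU a' ha'
    rcases h2 with ⟨o', ho'⟩ | ⟨π', hπ', hG', hd'⟩
    · rcases Bool.eq_or_eq_not o' o with rfl | rfl
      · rw [crd_pt] at ho'
        have h3 : a' ∈ Gz ρ st π o' := by
          refine Gs_near hd0 ha0G (Or.inl (by exact_mod_cast ho')) ?_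
          have h4 := (hU a0 ha0).1
          rw [abs_le] at *
          constructor <;> linarith
        exact ⟨h3, (Der.baseLine (show a' ∈ Lz ρ st π o' from ⟨by exact_mod_cast ho', h3⟩)).ofLine⟩
      · rw [crd_not_pt] at ho'
        exact absurd ho' hbst
    · have hGo := hG' o
      have hGn := hG' (!o)
      rw [crd_pt] at hGo
      rw [crd_not_pt] at hGn
      have hpri' : IsP Pa π ∨ IsX st π' := by
        rcases hpri with h | ⟨h, -⟩
        · exact Or.inl h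
        · rcases hπ' with hP' | hX'
          · exact absurd hd' (h a' ha' π' hP' hGo hGn)
          · exact Or.inr hX'
      obtain ⟨hd1, hd2⟩ := dom hcomp hDc hR hsep hπ hπ' hpri' (z := pt o a b) hnear (by
        intro o'
        rcases Bool.eq_or_eq_not o' o with rfl | rfl
        · exact ⟨a', hGo, by simpa using h1⟩
        · exact ⟨b, hGn, by simp⟩)
      exact ⟨hd1 o hGo, der_dom hd1 hd2 hd'⟩
  -- contributions in the other direction
  have hVd : ∀ b' ∈ V, (b' ∈ st (!o) ∧ b' ∈ Gz ρ st π (!o)) ∨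
      (a ∈ Gz ρ st π o ∧ Der ρ Z (Lz ρ st π) π.1 (.site (pt o a b'))) := by
    intro b' hb'
    obtain ⟨h1, h2⟩ := hV b' hb'
    rcases h2 with ⟨o', ho'⟩ | ⟨π', hπ', hG', hd'⟩
    · rcases Bool.eq_or_eq_not o' o with rfl | rfl
      · rw [crd_pt] at ho'
        exact absurd ho' hast
      · rw [crd_not_pt] at ho'
        left
        refine ⟨ho', Gs_near hd0 hbG (Or.inl (by exact_mod_cast ho')) ?_⟩
        rw [abs_le] at *
        constructor <;> linarith
    · have hGo := hG' o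
      have hGn := hG' (!o)
      rw [crd_pt] at hGo
      rw [crd_not_pt] at hGn
      have hpri' : IsP Pa π ∨ IsX st π' := by
        rcases hpri with h | ⟨-, h⟩
        · exact Or.inl h
        · rcases hπ' with hP' | hX'
          · exact absurd hd' (h b' hb' π' hP' hGo hGn)
          · exact Or.inr hX'
      obtain ⟨hd1, hd2⟩ := dom hcomp hDc hR hsep hπ hπ' hpri' (z := pt o a b) hnear (by
        intro o'
        rcases Bool.eq_or_eq_not o' o with rfl | rfl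
        · exact ⟨a, hGo, by simp⟩
        · exact ⟨b', hGn, by simpa using h1⟩)
      exact Or.inr ⟨hd1 o hGo, der_dom hd1 hd2 hd'⟩
  have hVline : ∀ b' ∈ V, (b' ∈ st (!o) ∧ b' ∈ Gz ρ st π (!o)) →
      Der ρ Z (Lz ρ st π) π.1 (.line (!o) b') := by
    intro b' _ h
    exact .baseLine (show b' ∈ Lz ρ st π (!o) from ⟨by exact_mod_cast h.1, h.2⟩)
  by_cases haG : a ∈ Gz ρ st π o
  · apply hz
    refine Or.inr ⟨π, hπ, ?_, ?_⟩
    · intro o'
      rcases Bool.eq_or_eq_not o' o with rfl | rfl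
      · simpa using haG
      · simpa using hbG
    · refine .siteStep U V (fun x hx => (hU x hx).1) (fun x hx => (hV x hx).1)
        (fun x hx => (hUd x hx).2) (fun x hx => ?_) hb
      rcases hVd x hx with h | h
      · have := (hVline x hx h).ofLine (b := a)
        rwa [pt_not] at this
      · exact h.2
  · have hside : (∀ x ∈ U, x < a) ∨ (∀ x ∈ U, a < x) := by
      by_contra hcon
      push Not at hcon
      obtain ⟨⟨x, hx, hxa⟩, ⟨y, hy, hya⟩⟩ := hcon
      have h1 := (hU x hx).1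
      have h2 := (hU y hy).1
      rw [abs_le] at h1 h2
      exact haG (Gs_conv hd0 (hUd y hy).1 (hUd x hx).1 hya hxa (by linarith))
    have hder := slide_line hZ hρ (L := Lz ρ st π) (F := (π.1 : Set (ℤ × ℤ))) (o := o) (a := a)
      (b := b) U V (fun x hx => ⟨(hU x hx).1, (hUd x hx).2⟩) hside (fun y hy => by
        refine ⟨(hV y hy).1, ?_⟩
        rcases hVd y hy with h | h
        · exact hVline y hy h
        · exact absurd h.1 haG) hb
    exact hno (!o) b (step_of_zone hcomp hDc hD hDc' hπ hbst hbG hder)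

/-- If no line can be derived, the set is closed. -/
theorem closed_QQ (hZ : IsLowerSet Z) (hρ : 1 ≤ ρ) (hcomp : ∀ o, CompLe Dc (st o) m)
    (hDc : 2 * (ρ : ℤ) ≤ Dc) (hD : 2 * (ρ : ℤ) * m ≤ D) (hDc' : 2 * (2 * (ρ : ℤ) * m) ≤ Dc)
    (hR : 2 * (2 * (ρ : ℤ) * m) + 2 * ρ ≤ R)
    (hsep : ∀ P ∈ Pa, ∀ P' ∈ Pa, P ≠ P' → Sep R P P')
    (hno : ∀ o x, ¬ StepAt ρ Z Pa D Dc st o x) : Closed ρ Z (QQ ρ Z Pa st) := by
  intro o a b U V hU hV hb
  by_contra hz
  have hast : a ∉ st o := fun h => hz (Or.inl ⟨o, by simpa using h⟩)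
  have hbst : b ∉ st (!o) := fun h => hz (Or.inl ⟨!o, by simpa using h⟩)
  -- the swapped data
  have hU' : ∀ b' ∈ V, |b' - b| ≤ (ρ : ℤ) ∧ pt (!o) b' a ∈ QQ ρ Z Pa st := by
    intro b' hb'
    rw [pt_not]
    exact hV b' hb'
  have hV' : ∀ a' ∈ U, |a' - a| ≤ (ρ : ℤ) ∧ pt (!o) b a' ∈ QQ ρ Z Pa st := by
    intro a' ha'
    rw [pt_not]
    exact hU a' ha'
  have hz' : pt (!o) b a ∉ QQ ρ Z Pa st := by rwa [pt_not]
  have core := @closed_core ρ Z Pa st D Dc R m hZ hρ hcomp hDc hD hDc' hR hsep hno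
  by_cases hP : (∃ a' ∈ U, ∃ π', IsP Pa π' ∧ a' ∈ Gz ρ st π' o ∧ b ∈ Gz ρ st π' (!o) ∧
      Der ρ Z (Lz ρ st π') π'.1 (.site (pt o a' b)))
  · obtain ⟨a', ha', π', h1, h2, h3, -⟩ := hP
    exact hz (core hU hV hb (Or.inl h1) (Or.inl h1) ha' h2 h3)
  by_cases hP' : (∃ b' ∈ V, ∃ π', IsP Pa π' ∧ a ∈ Gz ρ st π' o ∧ b' ∈ Gz ρ st π' (!o) ∧
      Der ρ Z (Lz ρ st π') π'.1 (.site (pt o a b')))
  · obtain ⟨b', hb', π', h1, h2, h3, -⟩ := hP'
    exact hz' (core hU' hV' (bad_not.2 hb) (Or.inl h1) (Or.inl h1) hb' h3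
      (by rwa [Bool.not_not]))
  push Not at hP hP'
  by_cases hX : (∃ a' ∈ U, ∃ π', IsX st π' ∧ a' ∈ Gz ρ st π' o ∧ b ∈ Gz ρ st π' (!o) ∧
      Der ρ Z (Lz ρ st π') π'.1 (.site (pt o a' b)))
  · obtain ⟨a', ha', π', h1, h2, h3, -⟩ := hX
    exact hz (core hU hV hb (Or.inr h1) (Or.inr ⟨hP, hP'⟩) ha' h2 h3)
  by_cases hX' : (∃ b' ∈ V, ∃ π', IsX st π' ∧ a ∈ Gz ρ st π' o ∧ b' ∈ Gz ρ st π' (!o) ∧
      Der ρ Z (Lz ρ st π') π'.1 (.site (pt o a b')))
  · obtain ⟨b', hb', π', h1, h2, h3, -⟩ := hX'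
    refine hz' (core hU' hV' (bad_not.2 hb) (Or.inr h1) (Or.inr ⟨?_, ?_⟩) hb' h3
      (by rwa [Bool.not_not]))
    · intro b'' hb'' π'' g1 g2 g3
      rw [Bool.not_not] at g3
      rw [pt_not]
      exact hP' b'' hb'' π'' g1 g3 g2
    · intro a'' ha'' π'' g1 g2 g3
      rw [Bool.not_not] at g3
      rw [pt_not]
      exact hP a'' ha'' π'' g1 g3 g2
  push Not at hX hX'
  -- only lines contribute
  have hUst : ∀ a' ∈ U, a' ∈ st o := by
    intro a' ha'
    rcases (hU a' ha').2 with ⟨o', ho'⟩ | ⟨π', hπ', hG', hd'⟩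
    · rcases Bool.eq_or_eq_not o' o with rfl | rfl
      · simpa using ho'
      · rw [crd_not_pt] at ho'
        exact absurd ho' hbst
    · exfalso
      have hGo := hG' o
      have hGn := hG' (!o)
      rw [crd_pt] at hGo
      rw [crd_not_pt] at hGn
      rcases hπ' with h | h
      · exact hP a' ha' π' h hGo hGn hd'
      · exact hX a' ha' π' h hGo hGn hd'
  have hVst : ∀ b' ∈ V, b' ∈ st (!o) := by
    intro b' hb'
    rcases (hV b' hb').2 with ⟨o', ho'⟩ | ⟨π', hπ', hG', hd'⟩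
    · rcases Bool.eq_or_eq_not o' o with rfl | rfl
      · rw [crd_pt] at ho'
        exact absurd ho' hast
      · simpa using ho'
    · exfalso
      have hGo := hG' o
      have hGn := hG' (!o)
      rw [crd_pt] at hGo
      rw [crd_not_pt] at hGn
      rcases hπ' with h | h
      · exact hP' b' hb' π' h hGo hGn hd'
      · exact hX' b' hb' π' h hGo hGn hd'
  have hneo : (!o) ≠ o := by cases o <;> simp
  -- derivation of a line from one-sided contributions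
  have honeside : ∀ (o : Bool) (a b : ℤ) (U V : Finset ℤ), b ∉ st (!o) →
      (∀ x ∈ U, |x - a| ≤ (ρ : ℤ) ∧ x ∈ st o) → (∀ y ∈ V, |y - b| ≤ (ρ : ℤ) ∧ y ∈ st (!o)) →
      bad Z o U.card V.card → ((∀ x ∈ U, x < a) ∨ (∀ x ∈ U, a < x)) → False := by
    intro o a b U V hbst hU hV hb hside
    have hneo : o ≠ !o := by cases o <;> simp
    set A : Bool → Set ℤ := fun o' => if o' = o then (U : Set ℤ) else (V : Set ℤ) with hA
    have hAo : A o = (U : Set ℤ) := by simp [hA]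
    have hAn : A (!o) = (V : Set ℤ) := by simp [hA]
    have hder : Der ρ Z A ((∅ : Finset (ℤ × ℤ)) : Set (ℤ × ℤ)) (.line (!o) b) := by
      refine slide_line hZ hρ (o := o) (a := a) (b := b) U V (fun x hx => ⟨(hU x hx).1, ?_⟩)
        hside (fun y hy => ⟨(hV y hy).1, ?_⟩) hb
      · exact (Der.baseLine (show x ∈ A o by rw [hAo]; exact_mod_cast hx)).ofLine
      · exact Der.baseLine (show y ∈ A (!o) by rw [hAn]; exact_mod_cast hy)
    refine hno (!o) b ⟨hbst, A, ∅, ?_, hder, Or.inr ⟨rfl, ?_, ?_⟩⟩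
    · intro o'
      rcases Bool.eq_or_eq_not o' o with rfl | rfl
      · rw [hAo]
        intro x hx
        exact_mod_cast (hU x (by exact_mod_cast hx)).2
      · rw [hAn]
        intro x hx
        exact_mod_cast (hV x (by exact_mod_cast hx)).2
    · intro y hy
      rw [hAn] at hy
      have := (hV y (by exact_mod_cast hy)).1
      linarith
    · intro x hx x' hx'
      rw [Bool.not_not, hAo] at hx hx'
      have h1 := (hU x (by exact_mod_cast hx)).1
      have h2 := (hU x' (by exact_mod_cast hx')).1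
      rw [abs_le] at *
      constructor <;> linarith
  have hUU : ∀ x ∈ U, |x - a| ≤ (ρ : ℤ) ∧ x ∈ st o := fun x hx => ⟨(hU x hx).1, hUst x hx⟩
  have hVV : ∀ y ∈ V, |y - b| ≤ (ρ : ℤ) ∧ y ∈ st (!o) := fun y hy => ⟨(hV y hy).1, hVst y hy⟩
  by_cases hsU : (∀ x ∈ U, x < a) ∨ (∀ x ∈ U, a < x)
  · exact honeside o a b U V hbst hUU hVV hb hsU
  by_cases hsV : (∀ x ∈ V, x < b) ∨ (∀ x ∈ V, b < x)
  · exact honeside (!o) b a V U (by rwa [Bool.not_not]) hVV (by rwa [Bool.not_not])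
      (bad_not.2 hb) hsV
  push Not at hsU hsV
  obtain ⟨⟨x, hx, hxa⟩, ⟨x', hx', hxa'⟩⟩ := hsU
  obtain ⟨⟨y, hy, hyb⟩, ⟨y', hy', hyb'⟩⟩ := hsV
  apply hz
  have hd0 : (0 : ℤ) ≤ 2 * ρ := by positivity
  have hG : ∀ (A : Finset ℤ) (c x x' : ℤ) (W : Finset ℤ), x ∈ W → x' ∈ W →
      (∀ w ∈ W, |w - c| ≤ (ρ : ℤ) ∧ w ∈ A) → c ≤ x → x' ≤ c →
      c ∈ Gs (2 * ρ) (A : Set ℤ) (({x} : Finset ℤ) : Set ℤ) ∧
      ∀ w ∈ W, w ∈ Gs (2 * ρ) (A : Set ℤ) (({x} : Finset ℤ) : Set ℤ) := by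
    intro A c x x' W hx hx' hW h1 h2
    have hxA : x ∈ (A : Set ℤ) := by exact_mod_cast (hW x hx).2
    have hmem : ∀ w ∈ W, w ∈ Gs (2 * ρ) (A : Set ℤ) (({x} : Finset ℤ) : Set ℤ) := by
      intro w hw
      have hwA : w ∈ (A : Set ℤ) := by exact_mod_cast (hW w hw).2
      refine Gs_of_conn hd0 (Or.inl hwA) (by simp) (conn_of_near (Or.inl hwA) (Or.inl hxA) ?_)
      have h3 := (hW w hw).1
      have h4 := (hW x hx).1
      rw [abs_le] at *
      constructor <;> linarith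
    refine ⟨?_, hmem⟩
    refine Gs_conv hd0 (hmem x' hx') (hmem x hx) h2 h1 ?_
    have h3 := (hW x' hx').1
    have h4 := (hW x hx).1
    rw [abs_le] at h3 h4
    linarith
  obtain ⟨g1, g2⟩ := hG (st o) a x x' U hx hx' hUU hxa hxa'
  obtain ⟨g3, g4⟩ := hG (st (!o)) b y y' V hy hy' hVV hyb hyb'
  set π : GP := (∅, fun o' => {if o' = o then x else y}) with hπ
  have hGo : Gz ρ st π o = Gs (2 * ρ) (st o : Set ℤ) (({x} : Finset ℤ) : Set ℤ) := by
    simp [Gz, hπ]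
  have hGn : Gz ρ st π (!o) = Gs (2 * ρ) (st (!o) : Set ℤ) (({y} : Finset ℤ) : Set ℤ) := by
    simp [Gz, hπ]
  refine Or.inr ⟨π, Or.inr ⟨fun o' => if o' = o then x else y, ?_, rfl⟩, ?_, ?_⟩
  · intro o'
    rcases Bool.eq_or_eq_not o' o with rfl | rfl
    · simpa using hUst x hx
    · simpa using hVst y hy
  · intro o'
    rcases Bool.eq_or_eq_not o' o with rfl | rfl
    · rw [crd_pt, hGo]; exact g1
    · rw [crd_not_pt, hGn]; exact g3
  · refine .siteStep U V (fun x hx => (hU x hx).1) (fun x hx => (hV x hx).1) (fun w hw => ?_)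
      (fun w hw => ?_) hb
    · refine (Der.baseLine (show w ∈ Lz ρ st π o from ⟨?_, ?_⟩)).ofLine
      · exact_mod_cast hUst w hw
      · rw [hGo]; exact g2 w hw
    · have := (Der.baseLine (ρ := ρ) (Z := Z) (F := (π.1 : Set (ℤ × ℤ)))
        (show w ∈ Lz ρ st π (!o) from ⟨by exact_mod_cast hVst w hw,
          by rw [hGn]; exact g4 w hw⟩)).ofLine (b := a)
      rwa [pt_not] at this

end

end Pool.Agent.MP_e7dab6_pr
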