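import Pool.Agent.Lib.MP_e7dab6_pr.Bound

/-!
# Chains of integers and the zone of influence of a part
-/

set_option autoImplicit false

namespace Pool.Agent.MP_e7dab6_pr

/-- `a` and `a'` are joined by a chain in `A` with steps at most `d`. -/
def conn (d : ℤ) (A : Set ℤ) (a a' : ℤ) : Prop :=
  ∀ t, min a a' ≤ t → t < max a a' → ∃ e ∈ A, t < e ∧ e ≤ t + d

lemma conn_refl (d : ℤ) (A : Set ℤ) (a : ℤ) : conn d A a a := by
  intro t h1 h2
  simp only [min_self, max_self] at h1 h2
  omega

lemma conn_symm {d : ℤ} {A : Set ℤ} {a a' : ℤ} (h : conn d A a a') : conn d A a' a := by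
  intro t h1 h2
  exact h t (by rwa [min_comm]) (by rwa [max_comm])

lemma conn_trans {d : ℤ} {A : Set ℤ} {a b c : ℤ} (h : conn d A a b) (h' : conn d A b c) :
    conn d A a c := by
  intro t h1 h2
  rcases le_or_gt b t with hb | hb
  · rcases lt_or_ge t a with ha | ha
    · exact h t (by omega) (by omega)
    · exact h' t (by omega) (by omega)
  · rcases le_or_gt a t with ha | ha
    · exact h t (by omega) (by omega)
    · exact h' t (by omega) (by omega)

lemma conn_mono {d d' : ℤ} {A A' : Set ℤ} {a b : ℤ} (hd : d ≤ d') (hA : A ⊆ A')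
    (h : conn d A a b) : conn d' A' a b := by
  intro t h1 h2
  obtain ⟨e, he, h3, h4⟩ := h t h1 h2
  exact ⟨e, hA he, h3, by omega⟩

lemma conn_of_near {d : ℤ} {A : Set ℤ} {a a' : ℤ} (ha : a ∈ A) (ha' : a' ∈ A)
    (h : |a - a'| ≤ d) : conn d A a a' := by
  rw [abs_le] at h
  intro t h1 h2
  rcases le_total a a' with hle | hle
  · exact ⟨a', ha', by omega, by omega⟩
  · exact ⟨a, ha, by omega, by omega⟩

lemma conn_between {d : ℤ} {A : Set ℤ} {a b c : ℤ} (h : conn d A a c) (h1 : a ≤ b) (h2 : b ≤ c) :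
    conn d A a b := by
  intro t h3 h4
  exact h t (by omega) (by omega)

/-- Two short intervals with end points in `E` and at distance at most `d` are joined. -/
lemma conn_link {d : ℤ} {E : Set ℤ} {a a' e e' x g : ℤ} (_ha : a ∈ E) (ha' : a' ∈ E)
    (he : e ∈ E) (he' : e' ∈ E) (h1 : a ≤ x) (h2 : x ≤ a') (h3 : a' - a ≤ d) (h4 : e ≤ g)
    (h5 : g ≤ e') (h6 : e' - e ≤ d) (h7 : |x - g| ≤ d) : conn d E a e := by
  rw [abs_le] at h7
  intro t ht1 ht2
  rcases le_total a e with hle | hle
  · by_cases hta : t < a'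
    · exact ⟨a', ha', hta, by omega⟩
    · exact ⟨e, he, by omega, by omega⟩
  · by_cases hte : t < e'
    · exact ⟨e', he', hte, by omega⟩
    · exact ⟨a, _ha, by omega, by omega⟩

/-- Counting the elements of a chain. -/
lemma span_right {d : ℤ} (hd : 0 ≤ d) {A : Finset ℤ} {a' : ℤ} (ha' : a' ∈ A) :
    ∀ (n : ℕ) (s : ℤ), (a' - s).toNat ≤ n → s ≤ a' →
      (∀ t, s ≤ t → t < a' → ∃ e ∈ A, t < e ∧ e ≤ t + d) →
      a' - s ≤ d * ((A.filter (fun b => s < b ∧ b ≤ a')).card : ℤ) := by
  classical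
  intro n
  induction n with
  | zero =>
    intro s h1 h2 _
    have : a' - s = 0 := by omega
    rw [this]
    positivity
  | succ n ih =>
    intro s h1 h2 h
    rcases eq_or_lt_of_le h2 with rfl | hlt
    · rw [sub_self]
      positivity
    obtain ⟨e, he, h3, h4⟩ := h s le_rfl hlt
    by_cases hcase : a' ≤ s + d
    · have hc : 1 ≤ (A.filter (fun b => s < b ∧ b ≤ a')).card :=
        Finset.card_pos.2 ⟨a', Finset.mem_filter.2 ⟨ha', hlt, le_rfl⟩⟩
      have hc' : (1 : ℤ) ≤ ((A.filter (fun b => s < b ∧ b ≤ a')).card : ℤ) := by exact_mod_cast hc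
      nlinarith
    · have hea : e < a' := by omega
      have h5 := ih e (by omega) hea.le (fun t ht1 ht2 => h t (by omega) ht2)
      have hsub : insert e (A.filter (fun b => e < b ∧ b ≤ a')) ⊆
          A.filter (fun b => s < b ∧ b ≤ a') := by
        intro b hb
        rw [Finset.mem_insert, Finset.mem_filter] at hb
        rw [Finset.mem_filter]
        rcases hb with rfl | ⟨hb1, hb2, hb3⟩
        · exact ⟨he, h3, hea.le⟩
        · exact ⟨hb1, by omega, hb3⟩
      have hcard := Finset.card_le_card hsub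
      rw [Finset.card_insert_of_notMem (by simp)] at hcard
      have hcard' : ((A.filter (fun b => e < b ∧ b ≤ a')).card : ℤ) + 1 ≤
          ((A.filter (fun b => s < b ∧ b ≤ a')).card : ℤ) := by exact_mod_cast hcard
      nlinarith

/-- The component of `a` in `A` at scale `d`. -/
noncomputable def comp (d : ℤ) (A : Finset ℤ) (a : ℤ) : Finset ℤ := by
  classical
  exact A.filter (fun b => conn d A a b)

lemma mem_comp {d : ℤ} {A : Finset ℤ} {a b : ℤ} : b ∈ comp d A a ↔ b ∈ A ∧ conn d A a b := by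
  classical
  unfold comp
  rw [Finset.mem_filter]

/-- All components have at most `m` elements. -/
def CompLe (d : ℤ) (A : Finset ℤ) (m : ℕ) : Prop := ∀ a ∈ A, (comp d A a).card ≤ m

lemma CompLe.subset {d : ℤ} {A A' : Finset ℤ} {m : ℕ} (h : CompLe d A m) (hs : A' ⊆ A) :
    CompLe d A' m := by
  intro a ha
  refine (Finset.card_le_card ?_).trans (h a (hs ha))
  intro b hb
  rw [mem_comp] at hb ⊢
  exact ⟨hs hb.1, conn_mono le_rfl (by exact_mod_cast hs) hb.2⟩

lemma CompLe.mono {d : ℤ} {A : Finset ℤ} {m m' : ℕ} (h : CompLe d A m) (hm : m ≤ m') :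
    CompLe d A m' := fun a ha => (h a ha).trans hm

/-- Diameter of a component. -/
lemma CompLe.diam {d : ℤ} (hd : 0 ≤ d) {A : Finset ℤ} {m : ℕ} (h : CompLe d A m) {a a' : ℤ}
    (ha : a ∈ A) (ha' : a' ∈ A) (hc : conn d A a a') : |a - a'| ≤ d * m := by
  classical
  have key : ∀ a a' : ℤ, a ∈ A → a' ∈ A → conn d A a a' → a ≤ a' → a' - a ≤ d * m := by
    intro a a' ha ha' hc hle
    have h1 := span_right hd ha' (a' - a).toNat a le_rfl hle
      (fun t ht1 ht2 => by
        obtain ⟨e, he, h3, h4⟩ := hc t (by omega) (by omega)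
        exact ⟨e, by exact_mod_cast he, h3, h4⟩)
    have h2 : (A.filter (fun b => a < b ∧ b ≤ a')).card ≤ (comp d A a).card := by
      apply Finset.card_le_card
      intro b hb
      rw [Finset.mem_filter] at hb
      rw [mem_comp]
      exact ⟨hb.1, conn_between hc hb.2.1.le hb.2.2⟩
    have h3 : ((A.filter (fun b => a < b ∧ b ≤ a')).card : ℤ) ≤ m := by
      exact_mod_cast h2.trans (h a ha)
    nlinarith
  rcases le_total a a' with hle | hle
  · have := key a a' ha ha' hc hle
    rw [abs_le]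
    constructor <;> linarith
  · have := key a' a ha' ha (conn_symm hc) hle
    rw [abs_le]
    constructor <;> linarith

lemma CompLe.add_elem {d : ℤ} {A : Finset ℤ} {m : ℕ} (h : CompLe d A m) (x : ℤ) :
    CompLe d (insert x A) (2 * m + 1) := by
  classical
  intro a _
  have hsplit : comp d (insert x A) a ⊆ insert x
      ((comp d (insert x A) a).filter (fun b => b < x) ∪
        (comp d (insert x A) a).filter (fun b => x < b)) := by
    intro b hb
    rw [Finset.mem_insert, Finset.mem_union, Finset.mem_filter, Finset.mem_filter]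
    rcases lt_trichotomy b x with hlt | heq | hgt
    · exact Or.inr (Or.inl ⟨hb, hlt⟩)
    · exact Or.inl heq
    · exact Or.inr (Or.inr ⟨hb, hgt⟩)
  have hleft : ((comp d (insert x A) a).filter (fun b => b < x)).card ≤ m := by
    rcases ((comp d (insert x A) a).filter (fun b => b < x)).eq_empty_or_nonempty with he | ⟨b0, hb0⟩
    · rw [he]; simp
    rw [Finset.mem_filter, mem_comp] at hb0
    have hb0A : b0 ∈ A := by
      rcases Finset.mem_insert.1 hb0.1.1 with h | h
      · omega
      · exact h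
    refine (Finset.card_le_card ?_).trans (h b0 hb0A)
    intro b hb
    rw [Finset.mem_filter, mem_comp] at hb
    have hbA : b ∈ A := by
      rcases Finset.mem_insert.1 hb.1.1 with h | h
      · omega
      · exact h
    rw [mem_comp]
    refine ⟨hbA, ?_⟩
    have hc := conn_trans (conn_symm hb0.1.2) hb.1.2
    intro t h1 h2
    obtain ⟨e, he, h3, h4⟩ := hc t h1 h2
    have he' : e = x ∨ e ∈ A := by
      simpa using he
    rcases he' with rfl | he'
    · have hb' : b ∈ (A : Set ℤ) := by exact_mod_cast hbA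
      have hb0' : b0 ∈ (A : Set ℤ) := by exact_mod_cast hb0A
      rcases le_total b b0 with hle | hle
      · exact ⟨b0, hb0', by omega, by omega⟩
      · exact ⟨b, hb', by omega, by omega⟩
    · exact ⟨e, by exact_mod_cast he', h3, h4⟩
  have hright : ((comp d (insert x A) a).filter (fun b => x < b)).card ≤ m := by
    rcases ((comp d (insert x A) a).filter (fun b => x < b)).eq_empty_or_nonempty with he | ⟨b0, hb0⟩
    · rw [he]; simp
    rw [Finset.mem_filter, mem_comp] at hb0
    have hb0A : b0 ∈ A := by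
      rcases Finset.mem_insert.1 hb0.1.1 with h | h
      · omega
      · exact h
    refine (Finset.card_le_card ?_).trans (h b0 hb0A)
    intro b hb
    rw [Finset.mem_filter, mem_comp] at hb
    have hbA : b ∈ A := by
      rcases Finset.mem_insert.1 hb.1.1 with h | h
      · omega
      · exact h
    rw [mem_comp]
    refine ⟨hbA, ?_⟩
    have hc := conn_trans (conn_symm hb0.1.2) hb.1.2
    intro t h1 h2
    obtain ⟨e, he, h3, h4⟩ := hc t h1 h2
    have he' : e = x ∨ e ∈ A := by
      simpa using he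
    rcases he' with rfl | he'
    · omega
    · exact ⟨e, by exact_mod_cast he', h3, h4⟩
  refine (Finset.card_le_card hsplit).trans ?_
  refine (Finset.card_insert_le _ _).trans ?_
  have := Finset.card_union_le ((comp d (insert x A) a).filter (fun b => b < x))
    ((comp d (insert x A) a).filter (fun b => x < b))
  omega

/-- The representative (least element) of the component of `a`. -/
noncomputable def rep (d : ℤ) (A : Finset ℤ) (a : ℤ) : ℤ := by
  classical
  exact if h : (comp d A a).Nonempty then (comp d A a).min' h else a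

lemma self_mem_comp {d : ℤ} {A : Finset ℤ} {a : ℤ} (ha : a ∈ A) : a ∈ comp d A a :=
  mem_comp.2 ⟨ha, conn_refl _ _ _⟩

lemma rep_mem {d : ℤ} {A : Finset ℤ} {a : ℤ} (ha : a ∈ A) : rep d A a ∈ comp d A a := by
  unfold rep
  rw [dif_pos ⟨a, self_mem_comp ha⟩]
  exact Finset.min'_mem _ _

lemma comp_eq {d : ℤ} {A : Finset ℤ} {a b : ℤ} (hc : conn d A a b) : comp d A a = comp d A b := by
  ext x
  rw [mem_comp, mem_comp]
  constructor
  · rintro ⟨h1, h2⟩
    exact ⟨h1, conn_trans (conn_symm hc) h2⟩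
  · rintro ⟨h1, h2⟩
    exact ⟨h1, conn_trans hc h2⟩

lemma rep_eq {d : ℤ} {A : Finset ℤ} {a b : ℤ} (ha : a ∈ A) (hb : b ∈ A) (hc : conn d A a b) :
    rep d A a = rep d A b := by
  unfold rep
  rw [dif_pos ⟨a, self_mem_comp ha⟩, dif_pos ⟨b, self_mem_comp hb⟩]
  congr 1
  exact comp_eq hc

lemma conn_of_rep_eq {d : ℤ} {A : Finset ℤ} {a b : ℤ} (ha : a ∈ A) (hb : b ∈ A)
    (h : rep d A a = rep d A b) : conn d A a b := by
  have h1 := (mem_comp.1 (rep_mem (d := d) ha)).2
  have h2 := (mem_comp.1 (rep_mem (d := d) hb)).2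
  rw [h] at h1
  exact conn_trans h1 (conn_symm h2)

/-! ### The zone of influence -/

/-- The zone of the set `C` relative to the lines `A`: the elements of `A ∪ C` joined to `C` by
a chain with steps at most `d`, with gaps at most `d` filled. -/
def Gs (d : ℤ) (A C : Set ℤ) : Set ℤ :=
  {x | ∃ a ∈ A ∪ C, ∃ a' ∈ A ∪ C, a ≤ x ∧ x ≤ a' ∧ a' - a ≤ d ∧ ∃ c ∈ C, conn d (A ∪ C) a c}

section
variable {d : ℤ} {A C : Set ℤ}

lemma Gs_of_conn (hd : 0 ≤ d) {a c : ℤ} (ha : a ∈ A ∪ C) (hc : c ∈ C)
    (h : conn d (A ∪ C) a c) : a ∈ Gs d A C :=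
  ⟨a, ha, a, ha, le_rfl, le_rfl, by simpa, c, hc, h⟩

lemma subset_Gs (hd : 0 ≤ d) : C ⊆ Gs d A C :=
  fun c hc => Gs_of_conn hd (Or.inr hc) hc (conn_refl _ _ _)

lemma Gs_near (hd : 0 ≤ d) {g e : ℤ} (hg : g ∈ Gs d A C) (he : e ∈ A ∪ C) (h : |g - e| ≤ d) :
    e ∈ Gs d A C := by
  obtain ⟨a, ha, a', ha', h1, h2, h3, c, hc, h4⟩ := hg
  have h5 : conn d (A ∪ C) e a := conn_link he he ha ha' le_rfl le_rfl (by simpa) h1 h2 h3
    (by rwa [abs_sub_comm])
  exact Gs_of_conn hd he hc (conn_trans h5 h4)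

lemma Gs_conv (_hd : 0 ≤ d) {g g' x : ℤ} (hg : g ∈ Gs d A C) (hg' : g' ∈ Gs d A C) (h1 : g ≤ x)
    (h2 : x ≤ g') (h3 : g' - g ≤ d) : x ∈ Gs d A C := by
  obtain ⟨a, ha, a', ha', h4, h5, h6, c, hc, h7⟩ := hg
  obtain ⟨b, hb, b', hb', h8, h9, h10, c', hc', h11⟩ := hg'
  by_cases hx : x ≤ a'
  · exact ⟨a, ha, a', ha', by omega, hx, h6, c, hc, h7⟩
  · by_cases hx' : b ≤ x
    · exact ⟨b, hb, b', hb', hx', by omega, h10, c', hc', h11⟩
    · refine ⟨a', ha', b, hb, by omega, by omega, by omega, c, hc, ?_⟩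
      refine conn_trans (conn_of_near ha' ha ?_) h7
      rw [abs_le]
      constructor <;> omega

lemma Gs_gap {x : ℤ} (hd : 0 ≤ d) (hx : x ∈ Gs d A C) : x ∈ Fl d (A ∩ Gs d A C ∪ C) := by
  obtain ⟨a, ha, a', ha', h4, h5, h6, c, hc, h7⟩ := hx
  have h8 : a ∈ Gs d A C := Gs_of_conn hd ha hc h7
  have h9 : a' ∈ Gs d A C := by
    refine Gs_of_conn hd ha' hc (conn_trans (conn_of_near ha' ha ?_) h7)
    rw [abs_le]
    constructor <;> omega
  refine ⟨a, ?_, a', ?_, h4, h5, h6⟩
  · rcases ha with ha | ha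
    · exact Or.inl ⟨ha, h8⟩
    · exact Or.inr ha
  · rcases ha' with ha' | ha'
    · exact Or.inl ⟨ha', h9⟩
    · exact Or.inr ha'

/-- A zone of a single line close to the zone of `C` is contained in it. -/
lemma Gs_sub {α x g : ℤ} (hα : α ∈ A) (hx : x ∈ Gs d A {α}) (hg : g ∈ Gs d A C)
    (h : |x - g| ≤ d) : Gs d A {α} ⊆ Gs d A C := by
  have hA : ∀ a, a ∈ A ∪ {α} → a ∈ A := by
    intro a ha
    rcases ha with ha | ha
    · exact ha
    · rw [Set.mem_singleton_iff] at ha
      exact ha ▸ hα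
  have hsub : A ∪ {α} ⊆ A ∪ C := fun a ha => Or.inl (hA a ha)
  obtain ⟨a, ha, a', ha', h1, h2, h3, c, hc, h4⟩ := hx
  rw [Set.mem_singleton_iff] at hc
  subst hc
  obtain ⟨e, he, e', he', h5, h6, h7, c', hc', h8⟩ := hg
  have hlink : conn d (A ∪ C) a e := conn_link (hsub ha) (hsub ha') he he' h1 h2 h3 h5 h6 h7 h
  rintro y ⟨b, hb, b', hb', h9, h10, h11, c'', hc'', h12⟩
  rw [Set.mem_singleton_iff] at hc''
  subst hc''
  refine ⟨b, hsub hb, b', hsub hb', h9, h10, h11, c', hc', ?_⟩
  have h13 : conn d (A ∪ C) b a :=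
    conn_mono le_rfl hsub (conn_trans h12 (conn_symm h4))
  exact conn_trans h13 (conn_trans hlink h8)

end

/-- The zone of `C` stays close to the hull of `C`. -/
lemma Gs_bound {d D : ℤ} (hd : 0 ≤ d) (hD : d ≤ D) {A C : Finset ℤ} {m : ℕ}
    (hA : CompLe D A m) {x : ℤ} (hx : x ∈ Gs d (A : Set ℤ) (C : Set ℤ)) :
    ∃ c ∈ C, ∃ c' ∈ C, c - d * m ≤ x ∧ x ≤ c' + d * m := by
  classical
  obtain ⟨a, ha, a', ha', h1, h2, h3, c, hc, h4⟩ := hx
  have hcC : c ∈ C := by exact_mod_cast hc
  have hne : C.Nonempty := ⟨c, hcC⟩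
  have h0 : (0 : ℤ) ≤ d * m := by positivity
  refine ⟨C.min' hne, Finset.min'_mem _ _, C.max' hne, Finset.max'_mem _ _, ?_, ?_⟩
  · by_contra hlt
    push Not at hlt
    set c0 := C.min' hne with hc0
    have hc0c : c0 ≤ c := Finset.min'_le _ _ hcC
    have hac : a < c0 := by omega
    have haA : a ∈ A := by
      rcases ha with ha | ha
      · exact_mod_cast ha
      · have : c0 ≤ a := Finset.min'_le _ _ (by exact_mod_cast ha)
        omega
    have hstep : ∀ t, a ≤ t → t < c0 → ∃ e ∈ insert c0 A, t < e ∧ e ≤ t + d := by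
      intro t ht1 ht2
      obtain ⟨e, he, h5, h6⟩ := h4 t (by omega) (by omega)
      by_cases hec : e ≤ c0
      · refine ⟨e, ?_, h5, h6⟩
        rw [Finset.mem_insert]
        rcases he with he | he
        · right; exact_mod_cast he
        · left
          have : c0 ≤ e := Finset.min'_le _ _ (by exact_mod_cast he)
          omega
      · exact ⟨c0, Finset.mem_insert_self _ _, ht2, by omega⟩
    have h7 := span_right hd (Finset.mem_insert_self c0 A) (c0 - a).toNat a le_rfl hac.le hstep
    have hconn : ∀ b ∈ A, a ≤ b → b < c0 → conn D A a b := by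
      intro b hb hab hbc t ht1 ht2
      obtain ⟨e, he, h8, h9⟩ := hstep t (by omega) (by omega)
      by_cases heb : e ≤ b
      · refine ⟨e, ?_, h8, by omega⟩
        rw [Finset.mem_insert] at he
        rcases he with rfl | he
        · omega
        · exact_mod_cast he
      · exact ⟨b, by exact_mod_cast hb, by omega, by omega⟩
    have hcard : ((insert c0 A).filter (fun b => a < b ∧ b ≤ c0)).card ≤ (comp D A a).card := by
      have e1 : (insert c0 A).filter (fun b => a < b ∧ b ≤ c0) ⊆
          insert c0 ((comp D A a).erase a) := by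
        intro b hb
        rw [Finset.mem_filter, Finset.mem_insert] at hb
        rw [Finset.mem_insert, Finset.mem_erase, mem_comp]
        rcases eq_or_lt_of_le hb.2.2 with rfl | hlt'
        · exact Or.inl rfl
        · right
          have hbA : b ∈ A := by
            rcases hb.1 with h | h
            · omega
            · exact h
          exact ⟨by omega, hbA, hconn b hbA hb.2.1.le hlt'⟩
      refine (Finset.card_le_card e1).trans ?_
      refine (Finset.card_insert_le _ _).trans ?_
      rw [Finset.card_erase_of_mem (self_mem_comp haA)]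
      have : 0 < (comp D A a).card := Finset.card_pos.2 ⟨a, self_mem_comp haA⟩
      omega
    have h8 : (((insert c0 A).filter (fun b => a < b ∧ b ≤ c0)).card : ℤ) ≤ m := by
      exact_mod_cast hcard.trans (hA a haA)
    have h9 : d * (((insert c0 A).filter (fun b => a < b ∧ b ≤ c0)).card : ℤ) ≤ d * m :=
      mul_le_mul_of_nonneg_left h8 hd
    omega
  · by_contra hlt
    push Not at hlt
    set c1 := C.max' hne with hc1
    have hcc1 : c ≤ c1 := Finset.le_max' _ _ hcC
    have hac : c1 < a' := by omega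
    have haA : a' ∈ A := by
      rcases ha' with ha | ha
      · exact_mod_cast ha
      · have : a' ≤ c1 := Finset.le_max' _ _ (by exact_mod_cast ha)
        omega
    have h4' : conn d ((A : Set ℤ) ∪ C) a' c :=
      conn_trans (conn_of_near ha' ha (by rw [abs_le]; constructor <;> omega)) h4
    have hstep : ∀ t, c1 ≤ t → t < a' → ∃ e ∈ A, t < e ∧ e ≤ t + d := by
      intro t ht1 ht2
      obtain ⟨e, he, h5, h6⟩ := h4' t (by omega) (by omega)
      refine ⟨e, ?_, h5, h6⟩
      rcases he with he | he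
      · exact_mod_cast he
      · have : e ≤ c1 := Finset.le_max' _ _ (by exact_mod_cast he)
        omega
    have h7 := span_right hd haA (a' - c1).toNat c1 le_rfl hac.le hstep
    have hcard : (A.filter (fun b => c1 < b ∧ b ≤ a')).card ≤ (comp D A a').card := by
      apply Finset.card_le_card
      intro b hb
      rw [Finset.mem_filter] at hb
      rw [mem_comp]
      refine ⟨hb.1, ?_⟩
      intro t ht1 ht2
      obtain ⟨e, he, h8, h9⟩ := hstep t (by omega) (by omega)
      exact ⟨e, by exact_mod_cast he, h8, by omega⟩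
    have h8 : ((A.filter (fun b => c1 < b ∧ b ≤ a')).card : ℤ) ≤ m := by
      exact_mod_cast hcard.trans (hA a' haA)
    have h9 : d * ((A.filter (fun b => c1 < b ∧ b ≤ a')).card : ℤ) ≤ d * m :=
      mul_le_mul_of_nonneg_left h8 hd
    omega

end Pool.Agent.MP_e7dab6_pr
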