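import Pool.Agent.Lib.MP_e7dab6_pr.Tree

/-!
# Covering trees of a sparse bipartite multigraph have positive excess
-/

set_option autoImplicit false

namespace Pool.Agent.MP_e7dab6_pr

/-- An edge: its label and the identifiers of its two end nodes. -/
abbrev Ed : Type := Finset (ℤ × ℤ) × ℤ × ℤ

/-- The end node of type `o` of an edge. -/
def nd (e : Ed) (o : Bool) : ℤ := cond o e.2.1 e.2.2

/-- The label of an edge. -/
def lb (e : Ed) : Finset (ℤ × ℤ) := e.1

/-- The list of edges at the node `c` of type `o`, except `x`. -/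
noncomputable def inc (E : Finset Ed) (o : Bool) (c : ℤ) (x : Option Ed) : List Ed :=
  E.toList.filter (fun e => decide (nd e o = c ∧ some e ≠ x))

lemma mem_inc {E : Finset Ed} {o : Bool} {c : ℤ} {x : Option Ed} {e : Ed} :
    e ∈ inc E o c x ↔ e ∈ E ∧ nd e o = c ∧ some e ≠ x := by
  simp [inc]

lemma nodup_inc (E : Finset Ed) (o : Bool) (c : ℤ) (x : Option Ed) : (inc E o c x).Nodup :=
  List.Nodup.filter _ E.nodup_toList

/-- The non-backtracking covering tree of depth `n`. -/
noncomputable def cov (E : Finset Ed) : ℕ → Bool → ℤ → Option Ed → Tr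
  | 0, _, _, _ => .leaf
  | n + 1, o, c, x => attList lb (fun e => cov E n (!o) (nd e (!o)) (some e)) (inc E o c x)

lemma contains_cov {E : Finset Ed} {n : ℕ} {o : Bool} {c : ℤ} {x : Option Ed} {N : ℕ}
    {S : Set (ℤ × ℤ)} {z : ℤ} : ContainsN N S (cov E (n + 1) o c x) o z ↔
      ∀ e ∈ E, nd e o = c → some e ≠ x → ∃ w : ℤ, w.natAbs ≤ N ∧
        (∀ f ∈ lb e, f + pt o z w ∈ S) ∧ ContainsN N S (cov E n (!o) (nd e (!o)) (some e)) (!o) w := by
  rw [cov, contains_attList]
  constructor
  · intro h e he h1 h2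
    exact h e (mem_inc.2 ⟨he, h1, h2⟩)
  · intro h e he
    obtain ⟨h0, h1, h2⟩ := mem_inc.1 he
    exact h e h0 h1 h2

/-- The nodes touched by a set of edges. -/
def verts (U : Finset Ed) : Finset (Bool × ℤ) :=
  U.image (fun e => (true, nd e true)) ∪ U.image (fun e => (false, nd e false))

lemma mem_verts {U : Finset Ed} {v : Bool × ℤ} : v ∈ verts U ↔ ∃ e ∈ U, v = (v.1, nd e v.1) := by
  unfold verts
  rw [Finset.mem_union, Finset.mem_image, Finset.mem_image]
  constructor
  · rintro (⟨e, he, rfl⟩ | ⟨e, he, rfl⟩)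
    · exact ⟨e, he, rfl⟩
    · exact ⟨e, he, rfl⟩
  · rintro ⟨e, he, hv⟩
    obtain ⟨o, c⟩ := v
    simp only [Prod.mk.injEq, true_and] at hv
    subst hv
    cases o
    · exact Or.inr ⟨e, he, rfl⟩
    · exact Or.inl ⟨e, he, rfl⟩

lemma mem_verts_of_mem {U : Finset Ed} {e : Ed} (he : e ∈ U) (o : Bool) : (o, nd e o) ∈ verts U :=
  mem_verts.2 ⟨e, he, rfl⟩

lemma finset_val_le {α : Type*} [DecidableEq α] {s : Finset α} {m : Multiset α}
    (h : ∀ a ∈ s, a ∈ m) : s.val ≤ m := by
  rw [Multiset.le_iff_subset s.nodup]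
  exact h

lemma layer {E : Finset Ed} {g0 : Bool → ℝ} (hg0 : ∀ o, 0 ≤ g0 o) {K : ℕ}
    (hsp : ∀ U ⊆ E, U.card ≤ K →
      ∑ e ∈ U, ((lb e).card : ℝ) ≤ ∑ v ∈ verts U, g0 v.1) :
    ∀ (me : Multiset Ed) (mv : Multiset (Bool × ℤ)), (∀ e ∈ me, e ∈ E) → me.card ≤ K →
      (∀ e o, me.count e ≤ mv.count (o, nd e o)) →
      (me.map (fun e => ((lb e).card : ℝ))).sum ≤ (mv.map (fun v => g0 v.1)).sum := by
  intro me
  induction me using Multiset.strongInductionOn with
  | _ me ih =>
  intro mv hE hK hc
  by_cases hme : me = 0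
  · subst hme
    rw [Multiset.map_zero, Multiset.sum_zero]
    apply Multiset.sum_nonneg
    intro x hx
    rw [Multiset.mem_map] at hx
    obtain ⟨v, -, rfl⟩ := hx
    exact hg0 _
  · set U := me.toFinset with hU
    have hUme : U.val ≤ me := finset_val_le (fun a ha => Multiset.mem_toFinset.1 ha)
    have hVmv : (verts U).val ≤ mv := by
      apply finset_val_le
      intro v hv
      obtain ⟨e, he, hv'⟩ := mem_verts.1 hv
      have h1 := hc e v.1
      rw [← hv'] at h1
      have h2 : 0 < me.count e := Multiset.count_pos.2 (Multiset.mem_toFinset.1 he)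
      exact Multiset.count_pos.1 (lt_of_lt_of_le h2 h1)
    have hlt : me - U.val < me := by
      refine lt_of_le_of_ne (Multiset.sub_le_self _ _) ?_
      intro h
      obtain ⟨a, ha⟩ := Multiset.exists_mem_of_ne_zero hme
      have h1 := congrArg (Multiset.count a) h
      rw [Multiset.count_sub] at h1
      have h2 : 0 < me.count a := Multiset.count_pos.2 ha
      have h3 : 0 < U.val.count a := Multiset.count_pos.2 (Multiset.mem_toFinset.2 ha)
      omega
    have h1 := ih (me - U.val) hlt (mv - (verts U).val)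
      (fun e he => hE e (Multiset.mem_of_le (Multiset.sub_le_self _ _) he))
      ((Multiset.card_le_card (Multiset.sub_le_self _ _)).trans hK) ?_
    · have h2 := hsp U (fun e he => hE e (Multiset.mem_toFinset.1 he)) (by
        have := Multiset.card_le_card hUme
        exact this.trans hK)
      have h3 : (me.map (fun e => ((lb e).card : ℝ))).sum =
          ((me - U.val).map (fun e => ((lb e).card : ℝ))).sum + ∑ e ∈ U, ((lb e).card : ℝ) := by
        conv_lhs => rw [← tsub_add_cancel_of_le hUme]
        rw [Multiset.map_add, Multiset.sum_add]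
        rfl
      have h4 : (mv.map (fun v => g0 v.1)).sum =
          ((mv - (verts U).val).map (fun v => g0 v.1)).sum + ∑ v ∈ verts U, g0 v.1 := by
        conv_lhs => rw [← tsub_add_cancel_of_le hVmv]
        rw [Multiset.map_add, Multiset.sum_add]
        rfl
      rw [h3, h4]
      linarith
    · intro e o
      rw [Multiset.count_sub, Multiset.count_sub]
      by_cases he : e ∈ me
      · have h5 : (verts U).val.count (o, nd e o) ≤ 1 :=
          Multiset.nodup_iff_count_le_one.1 (verts U).nodup _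
        have h6 : U.val.count e = 1 :=
          Multiset.count_eq_one_of_mem U.nodup (Multiset.mem_toFinset.2 he)
        have h7 := hc e o
        omega
      · rw [Multiset.count_eq_zero_of_notMem he]
        omega

lemma layer_root {E : Finset Ed} {g0 : Bool → ℝ} (hg0 : ∀ o, 0 ≤ g0 o) {K : ℕ}
    (hsp : ∀ U ⊆ E, U.card ≤ K →
      ∑ e ∈ U, ((lb e).card : ℝ) ≤ ∑ v ∈ verts U, g0 v.1) {r : Bool × ℤ}
    (hr : ∀ U ⊆ E, U.card ≤ K →
      ∑ e ∈ U, ((lb e).card : ℝ) + g0 r.1 ≤ ∑ v ∈ insert r (verts U), g0 v.1)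
    (me : Multiset Ed) (mv : Multiset (Bool × ℤ)) (hE : ∀ e ∈ me, e ∈ E) (hK : me.card ≤ K)
    (hc : ∀ e o, me.count e ≤ mv.count (o, nd e o)) (hrm : r ∈ mv) :
    (me.map (fun e => ((lb e).card : ℝ))).sum + g0 r.1 ≤ (mv.map (fun v => g0 v.1)).sum := by
  set U := me.toFinset with hU
  have hUme : U.val ≤ me := finset_val_le (fun a ha => Multiset.mem_toFinset.1 ha)
  have hVmv : (insert r (verts U)).val ≤ mv := by
    apply finset_val_le
    intro v hv
    rcases Finset.mem_insert.1 hv with rfl | hv
    · exact hrm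
    obtain ⟨e, he, hv'⟩ := mem_verts.1 hv
    have h1 := hc e v.1
    rw [← hv'] at h1
    have h2 : 0 < me.count e := Multiset.count_pos.2 (Multiset.mem_toFinset.1 he)
    exact Multiset.count_pos.1 (lt_of_lt_of_le h2 h1)
  have h1 := layer hg0 hsp (me - U.val) (mv - (insert r (verts U)).val)
    (fun e he => hE e (Multiset.mem_of_le (Multiset.sub_le_self _ _) he))
    ((Multiset.card_le_card (Multiset.sub_le_self _ _)).trans hK) ?_
  · have h2 := hr U (fun e he => hE e (Multiset.mem_toFinset.1 he)) (by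
      have := Multiset.card_le_card hUme
      exact this.trans hK)
    have h3 : (me.map (fun e => ((lb e).card : ℝ))).sum =
        ((me - U.val).map (fun e => ((lb e).card : ℝ))).sum + ∑ e ∈ U, ((lb e).card : ℝ) := by
      conv_lhs => rw [← tsub_add_cancel_of_le hUme]
      rw [Multiset.map_add, Multiset.sum_add]
      rfl
    have h4 : (mv.map (fun v => g0 v.1)).sum =
        ((mv - (insert r (verts U)).val).map (fun v => g0 v.1)).sum +
          ∑ v ∈ insert r (verts U), g0 v.1 := by
      conv_lhs => rw [← tsub_add_cancel_of_le hVmv]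
      rw [Multiset.map_add, Multiset.sum_add]
      rfl
    rw [h3, h4]
    linarith
  · intro e o
    rw [Multiset.count_sub, Multiset.count_sub]
    by_cases he : e ∈ me
    · have h5 : (insert r (verts U)).val.count (o, nd e o) ≤ 1 :=
        Multiset.nodup_iff_count_le_one.1 (insert r (verts U)).nodup _
      have h6 : U.val.count e = 1 :=
        Multiset.count_eq_one_of_mem U.nodup (Multiset.mem_toFinset.2 he)
      have h7 := hc e o
      omega
    · rw [Multiset.count_eq_zero_of_notMem he]
      omega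

/-- A profile of a pruned subtree of a covering tree: multiplicities of edges and nodes. -/
structure Prof (g : Bool → ℝ) (E R : Finset Ed) (o : Bool) (c : ℤ) (w : ℝ)
    (me : Multiset Ed) (mv : Multiset (Bool × ℤ)) : Prop where
  memE : ∀ e ∈ me, e ∈ E
  cnt : ∀ e o', me.count e ≤ mv.count (o', nd e o')
  root : ∀ e ∉ R, nd e o = c → me.count e + 1 ≤ mv.count (o, c)
  rootmem : (o, c) ∈ mv
  val : w = (mv.map (fun v => g v.1)).sum - (me.map (fun e => ((lb e).card : ℝ))).sum
  card : me.card + 1 = mv.card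

/-- A tree is good if it is present and its excess is attained by a small profile. -/
def Good (g : Bool → ℝ) (E : Finset Ed) (K0 : ℕ) (R : Finset Ed) (o : Bool) (c : ℤ)
    (t : Tr) : Prop :=
  pres g t o ∧ ∃ (me : Multiset Ed) (mv : Multiset (Bool × ℤ)),
    Prof g E R o c (ex g t o) me mv ∧ mv.card ≤ K0

/-- The standing data for the cover lemma. -/
structure CovData (E : Finset Ed) (g0 g : Bool → ℝ) (κ : ℝ) (K0 : ℕ) : Prop where
  g0_nonneg : ∀ o, 0 ≤ g0 o
  κ_pos : 0 < κ
  g_eq : ∀ o, g o = g0 o + κ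
  K0_large : ∀ o, g o < κ * (K0 + 1)
  sparse : ∀ U ⊆ E, U.card ≤ 2 * K0 →
      ∑ e ∈ U, ((lb e).card : ℝ) ≤ ∑ v ∈ verts U, g0 v.1

section
variable {E : Finset Ed} {g0 g : Bool → ℝ} {κ : ℝ} {K0 : ℕ}

lemma sum_g_eq (h : CovData E g0 g κ K0) (mv : Multiset (Bool × ℤ)) :
    (mv.map (fun v => g v.1)).sum = (mv.map (fun v => g0 v.1)).sum + κ * mv.card := by
  induction mv using Multiset.induction_on with
  | empty => simp
  | cons a s ih =>
    simp only [Multiset.map_cons, Multiset.sum_cons, Multiset.card_cons, ih, h.g_eq a.1]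
    push_cast
    ring

lemma Prof.lower (h : CovData E g0 g κ K0) {R : Finset Ed} {o : Bool} {c : ℤ} {w : ℝ}
    {me : Multiset Ed} {mv : Multiset (Bool × ℤ)} (hp : Prof g E R o c w me mv)
    (hcard : mv.card ≤ 2 * K0) : κ * mv.card ≤ w := by
  have h1 := layer h.g0_nonneg h.sparse me mv hp.memE (by have := hp.card; omega) hp.cnt
  rw [hp.val, sum_g_eq h]
  linarith

lemma Prof.card_le (h : CovData E g0 g κ K0) {R : Finset Ed} {o : Bool} {c : ℤ} {w : ℝ}
    {me : Multiset Ed} {mv : Multiset (Bool × ℤ)} (hp : Prof g E R o c w me mv)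
    (hcard : mv.card ≤ 2 * K0) (hw : w ≤ g o) : mv.card ≤ K0 := by
  have h1 := hp.lower h hcard
  have h2 := h.K0_large o
  have h3 : κ * mv.card < κ * (K0 + 1) := by linarith
  have h4 : (mv.card : ℝ) < K0 + 1 := lt_of_mul_lt_mul_left h3 h.κ_pos.le
  exact_mod_cast Nat.lt_succ_iff.1 (by exact_mod_cast h4)

lemma K0_pos (h : CovData E g0 g κ K0) : 1 ≤ K0 := by
  by_contra hK
  have h0 : K0 = 0 := by omega
  have h1 := h.K0_large true
  rw [h0, h.g_eq] at h1
  have h2 := h.g0_nonneg true
  simp at h1
  linarith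

lemma Good.ge (h : CovData E g0 g κ K0) {R : Finset Ed} {o : Bool} {c : ℤ} {t : Tr}
    (ht : Good g E K0 R o c t) : κ ≤ ex g t o := by
  obtain ⟨-, me, mv, hp, hc⟩ := ht
  have h1 := hp.lower h (by omega)
  have h2 : (1 : ℝ) ≤ mv.card := by
    have := hp.card
    exact_mod_cast (by omega : 1 ≤ mv.card)
  nlinarith [h.κ_pos]

lemma good_leaf (h : CovData E g0 g κ K0) (o : Bool) (c : ℤ) : Good g E K0 ∅ o c .leaf := by
  have hg : 0 < g o := by
    rw [h.g_eq]
    linarith [h.g0_nonneg o, h.κ_pos]
  refine ⟨hg, 0, {(o, c)}, ⟨by simp, by simp, ?_, by simp, by simp [ex], by simp⟩, by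
    simpa using K0_pos h⟩
  intro e _ he
  simp

lemma good_att (h : CovData E g0 g κ K0) {R R' : Finset Ed} {o : Bool} {c : ℤ} {t t' : Tr}
    {e : Ed} (he : e ∈ E) (hc : nd e o = c) (hR : e ∉ R) (hR' : e ∉ R')
    (ht : Good g E K0 R o c t) (ht' : Good g E K0 R' (!o) (nd e (!o)) t') :
    Good g E K0 (insert e R) o c (.att t (lb e) t') := by
  have hκ := h.κ_pos
  have hpos := ht.ge h
  obtain ⟨p1, me, mv, hp, hcard⟩ := ht
  obtain ⟨p1', me', mv', hp', hcard'⟩ := ht'
  by_cases hcase : ((lb e).card : ℝ) ≤ ex g t' (!o)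
  · have hex : ex g (.att t (lb e) t') o = ex g t o := by
      simp only [ex]
      rw [min_eq_left (by linarith)]
      ring
    refine ⟨⟨p1, p1', by rw [hex]; linarith⟩, me, mv, ⟨hp.memE, hp.cnt, ?_, hp.rootmem,
      by rw [hex]; exact hp.val, hp.card⟩, hcard⟩
    intro e' he' hn
    exact hp.root e' (fun h => he' (Finset.mem_insert_of_mem h)) hn
  · push Not at hcase
    have hex : ex g (.att t (lb e) t') o = ex g t o + ex g t' (!o) - (lb e).card := by
      simp only [ex]
      rw [min_eq_right (by linarith)]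
      ring
    have hP : Prof g E (insert e R) o c (ex g (.att t (lb e) t') o) (e ::ₘ (me + me'))
        (mv + mv') := by
      refine ⟨?_, ?_, ?_, ?_, ?_, ?_⟩
      · intro e' he'
        rcases Multiset.mem_cons.1 he' with rfl | he'
        · exact he
        rcases Multiset.mem_add.1 he' with he' | he'
        · exact hp.memE _ he'
        · exact hp'.memE _ he'
      · intro e' o'
        have h1 := hp.cnt e' o'
        have h2 := hp'.cnt e' o'
        by_cases hee : e' = e
        · subst hee
          rw [Multiset.count_cons_self, Multiset.count_add, Multiset.count_add]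
          rcases Bool.eq_or_eq_not o' o with rfl | rfl
          · have h3 := hp.root e' hR hc
            rw [hc] at h2 ⊢
            omega
          · have h3 := hp'.root e' hR' rfl
            omega
        · rw [Multiset.count_cons_of_ne hee, Multiset.count_add, Multiset.count_add]
          omega
      · intro e' he' hn
        rw [Finset.mem_insert, not_or] at he'
        have h1 := hp.root e' he'.2 hn
        have h2 := hp'.cnt e' o
        rw [hn] at h2
        rw [Multiset.count_cons_of_ne he'.1, Multiset.count_add, Multiset.count_add]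
        omega
      · exact Multiset.mem_add.2 (Or.inl hp.rootmem)
      · rw [hex, Multiset.map_add, Multiset.sum_add, Multiset.map_cons, Multiset.sum_cons,
          Multiset.map_add, Multiset.sum_add]
        have h1 := hp.val
        have h2 := hp'.val
        linarith
      · have h1 := hp.card
        have h2 := hp'.card
        rw [Multiset.card_cons, Multiset.card_add, Multiset.card_add]
        omega
    have hcard2 : (mv + mv').card ≤ 2 * K0 := by
      rw [Multiset.card_add]
      omega
    have hlow := hP.lower h hcard2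
    have h1 : (1 : ℝ) ≤ ((mv + mv').card : ℕ) := by
      have := hP.card
      exact_mod_cast (by omega : 1 ≤ (mv + mv').card)
    refine ⟨⟨p1, p1', by nlinarith⟩, _, _, hP, hP.card_le h hcard2 (ex_le _ _ _)⟩

lemma good_attList (h : CovData E g0 g κ K0) {o : Bool} {c : ℤ} {ch : Ed → Tr} (l : List Ed)
    (hnd : l.Nodup) (hl : ∀ e ∈ l, e ∈ E ∧ nd e o = c ∧
      ∃ R', e ∉ R' ∧ Good g E K0 R' (!o) (nd e (!o)) (ch e)) :
    Good g E K0 l.toFinset o c (attList lb ch l) := by
  induction l with
  | nil => exact good_leaf h o c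
  | cons a l ih =>
    have h1 := hl a (by simp)
    obtain ⟨hE, hc, R', hR', hg⟩ := h1
    rw [List.nodup_cons] at hnd
    have h2 := ih hnd.2 (fun e he => hl e (List.mem_cons_of_mem _ he))
    rw [List.toFinset_cons]
    exact good_att h hE hc (fun h => hnd.1 (List.mem_toFinset.1 h)) hR' h2 hg

/-- The cover lemma. -/
lemma good_cov (h : CovData E g0 g κ K0) (n : ℕ) (o : Bool) (c : ℤ) (x : Option Ed) :
    ∃ R, (∀ e, some e = x → e ∉ R) ∧ Good g E K0 R o c (cov E n o c x) := by
  induction n generalizing o c x with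
  | zero => exact ⟨∅, by simp, good_leaf h o c⟩
  | succ n ih =>
    refine ⟨(inc E o c x).toFinset, ?_, ?_⟩
    · intro e he hm
      rw [List.mem_toFinset, mem_inc] at hm
      exact hm.2.2 he
    · rw [cov]
      refine good_attList h _ (nodup_inc E o c x) ?_
      intro e he
      rw [mem_inc] at he
      obtain ⟨R', hR', hg⟩ := ih (!o) (nd e (!o)) (some e)
      exact ⟨he.1, he.2.1, R', hR' e rfl, hg⟩

lemma pres_cov (h : CovData E g0 g κ K0) (n : ℕ) (o : Bool) (c : ℤ) (x : Option Ed) :
    pres g (cov E n o c x) o := by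
  obtain ⟨R, -, hg⟩ := good_cov h n o c x
  exact hg.1

lemma ex_cov_ge (h : CovData E g0 g κ K0) (n : ℕ) (o : Bool) (c : ℤ) (x : Option Ed) :
    κ ≤ ex g (cov E n o c x) o := by
  obtain ⟨R, -, hg⟩ := good_cov h n o c x
  exact hg.ge h

/-- If the graph is sparse relative to the root, the excess at the root is full. -/
lemma ex_cov_root (h : CovData E g0 g κ K0) (n : ℕ) (o : Bool) (c : ℤ) (x : Option Ed)
    (hr : ∀ U ⊆ E, U.card ≤ 2 * K0 →
      ∑ e ∈ U, ((lb e).card : ℝ) + g0 o ≤ ∑ v ∈ insert (o, c) (verts U), g0 v.1) :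
    g o ≤ ex g (cov E n o c x) o := by
  obtain ⟨R, -, -, me, mv, hp, hcard⟩ := good_cov h n o c x
  have h1 := layer_root h.g0_nonneg h.sparse (r := (o, c)) hr me mv hp.memE
    (by have := hp.card; omega) hp.cnt hp.rootmem
  rw [hp.val, sum_g_eq h]
  have h2 : (1 : ℝ) ≤ mv.card := by
    have := hp.card
    exact_mod_cast (by omega : 1 ≤ mv.card)
  have h3 := h.g_eq o
  have h4 := h.κ_pos
  simp only at h1
  nlinarith

end

end Pool.Agent.MP_e7dab6_pr
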