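import Mathlib

/-!
# Cross-neighbourhood growth: the model

Growth dynamics on the square lattice driven by a zero-set `Z`, started from a Bernoulli random
set, together with lower and upper powers for the time at which the origin is occupied.
-/

set_option autoImplicit false

open MeasureTheory Filter Topology

namespace Pool.Agent.MP_e7dab6_pr

/-- Number of sites of `ξ` in the horizontal neighbourhood `x + [-ρ, ρ] × {0}`. -/
noncomputable def hCount (ρ : ℕ) (ξ : Set (ℤ × ℤ)) (x : ℤ × ℤ) : ℕ :=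
  Set.ncard {y : ℤ × ℤ | y ∈ ξ ∧ y.2 = x.2 ∧ |y.1 - x.1| ≤ (ρ : ℤ)}

/-- Number of sites of `ξ` in the vertical neighbourhood `x + {0} × [-ρ, ρ]`. -/
noncomputable def vCount (ρ : ℕ) (ξ : Set (ℤ × ℤ)) (x : ℤ × ℤ) : ℕ :=
  Set.ncard {y : ℤ × ℤ | y ∈ ξ ∧ y.1 = x.1 ∧ |y.2 - x.2| ≤ (ρ : ℤ)}

/-- One step of the dynamics. -/
def step (ρ : ℕ) (Z : Set (ℕ × ℕ)) (ξ : Set (ℤ × ℤ)) : Set (ℤ × ℤ) :=
  ξ ∪ {x | (hCount ρ ξ x, vCount ρ ξ x) ∉ Z}

/-- The occupied set at time `t`. -/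
def evolve (ρ : ℕ) (Z : Set (ℕ × ℕ)) (ξ : Set (ℤ × ℤ)) : ℕ → Set (ℤ × ℤ)
  | 0 => ξ
  | t + 1 => step ρ Z (evolve ρ Z ξ t)

/-- The first time the origin is occupied (`⊤` if there is none). -/
noncomputable def hitTime (ρ : ℕ) (Z : Set (ℕ × ℕ)) (ξ : Set (ℤ × ℤ)) : ℕ∞ :=
  ⨅ t ∈ {t : ℕ | ((0 : ℤ), (0 : ℤ)) ∈ evolve ρ Z ξ t}, (t : ℕ∞)

/-- The law of the initial set: each site of `ℤ²` is occupied independently with
probability `p`. -/
noncomputable def initLaw (p : unitInterval) : Measure (Set (ℤ × ℤ)) :=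
  ProbabilityTheory.setBernoulli (Set.univ : Set (ℤ × ℤ)) p

/-- The height of a zero-set. -/
noncomputable def height (Z : Set (ℕ × ℕ)) : ℕ∞ := Set.encard {v : ℕ | (0, v) ∈ Z}

/-- The width of a zero-set. -/
noncomputable def width (Z : Set (ℕ × ℕ)) : ℕ∞ := Set.encard {u : ℕ | (u, 0) ∈ Z}

/-- `T ≳ p ^ (-a)`, where `T` is the hitting time of the origin. -/
def TimeGe (ρ : ℕ) (Z : Set (ℕ × ℕ)) (a : ℝ) : Prop :=
  Tendsto (fun l : ℝ => limsup (fun p : unitInterval =>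
      initLaw p {ξ | ((hitTime ρ Z ξ : ℕ∞) : ENNReal) ≤ ENNReal.ofReal (l * (p : ℝ) ^ (-a))})
    (𝓝[>] 0)) (𝓝[>] 0) (𝓝 0)

/-- `T ≲ p ^ (-a)`, where `T` is the hitting time of the origin. -/
def TimeLe (ρ : ℕ) (Z : Set (ℕ × ℕ)) (a : ℝ) : Prop :=
  Tendsto (fun l : ℝ => limsup (fun p : unitInterval =>
      initLaw p {ξ | ENNReal.ofReal (l * (p : ℝ) ^ (-a)) ≤ ((hitTime ρ Z ξ : ℕ∞) : ENNReal)})
    (𝓝[>] 0)) atTop (𝓝 0)

/-- `γ` is a lower power. -/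
def IsLowerPower (ρ : ℕ) (Z : Set (ℕ × ℕ)) (γ : ℝ) : Prop :=
  ∀ ε > 0, TimeGe ρ Z (γ - ε)

/-- `γ` is an upper power. -/
def IsUpperPower (ρ : ℕ) (Z : Set (ℕ × ℕ)) (γ : ℝ) : Prop :=
  ∀ ε > 0, TimeLe ρ Z (γ + ε)

/-- The standing assumptions on a zero-set and a range. -/
structure Standing (ρ : ℕ) (Z : Set (ℕ × ℕ)) : Prop where
  lower : IsLowerSet Z
  nonempty : Z.Nonempty
  height_ne_top : height Z ≠ ⊤
  height_le_width : height Z ≤ width Z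
  height_le : height Z ≤ ρ
  width_le : width Z = ⊤ ∨ width Z ≤ ρ

end Pool.Agent.MP_e7dab6_pr
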