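import Pool.Agent.Lib.MP_e7dab6_pr.Basic

/-!
# Derivations of sites and full lines, and their realisation in linear time
-/

set_option autoImplicit false

namespace Pool.Agent.MP_e7dab6_pr

/-- Sites and full lines (`line true a` is the column `{a} × ℤ`). -/
inductive Item : Type
  | site (z : ℤ × ℤ) : Item
  | line (o : Bool) (a : ℤ) : Item

/-- Items derivable from the lines `L` and the sites `F`. -/
inductive Der (ρ : ℕ) (Z : Set (ℕ × ℕ)) (L : Bool → Set ℤ) (F : Set (ℤ × ℤ)) : Item → Prop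
  | baseSite {z : ℤ × ℤ} (h : z ∈ F) : Der ρ Z L F (.site z)
  | baseLine {o : Bool} {a : ℤ} (h : a ∈ L o) : Der ρ Z L F (.line o a)
  | ofLine {o : Bool} {a b : ℤ} (h : Der ρ Z L F (.line o a)) : Der ρ Z L F (.site (pt o a b))
  | siteStep {o : Bool} {a b : ℤ} (U V : Finset ℤ) (hU : ∀ a' ∈ U, |a' - a| ≤ (ρ : ℤ))
      (hV : ∀ b' ∈ V, |b' - b| ≤ (ρ : ℤ)) (dU : ∀ a' ∈ U, Der ρ Z L F (.site (pt o a' b)))
      (dV : ∀ b' ∈ V, Der ρ Z L F (.site (pt o a b'))) (hb : bad Z o U.card V.card) :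
      Der ρ Z L F (.site (pt o a b))
  | lineStep {o : Bool} {a b : ℤ} (U : Finset ℤ) (hU : ∀ a' ∈ U, |a' - a| ≤ (ρ : ℤ))
      (dU : ∀ a' ∈ U, Der ρ Z L F (.line o a'))
      (dS : ∀ j : ℕ, j < ρ → Der ρ Z L F (.site (pt o a (b + j)))) (hb : bad Z o U.card ρ) :
      Der ρ Z L F (.line o a)

lemma Der.trans {ρ : ℕ} {Z : Set (ℕ × ℕ)} {L L' : Bool → Set ℤ} {F F' : Set (ℤ × ℤ)} {i : Item}
    (h : Der ρ Z L F i) (hF : ∀ z ∈ F, Der ρ Z L' F' (.site z))
    (hL : ∀ o, ∀ a ∈ L o, Der ρ Z L' F' (.line o a)) : Der ρ Z L' F' i := by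
  induction h with
  | baseSite h => exact hF _ h
  | baseLine h => exact hL _ _ h
  | ofLine _ ih => exact ih.ofLine
  | siteStep U V hU hV _ _ hb ihU ihV => exact .siteStep U V hU hV ihU ihV hb
  | lineStep U hU _ _ hb ihU ihS => exact .lineStep U hU ihU ihS hb

lemma Der.mono {ρ : ℕ} {Z : Set (ℕ × ℕ)} {L L' : Bool → Set ℤ} {F F' : Set (ℤ × ℤ)} {i : Item}
    (h : Der ρ Z L F i) (hF : F ⊆ F') (hL : ∀ o, L o ⊆ L' o) : Der ρ Z L' F' i :=
  h.trans (fun _ hz => .baseSite (hF hz)) (fun o _ ha => .baseLine (hL o ha))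

/-- Derivable sites form a closed set. -/
lemma closed_der (ρ : ℕ) (Z : Set (ℕ × ℕ)) (L : Bool → Set ℤ) (F : Set (ℤ × ℤ)) :
    Closed ρ Z {z | Der ρ Z L F (.site z)} := by
  intro o a b U V hU hV hb
  exact .siteStep U V (fun a' ha' => (hU a' ha').1) (fun a' ha' => (hV a' ha').1)
    (fun a' ha' => (hU a' ha').2) (fun a' ha' => (hV a' ha').2) hb

/-- An item is realised in time `C (N + size)`. -/
def Rl (ρ : ℕ) (Z : Set (ℕ × ℕ)) (S : Set (ℤ × ℤ)) (N C : ℕ) : Item → Prop
  | .site z => z ∈ evolve ρ Z S (C * (N + z.1.natAbs + z.2.natAbs))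
  | .line o a => ∀ b, pt o a b ∈ evolve ρ Z S (C * (N + a.natAbs + b.natAbs))

/-- Translation of an item. -/
def Item.shift (v : ℤ × ℤ) : Item → Item
  | .site z => .site (z + v)
  | .line o a => .line o (a + crd o v)

lemma pt_natAbs (o : Bool) (a b : ℤ) :
    (pt o a b).1.natAbs + (pt o a b).2.natAbs = a.natAbs + b.natAbs := by
  cases o <;> simp [add_comm]

lemma Rl.mono {ρ : ℕ} {Z : Set (ℕ × ℕ)} {S : Set (ℤ × ℤ)} {N C C' : ℕ} (hC : C ≤ C') {i : Item}
    (h : Rl ρ Z S N C i) : Rl ρ Z S N C' i := by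
  cases i with
  | site z => exact evolve_mono ρ Z S (Nat.mul_le_mul_right _ hC) h
  | line o a => exact fun b => evolve_mono ρ Z S (Nat.mul_le_mul_right _ hC) (h b)

lemma Rl.site_iff {ρ : ℕ} {Z : Set (ℕ × ℕ)} {S : Set (ℤ × ℤ)} {N C : ℕ} {o : Bool} {a b : ℤ} :
    Rl ρ Z S N C (.site (pt o a b)) ↔
      pt o a b ∈ evolve ρ Z S (C * (N + a.natAbs + b.natAbs)) := by
  change pt o a b ∈ evolve ρ Z S (C * (N + (pt o a b).1.natAbs + (pt o a b).2.natAbs)) ↔ _
  rw [add_assoc, pt_natAbs, ← add_assoc]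

lemma exists_uniform {α : Type*} {P : α → ℕ → Prop} (hP : ∀ a c c', c ≤ c' → P a c → P a c')
    (s : Finset α) (h : ∀ a ∈ s, ∃ c, P a c) : ∃ c, ∀ a ∈ s, P a c := by
  classical
  induction s using Finset.induction_on with
  | empty => exact ⟨0, by simp⟩
  | insert a s ha ih =>
    obtain ⟨c1, h1⟩ := ih (fun b hb => h b (Finset.mem_insert_of_mem hb))
    obtain ⟨c2, h2⟩ := h a (Finset.mem_insert_self a s)
    refine ⟨max c1 c2, fun b hb => ?_⟩
    rcases Finset.mem_insert.1 hb with rfl | hb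
    · exact hP _ _ _ (le_max_right _ _) h2
    · exact hP _ _ _ (le_max_left _ _) (h1 b hb)

/-- The hypothesis that all base items, translated by `v`, are realised with constant `C`. -/
def BaseRl (ρ : ℕ) (Z : Set (ℕ × ℕ)) (L : Bool → Set ℤ) (F : Set (ℤ × ℤ)) (S : Set (ℤ × ℤ))
    (N C : ℕ) (v : ℤ × ℤ) : Prop :=
  (∀ z ∈ F, Rl ρ Z S N C (.site (z + v))) ∧
    ∀ o, ∀ a ∈ L o, Rl ρ Z S N C (.line o (a + crd o v))

lemma der_real {ρ : ℕ} {Z : Set (ℕ × ℕ)} (hZ : IsLowerSet Z) {L : Bool → Set ℤ}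
    {F : Set (ℤ × ℤ)} {i : Item} (h : Der ρ Z L F i) (C0 : ℕ) :
    ∃ C : ℕ, ∀ (N : ℕ) (S : Set (ℤ × ℤ)) (v : ℤ × ℤ), 1 ≤ N → v.1.natAbs ≤ N → v.2.natAbs ≤ N →
      BaseRl ρ Z L F S N C0 v → Rl ρ Z S N C (i.shift v) := by
  classical
  induction h with
  | baseSite h => exact ⟨C0, fun N S v _ _ _ hB => hB.1 _ h⟩
  | baseLine h => exact ⟨C0, fun N S v _ _ _ hB => hB.2 _ _ h⟩
  | @ofLine o a b _ ih =>
    obtain ⟨C, hC⟩ := ih
    refine ⟨C, fun N S v h1 h2 h3 hB => ?_⟩
    have := hC N S v h1 h2 h3 hB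
    change ∀ b, _ at this
    have h4 := this (b + crd (!o) v)
    change Rl ρ Z S N C (.site (pt o a b + v))
    rw [show pt o a b + v = pt o (a + crd o v) (b + crd (!o) v) by
      rw [← pt_add, pt_crd], Rl.site_iff]
    exact h4
  | @siteStep o a b U V hU hV _ _ hb ihU ihV =>
    obtain ⟨C1, h1⟩ := exists_uniform (P := fun a' C => ∀ (N : ℕ) (S : Set (ℤ × ℤ)) (v : ℤ × ℤ),
      1 ≤ N → v.1.natAbs ≤ N → v.2.natAbs ≤ N →
      BaseRl ρ Z L F S N C0 v → Rl ρ Z S N C ((Item.site (pt o a' b)).shift v))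
      (fun a' c c' hc hP N S v h1 h2 h3 hB => (hP N S v h1 h2 h3 hB).mono hc) U ihU
    obtain ⟨C2, h2⟩ := exists_uniform (P := fun b' C => ∀ (N : ℕ) (S : Set (ℤ × ℤ)) (v : ℤ × ℤ),
      1 ≤ N → v.1.natAbs ≤ N → v.2.natAbs ≤ N →
      BaseRl ρ Z L F S N C0 v → Rl ρ Z S N C ((Item.site (pt o a b')).shift v))
      (fun a' c c' hc hP N S v h1 h2 h3 hB => (hP N S v h1 h2 h3 hB).mono hc) V ihV
    refine ⟨(C1 + C2) * (1 + ρ) + 1, fun N S v hN hv1 hv2 hB => ?_⟩
    change Rl ρ Z S N _ (.site (pt o a b + v))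
    have e : ∀ a b, pt o a b + v = pt o (a + crd o v) (b + crd (!o) v) := by
      intro a b
      rw [← pt_add, pt_crd]
    rw [e, Rl.site_iff]
    have hpos : 1 ≤ ((C1 + C2) * (1 + ρ) + 1) *
        (N + (a + crd o v).natAbs + (b + crd (!o) v).natAbs) := by
      apply Nat.mul_pos
      · omega
      · omega
    obtain ⟨t, ht⟩ := Nat.exists_eq_succ_of_ne_zero (Nat.one_le_iff_ne_zero.1 hpos)
    rw [ht]
    have hbig : (C1 + C2) * (N + (a + crd o v).natAbs + (b + crd (!o) v).natAbs + ρ) ≤ t := by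
      have hM : 1 ≤ N + (a + crd o v).natAbs + (b + crd (!o) v).natAbs := by omega
      generalize N + (a + crd o v).natAbs + (b + crd (!o) v).natAbs = M at *
      have h5 : (C1 + C2) * (M + ρ) + 1 ≤ ((C1 + C2) * (1 + ρ) + 1) * M := by
        have h6 : M + ρ ≤ (1 + ρ) * M := by nlinarith
        calc (C1 + C2) * (M + ρ) + 1 ≤ (C1 + C2) * ((1 + ρ) * M) + M := by
              have := Nat.mul_le_mul_left (C1 + C2) h6
              omega
          _ = ((C1 + C2) * (1 + ρ) + 1) * M := by ring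
      omega
    refine mem_evolve_succ hZ o (U.map (addRightEmbedding (crd o v)))
      (V.map (addRightEmbedding (crd (!o) v))) ?_ ?_ (by simpa using hb)
    · intro a' ha'
      rw [Finset.mem_map] at ha'
      obtain ⟨a0, ha0, rfl⟩ := ha'
      have hh := hU a0 ha0
      simp only [addRightEmbedding_apply]
      refine ⟨by simpa using hh, ?_⟩
      have h3 := h1 a0 ha0 N S v hN hv1 hv2 hB
      change Rl ρ Z S N C1 (.site (pt o a0 b + v)) at h3
      rw [e, Rl.site_iff] at h3
      refine evolve_mono ρ Z S (le_trans ?_ hbig) h3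
      refine Nat.mul_le_mul (by omega) ?_
      rw [abs_le] at hh
      omega
    · intro a' ha'
      rw [Finset.mem_map] at ha'
      obtain ⟨a0, ha0, rfl⟩ := ha'
      have hh := hV a0 ha0
      simp only [addRightEmbedding_apply]
      refine ⟨by simpa using hh, ?_⟩
      have h3 := h2 a0 ha0 N S v hN hv1 hv2 hB
      change Rl ρ Z S N C2 (.site (pt o a a0 + v)) at h3
      rw [e, Rl.site_iff] at h3
      refine evolve_mono ρ Z S (le_trans ?_ hbig) h3
      refine Nat.mul_le_mul (by omega) ?_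
      rw [abs_le] at hh
      omega
  | @lineStep o a b U hU _ _ hb ihU ihS =>
    obtain ⟨C1, h1⟩ := exists_uniform (P := fun a' C => ∀ (N : ℕ) (S : Set (ℤ × ℤ)) (v : ℤ × ℤ),
      1 ≤ N → v.1.natAbs ≤ N → v.2.natAbs ≤ N →
      BaseRl ρ Z L F S N C0 v → Rl ρ Z S N C ((Item.line o a').shift v))
      (fun a' c c' hc hP N S v h1 h2 h3 hB => (hP N S v h1 h2 h3 hB).mono hc) U ihU
    obtain ⟨C2, h2⟩ := exists_uniform (P := fun j C => ∀ (N : ℕ) (S : Set (ℤ × ℤ)) (v : ℤ × ℤ),
      1 ≤ N → v.1.natAbs ≤ N → v.2.natAbs ≤ N →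
      BaseRl ρ Z L F S N C0 v → Rl ρ Z S N C ((Item.site (pt o a (b + (j : ℕ)))).shift v))
      (fun a' c c' hc hP N S v h1 h2 h3 hB => (hP N S v h1 h2 h3 hB).mono hc) (Finset.range ρ)
      (fun j hj => ihS j (Finset.mem_range.1 hj))
    set K : ℕ := C1 + C2 + 1 with hK
    refine ⟨K * (7 + 2 * ρ + 3 * b.natAbs), fun N S v hN hv1 hv2 hB => ?_⟩
    intro b'
    have e : ∀ a b, pt o a b + v = pt o (a + crd o v) (b + crd (!o) v) := by
      intro a b
      rw [← pt_add, pt_crd]
    set A := a + crd o v with hA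
    set B := b + crd (!o) v with hB'
    have hBN : B.natAbs ≤ b.natAbs + N := by
      have : (crd (!o) v).natAbs ≤ N := by cases o <;> simpa
      omega
    -- the sites of the initial run
    have hrun : ∀ j : ℕ, j < ρ → pt o A (B + j) ∈
        evolve ρ Z S (K * (N + A.natAbs + B.natAbs + 2 * ρ)) := by
      intro j hj
      have h3 := h2 j (Finset.mem_range.2 hj) N S v hN hv1 hv2 hB
      change Rl ρ Z S N C2 (.site (pt o a (b + (j : ℕ)) + v)) at h3
      rw [e, Rl.site_iff, ← hA, show b + (j : ℤ) + crd (!o) v = B + j by rw [hB']; ring] at h3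
      refine evolve_mono ρ Z S ?_ h3
      exact Nat.mul_le_mul (by omega) (by omega)
    have hlines : ∀ a' ∈ U, ∀ c : ℤ, pt o (a' + crd o v) c ∈
        evolve ρ Z S (K * (N + A.natAbs + c.natAbs + ρ)) := by
      intro a' ha' c
      have h3 := h1 a' ha' N S v hN hv1 hv2 hB
      have h4 : pt o (a' + crd o v) c ∈ evolve ρ Z S (C1 * (N + (a' + crd o v).natAbs + c.natAbs)) :=
        h3 c
      refine evolve_mono ρ Z S ?_ h4
      have hh := hU a' ha'
      rw [abs_le] at hh
      exact Nat.mul_le_mul (by omega) (by omega)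
    -- spreading from the run
    have key : ∀ k : ℕ, ∀ c : ℤ, B - k ≤ c → c < B + ρ + k → pt o A c ∈
        evolve ρ Z S (K * (N + A.natAbs + B.natAbs + 2 * ρ + k) + k) := by
      intro k
      induction k with
      | zero =>
        intro c hc1 hc2
        have h5 := hrun (c - B).toNat (by omega)
        rw [show B + (((c - B).toNat : ℕ) : ℤ) = c by omega] at h5
        exact h5
      | succ k ih =>
        intro c hc1 hc2
        by_cases hin : B - k ≤ c ∧ c < B + ρ + k
        · refine evolve_mono ρ Z S ?_ (ih c hin.1 hin.2)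
          have := Nat.mul_le_mul_left K (show N + A.natAbs + B.natAbs + 2 * ρ + k ≤
            N + A.natAbs + B.natAbs + 2 * ρ + (k + 1) by omega)
          omega
        · have hb2 : bad Z o (U.map (addRightEmbedding (crd o v))).card
              (Finset.Icc (1 : ℤ) ρ).card := by simpa using hb
          have hU' : ∀ a' ∈ U.map (addRightEmbedding (crd o v)), |a' - A| ≤ (ρ : ℤ) ∧
              pt o a' c ∈ evolve ρ Z S (K * (N + A.natAbs + B.natAbs + 2 * ρ + (k + 1)) + k) := by
            intro a' ha'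
            rw [Finset.mem_map] at ha'
            obtain ⟨a0, ha0, rfl⟩ := ha'
            have hh := hU a0 ha0
            simp only [addRightEmbedding_apply]
            refine ⟨by rw [hA]; simpa using hh, ?_⟩
            refine evolve_mono ρ Z S ?_ (hlines a0 ha0 c)
            have := Nat.mul_le_mul_left K (show N + A.natAbs + c.natAbs + ρ ≤
              N + A.natAbs + B.natAbs + 2 * ρ + (k + 1) by omega)
            omega
          have hcase : c = B - (k + 1) ∨ c = B + ρ + k := by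
            push_cast at hc1 hc2
            by_cases h6 : B - k ≤ c
            · right
              have : ¬ c < B + ρ + k := fun h7 => hin ⟨h6, h7⟩
              omega
            · left
              omega
          rcases hcase with hc | hc
          · have := mem_evolve_succ hZ (ξ := S) (t := K * (N + A.natAbs + B.natAbs + 2 * ρ + (k + 1)) + k) o
              (a := A) (b := c) (U.map (addRightEmbedding (crd o v)))
              ((Finset.Icc (1 : ℤ) ρ).map (addRightEmbedding c)) hU' ?_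
              (by rw [Finset.card_map (addRightEmbedding c)]; exact hb2)
            · exact this
            · intro b'' hb''
              rw [Finset.mem_map] at hb''
              obtain ⟨x, hx, rfl⟩ := hb''
              rw [Finset.mem_Icc] at hx
              simp only [addRightEmbedding_apply]
              refine ⟨by rw [abs_le]; constructor <;> linarith [hx.1, hx.2], ?_⟩
              refine evolve_mono ρ Z S ?_ (ih (x + c) (by omega) (by omega))
              have := Nat.mul_le_mul_left K (show N + A.natAbs + B.natAbs + 2 * ρ + k ≤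
                N + A.natAbs + B.natAbs + 2 * ρ + (k + 1) by omega)
              omega
          · have := mem_evolve_succ hZ (ξ := S) (t := K * (N + A.natAbs + B.natAbs + 2 * ρ + (k + 1)) + k) o
              (a := A) (b := c) (U.map (addRightEmbedding (crd o v)))
              ((Finset.Icc (1 : ℤ) ρ).map (addRightEmbedding (c - ρ - 1))) hU' ?_
              (by rw [Finset.card_map (addRightEmbedding (c - ρ - 1))]; exact hb2)
            · exact this
            · intro b'' hb''
              rw [Finset.mem_map] at hb''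
              obtain ⟨x, hx, rfl⟩ := hb''
              rw [Finset.mem_Icc] at hx
              simp only [addRightEmbedding_apply]
              refine ⟨by rw [abs_le]; constructor <;> linarith [hx.1, hx.2], ?_⟩
              refine evolve_mono ρ Z S ?_ (ih (x + (c - ρ - 1)) (by omega) (by omega))
              have := Nat.mul_le_mul_left K (show N + A.natAbs + B.natAbs + 2 * ρ + k ≤
                N + A.natAbs + B.natAbs + 2 * ρ + (k + 1) by omega)
              omega
    have hfin := key ((b' - B).natAbs + 1) b' (by omega) (by omega)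
    refine evolve_mono ρ Z S ?_ hfin
    have h7 : N + A.natAbs + B.natAbs + 2 * ρ + ((b' - B).natAbs + 1) ≤
        (5 + 2 * ρ + 2 * b.natAbs) * (N + A.natAbs + b'.natAbs) := by
      have h8 : (b' - B).natAbs ≤ b'.natAbs + B.natAbs := by omega
      have h9 : 2 * ρ ≤ 2 * ρ * N := Nat.le_mul_of_pos_right _ hN
      have h10 : 2 * b.natAbs ≤ 2 * b.natAbs * N := Nat.le_mul_of_pos_right _ hN
      have h11 : (5 + 2 * ρ + 2 * b.natAbs) * (N + A.natAbs + b'.natAbs) =
        5 * N + 2 * ρ * N + 2 * b.natAbs * N +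
        (5 + 2 * ρ + 2 * b.natAbs) * A.natAbs + (5 + 2 * ρ + 2 * b.natAbs) * b'.natAbs := by ring
      have h12 : 4 * A.natAbs ≤ (5 + 2 * ρ + 2 * b.natAbs) * A.natAbs :=
        Nat.mul_le_mul_right _ (by omega)
      have h13 : 4 * b'.natAbs ≤ (5 + 2 * ρ + 2 * b.natAbs) * b'.natAbs :=
        Nat.mul_le_mul_right _ (by omega)
      omega
    have h8 : (b' - B).natAbs + 1 ≤ (2 + b.natAbs) * (N + A.natAbs + b'.natAbs) := by
      have h10 : b.natAbs ≤ b.natAbs * N := Nat.le_mul_of_pos_right _ hN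
      have h11 : (2 + b.natAbs) * (N + A.natAbs + b'.natAbs) =
        2 * N + b.natAbs * N + (2 + b.natAbs) * A.natAbs + (2 + b.natAbs) * b'.natAbs := by ring
      have h12 : b'.natAbs ≤ (2 + b.natAbs) * b'.natAbs := Nat.le_mul_of_pos_left _ (by omega)
      omega
    have h9 : (b' - B).natAbs + 1 ≤ K * ((2 + b.natAbs) * (N + A.natAbs + b'.natAbs)) :=
      le_trans h8 (Nat.le_mul_of_pos_left _ (by omega))
    calc K * (N + A.natAbs + B.natAbs + 2 * ρ + ((b' - B).natAbs + 1)) + ((b' - B).natAbs + 1)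
        ≤ K * ((5 + 2 * ρ + 2 * b.natAbs) * (N + A.natAbs + b'.natAbs)) +
          K * ((2 + b.natAbs) * (N + A.natAbs + b'.natAbs)) := by
          have := Nat.mul_le_mul_left K h7
          omega
      _ = K * (7 + 2 * ρ + 3 * b.natAbs) * (N + A.natAbs + b'.natAbs) := by ring

end Pool.Agent.MP_e7dab6_pr
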