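import Pool.Agent.Lib.MP_e7dab6_pr.ClosedQ

/-!
# The deterministic theorem: a sparse set has a thin closed superset
-/

set_option autoImplicit false

namespace Pool.Agent.MP_e7dab6_pr

/-! ### Constants -/

def cm0 (ρ K0 K : ℕ) : ℕ := (2 * ρ + 1) * (K0 * K)
def cmh (ρ K0 K : ℕ) : ℕ := 2 * cm0 ρ K0 K + 1
def cw (ρ K0 K : ℕ) : ℤ := 2 * ρ * cmh ρ K0 K
def cR (ρ K0 K : ℕ) : ℤ := 2 * cw ρ K0 K + 2 * ρ
def cDc (ρ K0 K : ℕ) : ℤ := 2 * cw ρ K0 K + K * cR ρ K0 K + 2 * ρ
def cL (ρ K0 K : ℕ) : ℤ := cDc ρ K0 K * cmh ρ K0 K + 2 * (cw ρ K0 K + K * cR ρ K0 K)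

section
variable (ρ K0 K : ℕ)

lemma cw_nonneg : 0 ≤ cw ρ K0 K := by unfold cw; positivity
lemma cR_nonneg : 0 ≤ cR ρ K0 K := by
  have := cw_nonneg ρ K0 K
  unfold cR; positivity
lemma KR_nonneg : 0 ≤ (K : ℤ) * cR ρ K0 K := by
  have := cR_nonneg ρ K0 K
  positivity
lemma cDc_nonneg : 0 ≤ cDc ρ K0 K := by
  have := cw_nonneg ρ K0 K
  have := KR_nonneg ρ K0 K
  unfold cDc; positivity
lemma cmh_pos : 1 ≤ cmh ρ K0 K := by unfold cmh; omega
lemma cm0_le : cm0 ρ K0 K ≤ cmh ρ K0 K := by unfold cmh; omega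
lemma cDc_le_mul : cDc ρ K0 K ≤ cDc ρ K0 K * cmh ρ K0 K := by
  have h1 := cDc_nonneg ρ K0 K
  have h2 : (1 : ℤ) ≤ cmh ρ K0 K := by exact_mod_cast cmh_pos ρ K0 K
  nlinarith

end

/-! ### Sparse sets -/

/-- Every small subset of `S` covered by root zones and intervals of length `L` has at most as
many sites as the weights of the intervals allow. -/
def SparseAt (g0 : Bool → ℝ) (Kp : ℕ) (L : ℤ) (S : Set (ℤ × ℤ)) (R0 : Bool → Set ℤ) : Prop :=
  ∀ F : Finset (ℤ × ℤ), (F : Set (ℤ × ℤ)) ⊆ S → F.card ≤ Kp → ∀ A : Bool → Finset ℤ,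
    (∀ z ∈ F, ∀ o, crd o z ∈ R0 o ∨ ∃ a ∈ A o, a ≤ crd o z ∧ crd o z ≤ a + L) →
    (F.card : ℝ) ≤ g0 true * (A true).card + g0 false * (A false).card

/-- Root zone around `x` in direction `o`. -/
def rootZone (L : ℤ) (o : Bool) (x : ℤ) : Bool → Set ℤ :=
  fun o' => if o' = o then Set.Icc (x - 2 * L) (x + 2 * L) else ∅

/-! ### Nodes and edges -/

section
variable (ρ : ℕ) (K0 K : ℕ) (Pa : Finset (Finset (ℤ × ℤ))) (st : Bool → Finset ℤ)

noncomputable def nodeL (o : Bool) (x : ℤ) : ℤ := rep (cDc ρ K0 K) (st o) x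

noncomputable def nodeP (o : Bool) (P : Finset (ℤ × ℤ)) : ℤ := by
  classical
  exact if h : ∃ a ∈ st o, near (cw ρ K0 K) P o a then nodeL ρ K0 K st o h.choose
    else if hn : (cols o P).Nonempty then (cols o P).min' hn else 0

noncomputable def EE : Finset Ed :=
  Pa.image (fun P => (P, nodeP ρ K0 K st true P, nodeP ρ K0 K st false P)) ∪
    ((insert 0 ((st true).image (nodeL ρ K0 K st true))) ×ˢ
      (insert 0 ((st false).image (nodeL ρ K0 K st false)))).image (fun c => (∅, c.1, c.2))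

variable {ρ K0 K Pa st}

lemma mem_EE {e : Ed} : e ∈ EE ρ K0 K Pa st ↔
    (∃ P ∈ Pa, e = (P, nodeP ρ K0 K st true P, nodeP ρ K0 K st false P)) ∨
    (lb e = ∅ ∧ (∀ o, nd e o = 0 ∨ ∃ x ∈ st o, nd e o = nodeL ρ K0 K st o x)) := by
  unfold EE
  rw [Finset.mem_union, Finset.mem_image, Finset.mem_image]
  constructor
  · rintro (⟨P, hP, rfl⟩ | ⟨c, hc, rfl⟩)
    · exact Or.inl ⟨P, hP, rfl⟩
    · right
      rw [Finset.mem_product, Finset.mem_insert, Finset.mem_insert, Finset.mem_image,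
        Finset.mem_image] at hc
      refine ⟨rfl, fun o => ?_⟩
      cases o
      · rcases hc.2 with h | ⟨x, hx, h⟩
        · exact Or.inl h
        · exact Or.inr ⟨x, hx, h.symm⟩
      · rcases hc.1 with h | ⟨x, hx, h⟩
        · exact Or.inl h
        · exact Or.inr ⟨x, hx, h.symm⟩
  · rintro (⟨P, hP, rfl⟩ | ⟨h1, h2⟩)
    · exact Or.inl ⟨P, hP, rfl⟩
    · right
      obtain ⟨F, c1, c2⟩ := e
      simp only [lb] at h1
      subst h1
      refine ⟨(c1, c2), ?_, rfl⟩
      rw [Finset.mem_product, Finset.mem_insert, Finset.mem_insert, Finset.mem_image,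
        Finset.mem_image]
      constructor
      · rcases h2 true with h | ⟨x, hx, h⟩
        · exact Or.inl h
        · exact Or.inr ⟨x, hx, h.symm⟩
      · rcases h2 false with h | ⟨x, hx, h⟩
        · exact Or.inl h
        · exact Or.inr ⟨x, hx, h.symm⟩

lemma nd_part (o : Bool) (P : Finset (ℤ × ℤ)) :
    nd ((P, nodeP ρ K0 K st true P, nodeP ρ K0 K st false P) : Ed) o =
      nodeP ρ K0 K st o P := by
  cases o <;> rfl

/-- Width of a tight part. -/
lemma tight_width {P : Finset (ℤ × ℤ)} (ht : Tight (cR ρ K0 K) P) (hc : P.card ≤ K) (o : Bool)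
    {z z' : ℤ × ℤ} (hz : z ∈ P) (hz' : z' ∈ P) : crd o z ≤ crd o z' + K * cR ρ K0 K := by
  have h1 := ht o z hz z' hz'
  have h2 : (P.card : ℤ) ≤ K := by exact_mod_cast hc
  have h3 := cR_nonneg ρ K0 K
  nlinarith

lemma near_conn {P : Finset (ℤ × ℤ)} (ht : Tight (cR ρ K0 K) P) (hc : P.card ≤ K) {o : Bool}
    {a b : ℤ} (ha : near (cw ρ K0 K) P o a) (hb : near (cw ρ K0 K) P o b) :
    |a - b| ≤ cDc ρ K0 K := by
  obtain ⟨⟨z1, hz1, h1⟩, ⟨z2, hz2, h2⟩⟩ := ha
  obtain ⟨⟨z3, hz3, h3⟩, ⟨z4, hz4, h4⟩⟩ := hb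
  have h5 := tight_width ht hc o hz2 hz3
  have h6 := tight_width ht hc o hz4 hz1
  unfold cDc
  rw [abs_le]
  constructor <;> linarith

lemma nodeP_eq {P : Finset (ℤ × ℤ)} (ht : Tight (cR ρ K0 K) P) (hc : P.card ≤ K) {o : Bool}
    {a : ℤ} (ha : a ∈ st o) (hn : near (cw ρ K0 K) P o a) :
    nodeP ρ K0 K st o P = nodeL ρ K0 K st o a := by
  classical
  have h : ∃ a ∈ st o, near (cw ρ K0 K) P o a := ⟨a, ha, hn⟩
  unfold nodeP
  rw [dif_pos h]
  have hs := h.choose_spec
  exact rep_eq hs.1 ha (conn_of_near (by exact_mod_cast hs.1) (by exact_mod_cast ha)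
    (near_conn ht hc hs.2 hn))

/-- All sites of a part lie in the window of its node. -/
lemma part_window (hcomp : ∀ o, CompLe (cDc ρ K0 K) (st o) (cmh ρ K0 K)) {P : Finset (ℤ × ℤ)}
    (ht : Tight (cR ρ K0 K) P) (hc : P.card ≤ K) (o : Bool) {z : ℤ × ℤ} (hz : z ∈ P) :
    nodeP ρ K0 K st o P - (cw ρ K0 K + K * cR ρ K0 K) ≤ crd o z ∧
      crd o z ≤ nodeP ρ K0 K st o P - (cw ρ K0 K + K * cR ρ K0 K) + cL ρ K0 K := by
  classical
  have hw := cw_nonneg ρ K0 K
  have hKR := KR_nonneg ρ K0 K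
  have hD := cDc_nonneg ρ K0 K
  have hDm := cDc_le_mul ρ K0 K
  by_cases h : ∃ a ∈ st o, near (cw ρ K0 K) P o a
  · obtain ⟨a, ha, hn⟩ := h
    rw [nodeP_eq ht hc ha hn]
    have h1 := rep_mem (d := cDc ρ K0 K) ha
    have h2 : nodeL ρ K0 K st o a ≤ a := by
      unfold nodeL rep
      rw [dif_pos ⟨a, self_mem_comp ha⟩]
      exact Finset.min'_le _ _ (self_mem_comp ha)
    rw [mem_comp] at h1
    have h3 := (hcomp o).diam hD ha h1.1 h1.2
    rw [abs_le] at h3
    obtain ⟨⟨z1, hz1, h4⟩, ⟨z2, hz2, h5⟩⟩ := hn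
    have h6 := tight_width ht hc o hz hz1
    have h7 := tight_width ht hc o hz2 hz
    unfold cL
    have h8 : a - nodeL ρ K0 K st o a ≤ cDc ρ K0 K * cmh ρ K0 K := h3.2
    constructor <;> linarith
  · have hne : (cols o P).Nonempty := ⟨crd o z, mem_cols.2 ⟨z, hz, rfl⟩⟩
    unfold nodeP
    rw [dif_neg h, dif_pos hne]
    have h1 : (cols o P).min' hne ≤ crd o z := Finset.min'_le _ _ (mem_cols.2 ⟨z, hz, rfl⟩)
    obtain ⟨z', hz', h2⟩ := mem_cols.1 (Finset.min'_mem (cols o P) hne)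
    have h3 := tight_width ht hc o hz hz'
    unfold cL
    constructor <;> linarith

/-- All lines of a node lie in its window. -/
lemma line_window (hcomp : ∀ o, CompLe (cDc ρ K0 K) (st o) (cmh ρ K0 K)) {o : Bool} {x : ℤ}
    (hx : x ∈ st o) : nodeL ρ K0 K st o x - (cw ρ K0 K + K * cR ρ K0 K) ≤ x ∧
      x ≤ nodeL ρ K0 K st o x - (cw ρ K0 K + K * cR ρ K0 K) + cL ρ K0 K := by
  have hw := cw_nonneg ρ K0 K
  have hKR := KR_nonneg ρ K0 K
  have hD := cDc_nonneg ρ K0 K
  have h1 := rep_mem (d := cDc ρ K0 K) hx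
  have h2 : nodeL ρ K0 K st o x ≤ x := by
    unfold nodeL rep
    rw [dif_pos ⟨x, self_mem_comp hx⟩]
    exact Finset.min'_le _ _ (self_mem_comp hx)
  rw [mem_comp] at h1
  have h3 := (hcomp o).diam hD hx h1.1 h1.2
  rw [abs_le] at h3
  have h8 : x - nodeL ρ K0 K st o x ≤ cDc ρ K0 K * cmh ρ K0 K := h3.2
  unfold cL
  constructor <;> linarith

end

/-- The section of a set of nodes. -/
def sec (W : Finset (Bool × ℤ)) (o : Bool) : Finset ℤ := (W.filter (fun v => v.1 = o)).image Prod.snd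

lemma mem_sec {W : Finset (Bool × ℤ)} {o : Bool} {c : ℤ} : c ∈ sec W o ↔ (o, c) ∈ W := by
  unfold sec
  rw [Finset.mem_image]
  constructor
  · rintro ⟨⟨o', c'⟩, h1, h2⟩
    rw [Finset.mem_filter] at h1
    simp only at h1 h2
    obtain ⟨h3, h4⟩ := h1
    subst h4 h2
    exact h3
  · intro h
    exact ⟨(o, c), Finset.mem_filter.2 ⟨h, rfl⟩, rfl⟩

lemma sum_sec (g0 : Bool → ℝ) (W : Finset (Bool × ℤ)) :
    ∑ v ∈ W, g0 v.1 = g0 true * (sec W true).card + g0 false * (sec W false).card := by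
  have hc : ∀ o, (sec W o).card = (W.filter (fun v => v.1 = o)).card := by
    intro o
    unfold sec
    apply Finset.card_image_of_injOn
    intro v hv v' hv' h
    rw [Finset.mem_coe, Finset.mem_filter] at hv hv'
    exact Prod.ext (hv.2.trans hv'.2.symm) h
  have h1 : ∑ v ∈ W, g0 v.1 = ∑ v ∈ W.filter (fun v => v.1 = true), g0 v.1 +
      ∑ v ∈ W.filter (fun v => v.1 = false), g0 v.1 := by
    rw [← Finset.sum_filter_add_sum_filter_not W (fun v => v.1 = true)]
    congr 2
    ext v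
    simp
  rw [h1, hc, hc]
  have h2 : ∀ o, ∑ v ∈ W.filter (fun v => v.1 = o), g0 v.1 =
      g0 o * ((W.filter (fun v => v.1 = o)).card : ℝ) := by
    intro o
    rw [Finset.sum_congr rfl (fun v hv => by rw [(Finset.mem_filter.1 hv).2]), Finset.sum_const,
      nsmul_eq_mul, mul_comm]
  rw [h2, h2]

section
variable {ρ K0 K : ℕ} {Pa : Finset (Finset (ℤ × ℤ))} {st : Bool → Finset ℤ} {g0 g g2 : Bool → ℝ}
  {κ : ℝ} {S : Finset (ℤ × ℤ)}

lemma lb_card_le (hPa : Partn (cR ρ K0 K) K S Pa) {e : Ed} (he : e ∈ EE ρ K0 K Pa st) :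
    (lb e).card ≤ K := by
  rcases mem_EE.1 he with ⟨P, hP, rfl⟩ | ⟨h, -⟩
  · exact hPa.card P hP
  · rw [h]; simp

lemma lb_sub (hPa : Partn (cR ρ K0 K) K S Pa) {e : Ed} (he : e ∈ EE ρ K0 K Pa st) :
    lb e ⊆ S := by
  rcases mem_EE.1 he with ⟨P, hP, rfl⟩ | ⟨h, -⟩
  · exact hPa.sub P hP
  · rw [h]; simp

lemma lb_disj (hPa : Partn (cR ρ K0 K) K S Pa) {e e' : Ed} (he : e ∈ EE ρ K0 K Pa st)
    (he' : e' ∈ EE ρ K0 K Pa st) (hne : e ≠ e') : Disjoint (lb e) (lb e') := by
  rcases mem_EE.1 he with ⟨P, hP, rfl⟩ | ⟨h, -⟩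
  · rcases mem_EE.1 he' with ⟨P', hP', rfl⟩ | ⟨h', -⟩
    · refine hPa.disj P hP P' hP' ?_
      rintro rfl
      exact hne rfl
    · rw [h']; simp
  · rw [h]; simp

lemma lb_window (hPa : Partn (cR ρ K0 K) K S Pa)
    (hcomp : ∀ o, CompLe (cDc ρ K0 K) (st o) (cmh ρ K0 K)) {e : Ed}
    (he : e ∈ EE ρ K0 K Pa st) {z : ℤ × ℤ} (hz : z ∈ lb e) (o : Bool) :
    nd e o - (cw ρ K0 K + K * cR ρ K0 K) ≤ crd o z ∧
      crd o z ≤ nd e o - (cw ρ K0 K + K * cR ρ K0 K) + cL ρ K0 K := by
  rcases mem_EE.1 he with ⟨P, hP, rfl⟩ | ⟨h, -⟩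
  · rw [nd_part]
    exact part_window hcomp (hPa.tight P hP) (hPa.card P hP) o hz
  · rw [h] at hz
    simp at hz

/-- The union of the labels of a set of edges. -/
lemma card_labels (hPa : Partn (cR ρ K0 K) K S Pa) {U : Finset Ed}
    (hU : U ⊆ EE ρ K0 K Pa st) : (U.biUnion lb).card = ∑ e ∈ U, (lb e).card := by
  apply Finset.card_biUnion
  intro e he e' he' hne
  exact lb_disj hPa (hU he) (hU he') hne

lemma sparse_EE (hPa : Partn (cR ρ K0 K) K S Pa)
    (hcomp : ∀ o, CompLe (cDc ρ K0 K) (st o) (cmh ρ K0 K))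
    (hs : SparseAt g0 (2 * K0 * K) (cL ρ K0 K) S (fun _ => ∅)) :
    ∀ U ⊆ EE ρ K0 K Pa st, U.card ≤ 2 * K0 →
      ∑ e ∈ U, ((lb e).card : ℝ) ≤ ∑ v ∈ verts U, g0 v.1 := by
  intro U hU hcard
  have h1 := card_labels hPa hU
  have h2 : (U.biUnion lb).card ≤ 2 * K0 * K := by
    rw [h1]
    refine (Finset.sum_le_card_nsmul U _ K (fun e he => lb_card_le hPa (hU he))).trans ?_
    rw [smul_eq_mul]
    exact Nat.mul_le_mul_right _ hcard
  have h3 := hs (U.biUnion lb) (by
    intro z hz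
    rw [Finset.mem_coe, Finset.mem_biUnion] at hz
    obtain ⟨e, he, hz⟩ := hz
    exact_mod_cast lb_sub hPa (hU he) hz) h2
    (fun o => (sec (verts U) o).image (fun c => c - (cw ρ K0 K + K * cR ρ K0 K))) (by
    intro z hz o
    rw [Finset.mem_biUnion] at hz
    obtain ⟨e, he, hz⟩ := hz
    right
    refine ⟨nd e o - (cw ρ K0 K + K * cR ρ K0 K), ?_, lb_window hPa hcomp (hU he) hz o⟩
    rw [Finset.mem_image]
    exact ⟨nd e o, mem_sec.2 (mem_verts_of_mem he o), rfl⟩)
  have hinj : ∀ o, ((sec (verts U) o).image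
      (fun c => c - (cw ρ K0 K + K * cR ρ K0 K))).card = (sec (verts U) o).card := fun o =>
    Finset.card_image_of_injective _ (fun a b h => by simpa using h)
  rw [hinj, hinj, ← sum_sec, h1] at h3
  push_cast at h3
  exact h3

lemma sparse_root (hPa : Partn (cR ρ K0 K) K S Pa)
    (hcomp : ∀ o, CompLe (cDc ρ K0 K) (st o) (cmh ρ K0 K)) {o : Bool} {x x1 : ℤ}
    (hs : SparseAt g0 (2 * K0 * K) (cL ρ K0 K) S (rootZone (cL ρ K0 K) o x)) (hx1 : x1 ∈ st o)
    (hxx : |x1 - x| ≤ cL ρ K0 K) :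
    ∀ U ⊆ EE ρ K0 K Pa st, U.card ≤ 2 * K0 →
      ∑ e ∈ U, ((lb e).card : ℝ) + g0 o ≤
        ∑ v ∈ insert (o, nodeL ρ K0 K st o x1) (verts U), g0 v.1 := by
  classical
  intro U hU hcard
  set c := nodeL ρ K0 K st o x1 with hc
  set W := insert (o, c) (verts U) with hW
  set s := cw ρ K0 K + K * cR ρ K0 K with hs'
  have h1 := card_labels hPa hU
  have h2 : (U.biUnion lb).card ≤ 2 * K0 * K := by
    rw [h1]
    refine (Finset.sum_le_card_nsmul U _ K (fun e he => lb_card_le hPa (hU he))).trans ?_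
    rw [smul_eq_mul]
    exact Nat.mul_le_mul_right _ hcard
  set A : Bool → Finset ℤ := fun o' => if o' = o then ((sec W o').erase c).image (fun c => c - s)
    else (sec W o').image (fun c => c - s) with hA
  have h3 := hs (U.biUnion lb) (by
    intro z hz
    rw [Finset.mem_coe, Finset.mem_biUnion] at hz
    obtain ⟨e, he, hz⟩ := hz
    exact_mod_cast lb_sub hPa (hU he) hz) h2 A (by
    intro z hz o'
    rw [Finset.mem_biUnion] at hz
    obtain ⟨e, he, hz⟩ := hz
    have hwin := lb_window hPa hcomp (hU he) hz o'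
    have hmem : nd e o' ∈ sec W o' :=
      mem_sec.2 (Finset.mem_insert_of_mem (mem_verts_of_mem he o'))
    by_cases hoo : o' = o
    · subst hoo
      by_cases hcc : nd e o' = c
      · left
        have h4 := line_window hcomp hx1
        rw [← hc] at h4
        rw [hcc] at hwin
        simp only [rootZone, if_true, Set.mem_Icc]
        rw [abs_le] at hxx
        constructor <;> linarith [hwin.1, hwin.2, h4.1, h4.2, hxx.1, hxx.2]
      · right
        refine ⟨nd e o' - s, ?_, hwin⟩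
        simp only [hA, if_true]
        exact Finset.mem_image.2 ⟨nd e o', Finset.mem_erase.2 ⟨hcc, hmem⟩, rfl⟩
    · right
      refine ⟨nd e o' - s, ?_, hwin⟩
      simp only [hA, if_neg hoo]
      exact Finset.mem_image.2 ⟨nd e o', hmem, rfl⟩)
  have hinj : ∀ T : Finset ℤ, (T.image (fun c => c - s)).card = T.card := fun T =>
    Finset.card_image_of_injective _ (fun a b h => by simpa using h)
  have hcW : c ∈ sec W o := mem_sec.2 (Finset.mem_insert_self _ _)
  have hAo : ((A o).card : ℝ) + 1 = (sec W o).card := by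
    simp only [hA, if_true]
    rw [hinj, Finset.card_erase_of_mem hcW]
    have : 0 < (sec W o).card := Finset.card_pos.2 ⟨c, hcW⟩
    exact_mod_cast Nat.sub_add_cancel this
  have hAn : ((A (!o)).card : ℝ) = (sec W (!o)).card := by
    have hne : (!o) ≠ o := by cases o <;> simp
    simp only [hA, if_neg hne]
    rw [hinj]
  rw [sum_sec]
  have h5 : ((U.biUnion lb).card : ℝ) = ∑ e ∈ U, ((lb e).card : ℝ) := by
    rw [h1]; push_cast; rfl
  rw [h5] at h3
  cases o
  · simp only [Bool.not_false] at hAn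
    rw [hAn] at h3
    rw [← hAo]
    linarith
  · simp only [Bool.not_true] at hAn
    rw [hAn] at h3
    rw [← hAo]
    linarith

/-! ### Histories -/

/-- The lines of rank less than `k`. -/
def below (st : Bool → Finset ℤ) (rk : Bool → ℤ → ℕ) (k : ℕ) (o : Bool) : Finset ℤ :=
  (st o).filter (fun a => rk o a < k)

/-- Every line is derivable from the lines of smaller rank. -/
def Valid (ρ : ℕ) (Z : Set (ℕ × ℕ)) (K0 K : ℕ) (Pa : Finset (Finset (ℤ × ℤ)))
    (st : Bool → Finset ℤ) (rk : Bool → ℤ → ℕ) : Prop :=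
  ∀ o, ∀ x ∈ st o, StepAt ρ Z Pa (cw ρ K0 K) (cDc ρ K0 K) (below st rk (rk o x)) o x

lemma derG_of_valid {Z : Set (ℕ × ℕ)} (hPa : Partn (cR ρ K0 K) K S Pa)
    {rk : Bool → ℤ → ℕ} (hv : Valid ρ Z K0 K Pa st rk) :
    DerG ρ Z st rk (nodeL ρ K0 K st) (EE ρ K0 K Pa st) (2 * ρ) := by
  classical
  intro o x hx
  obtain ⟨-, A, F, hA, hder, hcase⟩ := hv o x hx
  have hAst : ∀ o', ∀ a ∈ A o', a ∈ st o' ∧ rk o' a < rk o x := by
    intro o' a ha
    have h1 := hA o' ha
    rw [Finset.mem_coe, below, Finset.mem_filter] at h1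
    exact h1
  rcases hcase with ⟨hF, hgap, hnx, hnear⟩ | ⟨hF, hAo, hAn⟩
  · have ht := hPa.tight F hF
    have hc := hPa.card F hF
    have hsub : ∀ o', A o' ⊆ Lk st rk (nodeL ρ K0 K st)
        ((F, nodeP ρ K0 K st true F, nodeP ρ K0 K st false F) : Ed) (rk o x) o' := by
      intro o' a ha
      obtain ⟨h1, h2⟩ := hAst o' a ha
      exact ⟨h1, by rw [nd_part, nodeP_eq ht hc h1 (hnear o' a ha)], h2⟩
    refine ⟨(F, nodeP ρ K0 K st true F, nodeP ρ K0 K st false F), mem_EE.2 (Or.inl ⟨F, hF, rfl⟩),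
      ?_, hder.mono subset_rfl hsub, Or.inr ?_⟩
    · rw [nd_part, nodeP_eq ht hc hx hnx]
    · refine Fl_mono ?_ hgap
      exact Set.union_subset_union (hsub o) subset_rfl
  · subst hF
    have hex : ∃ c : ℤ, (c = 0 ∨ ∃ b ∈ st (!o), c = nodeL ρ K0 K st (!o) b) ∧
        ∀ b ∈ A (!o), nodeL ρ K0 K st (!o) b = c := by
      by_cases hne : (A (!o)).Nonempty
      · obtain ⟨b0, hb0⟩ := hne
        refine ⟨nodeL ρ K0 K st (!o) b0, Or.inr ⟨b0, (hAst _ _ hb0).1, rfl⟩, ?_⟩
        intro b hb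
        exact rep_eq (hAst _ _ hb).1 (hAst _ _ hb0).1 (conn_of_near
          (by exact_mod_cast (hAst _ _ hb).1) (by exact_mod_cast (hAst _ _ hb0).1)
          (hAn b hb b0 hb0))
      · refine ⟨0, Or.inl rfl, fun b hb => absurd ⟨b, hb⟩ hne⟩
    obtain ⟨c, hc1, hc2⟩ := hex
    set e : Ed := (∅, cond o (nodeL ρ K0 K st o x) c, cond o c (nodeL ρ K0 K st o x)) with he
    have hndo : nd e o = nodeL ρ K0 K st o x := by cases o <;> rfl
    have hndn : nd e (!o) = c := by cases o <;> rfl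
    have hlb : lb e = ∅ := rfl
    have hsub : ∀ o', A o' ⊆ Lk st rk (nodeL ρ K0 K st) e (rk o x) o' := by
      intro o' a ha
      obtain ⟨h1, h2⟩ := hAst o' a ha
      refine ⟨h1, ?_, h2⟩
      rcases Bool.eq_or_eq_not o' o with rfl | rfl
      · rw [hndo]
        exact rep_eq h1 hx (conn_of_near (by exact_mod_cast h1) (by exact_mod_cast hx)
          (hAo a ha))
      · rw [hndn]
        exact hc2 a ha
    refine ⟨e, mem_EE.2 (Or.inr ⟨hlb, ?_⟩), hndo, ?_, Or.inl hlb⟩
    · intro o'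
      rcases Bool.eq_or_eq_not o' o with rfl | rfl
      · exact Or.inr ⟨x, hx, hndo⟩
      · rw [hndn]
        exact hc1
    · rw [hlb]
      exact hder.mono subset_rfl hsub

/-- The standing hypotheses of the deterministic theorem. -/
structure DetData (ρ : ℕ) (Z : Set (ℕ × ℕ)) (hat : Bool → ℕ) (g0 g g2 : Bool → ℝ) (κ : ℝ)
    (K0 K : ℕ) : Prop where
  hZ : IsLowerSet Z
  hρ : 1 ≤ ρ
  g0_nonneg : ∀ o, 0 ≤ g0 o
  κ_pos : 0 < κ
  g_eq : ∀ o, g o = g0 o + κ
  g2_eq : ∀ o, g2 o = g o + κ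
  K0_large : ∀ o, g o < κ * (K0 + 1)
  K_pos : 1 ≤ K
  K_large : g0 true + g0 false < K + 1
  hat_pos : ∀ o, 1 ≤ hat o
  hat_le : ∀ o, hat o ≤ ρ
  nofill : ¬ HasFill ρ Z hat g2

variable {Z : Set (ℕ × ℕ)} {hat : Bool → ℕ}

lemma DetData.covData (hd : DetData ρ Z hat g0 g g2 κ K0 K) (hPa : Partn (cR ρ K0 K) K S Pa)
    (hcomp : ∀ o, CompLe (cDc ρ K0 K) (st o) (cmh ρ K0 K))
    (hs : SparseAt g0 (2 * K0 * K) (cL ρ K0 K) S (fun _ => ∅)) :
    CovData (EE ρ K0 K Pa st) g0 g κ K0 :=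
  ⟨hd.g0_nonneg, hd.κ_pos, hd.g_eq, hd.K0_large, sparse_EE hPa hcomp hs⟩

lemma DetData.hat2 (hd : DetData ρ Z hat g0 g g2 κ K0 K) (o : Bool) :
    2 * (hat o : ℤ) ≤ 2 * ρ + 2 := by
  have h1 := hd.hat_le o
  omega

/-- All components of the lines of a valid history are small. -/
theorem valid_comp (hd : DetData ρ Z hat g0 g g2 κ K0 K) (hPa : Partn (cR ρ K0 K) K S Pa)
    (hs : SparseAt g0 (2 * K0 * K) (cL ρ K0 K) S (fun _ => ∅)) :
    ∀ (n : ℕ) (st : Bool → Finset ℤ) (rk : Bool → ℤ → ℕ), (st true).card + (st false).card = n →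
      Valid ρ Z K0 K Pa st rk → ∀ o, CompLe (cDc ρ K0 K) (st o) (cm0 ρ K0 K) := by
  classical
  intro n
  induction n with
  | zero =>
    intro st rk hn _ o a ha
    have h1 : (st o).card = 0 := by cases o <;> omega
    rw [Finset.card_eq_zero] at h1
    rw [h1] at ha
    simp at ha
  | succ n ih =>
    intro st rk hn hv
    -- a line of maximal rank
    have hex : ∃ o, ∃ x ∈ st o, ∀ o', ∀ y ∈ st o', rk o' y ≤ rk o x := by
      set T : Finset (Bool × ℤ) := (Finset.univ : Finset Bool).biUnion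
        (fun o => (st o).image (fun x => (o, x))) with hT
      have hTmem : ∀ o x, (o, x) ∈ T ↔ x ∈ st o := by
        intro o x
        cases o <;> simp [hT]
      have hTne : T.Nonempty := by
        have : 0 < (st true).card ∨ 0 < (st false).card := by omega
        rcases this with h | h
        · obtain ⟨x, hx⟩ := Finset.card_pos.1 h
          exact ⟨(true, x), (hTmem _ _).2 hx⟩
        · obtain ⟨x, hx⟩ := Finset.card_pos.1 h
          exact ⟨(false, x), (hTmem _ _).2 hx⟩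
      obtain ⟨⟨o, x⟩, hox, hmax⟩ := Finset.exists_max_image T (fun v => rk v.1 v.2) hTne
      exact ⟨o, x, (hTmem _ _).1 hox, fun o' y hy => hmax (o', y) ((hTmem _ _).2 hy)⟩
    obtain ⟨o, x, hx, hmax⟩ := hex
    set st' : Bool → Finset ℤ := fun o' => if o' = o then (st o').erase x else st o' with hst'
    have hsub : ∀ o', st' o' ⊆ st o' := by
      intro o'
      simp only [hst']
      split_ifs
      · exact Finset.erase_subset _ _
      · exact subset_rfl
    have hbelow : ∀ o', ∀ y ∈ st o', below st' rk (rk o' y) = below st rk (rk o' y) := by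
      intro o' y hy
      funext o''
      unfold below
      ext a
      rw [Finset.mem_filter, Finset.mem_filter]
      constructor
      · rintro ⟨h1, h2⟩
        exact ⟨hsub _ h1, h2⟩
      · rintro ⟨h1, h2⟩
        refine ⟨?_, h2⟩
        simp only [hst']
        split_ifs with hoo
        · subst hoo
          refine Finset.mem_erase.2 ⟨?_, h1⟩
          rintro rfl
          have := hmax o' y hy
          omega
        · exact h1
    have hv' : Valid ρ Z K0 K Pa st' rk := by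
      intro o' y hy
      have hy' := hsub o' hy
      rw [hbelow o' y hy']
      exact hv o' y hy'
    have hcard : (st' true).card + (st' false).card = n := by
      have h1 : (st' o).card = (st o).card - 1 := by
        simp only [hst', if_true]
        exact Finset.card_erase_of_mem hx
      have h2 : (st' (!o)).card = (st (!o)).card := by
        have hne : (!o) ≠ o := by cases o <;> simp
        simp only [hst', if_neg hne]
      have h3 : 0 < (st o).card := Finset.card_pos.2 ⟨x, hx⟩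
      cases o
      · simp only [Bool.not_false] at h2
        omega
      · simp only [Bool.not_true] at h2
        omega
    have hcomp' := ih st' rk hcard hv'
    have hcomp : ∀ o', CompLe (cDc ρ K0 K) (st o') (cmh ρ K0 K) := by
      intro o'
      by_cases hoo : o' = o
      · subst hoo
        have h1 := (hcomp' o').add_elem x
        have h2 : insert x (st' o') = st o' := by
          simp only [hst', if_true]
          exact Finset.insert_erase hx
        rw [h2] at h1
        exact h1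
      · have h1 : st' o' = st o' := by simp only [hst', if_neg hoo]
        rw [← h1]
        exact (hcomp' o').mono (cm0_le ρ K0 K)
    have hcov := hd.covData hPa hcomp hs
    intro o' a ha
    have h1 := node_card hd.hZ hd.hρ hcov hd.g2_eq hd.hat_pos hd.hat2 hd.nofill
      (derG_of_valid hPa hv) (fun e he => lb_card_le hPa he) o' (nodeL ρ K0 K st o' a)
    have h2 : comp (cDc ρ K0 K) (st o') a ⊆
        (st o').filter (fun x => nodeL ρ K0 K st o' x = nodeL ρ K0 K st o' a) := by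
      intro b hb
      rw [mem_comp] at hb
      rw [Finset.mem_filter]
      exact ⟨hb.1, (rep_eq ha hb.1 hb.2).symm⟩
    refine (Finset.card_le_card h2).trans (h1.trans (le_of_eq ?_))
    unfold cm0
    have : (2 * (ρ : ℤ) + 1) = ((2 * ρ + 1 : ℕ) : ℤ) := by push_cast; ring
    rw [this, Int.toNat_natCast]

/-- Lines of a valid history lie in the hull of `S`. -/
lemma valid_hull (hd : DetData ρ Z hat g0 g g2 κ K0 K) (hPa : Partn (cR ρ K0 K) K S Pa)
    (hs : SparseAt g0 (2 * K0 * K) (cL ρ K0 K) S (fun _ => ∅)) {rk : Bool → ℤ → ℕ}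
    (hv : Valid ρ Z K0 K Pa st rk) (o : Bool) (x : ℤ) (hx : x ∈ st o) :
    ∃ z ∈ S, ∃ z' ∈ S, crd o z ≤ x ∧ x ≤ crd o z' := by
  have hcomp := fun o => (valid_comp hd hPa hs _ st rk rfl hv o).mono (cm0_le ρ K0 K)
  obtain ⟨e, he, z, hz, e', he', z', hz', h1, h2⟩ := line_between hd.hZ hd.hρ
    (hd.covData hPa hcomp hs) hd.g2_eq hd.hat_pos hd.hat2 hd.nofill (derG_of_valid hPa hv) o x hx
  exact ⟨z, lb_sub hPa he hz, z', lb_sub hPa he' hz', h1, h2⟩

/-- There is a valid history to which no line can be added. -/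
theorem exists_maximal (hd : DetData ρ Z hat g0 g g2 κ K0 K) (hPa : Partn (cR ρ K0 K) K S Pa)
    (hs : SparseAt g0 (2 * K0 * K) (cL ρ K0 K) S (fun _ => ∅)) :
    ∃ (st : Bool → Finset ℤ) (rk : Bool → ℤ → ℕ), Valid ρ Z K0 K Pa st rk ∧
      ∀ o x, ¬ StepAt ρ Z Pa (cw ρ K0 K) (cDc ρ K0 K) st o x := by
  classical
  by_contra hcon
  push Not at hcon
  have hall : ∀ n : ℕ, ∃ (st : Bool → Finset ℤ) (rk : Bool → ℤ → ℕ), Valid ρ Z K0 K Pa st rk ∧
      (st true).card + (st false).card = n := by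
    intro n
    induction n with
    | zero => exact ⟨fun _ => ∅, fun _ _ => 0, fun o x hx => by simp at hx, by simp⟩
    | succ n ih =>
      obtain ⟨st, rk, hv, hn⟩ := ih
      obtain ⟨o, x, hstep⟩ := hcon st rk hv
      have hxst := hstep.1
      obtain ⟨M, hM⟩ : ∃ M : ℕ, ∀ o', ∀ y ∈ st o', rk o' y ≤ M := by
        refine ⟨max ((st true).sup (rk true)) ((st false).sup (rk false)), fun o x hx => ?_⟩
        cases o
        · exact le_trans (Finset.le_sup (f := rk false) hx) (le_max_right _ _)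
        · exact le_trans (Finset.le_sup (f := rk true) hx) (le_max_left _ _)
      set st' : Bool → Finset ℤ := fun o' => if o' = o then insert x (st o') else st o' with hst'
      set rk' : Bool → ℤ → ℕ := fun o' y => if o' = o ∧ y = x then M + 1 else rk o' y with hrk'
      have hrkx : rk' o x = M + 1 := by simp [hrk']
      have hrky : ∀ o', ∀ y ∈ st o', rk' o' y = rk o' y := by
        intro o' y hy
        have : ¬ (o' = o ∧ y = x) := by
          rintro ⟨rfl, rfl⟩
          exact hxst hy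
        simp only [hrk', if_neg this]
      have hmem : ∀ o' y, y ∈ st' o' ↔ y ∈ st o' ∨ (o' = o ∧ y = x) := by
        intro o' y
        simp only [hst']
        split_ifs with hoo
        · rw [Finset.mem_insert]
          constructor
          · rintro (h | h)
            · exact Or.inr ⟨hoo, h⟩
            · exact Or.inl h
          · rintro (h | h)
            · exact Or.inr h
            · exact Or.inl h.2
        · simp [hoo]
      have hb1 : below st' rk' (M + 1) = st := by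
        funext o'
        ext y
        rw [below, Finset.mem_filter, hmem]
        constructor
        · rintro ⟨h1 | ⟨rfl, rfl⟩, h2⟩
          · exact h1
          · omega
        · intro h
          refine ⟨Or.inl h, ?_⟩
          rw [hrky o' y h]
          have := hM o' y h
          omega
      have hb2 : ∀ o', ∀ y ∈ st o', below st' rk' (rk o' y) = below st rk (rk o' y) := by
        intro o' y hy
        funext o''
        ext w
        rw [below, Finset.mem_filter, hmem, below, Finset.mem_filter]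
        have hMy := hM o' y hy
        constructor
        · rintro ⟨h1 | ⟨rfl, rfl⟩, h2⟩
          · rw [hrky _ _ h1] at h2
            exact ⟨h1, h2⟩
          · omega
        · rintro ⟨h1, h2⟩
          exact ⟨Or.inl h1, by rw [hrky _ _ h1]; exact h2⟩
      refine ⟨st', rk', ?_, ?_⟩
      · intro o' y hy
        rcases (hmem o' y).1 hy with h | ⟨rfl, rfl⟩
        · rw [hrky o' y h, hb2 o' y h]
          exact hv o' y h
        · rw [hrkx, hb1]
          exact hstep
      · have h1 : (st' o).card = (st o).card + 1 := by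
          simp only [hst', if_true]
          exact Finset.card_insert_of_notMem hxst
        have h2 : (st' (!o)).card = (st (!o)).card := by
          have hne : (!o) ≠ o := by cases o <;> simp
          simp only [hst', if_neg hne]
        cases o
        · simp only [Bool.not_false] at h2
          omega
        · simp only [Bool.not_true] at h2
          omega
  rcases S.eq_empty_or_nonempty with hS | hS
  · obtain ⟨st, rk, hv, hn⟩ := hall 1
    have : ∃ o, ∃ x, x ∈ st o := by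
      have : 0 < (st true).card ∨ 0 < (st false).card := by omega
      rcases this with h | h
      · obtain ⟨x, hx⟩ := Finset.card_pos.1 h
        exact ⟨true, x, hx⟩
      · obtain ⟨x, hx⟩ := Finset.card_pos.1 h
        exact ⟨false, x, hx⟩
    obtain ⟨o, x, hx⟩ := this
    obtain ⟨z, hz, -⟩ := valid_hull hd hPa hs hv o x hx
    rw [hS] at hz
    simp at hz
  · set B : Bool → Finset ℤ := fun o => Finset.Icc ((S.image (crd o)).min' (hS.image _))
      ((S.image (crd o)).max' (hS.image _)) with hB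
    obtain ⟨st, rk, hv, hn⟩ := hall ((B true).card + (B false).card + 1)
    have hsub : ∀ o, st o ⊆ B o := by
      intro o x hx
      obtain ⟨z, hz, z', hz', h1, h2⟩ := valid_hull hd hPa hs hv o x hx
      rw [hB, Finset.mem_Icc]
      exact ⟨(Finset.min'_le _ _ (Finset.mem_image_of_mem _ hz)).trans h1,
        h2.trans (Finset.le_max' _ _ (Finset.mem_image_of_mem _ hz'))⟩
    have h1 := Finset.card_le_card (hsub true)
    have h2 := Finset.card_le_card (hsub false)
    omega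

/-- The deterministic theorem. -/
theorem det (hd : DetData ρ Z hat g0 g g2 κ K0 K)
    (hs : SparseAt g0 (2 * K0 * K) (cL ρ K0 K) S (fun _ => ∅)) :
    ∃ (Pa : Finset (Finset (ℤ × ℤ))) (st : Bool → Finset ℤ),
      Partn (cR ρ K0 K) K S Pa ∧ (∀ P ∈ Pa, ∀ P' ∈ Pa, P ≠ P' → Sep (cR ρ K0 K) P P') ∧
      (∀ o, CompLe (cDc ρ K0 K) (st o) (cmh ρ K0 K)) ∧
      (∃ rk, Valid ρ Z K0 K Pa st rk) ∧
      Closed ρ Z (QQ ρ Z Pa st) ∧ (S : Set (ℤ × ℤ)) ⊆ QQ ρ Z Pa st ∧
      ∀ o x, SparseAt g0 (2 * K0 * K) (cL ρ K0 K) S (rootZone (cL ρ K0 K) o x) →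
        ∀ y ∈ st o, cL ρ K0 K < |y - x| := by
  classical
  have hK0 : 1 ≤ K0 := by
    by_contra h
    have h0 : K0 = 0 := by omega
    have h1 := hd.K0_large true
    rw [h0, hd.g_eq] at h1
    have h2 := hd.g0_nonneg true
    simp at h1
    linarith
  have hmerge : ∀ P ⊆ S, Tight (cR ρ K0 K) P → P.card ≤ 2 * K → P.card ≤ K := by
    intro P hPS ht hc
    rcases P.eq_empty_or_nonempty with rfl | hne
    · simp
    set A : Bool → Finset ℤ := fun o => {(P.image (crd o)).min' (hne.image _)} with hA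
    have hRn := cR_nonneg ρ K0 K
    have hwn := cw_nonneg ρ K0 K
    have hDn := cDc_nonneg ρ K0 K
    have h1 := hs P (by exact_mod_cast hPS) (by nlinarith) A (by
      intro z hz o
      right
      refine ⟨_, Finset.mem_singleton_self _, Finset.min'_le _ _ (Finset.mem_image_of_mem _ hz), ?_⟩
      obtain ⟨z', hz', h2⟩ := Finset.mem_image.1 (Finset.min'_mem (P.image (crd o)) (hne.image _))
      have h3 := ht o z hz z' hz'
      rw [h2] at h3
      have h4 : (P.card : ℤ) ≤ 2 * K := by exact_mod_cast hc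
      have h5 : ((P.card : ℤ) - 1) * cR ρ K0 K ≤ 2 * (K * cR ρ K0 K) := by nlinarith
      have h6 : 2 * (K * cR ρ K0 K) ≤ cL ρ K0 K := by
        unfold cL
        have : 0 ≤ cDc ρ K0 K * (cmh ρ K0 K : ℤ) := by positivity
        linarith
      linarith)
    simp only [hA, Finset.card_singleton, Nat.cast_one, mul_one] at h1
    have h2 := hd.K_large
    have h3 : (P.card : ℝ) < K + 1 := by linarith
    exact Nat.lt_succ_iff.1 (by exact_mod_cast h3)
  obtain ⟨Pa, hPa, hsep⟩ := exists_partn (cR_nonneg ρ K0 K) hd.K_pos S hmerge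
  obtain ⟨st, rk, hv, hno⟩ := exists_maximal hd hPa hs
  have hcomp0 := valid_comp hd hPa hs _ st rk rfl hv
  have hcomp := fun o => (hcomp0 o).mono (cm0_le ρ K0 K)
  have hw := cw_nonneg ρ K0 K
  have hKR := KR_nonneg ρ K0 K
  refine ⟨Pa, st, hPa, hsep, hcomp, ⟨rk, hv⟩, ?_, ?_, ?_⟩
  · refine closed_QQ (D := cw ρ K0 K) (Dc := cDc ρ K0 K) (R := cR ρ K0 K) (m := cmh ρ K0 K) hd.hZ
      hd.hρ hcomp ?_ ?_ ?_ ?_ hsep hno
    · unfold cDc; linarith
    · unfold cw; linarith
    · have : 2 * (ρ : ℤ) * cmh ρ K0 K = cw ρ K0 K := rfl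
      rw [this]; unfold cDc; linarith
    · have : 2 * (ρ : ℤ) * cmh ρ K0 K = cw ρ K0 K := rfl
      rw [this]; unfold cR; linarith
  · intro z hz
    obtain ⟨P, hP, hzP⟩ := hPa.cover z (by exact_mod_cast hz)
    refine Or.inr ⟨(P, fun o => cols o P), Or.inl ⟨P, hP, rfl⟩, fun o => ?_,
      .baseSite (by exact_mod_cast hzP)⟩
    refine subset_Gs (by positivity) ?_
    exact_mod_cast mem_cols.2 ⟨z, hzP, rfl⟩
  · intro o x hsr y hy
    by_contra hcon
    push Not at hcon
    have hroot := sparse_root hPa hcomp hsr hy hcon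
    exact no_line_of_root hd.hZ hd.hρ (hd.covData hPa hcomp hs) hd.g2_eq hd.hat_pos hd.hat2
      hd.nofill (derG_of_valid hPa hv) o _ hroot y hy rfl

end

end Pool.Agent.MP_e7dab6_pr
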