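import Pool.Agent.Lib.MP_e7dab6_pr.LowerFin

/-!
# Existence of the critical power for zero-sets of finite width
-/

set_option autoImplicit false

open Filter Topology MeasureTheory

namespace Pool.Agent.MP_e7dab6_pr

lemma lower_nat {A : Set ℕ} (hA : IsLowerSet A) {n : ℕ} (h : A.encard = n) : n ∉ A := by
  intro hn
  have h1 : (Finset.range (n + 1) : Set ℕ) ⊆ A := by
    intro k hk
    rw [Finset.coe_range, Set.mem_Iio] at hk
    exact hA (by omega : k ≤ n) hn
  have h2 := Set.encard_le_encard h1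
  rw [h, Set.encard_coe_eq_coe_finsetCard, Finset.card_range] at h2
  have h3 : n + 1 ≤ n := by exact_mod_cast h2
  omega

section
variable {ρ : ℕ} {Z : Set (ℕ × ℕ)}

lemma Standing.zero_mem (h : Standing ρ Z) : ((0 : ℕ), (0 : ℕ)) ∈ Z := by
  obtain ⟨⟨u, v⟩, huv⟩ := h.nonempty
  exact h.lower (Prod.mk_le_mk.2 ⟨Nat.zero_le _, Nat.zero_le _⟩) huv

lemma Standing.exists_height (h : Standing ρ Z) : ∃ s : ℕ, 1 ≤ s ∧ s ≤ ρ ∧ height Z = s ∧
    ((0 : ℕ), s) ∉ Z := by
  obtain ⟨s, hs⟩ := ENat.ne_top_iff_exists.1 h.height_ne_top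
  refine ⟨s, ?_, ?_, hs.symm, ?_⟩
  · by_contra hcon
    have h0 : s = 0 := by omega
    rw [h0] at hs
    have h1 : {v : ℕ | ((0 : ℕ), v) ∈ Z} = ∅ := Set.encard_eq_zero.1 (by exact_mod_cast hs.symm)
    have h2 : (0 : ℕ) ∈ {v : ℕ | ((0 : ℕ), v) ∈ Z} := h.zero_mem
    rw [h1] at h2
    exact h2
  · have h1 := h.height_le
    rw [← hs] at h1
    exact_mod_cast h1
  · have hl : IsLowerSet {v : ℕ | ((0 : ℕ), v) ∈ Z} := by
      intro a b hab ha
      exact h.lower (Prod.mk_le_mk.2 ⟨le_rfl, hab⟩) ha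
    exact lower_nat hl hs.symm

lemma Standing.exists_width (h : Standing ρ Z) (hw : width Z ≠ ⊤) : ∃ r : ℕ, 1 ≤ r ∧ r ≤ ρ ∧
    (r, (0 : ℕ)) ∉ Z := by
  obtain ⟨r, hr⟩ := ENat.ne_top_iff_exists.1 hw
  refine ⟨r, ?_, ?_, ?_⟩
  · by_contra hcon
    have h0 : r = 0 := by omega
    rw [h0] at hr
    have h1 : {u : ℕ | (u, (0 : ℕ)) ∈ Z} = ∅ := Set.encard_eq_zero.1 (by exact_mod_cast hr.symm)
    have h2 : (0 : ℕ) ∈ {u : ℕ | (u, (0 : ℕ)) ∈ Z} := h.zero_mem
    rw [h1] at h2
    exact h2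
  · rcases h.width_le with h1 | h1
    · exact absurd h1 hw
    · rw [← hr] at h1
      exact_mod_cast h1
  · have hl : IsLowerSet {u : ℕ | (u, (0 : ℕ)) ∈ Z} := by
      intro a b hab ha
      exact h.lower (Prod.mk_le_mk.2 ⟨hab, le_rfl⟩) ha
    exact lower_nat hl hr.symm

/-- A label deriving a line forces it. -/
lemma forces_of_label (hZ : IsLowerSet Z) {α : Type*} (lab : α → Finset (ℤ × ℤ)) (ch : α → Tr)
    {l : List α} {e : α} (he : e ∈ l) {o : Bool} {x : ℤ}
    (hder : Der ρ Z (fun _ => ∅) (lab e) (.line o x)) : ForcesT ρ Z (attList lab ch l) o x := by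
  rw [forcesT_iff]
  set Ctx' : ℕ → Set (ℤ × ℤ) → ℤ × ℤ → Prop := fun N S v =>
    1 ≤ N ∧ v.1.natAbs ≤ N ∧ v.2.natAbs ≤ N ∧ ∀ f ∈ lab e, f + v ∈ S with hCtx'
  have h1 : ReC ρ Z Ctx' (.line o x) := by
    refine reC_of_der hZ (fun N S v hv => ⟨hv.1, hv.2.1, hv.2.2.1⟩) (fun _ => Set.finite_empty)
      (fun z hz => reC_static (fun N S v hv => hv.2.2.2 z hz)) ?_ hder
    intro o' a ha
    exact absurd ha (Set.notMem_empty a)
  refine h1.map ?_
  rintro N S v ⟨g1, g2, g3, g4⟩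
  rw [contains_attList] at g4
  obtain ⟨w, hw1, hw2, -⟩ := g4 e he
  have h8 : (crd o v).natAbs ≤ N := by cases o <;> assumption
  exact ⟨pt o (crd o v) w, ⟨g1, (pt_natAbs_le h8 hw1).1, (pt_natAbs_le h8 hw1).2, hw2⟩, by simp⟩

/-- The column of `s` sites derives the full column. -/
lemma der_column (hZ : IsLowerSet Z) (hρ : 1 ≤ ρ) {s : ℕ} (hs : s ≤ ρ)
    (hsZ : ((0 : ℕ), s) ∉ Z) (x : ℤ) : Der ρ Z (fun _ => ∅)
      (((Finset.range s).image (fun i : ℕ => ((x : ℤ), (i : ℤ))) : Finset (ℤ × ℤ)) :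
        Set (ℤ × ℤ)) (.line true x) := by
  have hb : bad Z false ((Finset.range s).image (fun i : ℕ => (i : ℤ))).card
      (∅ : Finset ℤ).card := by
    rw [Finset.card_image_of_injective _ Nat.cast_injective, Finset.card_range, Finset.card_empty]
    exact hsZ
  have := slide_line (L := fun _ => ∅) (F := (((Finset.range s).image
    (fun i : ℕ => ((x : ℤ), (i : ℤ))) : Finset (ℤ × ℤ)) : Set (ℤ × ℤ))) hZ hρ (o := false)
    (a := s) (b := x) ((Finset.range s).image (fun i : ℕ => (i : ℤ))) ∅ ?_ (Or.inl ?_) (by simp) hb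
  · exact this
  · intro y hy
    rw [Finset.mem_image] at hy
    obtain ⟨i, hi, rfl⟩ := hy
    rw [Finset.mem_range] at hi
    refine ⟨by rw [abs_le]; constructor <;> omega, .baseSite ?_⟩
    rw [Finset.mem_coe, Finset.mem_image]
    exact ⟨i, Finset.mem_range.2 hi, rfl⟩
  · intro y hy
    rw [Finset.mem_image] at hy
    obtain ⟨i, hi, rfl⟩ := hy
    rw [Finset.mem_range] at hi
    exact_mod_cast hi

/-- The tree with `h` columns nucleated from `s` sites each. -/
def colTree (s h : ℕ) : Tr :=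
  attList (fun j : ℕ => (Finset.range s).image (fun i : ℕ => ((j : ℤ), (i : ℤ)))) (fun _ => .leaf)
    (List.range h)

lemma colTree_ex {s h : ℕ} {g : Bool → ℝ} (hg : (s : ℝ) ≤ g false) :
    ex g (colTree s h) true = g true ∧ (0 < g true → 0 < g false → pres g (colTree s h) true) := by
  unfold colTree
  have hc : ∀ j : ℕ, (((Finset.range s).image (fun i : ℕ => ((j : ℤ), (i : ℤ)))).card : ℝ) ≤
      g false := by
    intro j
    refine le_trans ?_ hg
    exact_mod_cast Finset.card_image_le.trans (by simp)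
  have h1 : ∀ l : List ℕ, ex g (attList (fun j : ℕ => (Finset.range s).image
      (fun i : ℕ => ((j : ℤ), (i : ℤ)))) (fun _ => .leaf) l) true = g true := by
    intro l
    induction l with
    | nil => rfl
    | cons a l ih =>
      have h2 : ex g (attList (fun j : ℕ => (Finset.range s).image
        (fun i : ℕ => ((j : ℤ), (i : ℤ)))) (fun _ => .leaf) (a :: l)) true =
        ex g (attList (fun j : ℕ => (Finset.range s).image
        (fun i : ℕ => ((j : ℤ), (i : ℤ)))) (fun _ => .leaf) l) true +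
        min 0 (g false - (((Finset.range s).image (fun i : ℕ => ((a : ℤ), (i : ℤ)))).card : ℝ)) :=
        rfl
      rw [h2, ih, min_eq_left (by linarith [hc a]), add_zero]
  refine ⟨h1 _, fun h3 h4 => ?_⟩
  have h5 : ∀ l : List ℕ, pres g (attList (fun j : ℕ => (Finset.range s).image
      (fun i : ℕ => ((j : ℤ), (i : ℤ)))) (fun _ => .leaf) l) true := by
    intro l
    induction l with
    | nil => exact h3
    | cons a l ih =>
      refine ⟨ih, h4, ?_⟩
      have := h1 (a :: l)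
      have h6 : 0 < ex g (attList (fun j : ℕ => (Finset.range s).image
        (fun i : ℕ => ((j : ℤ), (i : ℤ)))) (fun _ => .leaf) (a :: l)) true := by
        rw [this]; exact h3
      exact h6
  exact h5 _

lemma colTree_forces (hZ : IsLowerSet Z) (hρ : 1 ≤ ρ) {s h : ℕ} (hs : s ≤ ρ)
    (hsZ : ((0 : ℕ), s) ∉ Z) {j : ℕ} (hj : j < h) : ForcesT ρ Z (colTree s h) true j :=
  forces_of_label hZ _ _ (List.mem_range.2 hj) (der_column hZ hρ hs hsZ j)

lemma fill_large (hst : Standing ρ Z) {s : ℕ} (hs1 : 1 ≤ s) (hs : s ≤ ρ)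
    (hsZ : ((0 : ℕ), s) ∉ Z) (hat : Bool → ℕ) {g : Bool → ℝ} (hg : (s : ℝ) ≤ g false)
    (hg1 : 0 < g true) : HasFill ρ Z hat g := by
  have hs0 : (1 : ℝ) ≤ s := by exact_mod_cast hs1
  refine ⟨colTree s (hat true), true, 0, (colTree_ex hg).2 hg1 (by linarith), fun j hj => ?_⟩
  rw [zero_add]
  exact colTree_forces hst.lower (by omega) hs hsZ hj

/-- The empty set is closed. -/
lemma closed_empty (hst : Standing ρ Z) : Closed ρ Z ∅ := by
  intro o a b U V hU hV hb
  have hU0 : U = ∅ := Finset.eq_empty_of_forall_notMem (fun x hx => (hU x hx).2)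
  have hV0 : V = ∅ := Finset.eq_empty_of_forall_notMem (fun x hx => (hV x hx).2)
  subst hU0 hV0
  exact absurd hst.zero_mem (by cases o <;> exact hb)

/-- A tree with all labels empty is contained in the empty set. -/
lemma contains_empty {g : Bool → ℝ} (hg : g true + g false ≤ 1) (t : Tr) :
    ∀ o, pres g t o → ∀ z, ContainsN 1 ∅ t o z := by
  induction t with
  | leaf => intro o _ z; trivial
  | att t F c iht ihc =>
    intro o hp z
    refine ⟨iht o hp.1 z, 0, by simp, ?_, ihc (!o) hp.2.1 0⟩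
    intro f hf
    exfalso
    have h1 := hp.2.2
    simp only [ex] at h1
    have h2 := ex_le g t o
    have h3 := ex_le g c (!o)
    have h4 := min_le_right 0 (ex g c (!o) - (F.card : ℝ))
    have h5 : (1 : ℝ) ≤ F.card := by exact_mod_cast Finset.card_pos.2 ⟨f, hf⟩
    have h6 : g o + g (!o) ≤ 1 := by
      cases o
      · change g false + g true ≤ 1
        linarith
      · exact hg
    linarith

lemma not_fill_small (hst : Standing ρ Z) {hat : Bool → ℕ} (hhat : ∀ o, 1 ≤ hat o)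
    {g : Bool → ℝ} (hg : g true + g false ≤ 1) : ¬ HasFill ρ Z hat g := by
  rintro ⟨t, o, k, hp, hf⟩
  obtain ⟨C, hC⟩ := hf 0 (hhat o)
  have h1 := hC 1 ∅ 0 le_rfl (by simp) (contains_empty hg t o hp 0)
  have h2 := h1 0
  exact evolve_subset_of_closed hst.lower (subset_rfl) (closed_empty hst) _ h2

theorem finite_width (hst : Standing ρ Z) (hw : width Z ≠ ⊤) :
    ∃ γ : ℝ, 0 < γ ∧ IsLowerPower ρ Z γ ∧ IsUpperPower ρ Z γ := by
  obtain ⟨s, hs1, hs2, -, hs3⟩ := hst.exists_height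
  obtain ⟨r, hr1, hr2, hr3⟩ := hst.exists_width hw
  set hat : Bool → ℕ := fun o => cond o r s with hhat
  have hhat1 : ∀ o, 1 ≤ hat o := by intro o; cases o <;> assumption
  have hhat2 : ∀ o, hat o ≤ ρ := by intro o; cases o <;> assumption
  have hbad : ∀ o, bad Z o (hat o) 0 := by intro o; cases o <;> assumption
  have hρ : 1 ≤ ρ := by omega
  set A : Set ℝ := {γ | HasFill ρ Z hat (fun _ => γ)} with hA
  have hsA : (s : ℝ) ∈ A := fill_large hst hs1 hs2 hs3 hat le_rfl (by
    have : (1 : ℝ) ≤ s := by exact_mod_cast hs1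
    linarith)
  have hlow : ∀ γ ∈ A, 1 / 2 ≤ γ := by
    intro γ hγ
    by_contra hcon
    push Not at hcon
    exact not_fill_small hst hhat1 (g := fun _ => γ) (by linarith) hγ
  have hbdd : BddBelow A := ⟨1 / 2, hlow⟩
  set γc := sInf A with hγc
  have hγc0 : 1 / 2 ≤ γc := le_csInf ⟨_, hsA⟩ hlow
  refine ⟨γc, by linarith, ?_, ?_⟩
  · intro ε hε
    apply timeGe_of
    intro δ hδ
    set γ2 := (max (γc - ε) 0 + γc) / 2 with hγ2
    have h1 : max (γc - ε) 0 < γc := max_lt (by linarith) (by linarith)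
    have h2 : 0 ≤ max (γc - ε) 0 := le_max_right _ _
    have h3 : γc - ε ≤ max (γc - ε) 0 := le_max_left _ _
    have h4 : γ2 < γc := by rw [hγ2]; linarith
    have hno : ¬ HasFill ρ Z hat (fun _ => γ2) := by
      intro hf
      have : γc ≤ γ2 := csInf_le hbdd hf
      linarith
    exact lower_fin hst.lower hρ hhat1 hhat2 hno (by rw [hγ2]; linarith)
      (by rw [hγ2]; linarith) hδ
  · intro ε hε
    apply timeLe_of
    intro δ hδ
    obtain ⟨γ1, hγ1A, hγ1⟩ := exists_lt_of_csInf_lt ⟨_, hsA⟩ (show sInf A < γc + ε by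
      rw [← hγc]; linarith)
    exact upper_fin hst.lower hhat1 hhat2 hbad hγ1A hγ1 (by linarith [hlow γ1 hγ1A]) hδ

end

end Pool.Agent.MP_e7dab6_pr
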