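import Pool.Agent.Lib.MP_e7dab6_pr.Cover

/-!
# Covering trees force the lines of their root node
-/

set_option autoImplicit false

namespace Pool.Agent.MP_e7dab6_pr

/-- An item is realised, with a uniform constant, in all frames of a context. -/
def ReC (ρ : ℕ) (Z : Set (ℕ × ℕ)) (Ctx : ℕ → Set (ℤ × ℤ) → ℤ × ℤ → Prop) (i : Item) : Prop :=
  ∃ C : ℕ, ∀ N S v, Ctx N S v → Rl ρ Z S N C (i.shift v)

/-- All frames of the context are bounded. -/
def Bdd (Ctx : ℕ → Set (ℤ × ℤ) → ℤ × ℤ → Prop) : Prop :=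
  ∀ N S v, Ctx N S v → 1 ≤ N ∧ v.1.natAbs ≤ N ∧ v.2.natAbs ≤ N

lemma Bdd.crd {Ctx : ℕ → Set (ℤ × ℤ) → ℤ × ℤ → Prop} (h : Bdd Ctx) {N : ℕ} {S : Set (ℤ × ℤ)}
    {v : ℤ × ℤ} (hv : Ctx N S v) (o : Bool) : (crd o v).natAbs ≤ N := by
  cases o
  · exact (h N S v hv).2.2
  · exact (h N S v hv).2.1

lemma pt_natAbs_le {N : ℕ} {o : Bool} {a b : ℤ} (ha : a.natAbs ≤ N) (hb : b.natAbs ≤ N) :
    (pt o a b).1.natAbs ≤ N ∧ (pt o a b).2.natAbs ≤ N := by
  cases o
  · exact ⟨hb, ha⟩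
  · exact ⟨ha, hb⟩

lemma ReC.map {ρ : ℕ} {Z : Set (ℕ × ℕ)} {Ctx Ctx' : ℕ → Set (ℤ × ℤ) → ℤ × ℤ → Prop} {o : Bool}
    {a : ℤ} (h : ReC ρ Z Ctx (.line o a))
    (hm : ∀ N S v', Ctx' N S v' → ∃ v, Ctx N S v ∧ crd o v' = crd o v) :
    ReC ρ Z Ctx' (.line o a) := by
  obtain ⟨C, hC⟩ := h
  refine ⟨C, fun N S v' hv' => ?_⟩
  obtain ⟨v, hv, he⟩ := hm N S v' hv'
  have := hC N S v hv
  simp only [Item.shift] at this ⊢
  rw [he]
  exact this

lemma reC_static {ρ : ℕ} {Z : Set (ℕ × ℕ)} {Ctx : ℕ → Set (ℤ × ℤ) → ℤ × ℤ → Prop} {z : ℤ × ℤ}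
    (h : ∀ N S v, Ctx N S v → z + v ∈ S) : ReC ρ Z Ctx (.site z) := by
  refine ⟨0, fun N S v hv => ?_⟩
  simp only [Item.shift, Rl, Nat.zero_mul]
  exact h N S v hv

lemma reC_of_der {ρ : ℕ} {Z : Set (ℕ × ℕ)} (hZ : IsLowerSet Z)
    {Ctx : ℕ → Set (ℤ × ℤ) → ℤ × ℤ → Prop} (hb : Bdd Ctx) {L : Bool → Set ℤ}
    (hfin : ∀ o, (L o).Finite) {F : Finset (ℤ × ℤ)} (hF : ∀ z ∈ F, ReC ρ Z Ctx (.site z))
    (hL : ∀ o, ∀ a ∈ L o, ReC ρ Z Ctx (.line o a)) {i : Item} (h : Der ρ Z L F i) :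
    ReC ρ Z Ctx i := by
  obtain ⟨C1, h1⟩ := exists_uniform
    (P := fun z C => ∀ N S v, Ctx N S v → Rl ρ Z S N C ((Item.site z).shift v))
    (fun a c c' hc hP N S v hv => (hP N S v hv).mono hc) F hF
  have h2 : ∀ o, ∃ C, ∀ a ∈ (hfin o).toFinset, ∀ N S v, Ctx N S v →
      Rl ρ Z S N C ((Item.line o a).shift v) := fun o => exists_uniform
    (P := fun a C => ∀ N S v, Ctx N S v → Rl ρ Z S N C ((Item.line o a).shift v))
    (fun a c c' hc hP N S v hv => (hP N S v hv).mono hc) (hfin o).toFinset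
    (fun a ha => hL o a ((hfin o).mem_toFinset.1 ha))
  choose C2 hC2 using h2
  obtain ⟨C, hC⟩ := der_real hZ h (C1 + C2 true + C2 false)
  refine ⟨C, fun N S v hv => ?_⟩
  obtain ⟨b1, b2, b3⟩ := hb N S v hv
  refine hC N S v b1 b2 b3 ⟨?_, ?_⟩
  · intro z hz
    exact (h1 z hz N S v hv).mono (by omega)
  · intro o a ha
    refine (hC2 o a ((hfin o).mem_toFinset.2 ha) N S v hv).mono ?_
    cases o <;> omega

section
variable (ρ : ℕ) (Z : Set (ℕ × ℕ)) (st : Bool → Finset ℤ) (rk : Bool → ℤ → ℕ)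
  (node : Bool → ℤ → ℤ) (E : Finset Ed)

/-- The lines of rank less than `k` at the end nodes of the edge `e`. -/
def Lk (e : Ed) (k : ℕ) : Bool → Set ℤ := fun o => {a | a ∈ st o ∧ node o a = nd e o ∧ rk o a < k}

/-- Every line is derived through some edge from lines of smaller rank at its two ends. -/
def DerH : Prop := ∀ o, ∀ x ∈ st o, ∃ e ∈ E, nd e o = node o x ∧
  Der ρ Z (Lk st rk node e (rk o x)) (lb e) (.line o x)

/-- The statement of the propagation lemma at rank `i`. -/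
def PStmt (i : ℕ) : Prop := ∀ n, i < n → ∀ (o : Bool) (e : Ed), e ∈ E →
  ∀ Ctx : ℕ → Set (ℤ × ℤ) → ℤ × ℤ → Prop, Bdd Ctx →
  (∀ N S v, Ctx N S v → ContainsN N S (cov E n o (nd e o) (some e)) o (crd o v) ∧
    ∀ f ∈ lb e, f + v ∈ S) →
  (∀ y ∈ st (!o), node (!o) y = nd e (!o) → rk (!o) y < i → ReC ρ Z Ctx (.line (!o) y)) →
  ∀ x ∈ st o, node o x = nd e o → rk o x ≤ i → ReC ρ Z Ctx (.line o x)

variable {ρ Z st rk node E}

lemma finite_Lk (e : Ed) (k : ℕ) (o : Bool) : (Lk st rk node e k o).Finite :=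
  (st o).finite_toSet.subset (fun _ ha => ha.1)

lemma child_step (hZ : IsLowerSet Z) {i n' : ℕ} (hn' : i ≤ n')
    (hP : ∀ j, j < i → PStmt ρ Z st rk node E j) {o : Bool} {e : Ed} (he : e ∈ E)
    {Ctx : ℕ → Set (ℤ × ℤ) → ℤ × ℤ → Prop} (hb : Bdd Ctx)
    (hch : ∀ N S v, Ctx N S v → ∃ w : ℤ, w.natAbs ≤ N ∧ (∀ f ∈ lb e, f + pt o (crd o v) w ∈ S) ∧
      ContainsN N S (cov E n' (!o) (nd e (!o)) (some e)) (!o) w)
    (hlines : ∀ a ∈ st o, node o a = nd e o → rk o a < i → ReC ρ Z Ctx (.line o a))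
    {x : ℤ} (hder : Der ρ Z (Lk st rk node e i) (lb e) (.line o x)) :
    ReC ρ Z Ctx (.line o x) := by
  set Ctx' : ℕ → Set (ℤ × ℤ) → ℤ × ℤ → Prop := fun N S v' =>
    ∃ v, Ctx N S v ∧ crd o v' = crd o v ∧ (crd (!o) v').natAbs ≤ N ∧ (∀ f ∈ lb e, f + v' ∈ S) ∧
      ContainsN N S (cov E n' (!o) (nd e (!o)) (some e)) (!o) (crd (!o) v') with hCtx'
  have hb' : Bdd Ctx' := by
    rintro N S v' ⟨v, hv, h1, h2, -⟩
    have h3 := hb.crd hv o
    refine ⟨(hb N S v hv).1, ?_⟩
    have h4 := pt_natAbs_le (o := o) (h1 ▸ h3) h2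
    rwa [pt_crd] at h4
  have hmap : ∀ N S v', Ctx' N S v' → ∃ v, Ctx N S v ∧ crd o v' = crd o v :=
    fun N S v' ⟨v, hv, h1, _⟩ => ⟨v, hv, h1⟩
  have hlines' : ∀ a ∈ st o, node o a = nd e o → rk o a < i → ReC ρ Z Ctx' (.line o a) :=
    fun a h1 h2 h3 => (hlines a h1 h2 h3).map hmap
  have key : ReC ρ Z Ctx' (.line o x) := by
    refine reC_of_der hZ hb' (finite_Lk e i) ?_ ?_ hder
    · intro z hz
      refine reC_static ?_
      rintro N S v' ⟨v, -, -, -, h4, -⟩
      exact h4 z hz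
    · intro o' a ha
      rcases Bool.eq_or_eq_not o' o with rfl | rfl
      · exact hlines' a ha.1 ha.2.1 ha.2.2
      · refine hP (rk (!o) a) ha.2.2 n' (lt_of_lt_of_le ha.2.2 hn') (!o) e he Ctx' hb' ?_ ?_ a ha.1
          ha.2.1 le_rfl
        · rintro N S v' ⟨v, -, -, -, h4, h5⟩
          exact ⟨h5, h4⟩
        · intro y h1 h2 h3
          rw [Bool.not_not] at h1 h2 h3 ⊢
          exact hlines' y h1 h2 (h3.trans ha.2.2)
  refine key.map ?_
  intro N S v hv
  obtain ⟨w, h1, h2, h3⟩ := hch N S v hv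
  exact ⟨pt o (crd o v) w, ⟨v, hv, by simp, by simpa using h1, h2, by simpa using h3⟩, by simp⟩

theorem pStmt (hZ : IsLowerSet Z) (hH : DerH ρ Z st rk node E) (i : ℕ) :
    PStmt ρ Z st rk node E i := by
  induction i using Nat.strong_induction_on with
  | _ i ih =>
  intro n hn o e he Ctx hb hcon hpar
  have hlow : ∀ a ∈ st o, node o a = nd e o → rk o a < i → ReC ρ Z Ctx (.line o a) := by
    intro a h1 h2 h3
    exact ih (rk o a) h3 n (h3.trans hn) o e he Ctx hb hcon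
      (fun y hy1 hy2 hy3 => hpar y hy1 hy2 (hy3.trans h3)) a h1 h2 le_rfl
  intro x hx hnx hrx
  rcases Nat.lt_or_eq_of_le hrx with hlt | heq
  · exact hlow x hx hnx hlt
  obtain ⟨e', he', hne', hder⟩ := hH o x hx
  rw [heq] at hder
  by_cases hee : e' = e
  · subst hee
    refine reC_of_der hZ hb (finite_Lk e' i) ?_ ?_ hder
    · intro z hz
      exact reC_static (fun N S v hv => (hcon N S v hv).2 z hz)
    · intro o' a ha
      rcases Bool.eq_or_eq_not o' o with rfl | rfl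
      · exact hlow a ha.1 ha.2.1 ha.2.2
      · exact hpar a ha.1 ha.2.1 ha.2.2
  · obtain ⟨n', rfl⟩ : ∃ n', n = n' + 1 := ⟨n - 1, by omega⟩
    refine child_step hZ (n' := n') (by omega) ih he' hb ?_ ?_ hder
    · intro N S v hv
      have h1 := (hcon N S v hv).1
      rw [contains_cov] at h1
      exact h1 e' he' (by rw [hne', hnx]) (fun h => hee (Option.some.inj h))
    · intro a h1 h2 h3
      exact hlow a h1 (by rw [h2, hne', hnx]) h3

theorem root_lemma (hZ : IsLowerSet Z) (hH : DerH ρ Z st rk node E) (i : ℕ) :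
    ∀ n, i < n → ∀ (o : Bool) (c : ℤ) (Ctx : ℕ → Set (ℤ × ℤ) → ℤ × ℤ → Prop), Bdd Ctx →
    (∀ N S v, Ctx N S v → ContainsN N S (cov E n o c none) o (crd o v)) →
    ∀ x ∈ st o, node o x = c → rk o x ≤ i → ReC ρ Z Ctx (.line o x) := by
  induction i using Nat.strong_induction_on with
  | _ i ih =>
  intro n hn o c Ctx hb hcon
  have hlow : ∀ a ∈ st o, node o a = c → rk o a < i → ReC ρ Z Ctx (.line o a) := by
    intro a h1 h2 h3
    exact ih (rk o a) h3 n (h3.trans hn) o c Ctx hb hcon a h1 h2 le_rfl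
  intro x hx hnx hrx
  rcases Nat.lt_or_eq_of_le hrx with hlt | heq
  · exact hlow x hx hnx hlt
  obtain ⟨e', he', hne', hder⟩ := hH o x hx
  rw [heq] at hder
  obtain ⟨n', rfl⟩ : ∃ n', n = n' + 1 := ⟨n - 1, by omega⟩
  refine child_step hZ (n' := n') (by omega) (fun j _ => pStmt hZ hH j) he' hb ?_ ?_ hder
  · intro N S v hv
    have h1 := hcon N S v hv
    rw [contains_cov] at h1
    exact h1 e' he' (by rw [hne', hnx]) (by simp)
  · intro a h1 h2 h3
    exact hlow a h1 (by rw [h2, hne', hnx]) h3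

/-- The context of all frames at which a tree is contained. -/
def ctxT (t : Tr) (o : Bool) : ℕ → Set (ℤ × ℤ) → ℤ × ℤ → Prop := fun N S v =>
  1 ≤ N ∧ v.1.natAbs ≤ N ∧ v.2.natAbs ≤ N ∧ ContainsN N S t o (crd o v)

lemma bdd_ctxT (t : Tr) (o : Bool) : Bdd (ctxT t o) := fun _ _ _ h => ⟨h.1, h.2.1, h.2.2.1⟩

lemma forcesT_iff {t : Tr} {o : Bool} {k : ℤ} :
    ForcesT ρ Z t o k ↔ ReC ρ Z (ctxT t o) (.line o k) := by
  constructor
  · rintro ⟨C, hC⟩
    refine ⟨C, fun N S v hv => ?_⟩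
    exact hC N S (crd o v) hv.1 ((bdd_ctxT t o).crd hv o) hv.2.2.2
  · rintro ⟨C, hC⟩
    refine ⟨C, fun N S z h1 h2 h3 => ?_⟩
    have := hC N S (pt o z 0) ⟨h1, (pt_natAbs_le h2 (by simp)).1, (pt_natAbs_le h2 (by simp)).2,
      by simpa using h3⟩
    simpa [Item.shift] using this

lemma forces_cov (hZ : IsLowerSet Z) (hH : DerH ρ Z st rk node E) {n : ℕ} {o : Bool} {x : ℤ}
    (hx : x ∈ st o) (hn : rk o x < n) : ForcesT ρ Z (cov E n o (node o x) none) o x := by
  rw [forcesT_iff]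
  exact root_lemma hZ hH (rk o x) n hn o (node o x) _ (bdd_ctxT _ _) (fun N S v hv => hv.2.2.2)
    x hx rfl le_rfl

/-- The covering tree with `m` displaced copies of the edge `e` attached. -/
noncomputable def tstar (E : Finset Ed) (n n' : ℕ) (o : Bool) (c : ℤ) (e : Ed) (x ε : ℤ) : ℕ → Tr
  | 0 => cov E n o c none
  | m + 1 => .att (tstar E n n' o c e x ε m) (mvF o x ε (m + 1) (lb e))
      (cov E n' (!o) (nd e (!o)) (some e))

lemma contains_tstar {n n' : ℕ} {o : Bool} {c : ℤ} {e : Ed} {x ε : ℤ} {m : ℕ} {N : ℕ}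
    {S : Set (ℤ × ℤ)} {z : ℤ} (h : ContainsN N S (tstar E n n' o c e x ε m) o z) :
    ContainsN N S (cov E n o c none) o z := by
  induction m with
  | zero => exact h
  | succ m ih => exact ih h.1

theorem tstar_forces (hZ : IsLowerSet Z) (hρ : 1 ≤ ρ) (hH : DerH ρ Z st rk node E) {n n' : ℕ}
    {o : Bool} {e : Ed} {x ε : ℤ} (hε : ε = 1 ∨ ε = -1)
    (hnx : node o x = nd e o) (hder : Der ρ Z (Lk st rk node e (rk o x)) (lb e) (.line o x))
    (hx : x ∈ st o) (hn : rk o x < n) (hn' : rk o x ≤ n') (m : ℕ)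
    (hfree : ∀ i : ℕ, 1 ≤ i → i ≤ m → x + i * ε ∉ Lk st rk node e (rk o x) o) :
    ∀ j : ℕ, j ≤ m → ForcesT ρ Z (tstar E n n' o (node o x) e x ε m) o (x + j * ε) := by
  induction m with
  | zero =>
    intro j hj
    have : j = 0 := by omega
    subst this
    simpa [tstar] using forces_cov hZ hH hx hn
  | succ m ih =>
    have ih' := ih (fun i h1 h2 => hfree i h1 (by omega))
    intro j hj
    rcases Nat.lt_or_eq_of_le hj with hj | rfl
    · obtain ⟨C, hC⟩ := ih' j (by omega)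
      exact ⟨C, fun N S z h1 h2 h3 => hC N S z h1 h2 h3.1⟩
    set k := rk o x with hk
    set Ctx : ℕ → Set (ℤ × ℤ) → ℤ × ℤ → Prop := fun N S v =>
      ctxT (tstar E n n' o (node o x) e x ε m) o N S v ∧
      (∀ f ∈ mvF o x ε (m + 1) (lb e), f + v ∈ S) ∧
      ContainsN N S (cov E n' (!o) (nd e (!o)) (some e)) (!o) (crd (!o) v) with hCtx
    have hb : Bdd Ctx := fun N S v hv => bdd_ctxT _ _ N S v hv.1
    have hmap1 : ∀ N S v', Ctx N S v' →
        ∃ v, ctxT (tstar E n n' o (node o x) e x ε m) o N S v ∧ crd o v' = crd o v :=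
      fun N S v hv => ⟨v, hv.1, rfl⟩
    -- the lines of smaller rank at the root
    have hi : ∀ a ∈ Lk st rk node e k o, ReC ρ Z Ctx (.line o a) := by
      intro a ha
      refine root_lemma hZ hH (rk o a) n (ha.2.2.trans hn) o (node o x) Ctx hb ?_ a ha.1
        (ha.2.1.trans hnx.symm) le_rfl
      intro N S v hv
      exact contains_tstar hv.1.2.2.2
    have hii : ∀ i : ℕ, i ≤ m → ReC ρ Z Ctx (.line o (x + i * ε)) := by
      intro i hi
      exact (forcesT_iff.1 (ih' i hi)).map hmap1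
    have hnot : ∀ k', k' ≤ k → ∀ i : ℕ, i < m + 1 → x + i * ε ∉ Lk st rk node e k' o := by
      intro k' hk' i hi hmem
      rcases Nat.eq_zero_or_pos i with rfl | hi0
      · simp only [Nat.cast_zero, zero_mul, add_zero] at hmem
        have := hmem.2.2
        omega
      · exact hfree i hi0 (by omega) ⟨hmem.1, hmem.2.1, lt_of_lt_of_le hmem.2.2 hk'⟩
    have hfinadd : ∀ k' o', (addLines o x ε (m + 1) (Lk st rk node e k') o').Finite := by
      intro k' o'
      unfold addLines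
      split_ifs
      · refine (finite_Lk e k' o').union ?_
        refine ((Finset.range (m + 1)).image (fun i : ℕ => x + i * ε)).finite_toSet.subset ?_
        rintro y ⟨i, hi, rfl⟩
        simp only [Finset.coe_image, Finset.coe_range, Set.mem_image, Set.mem_Iio]
        exact ⟨i, hi, rfl⟩
      · exact finite_Lk e k' o'
    -- the lines of smaller rank at the copy of the other end
    have hiii : ∀ r, r ≤ k → ∀ b ∈ Lk st rk node e r (!o), ReC ρ Z Ctx (.line (!o) b) := by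
      intro r
      induction r using Nat.strong_induction_on with
      | _ r ihr =>
      intro hr b hb0
      obtain ⟨hb1, hb2, hb3⟩ := hb0
      obtain ⟨e', he', hne', hder'⟩ := hH (!o) b hb1
      have ihr' := ihr (rk (!o) b) hb3 (by omega)
      by_cases hee : e' = e
      · subst hee
        have h1 := (der_moveN hZ hρ hε (m + 1) (hnot (rk (!o) b) (by omega))).2 b hder'
        refine reC_of_der hZ hb (hfinadd _) ?_ ?_ h1
        · intro z hz
          exact reC_static (fun N S v hv => hv.2.1 z hz)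
        · intro o' a ha
          rcases Bool.eq_or_eq_not o' o with rfl | rfl
          · simp only [addLines, if_true] at ha
            rcases ha with ha | ⟨i, hi1, rfl⟩
            · exact hi a ⟨ha.1, ha.2.1, ha.2.2.trans (by omega)⟩
            · exact hii i (by omega)
          · have hne : (!o) ≠ o := by cases o <;> simp
            simp only [addLines, if_neg hne] at ha
            exact ihr' a ha
      · obtain ⟨n'', rfl⟩ : ∃ n'', n' = n'' + 1 := ⟨n' - 1, by omega⟩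
        refine child_step hZ (i := rk (!o) b) (n' := n'') (by omega) (fun j _ => pStmt hZ hH j)
          he' hb ?_ ?_ hder'
        · intro N S v hv
          have h1 := hv.2.2
          rw [contains_cov] at h1
          obtain ⟨w, h2⟩ := h1 e' he' (by rw [hne', hb2]) (fun h => hee (Option.some.inj h))
          exact ⟨w, h2⟩
        · intro a h1 h2 h3
          exact ihr' a ⟨h1, by rw [h2, hne', hb2], h3⟩
    have hfinal : ReC ρ Z Ctx (.line o (x + ((m + 1 : ℕ) : ℤ) * ε)) := by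
      have h1 := (der_moveN hZ hρ hε (m + 1) (hnot k le_rfl)).1 hder
      refine reC_of_der hZ hb (hfinadd _) ?_ ?_ h1
      · intro z hz
        exact reC_static (fun N S v hv => hv.2.1 z hz)
      · intro o' a ha
        rcases Bool.eq_or_eq_not o' o with rfl | rfl
        · simp only [addLines, if_true] at ha
          rcases ha with ha | ⟨i, hi1, rfl⟩
          · exact hi a ha
          · exact hii i (by omega)
        · have hne : (!o) ≠ o := by cases o <;> simp
          simp only [addLines, if_neg hne] at ha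
          exact hiii k le_rfl a ha
    rw [forcesT_iff]
    refine hfinal.map ?_
    rintro N S v ⟨h1, h2, h3, h4, w, h5, h6, h7⟩
    refine ⟨pt o (crd o v) w, ⟨⟨h1, ?_, ?_, by simpa using h4⟩, h6, by simpa using h7⟩, by simp⟩
    · have h8 : (crd o v).natAbs ≤ N := by cases o <;> assumption
      exact (pt_natAbs_le h8 h5).1
    · have h8 : (crd o v).natAbs ≤ N := by cases o <;> assumption
      exact (pt_natAbs_le h8 h5).2

end

end Pool.Agent.MP_e7dab6_pr
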