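import Pool.Agent.Lib.MP_e7dab6_pr.FinCase

/-!
# Infinite width: no rows, inert weak parts, and the way across a clean barrier
-/

set_option autoImplicit false

open Filter Topology MeasureTheory

namespace Pool.Agent.MP_e7dab6_pr

/-- Data describing a zero-set of infinite width: `s` is the height and `lam` the smallest
vertical count which together with `ρ` horizontal neighbours occupies a site. -/
structure InfData (ρ : ℕ) (Z : Set (ℕ × ℕ)) (s lam : ℕ) : Prop where
  hZ : IsLowerSet Z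
  hinf : ∀ u : ℕ, (u, (0 : ℕ)) ∈ Z
  hs : ((0 : ℕ), s) ∉ Z
  s_le : s ≤ ρ
  lam_pos : 1 ≤ lam
  lam_le : lam ≤ ρ
  hlam : (ρ, lam) ∉ Z
  hlam' : (ρ, lam - 1) ∈ Z

section
variable {ρ K0 K s lam : ℕ} {Z : Set (ℕ × ℕ)} {Pa : Finset (Finset (ℤ × ℤ))}
  {st : Bool → Finset ℤ} {S : Finset (ℤ × ℤ)}

/-- Without rows no row can be derived. -/
lemma der_no_row (hinf : ∀ u : ℕ, (u, (0 : ℕ)) ∈ Z) {L : Bool → Set ℤ} (hL : L false = ∅)
    {F : Set (ℤ × ℤ)} {i : Item} (h : Der ρ Z L F i) : ∀ b, i ≠ .line false b := by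
  induction h with
  | baseSite h => intro b h'; cases h'
  | @baseLine o a h =>
    intro b h'
    injection h' with h1 h2
    subst h1
    rw [hL] at h
    exact h
  | ofLine _ _ => intro b h'; cases h'
  | siteStep _ _ _ _ _ _ _ _ _ => intro b h'; cases h'
  | @lineStep o a b U hU _ _ hb ihU _ =>
    intro b' h'
    injection h' with h1 h2
    subst h1
    rcases U.eq_empty_or_nonempty with rfl | ⟨a', ha'⟩
    · exact hb (hinf ρ)
    · exact ihU a' ha' a' rfl

lemma valid_no_row (hinf : ∀ u : ℕ, (u, (0 : ℕ)) ∈ Z) {rk : Bool → ℤ → ℕ}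
    (hv : Valid ρ Z K0 K Pa st rk) : st false = ∅ := by
  by_contra hne
  obtain ⟨x, hx, hmin⟩ := Finset.exists_min_image (st false) (rk false)
    (Finset.nonempty_iff_ne_empty.2 hne)
  obtain ⟨-, A, F, hA, hder, -⟩ := hv false x hx
  refine der_no_row hinf ?_ hder x rfl
  rw [Set.eq_empty_iff_forall_notMem]
  intro a ha
  have h1 := hA false ha
  rw [Finset.mem_coe, below, Finset.mem_filter] at h1
  have h2 := hmin a h1.1
  omega

/-- The items available from an inert part. -/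
def Wk (P : Finset (ℤ × ℤ)) : Item → Prop
  | .site z => z ∈ P
  | .line _ _ => False

/-- Fewer than `lam` sites are inert. -/
lemma der_weak (hd : InfData ρ Z s lam) {P : Finset (ℤ × ℤ)} (hP : P.card < lam) {i : Item}
    (h : Der ρ Z (fun _ => ∅) P i) : Wk P i := by
  have hlamρ := hd.lam_le
  have hinj1 : ∀ (o : Bool) (b : ℤ), Function.Injective (fun a : ℤ => pt o a b) := by
    intro o b x y hxy
    exact (pt_inj.1 hxy).1
  have hinj2 : ∀ (o : Bool) (a : ℤ), Function.Injective (fun b : ℤ => pt o a b) := by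
    intro o a x y hxy
    exact (pt_inj.1 hxy).2
  induction h with
  | baseSite h => exact_mod_cast h
  | baseLine h => exact absurd h (Set.notMem_empty _)
  | ofLine _ ih => exact ih.elim
  | @siteStep o a b U V _ _ _ _ hb ihU ihV =>
    exfalso
    have h1 : U.card ≤ P.card := Finset.card_le_card_of_injOn (fun a' => pt o a' b)
      (fun x hx => ihU x hx) (hinj1 o b).injOn
    have h2 : V.card ≤ P.card := Finset.card_le_card_of_injOn (fun b' => pt o a b')
      (fun x hx => ihV x hx) (hinj2 o a).injOn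
    apply hb
    cases o
    · exact hd.hZ (Prod.mk_le_mk.2 ⟨by omega, by omega⟩) hd.hlam'
    · exact hd.hZ (Prod.mk_le_mk.2 ⟨by omega, by omega⟩) hd.hlam'
  | @lineStep o a b U _ _ _ hb ihU ihS =>
    have h1 : (Finset.range ρ).card ≤ P.card :=
      Finset.card_le_card_of_injOn (fun j : ℕ => pt o a (b + (j : ℤ)))
        (fun j hj => ihS j (Finset.mem_range.1 (by exact_mod_cast hj)))
        (fun j _ j' _ h => by
          have h5 := hinj2 o a h
          omega)
    rw [Finset.card_range] at h1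
    omega

/-- Near a place far from all lines the zone of a part has no columns. -/
lemma Lz_empty {P : Finset (ℤ × ℤ)} {β w L : ℤ} (hw : w + 2 * ρ < L)
    (hcol : ∀ c ∈ cols true P, |c - β| ≤ w) (hfar : ∀ y ∈ st true, L < |y - β|) :
    Lz ρ st (P, fun o => cols o P) true = ∅ := by
  rw [Set.eq_empty_iff_forall_notMem]
  rintro x ⟨hx, a, ha, a', ha', h1, h2, h3, c, hc, hcon⟩
  have hρ0 : (0 : ℤ) ≤ ρ := by positivity
  have hcβ := hcol c (by exact_mod_cast hc)
  have hE : ∀ e ∈ ((st true : Set ℤ) ∪ (cols true P : Set ℤ)), |e - β| ≤ w ∨ L < |e - β| := by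
    rintro e (he | he)
    · exact Or.inr (hfar e (by exact_mod_cast he))
    · exact Or.inl (hcol e (by exact_mod_cast he))
  have haw : |a - β| ≤ w := by
    rcases hE a ha with h | h
    · exact h
    · exfalso
      rw [abs_le] at hcβ
      rw [lt_abs] at h
      rcases h with h | h
      · obtain ⟨e, he, h4, h5⟩ := hcon (β + w) (by omega) (by omega)
        rcases hE e he with h6 | h6
        · rw [abs_le] at h6; omega
        · rw [lt_abs] at h6; omega
      · obtain ⟨e, he, h4, h5⟩ := hcon (β - L) (by omega) (by omega)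
        rcases hE e he with h6 | h6
        · rw [abs_le] at h6; omega
        · rw [lt_abs] at h6; omega
  have h7 := hfar x (by exact_mod_cast hx)
  rw [abs_le] at haw
  have h8 : |a' - β| ≤ w := by
    rcases hE a' ha' with h | h
    · exact h
    · exfalso
      rw [lt_abs] at h
      omega
  rw [abs_le] at h8
  rw [lt_abs] at h7
  omega

/-- The width of a part. -/
def wP (ρ K0 K : ℕ) : ℤ := K * cR ρ K0 K

lemma wP_nonneg (ρ K0 K : ℕ) : 0 ≤ wP ρ K0 K := KR_nonneg ρ K0 K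

lemma cL_large (ρ K0 K : ℕ) : 3 * wP ρ K0 K + 10 * ρ ≤ cL ρ K0 K := by
  have h1 := cDc_le_mul ρ K0 K
  have h3 : 2 * (ρ : ℤ) ≤ cw ρ K0 K := by
    unfold cw
    have : (1 : ℤ) ≤ cmh ρ K0 K := by exact_mod_cast cmh_pos ρ K0 K
    nlinarith
  unfold cL wP
  unfold cDc at h1 ⊢
  linarith

lemma cR_large (ρ K0 K : ℕ) : 6 * (ρ : ℤ) ≤ cR ρ K0 K := by
  have h3 : 2 * (ρ : ℤ) ≤ cw ρ K0 K := by
    unfold cw
    have : (1 : ℤ) ≤ cmh ρ K0 K := by exact_mod_cast cmh_pos ρ K0 K
    nlinarith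
  unfold cR
  linarith

lemma cols_width (hPa : Partn (cR ρ K0 K) K S Pa) {P : Finset (ℤ × ℤ)} (hP : P ∈ Pa) (o : Bool)
    {c c' : ℤ} (hc : c ∈ cols o P) (hc' : c' ∈ cols o P) : |c - c'| ≤ wP ρ K0 K := by
  obtain ⟨z, hz, rfl⟩ := mem_cols.1 hc
  obtain ⟨z', hz', rfl⟩ := mem_cols.1 hc'
  have h1 := tight_width (hPa.tight P hP) (hPa.card P hP) o hz hz'
  have h2 := tight_width (hPa.tight P hP) (hPa.card P hP) o hz' hz
  unfold wP
  rw [abs_le]
  constructor <;> linarith

/-- Sites which weak parts touching the barrier `X` may contribute. -/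
def WW (ρ lam : ℕ) (Pa : Finset (Finset (ℤ × ℤ))) (X : ℤ) : Set (ℤ × ℤ) :=
  {z | ∃ P ∈ Pa, P.card < lam ∧ z.1 ∈ cols true P ∧ z.2 ∈ cols false P ∧
    ∃ c ∈ cols true P, |(|c|) - X| ≤ (ρ : ℤ)}

/-- The closed set, the outside of the barrier, and the weak contributions at the barrier. -/
def GG (ρ lam : ℕ) (Z : Set (ℕ × ℕ)) (Pa : Finset (Finset (ℤ × ℤ))) (st : Bool → Finset ℤ)
    (X : ℤ) : Set (ℤ × ℤ) := QQ ρ Z Pa st ∪ {z | X ≤ |z.1|} ∪ WW ρ lam Pa X

/-- A site close to the barrier is attributed to a part. -/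
def Attr (ρ lam : ℕ) (Z : Set (ℕ × ℕ)) (Pa : Finset (Finset (ℤ × ℤ))) (st : Bool → Finset ℤ)
    (X : ℤ) (v : ℤ × ℤ) (P : Finset (ℤ × ℤ)) : Prop :=
  P ∈ Pa ∧ (∃ c ∈ cols true P, |c - v.1| ≤ 2 * (ρ : ℤ)) ∧
    (∃ c ∈ cols false P, |c - v.2| ≤ 2 * (ρ : ℤ)) ∧
    (P.card < lam → v.1 ∈ cols true P ∧ v.2 ∈ cols false P) ∧
    (v ∉ QQ ρ Z Pa st → P.card < lam ∧ ∃ c ∈ cols true P, |(|c|) - X| ≤ (ρ : ℤ))

lemma exists_attr (hd : InfData ρ Z s lam) (hPa : Partn (cR ρ K0 K) K S Pa)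
    (hst : st false = ∅) {X β : ℤ} (hfar : ∀ y ∈ st true, cL ρ K0 K < |y - β|) {v : ℤ × ℤ}
    (hv : v ∈ QQ ρ Z Pa st ∪ WW ρ lam Pa X) (hvβ : |v.1 - β| ≤ 3 * ρ + wP ρ K0 K) :
    ∃ P, Attr ρ lam Z Pa st X v P := by
  have hρ0 : (0 : ℤ) ≤ ρ := by positivity
  have hwn := wP_nonneg ρ K0 K
  have hL := cL_large ρ K0 K
  by_cases hQ : v ∈ QQ ρ Z Pa st
  · obtain ⟨P, hP, hc, hG, hder⟩ := near_static hPa (z := v) (by
      intro o y hy
      cases o
      · rw [hst] at hy
        simp at hy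
      · have h1 := hfar y hy
        change 2 * (ρ : ℤ) < |y - v.1|
        rw [abs_le] at hvβ
        rw [lt_abs] at h1 ⊢
        omega) hQ
    refine ⟨P, hP, hc true, hc false, ?_, fun h => absurd hQ h⟩
    intro hw
    obtain ⟨c0, hc0, hc0'⟩ := hc true
    have hρ1 : (1 : ℤ) ≤ ρ := by
      have := hd.lam_pos.trans hd.lam_le
      exact_mod_cast this
    have hLt : Lz ρ st (P, fun o => cols o P) true = ∅ := by
      refine Lz_empty (β := β) (w := 5 * ρ + 2 * wP ρ K0 K) (L := cL ρ K0 K) (by linarith) ?_ hfar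
      intro c hc
      have h1 := cols_width hPa hP true hc hc0
      change |c0 - v.1| ≤ 2 * (ρ : ℤ) at hc0'
      rw [abs_le] at *
      constructor <;> linarith
    have hLf : Lz ρ st (P, fun o => cols o P) false = ∅ := by
      unfold Lz
      rw [hst]
      simp
    have hLz : Lz ρ st (P, fun o => cols o P) = fun _ => ∅ := by
      funext o
      cases o
      · exact hLf
      · exact hLt
    rw [hLz] at hder
    have h2 : v ∈ P := der_weak hd hw hder
    exact ⟨mem_cols.2 ⟨v, h2, rfl⟩, mem_cols.2 ⟨v, h2, rfl⟩⟩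
  · rcases hv with hv | ⟨P, hP, hw, h1, h2, h3⟩
    · exact absurd hv hQ
    · exact ⟨P, hP, ⟨v.1, h1, by simp⟩, ⟨v.2, h2, by simp⟩, fun _ => ⟨h1, h2⟩,
        fun _ => ⟨hw, h3⟩⟩

lemma attr_unique (hsep : ∀ P ∈ Pa, ∀ P' ∈ Pa, P ≠ P' → Sep (cR ρ K0 K) P P') {X : ℤ}
    {v v' : ℤ × ℤ} {P P' : Finset (ℤ × ℤ)} (h : Attr ρ lam Z Pa st X v P)
    (h' : Attr ρ lam Z Pa st X v' P') (h1 : |v.1 - v'.1| ≤ 2 * (ρ : ℤ))
    (h2 : |v.2 - v'.2| ≤ 2 * (ρ : ℤ)) : P = P' := by
  by_contra hne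
  have hR := cR_large ρ K0 K
  obtain ⟨hP, ⟨c, hc, hcv⟩, ⟨r, hr, hrv⟩, -, -⟩ := h
  obtain ⟨hP', ⟨c', hc', hcv'⟩, ⟨r', hr', hrv'⟩, -, -⟩ := h'
  obtain ⟨z1, hz1, rfl⟩ := mem_cols.1 hc
  obtain ⟨z2, hz2, rfl⟩ := mem_cols.1 hr
  obtain ⟨z3, hz3, rfl⟩ := mem_cols.1 hc'
  obtain ⟨z4, hz4, rfl⟩ := mem_cols.1 hr'
  rw [abs_le] at *
  obtain ⟨o, ho⟩ := hsep P hP P' hP' hne
  cases o
  · rcases ho with ho | ho
    · have := ho z2 hz2 z4 hz4
      linarith
    · have := ho z2 hz2 z4 hz4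
      linarith
  · rcases ho with ho | ho
    · have := ho z1 hz1 z3 hz3
      linarith
    · have := ho z1 hz1 z3 hz3
      linarith

/-- The way across a clean barrier needs a strong part. -/
theorem cross (hd : InfData ρ Z s lam) (hPa : Partn (cR ρ K0 K) K S Pa)
    (hsep : ∀ P ∈ Pa, ∀ P' ∈ Pa, P ≠ P' → Sep (cR ρ K0 K) P P') (hst : st false = ∅)
    (hcl : Closed ρ Z (QQ ρ Z Pa st)) {X : ℤ} (hX : (ρ : ℤ) < X)
    (hclean : ∀ y ∈ st true, cL ρ K0 K < |y - X| ∧ cL ρ K0 K < |y + X|) {a b : ℤ}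
    (hab : (a, b) ∉ GG ρ lam Z Pa st X) (U V : Finset ℤ)
    (hU : ∀ a' ∈ U, |a' - a| ≤ (ρ : ℤ) ∧ (a', b) ∈ GG ρ lam Z Pa st X)
    (hV : ∀ b' ∈ V, |b' - b| ≤ (ρ : ℤ) ∧ (a, b') ∈ GG ρ lam Z Pa st X)
    (hb : bad Z true U.card V.card) :
    (∃ P ∈ Pa, lam ≤ P.card ∧ ∀ f ∈ P, |f.1 - a| ≤ 3 * ρ + wP ρ K0 K ∧
      |f.2 - b| ≤ 3 * ρ + wP ρ K0 K) ∧ X - ρ ≤ |a| ∧
      ∃ a' ∈ U, X ≤ |a'| ∧ (a', b) ∉ QQ ρ Z Pa st := by
  have hρ0 : (0 : ℤ) ≤ ρ := by positivity
  have hwn := wP_nonneg ρ K0 K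
  have haX : |a| < X := by
    by_contra h
    exact hab (Or.inl (Or.inr (not_lt.1 h)))
  have haQ : (a, b) ∉ QQ ρ Z Pa st := fun h => hab (Or.inl (Or.inl h))
  have haW : (a, b) ∉ WW ρ lam Pa X := fun h => hab (Or.inr h)
  -- membership without the outside
  have hUin : ∀ a' ∈ U, ¬ X ≤ |a'| → (a', b) ∈ QQ ρ Z Pa st ∪ WW ρ lam Pa X := by
    intro a' ha' hlt
    rcases (hU a' ha').2 with (h | h) | h
    · exact Or.inl h
    · exact absurd h hlt
    · exact Or.inr h
  have hVin : ∀ b' ∈ V, (a, b') ∈ QQ ρ Z Pa st ∪ WW ρ lam Pa X := by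
    intro b' hb'
    rcases (hV b' hb').2 with (h | h) | h
    · exact Or.inl h
    · exact absurd h (not_le.2 haX)
    · exact Or.inr h
  -- `V` is nonempty
  have hVne : V.Nonempty := by
    rw [Finset.nonempty_iff_ne_empty]
    rintro rfl
    exact hb (hd.hinf _)
  obtain ⟨b0, hb0⟩ := hVne
  -- some contribution is not in the closed set
  have hnot : (∃ a' ∈ U, (a', b) ∉ QQ ρ Z Pa st) ∨ ∃ b' ∈ V, (a, b') ∉ QQ ρ Z Pa st := by
    by_contra hcon
    push Not at hcon
    exact haQ (hcl true a b U V (fun a' ha' => ⟨(hU a' ha').1, hcon.1 a' ha'⟩)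
      (fun b' hb' => ⟨(hV b' hb').1, hcon.2 b' hb'⟩) hb)
  -- position of `a`
  have hWpos : ∀ v : ℤ × ℤ, v ∈ WW ρ lam Pa X → X - ρ - wP ρ K0 K ≤ |v.1| := by
    rintro v ⟨P, hP, -, h1, -, c, hc, h2⟩
    have h3 := cols_width hPa hP true hc h1
    have h4 : |c| ≤ |v.1| + |c - v.1| := by
      calc |c| = |v.1 + (c - v.1)| := by congr 1; ring
        _ ≤ _ := abs_add_le _ _
    rw [abs_le] at h2
    linarith
  have habs : ∀ a' ∈ U, |a'| ≤ |a| + ρ := by
    intro a' ha'
    have h1 := (hU a' ha').1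
    calc |a'| = |a + (a' - a)| := by congr 1; ring
      _ ≤ |a| + |a' - a| := abs_add_le _ _
      _ ≤ _ := by linarith
  have hnear : X - (2 * ρ + wP ρ K0 K) ≤ |a| := by
    rcases hnot with ⟨a', ha', h⟩ | ⟨b', hb', h⟩
    · have h1 := habs a' ha'
      by_cases hX' : X ≤ |a'|
      · linarith
      · have h2 := hWpos (a', b) ((hUin a' ha' hX').resolve_left h)
        simp only at h2
        linarith
    · have h2 := hWpos (a, b') ((hVin b' hb').resolve_left h)
      simp only at h2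
      linarith
  obtain ⟨β, hβ, hfar⟩ : ∃ β : ℤ, |a - β| ≤ 2 * ρ + wP ρ K0 K ∧
      ∀ y ∈ st true, cL ρ K0 K < |y - β| := by
    rcases le_total 0 a with h0 | h0
    · refine ⟨X, ?_, fun y hy => (hclean y hy).1⟩
      rw [abs_of_nonneg h0] at hnear haX
      rw [abs_le]
      constructor <;> linarith
    · refine ⟨-X, ?_, fun y hy => by
        rw [sub_neg_eq_add]
        exact (hclean y hy).2⟩
      rw [abs_of_nonpos h0] at hnear haX
      rw [abs_le]
      constructor <;> linarith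
  have hUattr : ∀ a' ∈ U, ¬ X ≤ |a'| → ∃ P, Attr ρ lam Z Pa st X (a', b) P := by
    intro a' ha' h
    refine exists_attr hd hPa hst hfar (hUin a' ha' h) ?_
    have h1 := (hU a' ha').1
    simp only
    rw [abs_le] at *
    constructor <;> linarith
  have hVattr : ∀ b' ∈ V, ∃ P, Attr ρ lam Z Pa st X (a, b') P := by
    intro b' hb'
    refine exists_attr hd hPa hst hfar (hVin b' hb') ?_
    simp only
    rw [abs_le] at *
    constructor <;> linarith
  obtain ⟨P, hA0⟩ := hVattr b0 hb0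
  have hVP : ∀ b' ∈ V, Attr ρ lam Z Pa st X (a, b') P := by
    intro b' hb'
    obtain ⟨P', h'⟩ := hVattr b' hb'
    have h1 := (hV b' hb').1
    have h2 := (hV b0 hb0).1
    have : P' = P := attr_unique hsep h' hA0 (by simp) (by
      simp only
      rw [abs_le] at *
      constructor <;> linarith)
    rwa [← this]
  have hUP : ∀ a' ∈ U, ¬ X ≤ |a'| → Attr ρ lam Z Pa st X (a', b) P := by
    intro a' ha' hx
    obtain ⟨P', h'⟩ := hUattr a' ha' hx
    have h1 := (hU a' ha').1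
    have h2 := (hV b0 hb0).1
    have : P' = P := attr_unique hsep h' hA0 (by
      simp only
      rw [abs_le] at *
      constructor <;> linarith) (by
      simp only
      rw [abs_le] at *
      constructor <;> linarith)
    rwa [← this]
  obtain ⟨hP, ⟨c0, hc0, hc0a⟩, ⟨r0, hr0, hr0b⟩, hA4, -⟩ := hA0
  simp only at hc0a hr0b hA4
  by_cases hw : P.card < lam
  · exfalso
    have haP : a ∈ cols true P := (hA4 hw).1
    have hVc : V.card ≤ lam - 1 := by
      have h1 : V ⊆ cols false P := fun b' hb' => ((hVP b' hb').2.2.2.1 hw).2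
      have h2 : (cols false P).card ≤ P.card := Finset.card_image_le
      have h3 := Finset.card_le_card h1
      omega
    have htouch : ∃ c ∈ cols true P, |(|c|) - X| ≤ (ρ : ℤ) := by
      rcases hnot with ⟨a', ha', h⟩ | ⟨b', hb', h⟩
      · by_cases hX' : X ≤ |a'|
        · refine ⟨a, haP, ?_⟩
          have h1 := habs a' ha'
          rw [abs_le]
          constructor <;> linarith
        · exact ((hUP a' ha' hX').2.2.2.2 h).2
      · exact ((hVP b' hb').2.2.2.2 h).2
    have hbP : b ∉ cols false P := fun h => haW ⟨P, hP, hw, haP, h, htouch⟩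
    have hUout : ∀ a' ∈ U, X ≤ |a'| := by
      intro a' ha'
      by_contra h
      exact hbP ((hUP a' ha' h).2.2.2.1 hw).2
    have hUc : U.card ≤ ρ := by
      by_cases hside : ∃ x ∈ U, X ≤ x
      · obtain ⟨x, hx, hxX⟩ := hside
        have hsub : U ⊆ Finset.Icc (a + 1) (a + ρ) := by
          intro y hy
          have h1 := hUout y hy
          have h2 := (hU y hy).1
          have h3 := (hU x hx).1
          rw [abs_le] at h2 h3
          rw [le_abs] at h1
          rw [abs_lt] at haX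
          rw [Finset.mem_Icc]
          omega
        refine (Finset.card_le_card hsub).trans ?_
        rw [Int.card_Icc]
        omega
      · push Not at hside
        have hsub : U ⊆ Finset.Icc (a - ρ) (a - 1) := by
          intro y hy
          have h1 := hUout y hy
          have h2 := (hU y hy).1
          have h3 := hside y hy
          rw [abs_le] at h2
          rw [le_abs] at h1
          rw [abs_lt] at haX
          rw [Finset.mem_Icc]
          omega
        refine (Finset.card_le_card hsub).trans ?_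
        rw [Int.card_Icc]
        omega
    exact hb (hd.hZ (Prod.mk_le_mk.2 ⟨hUc, hVc⟩) hd.hlam')
  · have hs' : lam ≤ P.card := not_lt.1 hw
    refine ⟨⟨P, hP, hs', ?_⟩, ?_⟩
    · intro f hf
      have h1 := cols_width hPa hP true (mem_cols.2 ⟨f, hf, rfl⟩) hc0
      have h2 := cols_width hPa hP false (mem_cols.2 ⟨f, hf, rfl⟩) hr0
      have h3 := (hV b0 hb0).1
      simp only [crd_true, crd_false] at h1 h2
      rw [abs_le] at *
      constructor
      · constructor <;> linarith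
      · rw [abs_le]
        constructor <;> linarith
    · rcases hnot with ⟨a', ha', h⟩ | ⟨b', hb', h⟩
      · by_cases hX' : X ≤ |a'|
        · have h1 := habs a' ha'
          exact ⟨by linarith, a', ha', hX', h⟩
        · exact absurd ((hUP a' ha' hX').2.2.2.2 h).1 hw
      · exact absurd ((hVP b' hb').2.2.2.2 h).1 hw

end

end Pool.Agent.MP_e7dab6_pr
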