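import Pool.Agent.Lib.MP_e7dab6_pr.InfChain

/-!
# Infinite width: lower bound for the hitting time
-/

set_option autoImplicit false

open Filter Topology MeasureTheory

namespace Pool.Agent.MP_e7dab6_pr

/-- Markov's inequality for the number of events which occur. -/
lemma markov_count (p : unitInterval) {n k : ℕ} (hk : 1 ≤ k) (B : ℕ → Set (Set (ℤ × ℤ)))
    (hB : ∀ j < n, MeasurableSet (B j)) {ε : ℝ} (hε : ∀ j < n, (initLaw p).real (B j) ≤ ε) :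
    (initLaw p).real {ξ | ∃ T : Finset ℕ, T ⊆ Finset.range n ∧ k ≤ T.card ∧ ∀ j ∈ T, ξ ∈ B j} ≤
      n * ε / k := by
  classical
  have hk0 : (0 : ℝ) < k := by exact_mod_cast hk
  set f : Set (ℤ × ℤ) → ℝ := fun ξ => ∑ j ∈ Finset.range n, (B j).indicator (fun _ => (1 : ℝ)) ξ
    with hf
  have hint : ∀ j ∈ Finset.range n,
      Integrable ((B j).indicator (fun _ => (1 : ℝ))) (initLaw p) := fun j hj =>
    (integrable_const (1 : ℝ)).indicator (hB j (Finset.mem_range.1 hj))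
  have hfi : Integrable f (initLaw p) := integrable_finsetSum _ hint
  have hf0 : ∀ ξ, 0 ≤ f ξ := fun ξ =>
    Finset.sum_nonneg (fun j _ => Set.indicator_nonneg (fun _ _ => zero_le_one) ξ)
  have hmean : ∫ ξ, f ξ ∂(initLaw p) ≤ n * ε := by
    rw [hf, integral_finsetSum _ hint]
    have h1 : ∀ j ∈ Finset.range n, ∫ ξ, (B j).indicator (fun _ => (1 : ℝ)) ξ ∂(initLaw p) ≤ ε := by
      intro j hj
      rw [integral_indicator_const _ (hB j (Finset.mem_range.1 hj)), smul_eq_mul, mul_one]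
      exact hε j (Finset.mem_range.1 hj)
    refine (Finset.sum_le_sum h1).trans ?_
    rw [Finset.sum_const, Finset.card_range, nsmul_eq_mul]
  have hmar := mul_meas_ge_le_integral_of_nonneg (μ := initLaw p) (f := f)
    (Filter.Eventually.of_forall hf0) hfi (k : ℝ)
  rw [le_div_iff₀ hk0, mul_comm]
  refine le_trans ?_ (hmar.trans hmean)
  refine mul_le_mul_of_nonneg_left ?_ hk0.le
  refine measureReal_mono ?_ (measure_ne_top _ _)
  rintro ξ ⟨T, h1, h2, h3⟩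
  change (k : ℝ) ≤ ∑ j ∈ Finset.range n, (B j).indicator (fun _ => (1 : ℝ)) ξ
  have h4 : ∑ j ∈ T, (B j).indicator (fun _ => (1 : ℝ)) ξ = T.card := by
    rw [Finset.sum_congr rfl (fun j hj => Set.indicator_of_mem (h3 j hj) _)]
    simp
  have h5 : ∑ j ∈ T, (B j).indicator (fun _ => (1 : ℝ)) ξ ≤
      ∑ j ∈ Finset.range n, (B j).indicator (fun _ => (1 : ℝ)) ξ :=
    Finset.sum_le_sum_of_subset_of_nonneg h1
      (fun j _ _ => Set.indicator_nonneg (fun _ _ => zero_le_one) ξ)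
  have h6 : (k : ℝ) ≤ T.card := by exact_mod_cast h2
  linarith

/-- The output of the deterministic theorem when there are no rows. -/
def DetOut (ρ : ℕ) (Z : Set (ℕ × ℕ)) (g0 : Bool → ℝ) (K0 K : ℕ) : Prop :=
  ∀ S : Finset (ℤ × ℤ), SparseAt g0 (2 * K0 * K) (cL ρ K0 K) S (fun _ => ∅) →
    ∃ (Pa : Finset (Finset (ℤ × ℤ))) (st : Bool → Finset ℤ),
      Partn (cR ρ K0 K) K S Pa ∧ (∀ P ∈ Pa, ∀ P' ∈ Pa, P ≠ P' → Sep (cR ρ K0 K) P P') ∧
      st false = ∅ ∧ Closed ρ Z (QQ ρ Z Pa st) ∧ (S : Set (ℤ × ℤ)) ⊆ QQ ρ Z Pa st ∧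
      ∀ x, SparseAt g0 (2 * K0 * K) (cL ρ K0 K) S (rootZone (cL ρ K0 K) true x) →
        ∀ y ∈ st true, cL ρ K0 K < |y - x|

lemma cA_small {ρ lam : ℕ} (w5 : ℤ) (hlam1 : 1 ≤ lam) {γt δ0 : ℝ} (h0 : 0 ≤ γt)
    (hlam : γt < lam + δ0) {η : ℝ} (hη : 0 < η) :
    ∀ᶠ p : ℝ in 𝓝[>] 0, cA w5 lam p ((⌈p ^ (-δ0)⌉₊ : ℝ) / ((ρ * ⌈p ^ (-γt)⌉₊ : ℕ) : ℝ)) ≤ η := by
  set D : ℝ := 2 * 2 ^ cB w5 * (2 * ρ + 1) with hD
  have hD0 : 0 < D := by rw [hD]; positivity
  have hl : (0 : ℝ) < lam := by exact_mod_cast hlam1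
  filter_upwards [ev_pos, ev_rpow_lt (e := (lam : ℝ)) hl (div_pos (half_pos hη) hD0),
    ev_rpow_lt (e := (lam : ℝ) + δ0 - γt) (by linarith) (div_pos (half_pos hη) hD0)]
    with p hp h1 h2
  have hm : p ^ (-δ0) ≤ (⌈p ^ (-δ0)⌉₊ : ℝ) := Nat.le_ceil _
  have hpδ : 0 < p ^ (-δ0) := Real.rpow_pos_of_pos hp.1 _
  have hm0 : (0 : ℝ) < ⌈p ^ (-δ0)⌉₊ := lt_of_lt_of_le hpδ hm
  have hM := ceil_le_two (one_le_rpow_neg hp.1 hp.2 h0)
  have hpl : p ^ lam = p ^ (lam : ℝ) := (Real.rpow_natCast p lam).symm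
  have hpl0 : 0 < p ^ (lam : ℝ) := Real.rpow_pos_of_pos hp.1 _
  have hratio : ((ρ * ⌈p ^ (-γt)⌉₊ : ℕ) : ℝ) / (⌈p ^ (-δ0)⌉₊ : ℝ) ≤ 2 * ρ * p ^ (δ0 - γt) := by
    rw [div_le_iff₀ hm0]
    push_cast
    have h3 : p ^ (δ0 - γt) * p ^ (-δ0) = p ^ (-γt) := by
      rw [← Real.rpow_add hp.1]
      congr 1
      ring
    have h4 : 0 < p ^ (δ0 - γt) := Real.rpow_pos_of_pos hp.1 _
    have h5 : p ^ (-γt) ≤ p ^ (δ0 - γt) * (⌈p ^ (-δ0)⌉₊ : ℝ) := by
      rw [← h3]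
      exact mul_le_mul_of_nonneg_left hm h4.le
    have hρ0 : (0 : ℝ) ≤ ρ := by positivity
    calc (ρ : ℝ) * ⌈p ^ (-γt)⌉₊ ≤ ρ * (2 * p ^ (-γt)) := mul_le_mul_of_nonneg_left hM hρ0
      _ ≤ ρ * (2 * (p ^ (δ0 - γt) * (⌈p ^ (-δ0)⌉₊ : ℝ))) := by
          refine mul_le_mul_of_nonneg_left ?_ hρ0
          linarith
      _ = _ := by ring
  have h3 : 1 / ((⌈p ^ (-δ0)⌉₊ : ℝ) / ((ρ * ⌈p ^ (-γt)⌉₊ : ℕ) : ℝ)) =
      ((ρ * ⌈p ^ (-γt)⌉₊ : ℕ) : ℝ) / (⌈p ^ (-δ0)⌉₊ : ℝ) := by rw [one_div_div]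
  unfold cA
  rw [h3, hpl]
  have h4 : p ^ (lam : ℝ) * p ^ (δ0 - γt) = p ^ ((lam : ℝ) + δ0 - γt) := by
    rw [← Real.rpow_add hp.1]
    congr 1
    ring
  have hc0 : (0 : ℝ) < 2 * 2 ^ cB w5 := by positivity
  have hρ0 : (0 : ℝ) ≤ ρ := by positivity
  have h1' := mul_lt_mul_of_pos_left h1 hD0
  have h2' := mul_lt_mul_of_pos_left h2 hD0
  rw [mul_div_cancel₀ _ hD0.ne'] at h1' h2'
  have h5 : 0 < p ^ ((lam : ℝ) + δ0 - γt) := Real.rpow_pos_of_pos hp.1 _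
  calc 2 * 2 ^ cB w5 * p ^ (lam : ℝ) *
        (1 + ((ρ * ⌈p ^ (-γt)⌉₊ : ℕ) : ℝ) / (⌈p ^ (-δ0)⌉₊ : ℝ))
      ≤ 2 * 2 ^ cB w5 * p ^ (lam : ℝ) * (1 + 2 * ρ * p ^ (δ0 - γt)) := by
        refine mul_le_mul_of_nonneg_left ?_ (by positivity)
        linarith
    _ = 2 * 2 ^ cB w5 * p ^ (lam : ℝ) + 2 * 2 ^ cB w5 * (2 * ρ) * p ^ ((lam : ℝ) + δ0 - γt) := by
        rw [← h4]
        ring
    _ ≤ D * p ^ (lam : ℝ) + D * p ^ ((lam : ℝ) + δ0 - γt) := by
        have g1 : 2 * 2 ^ cB w5 ≤ D := by rw [hD]; nlinarith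
        have g2 : 2 * 2 ^ cB w5 * (2 * (ρ : ℝ)) ≤ D := by rw [hD]; nlinarith
        exact add_le_add (mul_le_mul_of_nonneg_right g1 hpl0.le)
          (mul_le_mul_of_nonneg_right g2 h5.le)
    _ ≤ η := by linarith

theorem lower_core {ρ K0 K s lam : ℕ} {Z : Set (ℕ × ℕ)} (hd : InfData ρ Z s lam)
    {g0 : Bool → ℝ} (hdet : DetOut ρ Z g0 K0 K) {γt : ℝ} (h0 : 0 ≤ γt) (hgf : γt ≤ g0 false)
    (hgt : 0 < g0 true) (hlam : γt < lam + g0 true) {ε : ℝ} (hε : 0 < ε) :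
    ∀ᶠ p : ℝ in 𝓝[>] 0, ∀ hp : p ∈ unitInterval,
      (initLaw ⟨p, hp⟩).real {ξ | ((hitTime ρ Z ξ : ℕ∞) : ENNReal) ≤
        ENNReal.ofReal (p ^ (-γt))} ≤ ε := by
  classical
  have hρ : 1 ≤ ρ := hd.lam_pos.trans hd.lam_le
  have hρr : (0 : ℝ) < ρ := by exact_mod_cast hρ
  set L := cL ρ K0 K with hL
  have hL0 : 0 ≤ L := cL_nonneg ρ K0 K
  set w4 := w4c ρ K0 K with hw4
  set w5 := w5c ρ K0 K with hw5
  have hwn := wP_nonneg ρ K0 K
  have hw4p := w4c_pos ρ K0 K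
  have hρ0 : (0 : ℤ) ≤ ρ := by positivity
  have hw50 : 0 ≤ w5 := by rw [hw5]; unfold w5c; linarith
  have hw45 : 2 * w5 < w4 := by rw [hw5, hw4]; unfold w5c w4c; linarith
  have hw4' : (w4.toNat : ℤ) = w4 := Int.toNat_of_nonneg (by linarith)
  set δ0 := g0 true with hδ0
  have hg00 : ∀ o, 0 ≤ g0 o := by
    intro o
    cases o
    · linarith
    · exact hgt.le
  set m : ℝ → ℕ := fun p => ⌈p ^ (-δ0)⌉₊ with hm
  set Mt : ℝ → ℕ := fun p => ρ * ⌈p ^ (-γt)⌉₊ with hMt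
  set N : ℝ → Bool → ℕ := fun p o => cond o (2 * m p * w4.toNat) (Mt p) with hN
  set CN : ℝ := 4 * w4.toNat + 2 * ρ with hCN
  have hNle : ∀ o, ∀ᶠ p : ℝ in 𝓝[>] 0, (N p o : ℝ) ≤ CN * p ^ (-(g0 o)) := by
    intro o
    filter_upwards [ev_pos] with p hp
    have hw40 : (0 : ℝ) ≤ (w4.toNat : ℝ) := by positivity
    cases o
    · have h1 := ceil_le_two (one_le_rpow_neg hp.1 hp.2 h0)
      have h2 : p ^ (-γt) ≤ p ^ (-(g0 false)) :=
        Real.rpow_le_rpow_of_exponent_ge hp.1 hp.2.le (by linarith)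
      have h3 : 0 < p ^ (-(g0 false)) := Real.rpow_pos_of_pos hp.1 _
      simp only [hN, hMt, cond_false]
      push_cast
      calc (ρ : ℝ) * ⌈p ^ (-γt)⌉₊ ≤ ρ * (2 * p ^ (-(g0 false))) := by
            refine mul_le_mul_of_nonneg_left ?_ hρr.le
            linarith
        _ = (2 * ρ) * p ^ (-(g0 false)) := by ring
        _ ≤ CN * p ^ (-(g0 false)) := by
            refine mul_le_mul_of_nonneg_right ?_ h3.le
            rw [hCN]; linarith
    · have h1 := ceil_le_two (one_le_rpow_neg hp.1 hp.2 hgt.le)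
      have h3 : 0 < p ^ (-δ0) := Real.rpow_pos_of_pos hp.1 _
      simp only [hN, hm, cond_true]
      push_cast
      calc 2 * (⌈p ^ (-δ0)⌉₊ : ℝ) * (w4.toNat : ℝ) ≤ 2 * (2 * p ^ (-δ0)) * (w4.toNat : ℝ) := by
            refine mul_le_mul_of_nonneg_right ?_ hw40
            linarith
        _ = (4 * w4.toNat) * p ^ (-δ0) := by ring
        _ ≤ CN * p ^ (-δ0) := by
            refine mul_le_mul_of_nonneg_right ?_ h3.le
            rw [hCN]; linarith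
  set b : ℕ := (2 * (ρ : ℤ) + K * cR ρ K0 K).toNat with hb
  have hbeq : (b : ℤ) = 2 * (ρ : ℤ) + K * cR ρ K0 K := by
    rw [hb]
    apply Int.toNat_of_nonneg
    have := KR_nonneg ρ K0 K
    positivity
  have hε16 : 0 < ε / 16 := by linarith
  have hCN0 : 0 < CN := by rw [hCN]; positivity
  have e1 := badEv_small (Kp := 2 * K0 * K) (c := (4 * L + 1).toNat) hg00 hL0 hCN0 hNle hε16
  have e2 := prob_near b hε16
  have he1 : 0 < Real.exp 1 := Real.exp_pos 1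
  have e3 := cA_small (ρ := ρ) w5 hd.lam_pos h0 hlam
    (show 0 < min 1 (ε / 4) / (4 * Real.exp 1) by positivity)
  filter_upwards [ev_pos, e1, e2, e3] with p hp h1 h2 h3 hpI
  have hm1 : 1 ≤ m p := by
    have : 0 < p ^ (-δ0) := Real.rpow_pos_of_pos hp.1 _
    exact Nat.ceil_pos.2 this
  have hM1 : 1 ≤ Mt p := by
    have : 0 < p ^ (-γt) := Real.rpow_pos_of_pos hp.1 _
    exact Nat.mul_pos hρ (Nat.ceil_pos.2 this)
  set Kp := 2 * K0 * K with hKp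
  -- the events
  set Bj : ℕ → Set (Set (ℤ × ℤ)) := fun j => badEv g0 Kp L (rootFin L true (xb w4 j)) (N p) ∪
    badEv g0 Kp L (rootFin L true (-xb w4 j)) (N p) with hBj
  have hBm : ∀ j < 2 * m p, MeasurableSet (Bj j) := fun j _ =>
    (measurableSet_badEv _ _ _ _ _).union (measurableSet_badEv _ _ _ _ _)
  have hBε : ∀ j < 2 * m p, (initLaw ⟨p, hpI⟩).real (Bj j) ≤ ε / 8 := by
    intro j _
    have u1 := measureReal_union_le (μ := initLaw ⟨p, hpI⟩)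
      (badEv g0 Kp L (rootFin L true (xb w4 j)) (N p))
      (badEv g0 Kp L (rootFin L true (-xb w4 j)) (N p))
    have u2 := h1 hpI (rootFin L true (xb w4 j)) (rootFin_card L true _)
    have u3 := h1 hpI (rootFin L true (-xb w4 j)) (rootFin_card L true _)
    simp only [hBj]
    linarith
  set E0 := badEv g0 Kp L (fun _ => ∅) (N p) with hE0
  set E1 := badEv g0 Kp L (rootFin L true 0) (N p) with hE1
  set E3 : Set (Set (ℤ × ℤ)) := {ξ | ∃ z ∈ ξ, ∀ o, |crd o z| ≤ (b : ℤ)} with hE3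
  set E4 : Set (Set (ℤ × ℤ)) := {ξ | ∃ T : Finset ℕ, T ⊆ Finset.range (2 * m p) ∧
    m p ≤ T.card ∧ ∀ j ∈ T, ξ ∈ Bj j} with hE4
  set E5 := ChEv lam w4 w5 (m p) (Mt p) with hE5
  have s0 : (initLaw ⟨p, hpI⟩).real E0 ≤ ε / 16 := h1 hpI (fun _ => ∅) (fun _ => by simp)
  have s1 : (initLaw ⟨p, hpI⟩).real E1 ≤ ε / 16 :=
    h1 hpI (rootFin L true 0) (rootFin_card L true 0)
  have s3 : (initLaw ⟨p, hpI⟩).real E3 ≤ ε / 16 := h2 hpI
  have s4 : (initLaw ⟨p, hpI⟩).real E4 ≤ ε / 4 := by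
    have := markov_count ⟨p, hpI⟩ hm1 Bj hBm hBε
    refine this.trans (le_of_eq ?_)
    have hm0 : (m p : ℝ) ≠ 0 := by
      have : m p ≠ 0 := by omega
      exact_mod_cast this
    push_cast
    field_simp
    ring
  have s5 : (initLaw ⟨p, hpI⟩).real E5 ≤ ε / 4 := by
    have h4 : 4 * Real.exp 1 * cA w5 lam p ((m p : ℝ) / (Mt p : ℝ)) ≤ min 1 (ε / 4) := by
      have := mul_le_mul_of_nonneg_left h3 (show 0 ≤ 4 * Real.exp 1 by positivity)
      rw [mul_div_cancel₀ _ (by positivity)] at this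
      exact this
    have := prob_chEv hw50 hw45 lam ⟨p, hpI⟩ hm1 hM1 (h4.trans (min_le_left _ _))
    exact this.trans (h4.trans (min_le_right _ _))
  have hsub : {ξ | ((hitTime ρ Z ξ : ℕ∞) : ENNReal) ≤ ENNReal.ofReal (p ^ (-γt))} ⊆
      (((E0 ∪ E1) ∪ E3) ∪ E4) ∪ E5 := by
    intro ξ hξ
    by_contra hcon
    simp only [Set.mem_union, not_or] at hcon
    obtain ⟨⟨⟨⟨c0, c1⟩, c3⟩, c4⟩, c5⟩ := hcon
    have sp : ∀ R0 : Bool → Finset ℤ, ξ ∉ badEv g0 Kp L R0 (N p) →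
        SparseAt g0 Kp L (ξ ∩ Box (N p)) (fun o => (R0 o : Set ℤ)) := by
      intro R0 h
      by_contra hs
      exact h (not_sparse_sub hg00 R0 (N p) hs)
    have d0 := sp _ c0
    have d1 := sp _ c1
    rw [rootFin_coe] at d1
    obtain ⟨t, ht, hmem⟩ := exists_of_hitTime_le hξ
    have hfin : (ξ ∩ Box (N p)).Finite := (box_finite _).subset Set.inter_subset_right
    set S : Finset (ℤ × ℤ) := hfin.toFinset with hS
    have hScoe : (S : Set (ℤ × ℤ)) = ξ ∩ Box (N p) := hfin.coe_toFinset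
    rw [← hScoe] at d0 d1
    obtain ⟨Pa, st, hPa, hsep, hst, hcl, hSQ, hroot⟩ := hdet S (by simpa using d0)
    have hQ0 : ((0 : ℤ), (0 : ℤ)) ∉ QQ ρ Z Pa st := by
      refine origin_not_mem (Z := Z) hPa ?_ ?_
      · intro o y hy
        cases o
        · rw [hst] at hy
          simp at hy
        · exact hroot 0 d1 y hy
      · intro z hz hall
        apply c3
        have hz' : z ∈ ξ ∩ Box (N p) := by rw [← hScoe]; exact_mod_cast hz
        exact ⟨z, hz'.1, fun o => by rw [hbeq]; exact hall o⟩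
    -- the clean barriers
    set T : Finset ℕ := (Finset.range (2 * m p)).filter (fun j => ξ ∉ Bj j) with hT
    have hTcard : m p ≤ T.card := by
      by_contra hlt
      apply c4
      refine ⟨(Finset.range (2 * m p)).filter (fun j => ξ ∈ Bj j), Finset.filter_subset _ _, ?_,
        fun j hj => (Finset.mem_filter.1 hj).2⟩
      have h5 := Finset.card_filter_add_card_filter_not (s := Finset.range (2 * m p))
        (fun j => ξ ∈ Bj j)
      rw [Finset.card_range, ← hT] at h5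
      omega
    apply c5
    refine ⟨T, Finset.filter_subset _ _, hTcard, ?_⟩
    have ht' : (t : ℝ) ≤ p ^ (-γt) := by
      rwa [max_eq_left (Real.rpow_nonneg hp.1.le _)] at ht
    have htN : t ≤ ⌈p ^ (-γt)⌉₊ := by
      have : (t : ℝ) ≤ ⌈p ^ (-γt)⌉₊ := ht'.trans (Nat.le_ceil _)
      exact_mod_cast this
    have hρt : ρ * t ≤ Mt p := Nat.mul_le_mul_left _ htN
    refine chain_of hd hPa hsep hst hcl hScoe hSQ (T.sort (· ≤ ·))
      (List.sortedLT_iff_pairwise.1 (Finset.sortedLT_sort T)) ?_ ((0 : ℤ), (0 : ℤ)) t (Mt p) hmem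
      hQ0 ?_ ?_ hρt
    · intro j hj
      rw [Finset.mem_sort, hT, Finset.mem_filter, Finset.mem_range] at hj
      have g1 : ξ ∉ badEv g0 Kp L (rootFin L true (xb w4 j)) (N p) := fun h =>
        hj.2 (Or.inl h)
      have g2 : ξ ∉ badEv g0 Kp L (rootFin L true (-xb w4 j)) (N p) := fun h =>
        hj.2 (Or.inr h)
      have d2 := sp _ g1
      have d3 := sp _ g2
      rw [rootFin_coe, ← hScoe] at d2 d3
      refine ⟨fun y hy => ⟨hroot _ d2 y hy, ?_⟩, ?_⟩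
      · have := hroot _ d3 y hy
        rwa [sub_neg_eq_add] at this
      · simp only [hN, cond_true]
        push_cast
        rw [hw4']
        unfold xb
        have h6 : (j : ℤ) + 1 ≤ 2 * (m p : ℤ) := by
          have := hj.1
          omega
        exact mul_le_mul_of_nonneg_right h6 (by linarith)
    · intro j _
      have h7 := le_xb (w4 := w4) (by linarith) j
      simp only [abs_zero, zero_add]
      linarith
    · simp only [abs_zero, zero_add, hN, cond_false]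
      exact_mod_cast hρt
  refine (measureReal_mono hsub (measure_ne_top _ _)).trans ?_
  have u1 := measureReal_union_le (μ := initLaw ⟨p, hpI⟩) (((E0 ∪ E1) ∪ E3) ∪ E4) E5
  have u2 := measureReal_union_le (μ := initLaw ⟨p, hpI⟩) ((E0 ∪ E1) ∪ E3) E4
  have u3 := measureReal_union_le (μ := initLaw ⟨p, hpI⟩) (E0 ∪ E1) E3
  have u4 := measureReal_union_le (μ := initLaw ⟨p, hpI⟩) E0 E1
  linarith

end Pool.Agent.MP_e7dab6_pr
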