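import Pool.Agent.Lib.MP_e7dab6_pr.InfUpper
import Pool.Agent.Lib.MP_e7dab6_pr.InfLower

/-!
# Existence of the critical power for zero-sets of infinite width
-/

set_option autoImplicit false

open Filter Topology MeasureTheory

namespace Pool.Agent.MP_e7dab6_pr

section
variable {ρ K0 K s lam : ℕ} {Z : Set (ℕ × ℕ)}

lemma detOut_of_data {hat : Bool → ℕ} {g0 g g2 : Bool → ℝ} {κ : ℝ}
    (hd : DetData ρ Z hat g0 g g2 κ K0 K) (hinf : ∀ u : ℕ, (u, (0 : ℕ)) ∈ Z) :
    DetOut ρ Z g0 K0 K := by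
  intro S hs
  obtain ⟨Pa, st, hPa, hsep, -, ⟨rk, hv⟩, hcl, hSQ, hroot⟩ := det hd hs
  exact ⟨Pa, st, hPa, hsep, valid_no_row hinf hv, hcl, hSQ, fun x hx => hroot true x hx⟩

/-- A tight part of moderate size has at most as many sites as one interval of each type
allows. -/
lemma sparse_card {g0 : Bool → ℝ} {S : Finset (ℤ × ℤ)} (hK0 : 1 ≤ K0)
    (hs : SparseAt g0 (2 * K0 * K) (cL ρ K0 K) S (fun _ => ∅)) {P : Finset (ℤ × ℤ)}
    (hPS : P ⊆ S) (hne : P.Nonempty) (ht : Tight (cR ρ K0 K) P) (hc : P.card ≤ 2 * K) :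
    (P.card : ℝ) ≤ g0 true + g0 false := by
  set A : Bool → Finset ℤ := fun o => {(P.image (crd o)).min' (hne.image _)} with hA
  have hRn := cR_nonneg ρ K0 K
  have hwn := cw_nonneg ρ K0 K
  have hDn := cDc_nonneg ρ K0 K
  have h1 := hs P (by exact_mod_cast hPS) (by nlinarith) A (by
    intro z hz o
    right
    refine ⟨_, Finset.mem_singleton_self _, Finset.min'_le _ _ (Finset.mem_image_of_mem _ hz), ?_⟩
    obtain ⟨z', hz', h2⟩ := Finset.mem_image.1 (Finset.min'_mem (P.image (crd o)) (hne.image _))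
    have h3 := ht o z hz z' hz'
    rw [h2] at h3
    have h4 : (P.card : ℤ) ≤ 2 * K := by exact_mod_cast hc
    have h5 : ((P.card : ℤ) - 1) * cR ρ K0 K ≤ 2 * (K * cR ρ K0 K) := by nlinarith
    have h6 : 2 * (K * cR ρ K0 K) ≤ cL ρ K0 K := by
      unfold cL
      have : 0 ≤ cDc ρ K0 K * (cmh ρ K0 K : ℤ) := by positivity
      linarith
    linarith)
  simp only [hA, Finset.card_singleton, Nat.cast_one, mul_one] at h1
  exact h1

/-- When the weights are small, all parts are inert. -/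
lemma detOut_weak (hd : InfData ρ Z s lam) {g0 : Bool → ℝ} (hg : g0 true + g0 false < lam) :
    DetOut ρ Z g0 1 lam := by
  intro S hs
  have hρ : 1 ≤ ρ := hd.lam_pos.trans hd.lam_le
  have hsmall : ∀ P ⊆ S, Tight (cR ρ 1 lam) P → P.card ≤ 2 * lam → P.card < lam := by
    intro P hPS ht hc
    rcases P.eq_empty_or_nonempty with rfl | hne
    · have := hd.lam_pos
      rw [Finset.card_empty]
      omega
    · have h1 := sparse_card le_rfl hs hPS hne ht hc
      have h2 : (P.card : ℝ) < lam := lt_of_le_of_lt h1 hg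
      exact_mod_cast h2
  obtain ⟨Pa, hPa, hsep⟩ := exists_partn (cR_nonneg ρ 1 lam) hd.lam_pos S
    (fun P h1 h2 h3 => (hsmall P h1 h2 h3).le)
  have hweak : ∀ P ∈ Pa, P.card < lam := fun P hP =>
    hsmall P (hPa.sub P hP) (hPa.tight P hP) ((hPa.card P hP).trans (by omega))
  have hno : ∀ o x, ¬ StepAt ρ Z Pa (cw ρ 1 lam) (cDc ρ 1 lam) (fun _ => ∅) o x := by
    rintro o x ⟨-, A, F, hA, hder, hcase⟩
    have hAe : A = fun _ => ∅ := by
      funext o'
      have := hA o'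
      rw [Finset.coe_empty] at this
      exact Set.subset_empty_iff.1 this
    rw [hAe] at hder
    have hF : F.card < lam := by
      rcases hcase with ⟨hF, -⟩ | ⟨hF, -⟩
      · exact hweak F hF
      · have := hd.lam_pos
        rw [hF, Finset.card_empty]
        omega
    exact der_weak hd hF hder
  have hw := cw_nonneg ρ 1 lam
  have hKR := KR_nonneg ρ 1 lam
  refine ⟨Pa, fun _ => ∅, hPa, hsep, rfl, ?_, ?_, ?_⟩
  · refine closed_QQ (D := cw ρ 1 lam) (Dc := cDc ρ 1 lam) (R := cR ρ 1 lam)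
      (m := cmh ρ 1 lam) hd.hZ hρ (fun o a ha => by simp at ha) ?_ ?_ ?_ ?_ hsep hno
    · unfold cDc; linarith
    · unfold cw; linarith
    · have : 2 * (ρ : ℤ) * cmh ρ 1 lam = cw ρ 1 lam := rfl
      rw [this]; unfold cDc; linarith
    · have : 2 * (ρ : ℤ) * cmh ρ 1 lam = cw ρ 1 lam := rfl
      rw [this]; unfold cR; linarith
  · intro z hz
    obtain ⟨P, hP, hzP⟩ := hPa.cover z (by exact_mod_cast hz)
    refine Or.inr ⟨(P, fun o => cols o P), Or.inl ⟨P, hP, rfl⟩, fun o => ?_,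
      .baseSite (by exact_mod_cast hzP)⟩
    refine subset_Gs (by positivity) ?_
    exact_mod_cast mem_cols.2 ⟨z, hzP, rfl⟩
  · intro x _ y hy
    simp at hy

/-- Lower bound below the infimum of the filling exponents. -/
lemma lower_strong (hd : InfData ρ Z s lam) {hat : Bool → ℕ} (hhat1 : ∀ o, 1 ≤ hat o)
    (hhat2 : ∀ o, hat o ≤ ρ) {γt γ2 : ℝ} (hl : (lam : ℝ) ≤ γt) (hγ : γt < γ2)
    (hno : ¬ HasFill ρ Z hat (fun o => cond o (γ2 - lam) γ2)) {ε : ℝ} (hε : 0 < ε) :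
    ∀ᶠ p : ℝ in 𝓝[>] 0, ∀ hp : p ∈ unitInterval,
      (initLaw ⟨p, hp⟩).real {ξ | ((hitTime ρ Z ξ : ℕ∞) : ENNReal) ≤
        ENNReal.ofReal (p ^ (-γt))} ≤ ε := by
  have hlam0 : (0 : ℝ) ≤ lam := by positivity
  set κ := (γ2 - γt) / 4 with hκ
  have hκ0 : 0 < κ := by rw [hκ]; linarith
  have h4κ : 4 * κ = γ2 - γt := by rw [hκ]; ring
  set g2 : Bool → ℝ := fun o => cond o (γ2 - lam) γ2 with hg2
  set g0 : Bool → ℝ := fun o => g2 o - 2 * κ with hg0
  set g : Bool → ℝ := fun o => g2 o - κ with hg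
  have h0t : g0 true = γ2 - lam - 2 * κ := rfl
  have h0f : g0 false = γ2 - 2 * κ := rfl
  set K0 : ℕ := ⌈γ2 / κ⌉₊ with hK0
  set K : ℕ := ⌊g0 true + g0 false⌋₊ + 1 with hK
  have hdd : DetData ρ Z hat g0 g g2 κ K0 K := by
    refine ⟨hd.hZ, hd.lam_pos.trans hd.lam_le, ?_, hκ0, ?_, ?_, ?_, by omega, ?_, hhat1, hhat2,
      hno⟩
    · intro o
      cases o
      · rw [h0f]; linarith
      · rw [h0t]; linarith
    · intro o
      simp only [hg, hg0]
      ring
    · intro o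
      simp only [hg]
      ring
    · intro o
      have h1 : γ2 / κ ≤ K0 := Nat.le_ceil _
      rw [div_le_iff₀ hκ0] at h1
      have h2 : g2 o ≤ γ2 := by
        cases o
        · exact le_rfl
        · simp only [hg2, cond_true]; linarith
      simp only [hg]
      nlinarith
    · simp only [hK]
      push_cast
      exact Nat.lt_floor_add_one _ |>.trans_le (by linarith)
  refine lower_core hd (detOut_of_data hdd hd.hinf) (γt := γt) (by linarith) ?_ ?_ ?_ hε
  · rw [h0f]; linarith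
  · rw [h0t]; linarith
  · rw [h0t]; linarith

/-- Lower bound up to the exponent `lam`. -/
lemma lower_weak (hd : InfData ρ Z s lam) {γt : ℝ} (h0 : 0 ≤ γt) (hl : γt < lam) {ε : ℝ}
    (hε : 0 < ε) :
    ∀ᶠ p : ℝ in 𝓝[>] 0, ∀ hp : p ∈ unitInterval,
      (initLaw ⟨p, hp⟩).real {ξ | ((hitTime ρ Z ξ : ℕ∞) : ENNReal) ≤
        ENNReal.ofReal (p ^ (-γt))} ≤ ε := by
  set δ0 : ℝ := ((lam : ℝ) - γt) / 2 with hδ0
  have hδ : 0 < δ0 := by rw [hδ0]; linarith
  set g0 : Bool → ℝ := fun o => cond o δ0 γt with hg0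
  have h0t : g0 true = δ0 := rfl
  have h0f : g0 false = γt := rfl
  refine lower_core hd (detOut_weak hd (g0 := g0) ?_) (γt := γt) h0 ?_ ?_ ?_ hε
  · rw [h0t, h0f, hδ0]; linarith
  · rw [h0f]
  · rw [h0t]; exact hδ
  · rw [h0t]; linarith

/-- Monotonicity in the exponent. -/
lemma lower_mono {γt γt' : ℝ} (h : γt ≤ γt') {ε : ℝ}
    (h' : ∀ᶠ p : ℝ in 𝓝[>] 0, ∀ hp : p ∈ unitInterval,
      (initLaw ⟨p, hp⟩).real {ξ | ((hitTime ρ Z ξ : ℕ∞) : ENNReal) ≤
        ENNReal.ofReal (p ^ (-γt'))} ≤ ε) :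
    ∀ᶠ p : ℝ in 𝓝[>] 0, ∀ hp : p ∈ unitInterval,
      (initLaw ⟨p, hp⟩).real {ξ | ((hitTime ρ Z ξ : ℕ∞) : ENNReal) ≤
        ENNReal.ofReal (p ^ (-γt))} ≤ ε := by
  filter_upwards [ev_pos, h'] with p hp h4 hpI
  refine (measureReal_mono ?_ (measure_ne_top _ _)).trans (h4 hpI)
  intro ξ hξ
  have hξ' : ((hitTime ρ Z ξ : ℕ∞) : ENNReal) ≤ ENNReal.ofReal (p ^ (-γt)) := hξ
  refine hξ'.trans (ENNReal.ofReal_le_ofReal ?_)
  apply Real.rpow_le_rpow_of_exponent_ge hp.1 hp.2.le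
  linarith

lemma Standing.row_mem (_h : Standing ρ Z) (hw : width Z = ⊤) (u : ℕ) : (u, (0 : ℕ)) ∈ Z := by
  by_contra hu
  have hl : IsLowerSet {u : ℕ | (u, (0 : ℕ)) ∈ Z} := by
    intro a b hab ha
    exact _h.lower (Prod.mk_le_mk.2 ⟨hab, le_rfl⟩) ha
  have hsub : {u : ℕ | (u, (0 : ℕ)) ∈ Z} ⊆ (Finset.range u : Set ℕ) := by
    intro x hx
    rw [Finset.coe_range, Set.mem_Iio]
    by_contra hxu
    exact hu (hl (not_lt.1 hxu) hx)
  have h1 := Set.encard_le_encard hsub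
  rw [Set.encard_coe_eq_coe_finsetCard] at h1
  have h2 : width Z ≤ ((Finset.range u).card : ℕ∞) := h1
  rw [hw] at h2
  exact absurd h2 (not_le.2 (ENat.natCast_lt_top _))

theorem infinite_width (hst : Standing ρ Z) (hw : width Z = ⊤) :
    ∃ γ : ℝ, 0 < γ ∧ IsLowerPower ρ Z γ ∧ IsUpperPower ρ Z γ := by
  classical
  obtain ⟨s, hs1, hs2, -, hs3⟩ := hst.exists_height
  have hinf := hst.row_mem hw
  have hρ : 1 ≤ ρ := by omega
  have hex : ∃ v : ℕ, (ρ, v) ∉ Z :=
    ⟨s, fun h => hs3 (hst.lower (Prod.mk_le_mk.2 ⟨Nat.zero_le _, le_rfl⟩) h)⟩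
  set lam := Nat.find hex with hlam
  have hlam1 : (ρ, lam) ∉ Z := Nat.find_spec hex
  have hlams : lam ≤ s := Nat.find_min' hex
    (fun h => hs3 (hst.lower (Prod.mk_le_mk.2 ⟨Nat.zero_le _, le_rfl⟩) h))
  have hlampos : 1 ≤ lam := by
    by_contra hcon
    have h0 : lam = 0 := by omega
    rw [h0] at hlam1
    exact hlam1 (hinf ρ)
  have hlam2 : (ρ, lam - 1) ∈ Z := by
    by_contra hcon
    exact Nat.find_min hex (show lam - 1 < lam by omega) hcon
  have hd : InfData ρ Z s lam :=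
    ⟨hst.lower, hinf, hs3, hs2, hlampos, by omega, hlam1, hlam2⟩
  set hat : Bool → ℕ := fun o => cond o ρ s with hhat
  have hhat1 : ∀ o, 1 ≤ hat o := by intro o; cases o <;> assumption
  have hhat2 : ∀ o, hat o ≤ ρ := by
    intro o
    cases o
    · exact hs2
    · exact le_rfl
  set gg : ℝ → Bool → ℝ := fun γ o => cond o (γ - lam) γ with hgg
  set A : Set ℝ := {γ | (lam : ℝ) < γ ∧ HasFill ρ Z hat (gg γ)} with hA
  have hlamsr : (lam : ℝ) ≤ s := by exact_mod_cast hlams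
  have hlam0 : (1 : ℝ) ≤ lam := by exact_mod_cast hlampos
  have hsA : ((s : ℝ) + 1) ∈ A := by
    refine ⟨by linarith, fill_large hst hs1 hs2 hs3 hat ?_ ?_⟩
    · simp only [hgg, cond_false]; linarith
    · simp only [hgg, cond_true]; linarith
  have hlow : ∀ γ ∈ A, (lam : ℝ) ≤ γ := fun γ hγ => hγ.1.le
  have hbdd : BddBelow A := ⟨lam, hlow⟩
  set γc := sInf A with hγc
  have hγc0 : (lam : ℝ) ≤ γc := le_csInf ⟨_, hsA⟩ hlow
  refine ⟨γc, by linarith, ?_, ?_⟩
  · intro ε hε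
    apply timeGe_of
    intro δ hδ
    rcases lt_or_ge (max (γc - ε) lam) γc with hlt | hge
    · set γt := max (γc - ε) lam with hγt
      have h1 : (lam : ℝ) ≤ γt := le_max_right _ _
      have h2 : γc - ε ≤ γt := le_max_left _ _
      set γ2 := (γt + γc) / 2 with hγ2
      have h3 : γt < γ2 := by rw [hγ2]; linarith
      have h4 : γ2 < γc := by rw [hγ2]; linarith
      have hno : ¬ HasFill ρ Z hat (gg γ2) := by
        intro hf
        have : γc ≤ γ2 := csInf_le hbdd ⟨by linarith, hf⟩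
        linarith
      exact lower_mono h2 (lower_strong hd hhat1 hhat2 h1 h3 hno hδ)
    · have hγl : γc = lam := by
        rcases le_max_iff.1 hge with h | h
        · linarith
        · linarith
      have h1 : max (γc - ε) 0 < lam := max_lt (by linarith) (by linarith)
      exact lower_mono (le_max_left _ 0) (lower_weak hd (le_max_right _ _) h1 hδ)
  · intro ε hε
    apply timeLe_of
    intro δ hδ
    obtain ⟨γ1, hγ1A, hγ1⟩ := exists_lt_of_csInf_lt ⟨_, hsA⟩ (show sInf A < γc + ε by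
      rw [← hγc]; linarith)
    exact upper_inf hd rfl (hhat1 false) hγ1A.2 hγ1A.1 hγ1 hδ

end

end Pool.Agent.MP_e7dab6_pr
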