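import Pool.Agent.Lib.MP_e7dab6_pr.InfStage

/-!
# Infinite width: chains of strong places are unlikely
-/

set_option autoImplicit false

open Filter Topology MeasureTheory

namespace Pool.Agent.MP_e7dab6_pr

lemma sum_exp_le {θ : ℝ} (hθ : 0 < θ) (M : ℕ) :
    ∑ k ∈ Finset.range (M + 1), Real.exp (θ * k) ≤ Real.exp (θ * M) * (1 + 1 / θ) := by
  induction M with
  | zero =>
    have : 0 < 1 / θ := by positivity
    simp
    positivity
  | succ M ih =>
    rw [Finset.sum_range_succ]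
    have h1 : Real.exp (θ * ((M + 1 : ℕ) : ℝ)) = Real.exp (θ * M) * Real.exp θ := by
      rw [← Real.exp_add]
      congr 1
      push_cast
      ring
    have h2 : θ + 1 ≤ Real.exp θ := Real.add_one_le_exp θ
    have h3 : 0 < Real.exp (θ * M) := Real.exp_pos _
    have h4 : 1 + 1 / θ ≤ Real.exp θ * (1 / θ) := by
      have h5 : 1 + 1 / θ = (θ + 1) * (1 / θ) := by field_simp
      rw [h5]
      exact mul_le_mul_of_nonneg_right h2 (by positivity)
    rw [h1]
    calc ∑ k ∈ Finset.range (M + 1), Real.exp (θ * k) + Real.exp (θ * M) * Real.exp θ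
        ≤ Real.exp (θ * M) * (1 + 1 / θ) + Real.exp (θ * M) * Real.exp θ := by linarith
      _ ≤ Real.exp (θ * M) * (Real.exp θ * (1 / θ)) + Real.exp (θ * M) * Real.exp θ := by
          have := mul_le_mul_of_nonneg_left h4 h3.le
          linarith
      _ = Real.exp (θ * M) * Real.exp θ * (1 + 1 / θ) := by ring

/-- Bound for the number of sites in a box near a barrier. -/
def cB (w5 : ℤ) : ℕ := 2 * (2 * w5 + 1).toNat * (2 * w5 + 1).toNat

lemma card_Bx (w4 w5 : ℤ) (j : ℕ) (y : ℤ) : (Bx w4 w5 j y).card ≤ cB w5 := by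
  unfold Bx cB
  rw [Finset.card_product]
  have h : ∀ x : ℤ, (Finset.Icc (x - w5) (x + w5)).card = (2 * w5 + 1).toNat := by
    intro x
    rw [Int.card_Icc]
    congr 1
    ring
  rw [h y]
  refine Nat.mul_le_mul_right _ ((Finset.card_union_le _ _).trans ?_)
  rw [h, show -xb w4 j - w5 = (-xb w4 j) - w5 by ring, h]
  omega

lemma Bx_disj {w4 w5 : ℤ} (hw5 : 0 ≤ w5) (hw4 : 2 * w5 < w4) {j j' : ℕ} (hj : j < j') {y y' : ℤ}
    {f : ℤ × ℤ} (hf : f ∈ Bx w4 w5 j y) : f ∉ Bx w4 w5 j' y' := by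
  intro hf'
  rw [mem_Bx] at hf hf'
  have h1 := xb_mono (w4 := w4) (by linarith) hj
  have h2 := le_xb (w4 := w4) (by linarith) j
  rcases hf.1 with h3 | h3 <;> rcases hf'.1 with h4 | h4 <;> rw [abs_le] at h3 h4 <;> linarith

/-- The constant for one barrier. -/
noncomputable def cA (w5 : ℤ) (lam : ℕ) (p θ : ℝ) : ℝ :=
  2 * 2 ^ cB w5 * p ^ lam * (1 + 1 / θ)

lemma cA_nonneg (w5 : ℤ) (lam : ℕ) {p θ : ℝ} (hp : 0 ≤ p) (hθ : 0 < θ) : 0 ≤ cA w5 lam p θ := by
  unfold cA
  positivity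

theorem prob_chain {w4 w5 : ℤ} (hw5 : 0 ≤ w5) (hw4 : 2 * w5 < w4) (lam : ℕ) (p : unitInterval)
    {θ : ℝ} (hθ : 0 < θ) :
    ∀ (l : List ℕ), l.Pairwise (· < ·) → ∀ (G : Finset (ℤ × ℤ)),
      (∀ g ∈ G, ∀ j ∈ l, ∀ y, g ∉ Bx w4 w5 j y) → ∀ (y0 : ℤ) (M : ℕ),
      (initLaw p).real {ξ | (G : Set (ℤ × ℤ)) ⊆ ξ ∧ Chain lam w4 w5 ξ l y0 M} ≤
        (p : ℝ) ^ G.card * (cA w5 lam p θ) ^ l.length * Real.exp (θ * M) := by
  classical
  have hp0 : (0 : ℝ) ≤ (p : ℝ) := p.2.1
  intro l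
  induction l with
  | nil =>
    intro _ G _ y0 M
    have h1 : {ξ : Set (ℤ × ℤ) | (G : Set (ℤ × ℤ)) ⊆ ξ ∧ Chain lam w4 w5 ξ [] y0 M} =
        {ξ | (G : Set (ℤ × ℤ)) ⊆ ξ} := by
      ext ξ
      simp [Chain]
    rw [h1, prob_subset_real, List.length_nil, pow_zero, mul_one]
    have h2 : 1 ≤ Real.exp (θ * M) := Real.one_le_exp (by positivity)
    have h3 : 0 ≤ (p : ℝ) ^ G.card := pow_nonneg hp0 _
    nlinarith
  | cons j l ih =>
    intro hl G hG y0 M
    rw [List.pairwise_cons] at hl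
    set yy : ℕ → Bool → ℤ := fun n e => y0 + cond e (n : ℤ) (-n) with hyy
    have hsub : {ξ : Set (ℤ × ℤ) | (G : Set (ℤ × ℤ)) ⊆ ξ ∧ Chain lam w4 w5 ξ (j :: l) y0 M} ⊆
        ⋃ n ∈ Finset.range (M + 1), ⋃ e ∈ (Finset.univ : Finset Bool),
        ⋃ F ∈ Finset.powersetCard lam (Bx w4 w5 j (yy n e)),
        {ξ | ((G ∪ F : Finset (ℤ × ℤ)) : Set (ℤ × ℤ)) ⊆ ξ ∧
          Chain lam w4 w5 ξ l (yy n e) (M - n)} := by
      rintro ξ ⟨h1, n, hn, e, ⟨F, hF1, hF2, hF3⟩, hc⟩
      simp only [Set.mem_iUnion]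
      refine ⟨n, Finset.mem_range.2 (by omega), e, Finset.mem_univ _, F,
        Finset.mem_powersetCard.2 ⟨hF3, hF2⟩, ?_, hc⟩
      rw [Finset.coe_union]
      exact Set.union_subset h1 hF1
    refine (measureReal_mono hsub (measure_ne_top _ _)).trans ?_
    refine (measureReal_biUnion_finset_le _ _).trans ?_
    set A := cA w5 lam p θ with hA
    have hA0 : 0 ≤ A := cA_nonneg w5 lam hp0 hθ
    have hterm : ∀ n ∈ Finset.range (M + 1), (initLaw p).real
        (⋃ e ∈ (Finset.univ : Finset Bool), ⋃ F ∈ Finset.powersetCard lam (Bx w4 w5 j (yy n e)),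
        {ξ | ((G ∪ F : Finset (ℤ × ℤ)) : Set (ℤ × ℤ)) ⊆ ξ ∧
          Chain lam w4 w5 ξ l (yy n e) (M - n)}) ≤
        2 * 2 ^ cB w5 * ((p : ℝ) ^ (G.card + lam) * A ^ l.length) *
          Real.exp (θ * ((M - n : ℕ) : ℝ)) := by
      intro n _
      refine (measureReal_biUnion_finset_le _ _).trans ?_
      have he : ∀ e ∈ (Finset.univ : Finset Bool), (initLaw p).real
          (⋃ F ∈ Finset.powersetCard lam (Bx w4 w5 j (yy n e)),
          {ξ | ((G ∪ F : Finset (ℤ × ℤ)) : Set (ℤ × ℤ)) ⊆ ξ ∧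
            Chain lam w4 w5 ξ l (yy n e) (M - n)}) ≤
          2 ^ cB w5 * ((p : ℝ) ^ (G.card + lam) * A ^ l.length *
            Real.exp (θ * ((M - n : ℕ) : ℝ))) := by
        intro e _
        refine (measureReal_biUnion_finset_le _ _).trans ?_
        have hF : ∀ F ∈ Finset.powersetCard lam (Bx w4 w5 j (yy n e)), (initLaw p).real
            {ξ | ((G ∪ F : Finset (ℤ × ℤ)) : Set (ℤ × ℤ)) ⊆ ξ ∧
              Chain lam w4 w5 ξ l (yy n e) (M - n)} ≤
            (p : ℝ) ^ (G.card + lam) * A ^ l.length * Real.exp (θ * ((M - n : ℕ) : ℝ)) := by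
          intro F hF
          rw [Finset.mem_powersetCard] at hF
          have hdisj : Disjoint G F := by
            rw [Finset.disjoint_left]
            intro g hg hgF
            exact hG g hg j List.mem_cons_self _ (hF.1 hgF)
          have hcard : (G ∪ F).card = G.card + lam := by
            rw [Finset.card_union_of_disjoint hdisj, hF.2]
          have := ih hl.2 (G ∪ F) (by
            intro g hg j' hj' y
            rcases Finset.mem_union.1 hg with hg | hg
            · exact hG g hg j' (List.mem_cons_of_mem _ hj') y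
            · exact Bx_disj hw5 hw4 (hl.1 j' hj') (hF.1 hg)) (yy n e) (M - n)
          rw [hcard] at this
          exact this
        refine (Finset.sum_le_sum hF).trans ?_
        rw [Finset.sum_const, nsmul_eq_mul]
        refine mul_le_mul_of_nonneg_right ?_ (by positivity)
        have h1 : (Finset.powersetCard lam (Bx w4 w5 j (yy n e))).card ≤ 2 ^ cB w5 := by
          have hsub : Finset.powersetCard lam (Bx w4 w5 j (yy n e)) ⊆
              (Bx w4 w5 j (yy n e)).powerset :=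
            fun F hF => Finset.mem_powerset.2 (Finset.mem_powersetCard.1 hF).1
          refine (Finset.card_le_card hsub).trans ?_
          rw [Finset.card_powerset]
          exact Nat.pow_le_pow_right (by norm_num) (card_Bx w4 w5 j _)
        exact_mod_cast h1
      refine (Finset.sum_le_sum he).trans ?_
      rw [Finset.sum_const, nsmul_eq_mul, Finset.card_univ, Fintype.card_bool]
      apply le_of_eq
      push_cast
      ring
    refine (Finset.sum_le_sum hterm).trans ?_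
    rw [← Finset.mul_sum]
    have hsum : ∑ n ∈ Finset.range (M + 1), Real.exp (θ * ((M - n : ℕ) : ℝ)) ≤
        Real.exp (θ * M) * (1 + 1 / θ) := by
      have h1 := Finset.sum_range_reflect (fun k : ℕ => Real.exp (θ * (k : ℝ))) (M + 1)
      have h2 : ∀ n ∈ Finset.range (M + 1), Real.exp (θ * ((M - n : ℕ) : ℝ)) =
          Real.exp (θ * ((M + 1 - 1 - n : ℕ) : ℝ)) := by
        intro n _
        simp
      rw [Finset.sum_congr rfl h2, h1]
      exact sum_exp_le hθ M
    calc 2 * 2 ^ cB w5 * ((p : ℝ) ^ (G.card + lam) * A ^ l.length) *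
          ∑ n ∈ Finset.range (M + 1), Real.exp (θ * ((M - n : ℕ) : ℝ))
        ≤ 2 * 2 ^ cB w5 * ((p : ℝ) ^ (G.card + lam) * A ^ l.length) *
          (Real.exp (θ * M) * (1 + 1 / θ)) :=
          mul_le_mul_of_nonneg_left hsum (by positivity)
      _ = (p : ℝ) ^ G.card * A ^ (j :: l).length * Real.exp (θ * M) := by
          have h5 : A = 2 * 2 ^ cB w5 * (p : ℝ) ^ lam * (1 + 1 / θ) := rfl
          rw [List.length_cons, pow_succ, pow_add]
          generalize A ^ l.length = B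
          rw [h5]
          ring

/-- The event that a chain through half of the barriers exists. -/
def ChEv (lam : ℕ) (w4 w5 : ℤ) (m M : ℕ) : Set (Set (ℤ × ℤ)) :=
  {ξ | ∃ T : Finset ℕ, T ⊆ Finset.range (2 * m) ∧ m ≤ T.card ∧
    Chain lam w4 w5 ξ (T.sort (· ≤ ·)) 0 M}

theorem prob_chEv {w4 w5 : ℤ} (hw5 : 0 ≤ w5) (hw4 : 2 * w5 < w4) (lam : ℕ) (p : unitInterval)
    {m M : ℕ} (hm : 1 ≤ m) (hM : 1 ≤ M)
    (hA : 4 * Real.exp 1 * cA w5 lam p ((m : ℝ) / M) ≤ 1) :
    (initLaw p).real (ChEv lam w4 w5 m M) ≤ 4 * Real.exp 1 * cA w5 lam p ((m : ℝ) / M) := by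
  classical
  have hp0 : (0 : ℝ) ≤ (p : ℝ) := p.2.1
  have hmr : (1 : ℝ) ≤ m := by exact_mod_cast hm
  have hMr : (1 : ℝ) ≤ M := by exact_mod_cast hM
  set θ : ℝ := (m : ℝ) / M with hθ
  have hθ0 : 0 < θ := by positivity
  set A := cA w5 lam p θ with hAdef
  have hA0 : 0 ≤ A := cA_nonneg w5 lam hp0 hθ0
  have he1 : 1 ≤ Real.exp 1 := Real.one_le_exp (by norm_num)
  have hA1 : A ≤ 1 := by
    have : A ≤ 4 * Real.exp 1 * A := by nlinarith
    linarith
  have hsub : ChEv lam w4 w5 m M ⊆ ⋃ T ∈ (Finset.range (2 * m)).powerset.filter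
      (fun T => m ≤ T.card), {ξ | ((∅ : Finset (ℤ × ℤ)) : Set (ℤ × ℤ)) ⊆ ξ ∧
        Chain lam w4 w5 ξ (T.sort (· ≤ ·)) 0 M} := by
    rintro ξ ⟨T, h1, h2, h3⟩
    simp only [Set.mem_iUnion]
    exact ⟨T, Finset.mem_filter.2 ⟨Finset.mem_powerset.2 h1, h2⟩, by simp, h3⟩
  refine (measureReal_mono hsub (measure_ne_top _ _)).trans ?_
  refine (measureReal_biUnion_finset_le _ _).trans ?_
  have hT : ∀ T ∈ (Finset.range (2 * m)).powerset.filter (fun T => m ≤ T.card),
      (initLaw p).real {ξ | ((∅ : Finset (ℤ × ℤ)) : Set (ℤ × ℤ)) ⊆ ξ ∧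
        Chain lam w4 w5 ξ (T.sort (· ≤ ·)) 0 M} ≤ (Real.exp 1 * A) ^ m := by
    intro T hT
    rw [Finset.mem_filter] at hT
    have h1 := prob_chain hw5 hw4 lam p hθ0 (T.sort (· ≤ ·))
      (List.sortedLT_iff_pairwise.1 (Finset.sortedLT_sort T)) ∅ (by simp) 0 M
    rw [Finset.card_empty, pow_zero, one_mul, Finset.length_sort] at h1
    refine h1.trans ?_
    have h2 : A ^ T.card ≤ A ^ m := pow_le_pow_of_le_one hA0 hA1 hT.2
    have h3 : Real.exp (θ * M) = Real.exp 1 ^ m := by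
      rw [← Real.exp_nat_mul]
      congr 1
      rw [hθ]
      field_simp
    rw [h3, mul_pow, mul_comm]
    exact mul_le_mul_of_nonneg_left h2 (by positivity)
  refine (Finset.sum_le_sum hT).trans ?_
  rw [Finset.sum_const, nsmul_eq_mul]
  have hc : (((Finset.range (2 * m)).powerset.filter (fun T => m ≤ T.card)).card : ℝ) ≤ 4 ^ m := by
    have h1 : ((Finset.range (2 * m)).powerset.filter (fun T => m ≤ T.card)).card ≤ 4 ^ m := by
      refine (Finset.card_filter_le _ _).trans ?_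
      rw [Finset.card_powerset, Finset.card_range, pow_mul]
      norm_num
    exact_mod_cast h1
  calc (((Finset.range (2 * m)).powerset.filter (fun T => m ≤ T.card)).card : ℝ) *
        (Real.exp 1 * A) ^ m ≤ 4 ^ m * (Real.exp 1 * A) ^ m :=
        mul_le_mul_of_nonneg_right hc (by positivity)
    _ = (4 * Real.exp 1 * A) ^ m := by rw [← mul_pow]; ring
    _ ≤ (4 * Real.exp 1 * A) ^ 1 := pow_le_pow_of_le_one (by positivity) hA hm
    _ = _ := pow_one _

end Pool.Agent.MP_e7dab6_pr
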