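import Pool.Agent.Lib.MP_e7dab6_pr.Upper

/-!
# A filling tree gives an upper power (case in which adjacent lines spread)
-/

set_option autoImplicit false

open Filter Topology MeasureTheory

namespace Pool.Agent.MP_e7dab6_pr

lemma ceil_le_two {x : ℝ} (hx : 1 ≤ x) : (⌈x⌉₊ : ℝ) ≤ 2 * x := by
  have h1 : (⌈x⌉₊ : ℝ) < x + 1 := Nat.ceil_lt_add_one (by linarith)
  linarith

lemma one_le_rpow_neg {p a : ℝ} (hp : 0 < p) (hp1 : p < 1) (ha : 0 ≤ a) : 1 ≤ p ^ (-a) :=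
  Real.one_le_rpow_of_pos_of_le_one_of_nonpos hp hp1.le (by linarith)

/-- Comparison of powers with a constant. -/
lemma ev_const_mul_le {a b C : ℝ} (hab : a < b) (hC : 0 < C) :
    ∀ᶠ p : ℝ in 𝓝[>] 0, C * p ^ (-a) ≤ p ^ (-b) := by
  filter_upwards [ev_pos, ev_rpow_lt (e := b - a) (by linarith) (one_div_pos.2 hC)] with p hp h1
  have h2 : p ^ (-a) = p ^ (b - a) * p ^ (-b) := by
    rw [← Real.rpow_add hp.1]
    congr 1
    ring
  have h3 : 0 < p ^ (-b) := Real.rpow_pos_of_pos hp.1 _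
  rw [h2, ← mul_assoc]
  have h4 : C * p ^ (b - a) ≤ 1 := by
    have := mul_lt_mul_of_pos_left h1 hC
    rw [mul_one_div_cancel hC.ne'] at this
    exact this.le
  nlinarith

theorem upper_fin {ρ : ℕ} {Z : Set (ℕ × ℕ)} {hat : Bool → ℕ} {γ γ' : ℝ} (hZ : IsLowerSet Z)
    (hhat1 : ∀ o, 1 ≤ hat o) (hhat2 : ∀ o, hat o ≤ ρ) (hbad : ∀ o, bad Z o (hat o) 0)
    (hfill : HasFill ρ Z hat (fun _ => γ)) (hγ : γ < γ') (hγ0 : 0 < γ) {ε : ℝ} (hε : 0 < ε) :
    ∀ᶠ p : ℝ in 𝓝[>] 0, ∀ hp : p ∈ unitInterval,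
      (initLaw ⟨p, hp⟩).real {ξ | ENNReal.ofReal (p ^ (-γ')) <
        ((hitTime ρ Z ξ : ℕ∞) : ENNReal)} ≤ ε := by
  obtain ⟨t, o, k, hpres, hforce⟩ := hfill
  set γ1 := (γ + γ') / 2 with hγ1
  have h1 : γ < γ1 := by rw [hγ1]; linarith
  have h1' : γ1 < γ' := by rw [hγ1]; linarith
  have hγ10 : 0 < γ1 := by linarith
  set M : ℝ → Bool → ℕ := fun p _ => ⌈p ^ (-γ1)⌉₊ with hM
  obtain ⟨B, hB, hL⟩ := exists_labB t
  obtain ⟨C, hC⟩ := exists_uniform (P := fun (j : ℕ) (C : ℕ) => ∀ (N : ℕ) (S : Set (ℤ × ℤ)) (z : ℤ),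
    1 ≤ N → z.natAbs ≤ N → ContainsN N S t o z → Rl ρ Z S N C (.line o (k + j + z)))
    (fun a c c' hc hP N S z h1 h2 h3 => (hP N S z h1 h2 h3).mono hc) (Finset.range (hat o))
    (fun j hj => hforce j (Finset.mem_range.1 hj))
  have hMp : ∀ o, ∀ᶠ p : ℝ in 𝓝[>] 0, p ^ (-((fun _ => γ1 : Bool → ℝ) o)) ≤ (M p o : ℝ) := by
    intro o
    filter_upwards with p
    exact Nat.le_ceil _
  have hsmall := no_copy_small (g := fun _ => γ) (gp := fun _ => γ1) (M := M) (fun _ => h1) hMp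
    hpres hε
  set h := hat o with hh
  set C2 : ℕ := (C + 1) * (2 + k.natAbs + h) with hC2
  have hconst := ev_const_mul_le (C := (C2 : ℝ) * ((1 + tsize t : ℕ) * (B * 4))) h1' (by
    have hBr : (1 : ℝ) ≤ B := by exact_mod_cast hB
    have hC2' : 0 < C2 := by positivity
    have hC2'' : (0 : ℝ) < C2 := by exact_mod_cast hC2'
    have : (0 : ℝ) < ((1 + tsize t : ℕ) : ℝ) := by exact_mod_cast (by omega : 0 < 1 + tsize t)
    positivity)
  filter_upwards [ev_pos, hsmall, hconst] with p hp hs hc hpI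
  have hx1 : 1 ≤ p ^ (-γ1) := one_le_rpow_neg hp.1 hp.2 hγ10.le
  have hMpos : ∀ o, 0 < M p o := by
    intro o
    exact Nat.ceil_pos.2 (by linarith)
  set N : ℕ := (1 + tsize t) * (B * (⌈p ^ (-γ1)⌉₊ + 2)) with hN
  have hWd : ∀ o, Wd (M p) B o = ((B * (⌈p ^ (-γ1)⌉₊ + 2) : ℕ) : ℤ) := by
    intro o
    unfold Wd
    push_cast
    rfl
  have hN1 : 1 ≤ N := by
    have : 1 ≤ B * (⌈p ^ (-γ1)⌉₊ + 2) := Nat.mul_pos hB (by omega)
    exact Nat.mul_pos (by omega) this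
  refine le_trans (measureReal_mono ?_ (measure_ne_top _ _))
    ((prob_no_copy (M := M p) (N := N) hB ⟨p, hpI⟩ hp.1 hMpos t hL o ?_).trans hs)
  · intro ξ hξ hcopy
    obtain ⟨z, hz0, hz1, hcont⟩ := hcopy
    have hξ' : ENNReal.ofReal (p ^ (-γ')) < ((hitTime ρ Z ξ : ℕ∞) : ENNReal) := hξ
    have hzN : z.natAbs ≤ N := by
      rw [hWd] at hz1
      have : B * (⌈p ^ (-γ1)⌉₊ + 2) ≤ N := by
        rw [hN]
        exact Nat.le_mul_of_pos_left _ (by omega)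
      omega
    have horig := origin_of_lines (N := N) (C := C) (x := k + z) (ξ := ξ) hZ (hhat2 o) (hhat1 o)
      (hbad o) (fun j hj => by
        have := hC j (Finset.mem_range.2 hj) N ξ z hN1 hzN hcont
        rwa [show k + z + (j : ℤ) = k + j + z by ring])
    have htime : C * (N + (k + z).natAbs + h) + ((k + z).natAbs + h) ≤ C2 * N := by
      have a1 : (k + z).natAbs ≤ k.natAbs + N := by omega
      have a2 : k.natAbs ≤ k.natAbs * N := Nat.le_mul_of_pos_right _ hN1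
      have a3 : h ≤ h * N := Nat.le_mul_of_pos_right _ hN1
      have a4 : N + (k + z).natAbs + h ≤ (2 + k.natAbs + h) * N := by
        have : (2 + k.natAbs + h) * N = 2 * N + k.natAbs * N + h * N := by ring
        omega
      calc C * (N + (k + z).natAbs + h) + ((k + z).natAbs + h)
          ≤ C * ((2 + k.natAbs + h) * N) + (2 + k.natAbs + h) * N := by
            have := Nat.mul_le_mul_left C a4
            omega
        _ = C2 * N := by rw [hC2]; ring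
    have hle := hitTime_le (evolve_mono ρ Z ξ htime horig)
    have hle' : ((hitTime ρ Z ξ : ℕ∞) : ENNReal) ≤ ENNReal.ofReal (p ^ (-γ')) := by
      have b1 : ((hitTime ρ Z ξ : ℕ∞) : ENNReal) ≤ (((C2 * N : ℕ) : ℕ∞) : ENNReal) := by
        exact_mod_cast hle
      refine b1.trans ?_
      have b2 : (((C2 * N : ℕ) : ℕ∞) : ENNReal) = ENNReal.ofReal ((C2 * N : ℕ) : ℝ) := by
        simp
      rw [b2]
      apply ENNReal.ofReal_le_ofReal
      refine le_trans ?_ hc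
      have b3 := ceil_le_two hx1
      rw [hN]
      push_cast
      have b4 : ((⌈p ^ (-γ1)⌉₊ : ℝ) + 2) ≤ 4 * p ^ (-γ1) := by linarith
      have b5 : (0 : ℝ) ≤ (C2 : ℝ) * ((1 + tsize t) * B) := by positivity
      calc (C2 : ℝ) * ((1 + (tsize t : ℝ)) * (B * ((⌈p ^ (-γ1)⌉₊ : ℝ) + 2)))
          = ((C2 : ℝ) * ((1 + tsize t) * B)) * ((⌈p ^ (-γ1)⌉₊ : ℝ) + 2) := by ring
        _ ≤ ((C2 : ℝ) * ((1 + tsize t) * B)) * (4 * p ^ (-γ1)) :=
            mul_le_mul_of_nonneg_left b4 b5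
        _ = (C2 : ℝ) * ((1 + (tsize t : ℝ)) * (B * 4)) * p ^ (-γ1) := by ring
    exact absurd hle' (not_le.2 hξ')
  · intro o
    rw [hWd, hN]
    push_cast
    exact le_rfl

end Pool.Agent.MP_e7dab6_pr
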