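import Pool.Agent.Lib.MP_e7dab6_pr.Prob
import Pool.Agent.Lib.MP_e7dab6_pr.UpperFin

/-!
# Runs of occupied sites in columns, and travelling from column to column
-/

set_option autoImplicit false

open Filter Topology MeasureTheory

namespace Pool.Agent.MP_e7dab6_pr

/-- The `i`-th block of length `lam` in the column `a`. -/
def runF (lam : ℕ) (a : ℤ) (i : ℕ) : Finset (ℤ × ℤ) :=
  (Finset.range lam).image (fun r : ℕ => (a, ((lam * i + r : ℕ) : ℤ)))

lemma card_runF (lam : ℕ) (a : ℤ) (i : ℕ) : (runF lam a i).card = lam := by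
  unfold runF
  rw [Finset.card_image_of_injective, Finset.card_range]
  intro r r' h
  simp only [Prod.mk.injEq, true_and] at h
  have h1 : lam * i + r = lam * i + r' := by exact_mod_cast h
  omega

lemma mem_runF {lam : ℕ} {a : ℤ} {i : ℕ} {z : ℤ × ℤ} :
    z ∈ runF lam a i ↔ z.1 = a ∧ ((lam * i : ℕ) : ℤ) ≤ z.2 ∧ z.2 < ((lam * i + lam : ℕ) : ℤ) := by
  unfold runF
  rw [Finset.mem_image]
  constructor
  · rintro ⟨r, hr, rfl⟩
    rw [Finset.mem_range] at hr
    refine ⟨rfl, ?_, ?_⟩
    · simp only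
      exact_mod_cast Nat.le_add_right _ _
    · simp only
      exact_mod_cast Nat.add_lt_add_left hr _
  · rintro ⟨h1, h2, h3⟩
    obtain ⟨x, y⟩ := z
    simp only at h1 h2 h3
    subst h1
    refine ⟨(y - ((lam * i : ℕ) : ℤ)).toNat, ?_, ?_⟩
    · rw [Finset.mem_range]
      push_cast at h2 h3 ⊢
      omega
    · simp only [Prod.mk.injEq, true_and]
      push_cast at h2 h3 ⊢
      omega

/-- The indicator of the absence of occupied blocks. -/
noncomputable def noRun (lam : ℕ) (a : ℤ) : ℕ → Set (ℤ × ℤ) → ℝ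
  | 0 => fun _ => 1
  | n + 1 => fun ξ => noRun lam a n ξ * (1 + (-1) * indF (runF lam a n) ξ)

lemma sp_noRun (lam : ℕ) (a : ℤ) (n : ℕ) :
    Sp {z : ℤ × ℤ | z.2 < ((lam * n : ℕ) : ℤ)} (noRun lam a n) := by
  induction n with
  | zero => exact Sp.const 1
  | succ n ih =>
    refine Sp.mul (ih.mono ?_) (Sp.add (Sp.const 1) (Sp.smul (-1) (.ind _ ?_)))
    · intro z hz
      have hz' : z.2 < ((lam * n : ℕ) : ℤ) := hz
      change z.2 < ((lam * (n + 1) : ℕ) : ℤ)
      have : ((lam * n : ℕ) : ℤ) ≤ ((lam * (n + 1) : ℕ) : ℤ) := by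
        exact_mod_cast Nat.mul_le_mul_left _ (Nat.le_succ n)
      linarith
    · intro z hz
      rw [Finset.mem_coe, mem_runF] at hz
      change z.2 < ((lam * (n + 1) : ℕ) : ℤ)
      rw [Nat.mul_succ]
      exact hz.2.2

lemma integral_noRun (lam : ℕ) (a : ℤ) (p : unitInterval) (n : ℕ) :
    ∫ ξ, noRun lam a n ξ ∂(initLaw p) = (1 - (p : ℝ) ^ lam) ^ n := by
  induction n with
  | zero => simp [noRun]
  | succ n ih =>
    have h1 : Sp {z : ℤ × ℤ | ((lam * n : ℕ) : ℤ) ≤ z.2}
        (fun ξ => 1 + (-1) * indF (runF lam a n) ξ) := by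
      refine Sp.add (Sp.const 1) (Sp.smul (-1) (.ind _ ?_))
      intro z hz
      rw [Finset.mem_coe, mem_runF] at hz
      exact hz.2.1
    have hd : Disjoint {z : ℤ × ℤ | z.2 < ((lam * n : ℕ) : ℤ)}
        {z : ℤ × ℤ | ((lam * n : ℕ) : ℤ) ≤ z.2} := by
      rw [Set.disjoint_left]
      intro z hz hz'
      have g1 : z.2 < ((lam * n : ℕ) : ℤ) := hz
      have g2 : ((lam * n : ℕ) : ℤ) ≤ z.2 := hz'
      linarith
    have h2 : ∫ ξ, noRun lam a (n + 1) ξ ∂(initLaw p) =
        ∫ ξ, noRun lam a n ξ * (1 + (-1) * indF (runF lam a n) ξ) ∂(initLaw p) := rfl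
    rw [h2, Sp.integral_mul (sp_noRun lam a n) h1 hd p, ih, pow_succ]
    congr 1
    have i1 : Integrable (fun _ : Set (ℤ × ℤ) => (1 : ℝ)) (initLaw p) := integrable_const _
    have i2 : Integrable (fun ξ => (-1) * indF (runF lam a n) ξ) (initLaw p) :=
      (integrable_indF p _).const_mul _
    rw [integral_add i1 i2, integral_const_mul, integral_indF, card_runF, integral_const,
      smul_eq_mul, probReal_univ]
    ring

lemma noRun_nonneg (lam : ℕ) (a : ℤ) (n : ℕ) (ξ : Set (ℤ × ℤ)) : 0 ≤ noRun lam a n ξ := by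
  induction n with
  | zero => simp [noRun]
  | succ n ih =>
    have h1 := indF_le_one (runF lam a n) ξ
    have h2 : noRun lam a (n + 1) ξ = noRun lam a n ξ * (1 + (-1) * indF (runF lam a n) ξ) := rfl
    rw [h2]
    exact mul_nonneg ih (by linarith)

lemma noRun_eq_one {lam : ℕ} {a : ℤ} {n : ℕ} {ξ : Set (ℤ × ℤ)}
    (h : ∀ i < n, ¬ (runF lam a i : Set (ℤ × ℤ)) ⊆ ξ) : noRun lam a n ξ = 1 := by
  induction n with
  | zero => rfl
  | succ n ih =>
    have h2 : noRun lam a (n + 1) ξ = noRun lam a n ξ * (1 + (-1) * indF (runF lam a n) ξ) := rfl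
    rw [h2, ih (fun i hi => h i (by omega)), indF_of_not_sub (h n (Nat.lt_succ_self n))]
    ring

/-- A column without occupied blocks is unlikely. -/
lemma prob_noRun (lam : ℕ) (a : ℤ) (n : ℕ) (p : unitInterval) :
    (initLaw p).real {ξ | ∀ i < n, ¬ (runF lam a i : Set (ℤ × ℤ)) ⊆ ξ} ≤
      Real.exp (-(n * (p : ℝ) ^ lam)) := by
  have h1 := mul_meas_ge_le_integral_of_nonneg (μ := initLaw p) (f := noRun lam a n)
    (Filter.Eventually.of_forall (noRun_nonneg lam a n)) ((sp_noRun lam a n).integrable p) 1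
  rw [one_mul, integral_noRun] at h1
  have h2 : {ξ : Set (ℤ × ℤ) | ∀ i < n, ¬ (runF lam a i : Set (ℤ × ℤ)) ⊆ ξ} ⊆
      {ξ | 1 ≤ noRun lam a n ξ} := by
    intro ξ hξ
    exact (noRun_eq_one hξ).ge
  refine (measureReal_mono h2 (measure_ne_top _ _)).trans (h1.trans ?_)
  have hp0 : (0 : ℝ) ≤ (p : ℝ) ^ lam := pow_nonneg p.2.1 _
  have hp1 : (p : ℝ) ^ lam ≤ 1 := pow_le_one₀ p.2.1 p.2.2
  have h3 : 1 - (p : ℝ) ^ lam ≤ Real.exp (-(p : ℝ) ^ lam) := by
    have := Real.add_one_le_exp (-(p : ℝ) ^ lam)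
    linarith
  calc (1 - (p : ℝ) ^ lam) ^ n ≤ (Real.exp (-(p : ℝ) ^ lam)) ^ n :=
        pow_le_pow_left₀ (by linarith) h3 n
    _ = Real.exp (-(n * (p : ℝ) ^ lam)) := by
        rw [← Real.exp_nat_mul]
        congr 1
        ring

/-! ### Travelling -/

/-- The column `c` is occupied at heights in `[0, l)` at time `T`. -/
def Full (ρ : ℕ) (Z : Set (ℕ × ℕ)) (ξ : Set (ℤ × ℤ)) (l : ℕ) (c : ℤ) (T : ℕ) : Prop :=
  ∀ b : ℤ, 0 ≤ b → b < l → (c, b) ∈ evolve ρ Z ξ T

section
variable {ρ lam q : ℕ} {Z : Set (ℕ × ℕ)} {ξ : Set (ℤ × ℤ)}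

lemma Full.mono {l : ℕ} {c : ℤ} {T T' : ℕ} (h : Full ρ Z ξ l c T) (hT : T ≤ T') :
    Full ρ Z ξ l c T' := fun b h1 h2 => evolve_mono ρ Z ξ hT (h b h1 h2)

/-- A column next to `ρ` occupied columns and containing an occupied block gets occupied. -/
lemma col_step (hZ : IsLowerSet Z) (hlam : (ρ, lam) ∉ Z) (hle : lam ≤ ρ) {c : ℤ} {T : ℕ}
    (W : Finset ℤ) (hW : ∀ a ∈ W, |a - c| ≤ (ρ : ℤ) ∧ Full ρ Z ξ (lam * q) a T)
    (hWc : ρ ≤ W.card) {i : ℕ} (hi : i < q) (hrun : (runF lam c i : Set (ℤ × ℤ)) ⊆ ξ) :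
    Full ρ Z ξ (lam * q) c (T + lam * q) := by
  have hiq : lam * i + lam ≤ lam * q := by
    rw [← Nat.mul_succ]
    exact Nat.mul_le_mul_left _ hi
  have hle' : (lam : ℤ) ≤ ρ := by exact_mod_cast hle
  set u : ℤ := ((lam * i : ℕ) : ℤ) with hu
  set l : ℕ := lam * q with hl
  have hul : u + lam ≤ l := by rw [hu]; exact_mod_cast hiq
  have hu0 : 0 ≤ u := by rw [hu]; positivity
  have key : ∀ n : ℕ, ∀ b : ℤ, 0 ≤ b → b < l → u - n ≤ b → b < u + lam + n →
      (c, b) ∈ evolve ρ Z ξ (T + n) := by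
    intro n
    induction n with
    | zero =>
      intro b _ _ h3 h4
      have h5 : (c, b) ∈ ξ := by
        apply hrun
        rw [Finset.mem_coe, mem_runF]
        refine ⟨rfl, ?_, ?_⟩
        · simp only
          have g1 : u ≤ b := by
            push_cast at h3
            linarith
          exact g1
        · simp only
          have : ((lam * i + lam : ℕ) : ℤ) = u + lam := by rw [hu]; push_cast; ring
          rw [this]
          push_cast at h4
          linarith
      exact evolve_mono ρ Z ξ (Nat.zero_le _) h5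
    | succ n ih =>
      intro b h1 h2 h3 h4
      by_cases hin : u - n ≤ b ∧ b < u + lam + n
      · exact evolve_mono ρ Z ξ (by omega) (ih b h1 h2 hin.1 hin.2)
      · push_cast at h3 h4
        have hUW : ∀ a ∈ W, |a - c| ≤ (ρ : ℤ) ∧ pt true a b ∈ evolve ρ Z ξ (T + n) := fun a ha =>
          ⟨(hW a ha).1, evolve_mono ρ Z ξ (by omega) ((hW a ha).2 b h1 h2)⟩
        have hcase : b = u - (n + 1) ∨ b = u + lam + n := by
          by_cases h6 : u - n ≤ b
          · right
            have : ¬ b < u + lam + n := fun h7 => hin ⟨h6, h7⟩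
            omega
          · left
            omega
        have hbad : bad Z true W.card lam := by
          have : bad Z true ρ lam := hlam
          exact this.mono hZ hWc le_rfl
        rcases hcase with hb | hb
        · refine mem_evolve_succ hZ (ξ := ξ) (t := T + n) true W
            ((Finset.Icc (1 : ℤ) lam).map (addRightEmbedding b)) hUW ?_
            (by rw [Finset.card_map, Int.card_Icc,
                  show ((lam : ℤ) + 1 - 1).toNat = lam by omega]; exact hbad)
          intro x hx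
          rw [Finset.mem_map] at hx
          obtain ⟨y, hy, rfl⟩ := hx
          rw [Finset.mem_Icc] at hy
          simp only [addRightEmbedding_apply]
          exact ⟨by rw [abs_le]; constructor <;> linarith [hy.1, hy.2],
            ih (y + b) (by omega) (by omega) (by omega) (by omega)⟩
        · refine mem_evolve_succ hZ (ξ := ξ) (t := T + n) true W
            ((Finset.Icc (1 : ℤ) lam).map (addRightEmbedding (b - lam - 1))) hUW ?_
            (by rw [Finset.card_map, Int.card_Icc,
                  show ((lam : ℤ) + 1 - 1).toNat = lam by omega]; exact hbad)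
          intro x hx
          rw [Finset.mem_map] at hx
          obtain ⟨y, hy, rfl⟩ := hx
          rw [Finset.mem_Icc] at hy
          simp only [addRightEmbedding_apply]
          exact ⟨by rw [abs_le]; constructor <;> linarith [hy.1, hy.2],
            ih (y + (b - lam - 1)) (by omega) (by omega) (by omega) (by omega)⟩
  intro b h1 h2
  exact key l b h1 h2 (by omega) (by omega)

/-- Travelling in both directions. -/
lemma travel (hZ : IsLowerSet Z) (hlam : (ρ, lam) ∉ Z) (hle : lam ≤ ρ) {x0 : ℤ}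
    {T : ℕ} (h0 : ∀ j : ℕ, j < ρ → Full ρ Z ξ (lam * q) (x0 + j) T) {A : ℤ}
    (hruns : ∀ c : ℤ, |c| ≤ A → ∃ i < q, (runF lam c i : Set (ℤ × ℤ)) ⊆ ξ) :
    ∀ n : ℕ, |x0| + ρ + n ≤ A → ∀ c : ℤ, x0 - n ≤ c → c < x0 + ρ + n →
      Full ρ Z ξ (lam * q) c (T + n * (lam * q)) := by
  intro n
  induction n with
  | zero =>
    intro _ c h1 h2
    have h3 := h0 (c - x0).toNat (by omega)
    rw [show x0 + (((c - x0).toNat : ℕ) : ℤ) = c by omega] at h3
    simpa using h3
  | succ n ih =>
    intro hA c h1 h2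
    push_cast at hA h1 h2
    have hih := ih (by linarith)
    have hTn : T + n * (lam * q) ≤ T + (n + 1) * (lam * q) :=
      Nat.add_le_add_left (Nat.mul_le_mul_right _ (Nat.le_succ n)) _
    by_cases hin : x0 - n ≤ c ∧ c < x0 + ρ + n
    · exact (hih c hin.1 hin.2).mono hTn
    · have habs : |c| ≤ A := by
        have hx1 := neg_abs_le x0
        have hx2 := le_abs_self x0
        rw [abs_le]
        constructor <;> linarith
      obtain ⟨i, hi, hrun⟩ := hruns c habs
      have hcase : c = x0 - (n + 1) ∨ c = x0 + ρ + n := by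
        by_cases h6 : x0 - n ≤ c
        · right
          have : ¬ c < x0 + ρ + n := fun h7 => hin ⟨h6, h7⟩
          omega
        · left
          omega
      have e : T + (n + 1) * (lam * q) = T + n * (lam * q) + lam * q := by ring
      rw [e]
      rcases hcase with hc | hc
      · refine col_step hZ hlam hle ((Finset.Icc (1 : ℤ) ρ).map (addRightEmbedding c)) ?_
          (by rw [Finset.card_map, Int.card_Icc]; omega) hi hrun
        intro a ha
        rw [Finset.mem_map] at ha
        obtain ⟨y, hy, rfl⟩ := ha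
        rw [Finset.mem_Icc] at hy
        simp only [addRightEmbedding_apply]
        exact ⟨by rw [abs_le]; constructor <;> linarith [hy.1, hy.2],
          hih (y + c) (by omega) (by omega)⟩
      · refine col_step hZ hlam hle ((Finset.Icc (1 : ℤ) ρ).map
          (addRightEmbedding (c - ρ - 1))) ?_ (by rw [Finset.card_map, Int.card_Icc]; omega) hi hrun
        intro a ha
        rw [Finset.mem_map] at ha
        obtain ⟨y, hy, rfl⟩ := ha
        rw [Finset.mem_Icc] at hy
        simp only [addRightEmbedding_apply]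
        exact ⟨by rw [abs_le]; constructor <;> linarith [hy.1, hy.2],
          hih (y + (c - ρ - 1)) (by omega) (by omega)⟩

end

end Pool.Agent.MP_e7dab6_pr
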