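import Pool.Agent.Lib.MP_e7dab6_pr.InfBasic

/-!
# Infinite width: reaching the origin requires a chain of strong places
-/

set_option autoImplicit false

open Filter Topology MeasureTheory

namespace Pool.Agent.MP_e7dab6_pr

/-- Position of the `j`-th barrier. -/
def xb (w4 : ℤ) (j : ℕ) : ℤ := (j + 1) * w4

/-- The sites near the `j`-th barrier (on either side of the origin) at height about `y`. -/
noncomputable def Bx (w4 w5 : ℤ) (j : ℕ) (y : ℤ) : Finset (ℤ × ℤ) :=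
  (Finset.Icc (xb w4 j - w5) (xb w4 j + w5) ∪ Finset.Icc (-xb w4 j - w5) (-xb w4 j + w5)) ×ˢ
    Finset.Icc (y - w5) (y + w5)

lemma mem_Bx {w4 w5 : ℤ} {j : ℕ} {y : ℤ} {f : ℤ × ℤ} :
    f ∈ Bx w4 w5 j y ↔ (|f.1 - xb w4 j| ≤ w5 ∨ |f.1 + xb w4 j| ≤ w5) ∧ |f.2 - y| ≤ w5 := by
  unfold Bx
  rw [Finset.mem_product, Finset.mem_union, Finset.mem_Icc, Finset.mem_Icc, Finset.mem_Icc,
    abs_le, abs_le, abs_le]
  constructor
  · rintro ⟨h1 | h1, h2⟩
    · exact ⟨Or.inl ⟨by linarith [h1.1], by linarith [h1.2]⟩, by linarith [h2.1], by linarith [h2.2]⟩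
    · exact ⟨Or.inr ⟨by linarith [h1.1], by linarith [h1.2]⟩, by linarith [h2.1], by linarith [h2.2]⟩
  · rintro ⟨h1 | h1, h2⟩
    · exact ⟨Or.inl ⟨by linarith [h1.1], by linarith [h1.2]⟩, by linarith [h2.1], by linarith [h2.2]⟩
    · exact ⟨Or.inr ⟨by linarith [h1.1], by linarith [h1.2]⟩, by linarith [h2.1], by linarith [h2.2]⟩

/-- There are `lam` occupied sites near the barrier at height about `y`. -/
def Strong (lam : ℕ) (w4 w5 : ℤ) (ξ : Set (ℤ × ℤ)) (j : ℕ) (y : ℤ) : Prop :=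
  ∃ F : Finset (ℤ × ℤ), (F : Set (ℤ × ℤ)) ⊆ ξ ∧ F.card = lam ∧ F ⊆ Bx w4 w5 j y

/-- A path with total variation at most `M`, starting at height `y0` and visiting strong places
at the barriers of the list. -/
def Chain (lam : ℕ) (w4 w5 : ℤ) (ξ : Set (ℤ × ℤ)) : List ℕ → ℤ → ℕ → Prop
  | [], _, _ => True
  | j :: l, y0, M => ∃ n : ℕ, n ≤ M ∧ ∃ e : Bool,
      Strong lam w4 w5 ξ j (y0 + cond e (n : ℤ) (-n)) ∧
      Chain lam w4 w5 ξ l (y0 + cond e (n : ℤ) (-n)) (M - n)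

def w5c (ρ K0 K : ℕ) : ℤ := 4 * ρ + wP ρ K0 K
def w4c (ρ K0 K : ℕ) : ℤ := 10 * ρ + 2 * wP ρ K0 K + 1

section
variable {ρ K0 K s lam : ℕ} {Z : Set (ℕ × ℕ)} {Pa : Finset (Finset (ℤ × ℤ))}
  {st : Bool → Finset ℤ} {S : Finset (ℤ × ℤ)}

lemma w4c_pos (ρ K0 K : ℕ) : 10 * (ρ : ℤ) + 2 * wP ρ K0 K + 1 ≤ w4c ρ K0 K := by
  unfold w4c
  linarith

lemma xb_mono {w4 : ℤ} (hw : 0 ≤ w4) {j j' : ℕ} (h : j < j') : xb w4 j + w4 ≤ xb w4 j' := by
  unfold xb
  have h1 : (j : ℤ) + 1 ≤ j' := by exact_mod_cast h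
  nlinarith

lemma le_xb {w4 : ℤ} (hw : 0 ≤ w4) (j : ℕ) : w4 ≤ xb w4 j := by
  unfold xb
  have h1 : (0 : ℤ) ≤ j := by positivity
  nlinarith

/-- One barrier. -/
theorem stage (hd : InfData ρ Z s lam) (hPa : Partn (cR ρ K0 K) K S Pa)
    (hsep : ∀ P ∈ Pa, ∀ P' ∈ Pa, P ≠ P' → Sep (cR ρ K0 K) P P') (hst : st false = ∅)
    (hcl : Closed ρ Z (QQ ρ Z Pa st)) {ξ : Set (ℤ × ℤ)} {N : Bool → ℕ}
    (hS : (S : Set (ℤ × ℤ)) = ξ ∩ Box N) (hSQ : (S : Set (ℤ × ℤ)) ⊆ QQ ρ Z Pa st) {j : ℕ}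
    (hclean : ∀ y ∈ st true, cL ρ K0 K < |y - xb (w4c ρ K0 K) j| ∧
      cL ρ K0 K < |y + xb (w4c ρ K0 K) j|) (hXN : xb (w4c ρ K0 K) j ≤ N true) :
    ∀ (τ : ℕ) (z : ℤ × ℤ), z ∈ evolve ρ Z ξ τ →
      z ∉ GG ρ lam Z Pa st (xb (w4c ρ K0 K) j) → |z.2| + ρ * τ ≤ N false →
      ∃ (τ' : ℕ) (z' : ℤ × ℤ), τ' ≤ τ ∧ z' ∈ evolve ρ Z ξ τ' ∧ z' ∉ QQ ρ Z Pa st ∧
        xb (w4c ρ K0 K) j ≤ |z'.1| ∧ |z'.1| < xb (w4c ρ K0 K) j + ρ ∧
        |z'.2 - z.2| ≤ ρ * ((τ : ℤ) - τ') ∧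
        Strong lam (w4c ρ K0 K) (w5c ρ K0 K) ξ j z'.2 := by
  have hρ0 : (0 : ℤ) ≤ ρ := by positivity
  have hwn := wP_nonneg ρ K0 K
  have hw4 := w4c_pos ρ K0 K
  set X := xb (w4c ρ K0 K) j with hX
  have hXl : w4c ρ K0 K ≤ X := le_xb (by linarith) j
  have hXρ : (ρ : ℤ) < X := by linarith
  intro τ
  induction τ with
  | zero =>
    intro z hz hG hcone
    exfalso
    apply hG
    by_cases h1 : X ≤ |z.1|
    · exact Or.inl (Or.inr h1)
    · refine Or.inl (Or.inl (hSQ ?_))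
      rw [hS]
      refine ⟨hz, fun o => ?_⟩
      cases o
      · have : |z.2| ≤ N false := by simpa using hcone
        exact this
      · change |z.1| ≤ (N true : ℤ)
        linarith [not_le.1 h1]
  | succ τ ih =>
    intro z hz hG hcone
    push_cast at hcone
    obtain ⟨a, b⟩ := z
    simp only at hcone ⊢
    -- from a neighbour
    have hnb : ∀ w : ℤ × ℤ, w ∈ evolve ρ Z ξ τ → w ∉ GG ρ lam Z Pa st X → |w.2 - b| ≤ (ρ : ℤ) →
        ∃ (τ' : ℕ) (z' : ℤ × ℤ), τ' ≤ τ + 1 ∧ z' ∈ evolve ρ Z ξ τ' ∧ z' ∉ QQ ρ Z Pa st ∧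
        X ≤ |z'.1| ∧ |z'.1| < X + ρ ∧
        |z'.2 - b| ≤ ρ * (((τ + 1 : ℕ) : ℤ) - τ') ∧
        Strong lam (w4c ρ K0 K) (w5c ρ K0 K) ξ j z'.2 := by
      intro w hw1 hw2 hw3
      have h1 : |w.2| ≤ |b| + ρ := by
        calc |w.2| = |b + (w.2 - b)| := by congr 1; ring
          _ ≤ |b| + |w.2 - b| := abs_add_le _ _
          _ ≤ _ := by linarith
      obtain ⟨τ', z', g1, g2, g3, g4, g5, g6, g7⟩ := ih w hw1 hw2 (by linarith)
      refine ⟨τ', z', by omega, g2, g3, g4, g5, ?_, g7⟩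
      calc |z'.2 - b| = |(z'.2 - w.2) + (w.2 - b)| := by congr 1; ring
        _ ≤ |z'.2 - w.2| + |w.2 - b| := abs_add_le _ _
        _ ≤ ρ * ((τ : ℤ) - τ') + ρ := add_le_add g6 hw3
        _ = _ := by push_cast; ring
    have hz' : pt true a b ∈ step ρ Z (evolve ρ Z ξ τ) := hz
    rw [mem_step_iff hd.hZ] at hz'
    rcases hz' with hz' | ⟨U, V, hU, hV, hb⟩
    · exact hnb (a, b) hz' hG (by simp)
    · by_cases hUG : ∀ a' ∈ U, (a', b) ∈ GG ρ lam Z Pa st X
      · by_cases hVG : ∀ b' ∈ V, (a, b') ∈ GG ρ lam Z Pa st X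
        · obtain ⟨⟨P, hP, hPc, hPf⟩, haX, a', ha', hXa', haQ⟩ := cross hd hPa hsep hst hcl hXρ
            hclean hG U V (fun a' ha' => ⟨(hU a' ha').1, hUG a' ha'⟩)
            (fun b' hb' => ⟨(hV b' hb').1, hVG b' hb'⟩) hb
          have haX' : |a| < X := by
            by_contra h
            exact hG (Or.inl (Or.inr (not_lt.1 h)))
          have h1 := (hU a' ha').1
          have h2 : |a'| ≤ |a| + ρ := by
            calc |a'| = |a + (a' - a)| := by congr 1; ring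
              _ ≤ |a| + |a' - a| := abs_add_le _ _
              _ ≤ _ := by linarith
          refine ⟨τ, (a', b), by omega, (hU a' ha').2, haQ, hXa', by simp only; linarith, ?_, ?_⟩
          · simp only [sub_self, abs_zero]
            push_cast
            nlinarith
          · obtain ⟨F, hFP, hFc⟩ := Finset.exists_subset_card_eq hPc
            refine ⟨F, ?_, hFc, ?_⟩
            · intro f hf
              have h3 : f ∈ (S : Set (ℤ × ℤ)) := by
                exact_mod_cast hPa.sub P hP (hFP (by exact_mod_cast hf))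
              rw [hS] at h3
              exact h3.1
            · intro f hf
              obtain ⟨g1, g2⟩ := hPf f (hFP hf)
              rw [mem_Bx]
              unfold w5c
              constructor
              · rcases le_total 0 a with h0 | h0
                · left
                  rw [abs_of_nonneg h0] at haX haX'
                  rw [abs_le] at g1 ⊢
                  constructor <;> linarith
                · right
                  rw [abs_of_nonpos h0] at haX haX'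
                  rw [abs_le] at g1 ⊢
                  constructor <;> linarith
              · simp only
                linarith
        · push Not at hVG
          obtain ⟨b', hb', hbG⟩ := hVG
          exact hnb (a, b') (hV b' hb').2 hbG (hV b' hb').1
      · push Not at hUG
        obtain ⟨a', ha', haG⟩ := hUG
        exact hnb (a', b) (hU a' ha').2 haG (by simp)

/-- All clean barriers of a list have to be crossed. -/
theorem chain_of (hd : InfData ρ Z s lam) (hPa : Partn (cR ρ K0 K) K S Pa)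
    (hsep : ∀ P ∈ Pa, ∀ P' ∈ Pa, P ≠ P' → Sep (cR ρ K0 K) P P') (hst : st false = ∅)
    (hcl : Closed ρ Z (QQ ρ Z Pa st)) {ξ : Set (ℤ × ℤ)} {N : Bool → ℕ}
    (hS : (S : Set (ℤ × ℤ)) = ξ ∩ Box N) (hSQ : (S : Set (ℤ × ℤ)) ⊆ QQ ρ Z Pa st) :
    ∀ (l : List ℕ), l.Pairwise (· < ·) →
      (∀ j ∈ l, (∀ y ∈ st true, cL ρ K0 K < |y - xb (w4c ρ K0 K) j| ∧
        cL ρ K0 K < |y + xb (w4c ρ K0 K) j|) ∧ xb (w4c ρ K0 K) j ≤ N true) →
      ∀ (z : ℤ × ℤ) (τ M : ℕ), z ∈ evolve ρ Z ξ τ → z ∉ QQ ρ Z Pa st →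
        (∀ j ∈ l, |z.1| + (ρ + wP ρ K0 K) < xb (w4c ρ K0 K) j) → |z.2| + ρ * τ ≤ N false →
        ρ * τ ≤ M → Chain lam (w4c ρ K0 K) (w5c ρ K0 K) ξ l z.2 M := by
  have hρ0 : (0 : ℤ) ≤ ρ := by positivity
  have hwn := wP_nonneg ρ K0 K
  have hw4 := w4c_pos ρ K0 K
  intro l
  induction l with
  | nil => intro _ _ z τ M _ _ _ _ _; trivial
  | cons j l ih =>
    intro hp hcl' z τ M hz hQ hpos hcone hM
    rw [List.pairwise_cons] at hp
    have hj := hcl' j (List.mem_cons_self)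
    have hpj := hpos j (List.mem_cons_self)
    set X := xb (w4c ρ K0 K) j with hX
    have hG : z ∉ GG ρ lam Z Pa st X := by
      rintro ((h | h) | ⟨P, hP, -, h1, -, c, hc, h2⟩)
      · exact hQ h
      · have h' : X ≤ |z.1| := h
        linarith
      · have h3 := cols_width hPa hP true hc h1
        have h4 : |c| ≤ |z.1| + |c - z.1| := by
          calc |c| = |z.1 + (c - z.1)| := by congr 1; ring
            _ ≤ _ := abs_add_le _ _
        rw [abs_le] at h2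
        linarith
    obtain ⟨τ', z', g1, g2, g3, g4, g5, g6, g7⟩ := stage hd hPa hsep hst hcl hS hSQ hj.1 hj.2 τ z
      hz hG hcone
    have hρτ : (ρ : ℤ) * ((τ : ℤ) - τ') = ρ * τ - ρ * τ' := by ring
    have hττ : (ρ : ℤ) * τ' ≤ ρ * τ := mul_le_mul_of_nonneg_left (by exact_mod_cast g1) hρ0
    set n : ℕ := (z'.2 - z.2).natAbs with hn
    have hn' : (n : ℤ) = |z'.2 - z.2| := by rw [hn]; exact Int.natCast_natAbs _
    have hnle : (n : ℤ) + ρ * τ' ≤ ρ * τ := by rw [hn']; linarith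
    have hM' : (ρ : ℤ) * τ ≤ M := by exact_mod_cast hM
    obtain ⟨e, he⟩ : ∃ e : Bool, z.2 + cond e (n : ℤ) (-n) = z'.2 := by
      rcases le_total 0 (z'.2 - z.2) with h | h
      · refine ⟨true, ?_⟩
        rw [abs_of_nonneg h] at hn'
        simp only [cond_true]
        linarith
      · refine ⟨false, ?_⟩
        rw [abs_of_nonpos h] at hn'
        simp only [cond_false]
        linarith
    have h0 : (0 : ℤ) ≤ ρ * τ' := by positivity
    refine ⟨n, ?_, e, ?_, ?_⟩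
    · have : (n : ℤ) ≤ M := by linarith
      exact_mod_cast this
    · rw [he]
      exact g7
    · rw [he]
      refine ih hp.2 (fun j' hj' => hcl' j' (List.mem_cons_of_mem _ hj')) z' τ' (M - n) g2 g3 ?_ ?_ ?_
      · intro j' hj'
        have h1 := xb_mono (w4 := w4c ρ K0 K) (by linarith) (hp.1 j' hj')
        rw [← hX] at h1
        linarith
      · have h1 : |z'.2| ≤ |z.2| + |z'.2 - z.2| := by
          calc |z'.2| = |z.2 + (z'.2 - z.2)| := by congr 1; ring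
            _ ≤ _ := abs_add_le _ _
        linarith
      · have h1 : (ρ : ℤ) * τ' ≤ ((M - n : ℕ) : ℤ) := by
          have : n ≤ M := by
            have : (n : ℤ) ≤ M := by linarith
            exact_mod_cast this
          rw [Nat.cast_sub this]
          linarith
        exact_mod_cast h1

end

end Pool.Agent.MP_e7dab6_pr
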