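import Pool.Agent.Lib.MP_e7dab6_pr.InfRun
import Pool.Agent.Lib.MP_e7dab6_pr.InfBasic

/-!
# Infinite width: upper bound for the hitting time
-/

set_option autoImplicit false

open Filter Topology MeasureTheory

namespace Pool.Agent.MP_e7dab6_pr

/-! ### Rows are never forced -/

/-- All sites occurring in the labels of a tree. -/
def labs : Tr → Finset (ℤ × ℤ)
  | .leaf => ∅
  | .att t F c => labs t ∪ F ∪ labs c

lemma contains_labs {S : Set (ℤ × ℤ)} (t : Tr) :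
    ∀ o, (labs t : Set (ℤ × ℤ)) ⊆ S → ContainsN 1 S t o 0 := by
  induction t with
  | leaf => intro o _; trivial
  | att t F c iht ihc =>
    intro o h
    have h' : ∀ z ∈ labs t ∪ F ∪ labs c, z ∈ S := fun z hz => h (by exact_mod_cast hz)
    refine ⟨iht o (fun z hz => h' z ?_), 0, by simp, fun f hf => ?_,
      ihc (!o) (fun z hz => h' z ?_)⟩
    · exact Finset.mem_union_left _ (Finset.mem_union_left _ (by exact_mod_cast hz))
    · have h0 : pt o 0 0 = ((0 : ℤ), (0 : ℤ)) := by cases o <;> rfl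
      rw [h0, Prod.mk_zero_zero, add_zero]
      exact h' f (Finset.mem_union_left _ (Finset.mem_union_right _ hf))
    · exact Finset.mem_union_right _ (by exact_mod_cast hz)

lemma closed_strip {ρ : ℕ} {Z : Set (ℕ × ℕ)} (hinf : ∀ u : ℕ, (u, (0 : ℕ)) ∈ Z) (B : ℤ) :
    Closed ρ Z {z : ℤ × ℤ | |z.1| ≤ B} := by
  intro o a b U V hU hV hb
  cases o
  · rcases U.eq_empty_or_nonempty with rfl | ⟨a', ha'⟩
    · exact absurd (hinf V.card) hb
    · exact (hU a' ha').2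
  · rcases V.eq_empty_or_nonempty with rfl | ⟨b', hb'⟩
    · exact absurd (hinf U.card) hb
    · exact (hV b' hb').2

lemma not_forces_row {ρ : ℕ} {Z : Set (ℕ × ℕ)} (hZ : IsLowerSet Z)
    (hinf : ∀ u : ℕ, (u, (0 : ℕ)) ∈ Z) {t : Tr} {k : ℤ} : ¬ ForcesT ρ Z t false k := by
  rintro ⟨C, hC⟩
  obtain ⟨B, hB⟩ : ∃ B : ℕ, ∀ z ∈ labs t, |z.1| ≤ (B : ℤ) :=
    exists_uniform (P := fun z B => |z.1| ≤ (B : ℤ))
      (fun a c c' hc hP => hP.trans (by exact_mod_cast hc)) (labs t)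
      (fun z _ => ⟨z.1.natAbs, by rw [Int.natCast_natAbs]⟩)
  have h1 := hC 1 (labs t) 0 le_rfl (by simp) (contains_labs t false subset_rfl)
  have h2 := h1 ((B : ℤ) + 1)
  have h3 := evolve_subset_of_closed hZ (Q := {z : ℤ × ℤ | |z.1| ≤ (B : ℤ)})
    (fun z hz => hB z (by exact_mod_cast hz)) (closed_strip hinf B) _ h2
  have h4 : |(B : ℤ) + 1| ≤ B := h3
  rw [abs_of_nonneg (by positivity)] at h4
  linarith

/-! ### Asymptotics -/

lemma exp_small {β η c : ℝ} (hη : 0 < η) (hc : 0 < c) {ε : ℝ} (hε : 0 < ε) :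
    ∀ᶠ p : ℝ in 𝓝[>] 0, c * p ^ (-β) * Real.exp (-(p ^ (-η))) ≤ ε := by
  have h1 := tendsto_rpow_mul_exp_neg_mul_atTop_nhds_zero (β / η) 1 one_pos
  have h2 : Tendsto (fun p : ℝ => p ^ (-η)) (𝓝[>] 0) atTop :=
    tendsto_rpow_neg_nhdsGT_zero (by linarith)
  have h3 := h1.comp h2
  have h4 : ∀ᶠ p : ℝ in 𝓝[>] 0, (p ^ (-η)) ^ (β / η) * Real.exp (-1 * p ^ (-η)) < ε / c :=
    h3.eventually (gt_mem_nhds (div_pos hε hc))
  filter_upwards [ev_pos, h4] with p hp h5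
  rw [← Real.rpow_mul hp.1.le, lt_div_iff₀ hc] at h5
  have e1 : -η * (β / η) = -β := by field_simp
  have e2 : -1 * p ^ (-η) = -(p ^ (-η)) := by ring
  rw [e1, e2] at h5
  linarith

lemma est1 {kk B ρ Xa : ℕ} {x : ℝ} (hx : 1 ≤ x) (hXa : (Xa : ℝ) ≤ 2 * x) :
    ((kk + B * (Xa + 2) + ρ : ℕ) : ℝ) ≤ ((kk + 4 * B + ρ : ℕ) : ℝ) * x := by
  push_cast
  have h1 : (Xa : ℝ) + 2 ≤ 4 * x := by linarith
  have hB : (0 : ℝ) ≤ B := by positivity
  have hk : (0 : ℝ) ≤ kk := by positivity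
  have hρ : (0 : ℝ) ≤ ρ := by positivity
  have h2 := mul_le_mul_of_nonneg_left h1 hB
  have h3 := mul_le_mul_of_nonneg_left hx hk
  have h4 := mul_le_mul_of_nonneg_left hx hρ
  linarith

lemma est2 {C tz B c1 lam N Xr l q T0 c2 : ℕ} {y x w : ℝ} (hx0 : 0 ≤ x) (hxy : x ≤ y)
    (hwy : w ≤ y) (hxw : x * w = y) (hN : (N : ℝ) ≤ (1 + tz) * (4 * B) * y)
    (hXr : (Xr : ℝ) ≤ c1 * x) (hl : (l : ℝ) ≤ 2 * lam * w) (hlq : l = lam * q)
    (hT0 : T0 = C * (N + Xr + l))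
    (hc2 : c2 = C * ((1 + tz) * (4 * B) + c1 + 2 * lam) + c1 * (2 * lam)) :
    ((T0 + Xr * (lam * q) : ℕ) : ℝ) ≤ c2 * y := by
  have hc1 : (0 : ℝ) ≤ c1 := by positivity
  have hlam : (0 : ℝ) ≤ lam := by positivity
  have h1 : (Xr : ℝ) ≤ c1 * y := hXr.trans (mul_le_mul_of_nonneg_left hxy hc1)
  have h2 : (l : ℝ) ≤ 2 * lam * y := hl.trans (mul_le_mul_of_nonneg_left hwy (by positivity))
  have h3 : (Xr : ℝ) * l ≤ c1 * (2 * lam) * y := by
    calc (Xr : ℝ) * l ≤ (c1 * x) * (2 * lam * w) :=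
          mul_le_mul hXr hl (by positivity) (by positivity)
      _ = c1 * (2 * lam) * (x * w) := by ring
      _ = _ := by rw [hxw]
  have hC : (0 : ℝ) ≤ C := by positivity
  have h4 : (T0 : ℝ) ≤ C * (((1 + tz) * (4 * B) + c1 + 2 * lam) * y) := by
    rw [hT0]
    push_cast
    refine mul_le_mul_of_nonneg_left ?_ hC
    linarith
  rw [← hlq, hc2]
  push_cast
  linarith

theorem upper_inf {ρ s lam : ℕ} {Z : Set (ℕ × ℕ)} (hd : InfData ρ Z s lam) {hat : Bool → ℕ}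
    (hatt : hat true = ρ) (hatf : 1 ≤ hat false) {γ1 γ' : ℝ}
    (hfill : HasFill ρ Z hat (fun o => cond o (γ1 - lam) γ1)) (hl : (lam : ℝ) < γ1)
    (hγ : γ1 < γ') {ε : ℝ} (hε : 0 < ε) :
    ∀ᶠ p : ℝ in 𝓝[>] 0, ∀ hp : p ∈ unitInterval,
      (initLaw ⟨p, hp⟩).real {ξ | ENNReal.ofReal (p ^ (-γ')) <
        ((hitTime ρ Z ξ : ℕ∞) : ENNReal)} ≤ ε := by
  classical
  obtain ⟨t, o, k, hpres, hforce⟩ := hfill
  have ho : o = true := by
    cases o
    · exact absurd (hforce 0 (by omega)) (not_forces_row hd.hZ hd.hinf)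
    · rfl
  subst ho
  rw [hatt] at hforce
  have hlam0 : (0 : ℝ) ≤ lam := by positivity
  set γa := (γ1 + γ') / 2 with hγa
  have ha1 : γ1 < γa := by rw [hγa]; linarith
  have ha2 : γa < γ' := by rw [hγa]; linarith
  set η := (γ' - γa) / 2 with hη
  have hη0 : 0 < η := by rw [hη]; linarith
  have hη1 : γa + η < γ' := by rw [hη]; linarith
  set β := γa - lam with hβ
  have hβ0 : 0 < β := by rw [hβ]; linarith
  set gp : Bool → ℝ := fun o => cond o β γa with hgp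
  set M : ℝ → Bool → ℕ := fun p o => ⌈p ^ (-(gp o))⌉₊ with hM
  obtain ⟨B, hB, hL⟩ := exists_labB t
  obtain ⟨C, hC⟩ := exists_uniform (P := fun (j : ℕ) (C : ℕ) => ∀ (N : ℕ) (S : Set (ℤ × ℤ)) (z : ℤ),
    1 ≤ N → z.natAbs ≤ N → ContainsN N S t true z → Rl ρ Z S N C (.line true (k + j + z)))
    (fun a c c' hc hP N S z h1 h2 h3 => (hP N S z h1 h2 h3).mono hc) (Finset.range ρ)
    (fun j hj => hforce j (Finset.mem_range.1 hj))
  have hg : ∀ o, (fun o : Bool => cond o (γ1 - (lam : ℝ)) γ1) o < gp o := by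
    intro o
    cases o
    · exact ha1
    · simp only [hgp, cond_true, hβ]
      linarith
  have hMp : ∀ o, ∀ᶠ p : ℝ in 𝓝[>] 0, p ^ (-(gp o)) ≤ (M p o : ℝ) := by
    intro o
    filter_upwards with p
    exact Nat.le_ceil _
  have hε2 : 0 < ε / 2 := by linarith
  have hsmall := no_copy_small (M := M) hg hMp hpres hε2
  -- constants
  set c1 : ℕ := k.natAbs + 4 * B + ρ with hc1
  set c2 : ℕ := C * ((1 + tsize t) * (4 * B) + c1 + 2 * lam) + c1 * (2 * lam) with hc2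
  have hBr : (1 : ℝ) ≤ B := by exact_mod_cast hB
  have hρ1 : 1 ≤ ρ := hd.lam_pos.trans hd.lam_le
  have hc1p : (1 : ℝ) ≤ c1 := by
    have : 1 ≤ c1 := by omega
    exact_mod_cast this
  have hconst := ev_const_mul_le (C := (c2 : ℝ) + 1) hη1 (by positivity)
  have hexp := exp_small (β := β) (η := η) (c := 4 * c1 + 1) hη0 (by positivity) hε2
  filter_upwards [ev_pos, hsmall, hconst, hexp] with p hp hs hc he hpI
  -- sizes
  set Xa : ℕ := ⌈p ^ (-β)⌉₊ with hXa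
  set Ya : ℕ := ⌈p ^ (-γa)⌉₊ with hYa
  set q : ℕ := ⌈p ^ (-(lam + η))⌉₊ with hq
  have hMt : M p true = Xa := rfl
  have hMf : M p false = Ya := rfl
  have x1 : 1 ≤ p ^ (-β) := one_le_rpow_neg hp.1 hp.2 hβ0.le
  have x2 : 1 ≤ p ^ (-γa) := one_le_rpow_neg hp.1 hp.2 (by linarith)
  have x3 : 1 ≤ p ^ (-(lam + η)) := one_le_rpow_neg hp.1 hp.2 (by linarith)
  have y1 := ceil_le_two x1
  have y2 := ceil_le_two x2
  have y3 := ceil_le_two x3
  have hXY : Xa ≤ Ya := by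
    apply Nat.ceil_le_ceil
    exact Real.rpow_le_rpow_of_exponent_ge hp.1 hp.2.le (by rw [hβ]; linarith)
  have hMpos : ∀ o, 0 < M p o := by
    intro o
    exact Nat.ceil_pos.2 (Real.rpow_pos_of_pos hp.1 _)
  have hq0 : 0 < q := Nat.ceil_pos.2 (by linarith)
  set l : ℕ := lam * q with hldef
  have hl0 : 0 < l := Nat.mul_pos hd.lam_pos hq0
  set N : ℕ := (1 + tsize t) * (B * (Ya + 2)) with hN
  have hWt : Wd (M p) B true = ((B * (Xa + 2) : ℕ) : ℤ) := by
    unfold Wd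
    rw [hMt]
    push_cast
    rfl
  have hWf : Wd (M p) B false = ((B * (Ya + 2) : ℕ) : ℤ) := by
    unfold Wd
    rw [hMf]
    push_cast
    rfl
  have hXYB : B * (Xa + 2) ≤ B * (Ya + 2) := Nat.mul_le_mul_left _ (by omega)
  have hN1 : 1 ≤ N := by
    have : 1 ≤ B * (Ya + 2) := Nat.mul_pos hB (by omega)
    exact Nat.mul_pos (by omega) this
  have hNB : B * (Ya + 2) ≤ N := by
    rw [hN]
    exact Nat.le_mul_of_pos_left _ (by omega)
  set X : ℕ := k.natAbs + B * (Xa + 2) with hX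
  set A : ℕ := 2 * X + 2 * ρ with hA
  -- the two bad events
  set E1 : Set (Set (ℤ × ℤ)) := {ξ | ¬ ∃ z : ℤ, 0 ≤ z ∧ z ≤ Wd (M p) B true ∧
    ContainsN N ξ t true z} with hE1
  set E2 : Set (Set (ℤ × ℤ)) := ⋃ c ∈ Finset.Icc (-(A : ℤ)) A,
    {ξ | ∀ i < q, ¬ (runF lam c i : Set (ℤ × ℤ)) ⊆ ξ} with hE2
  have hP1 : (initLaw ⟨p, hpI⟩).real E1 ≤ ε / 2 := by
    refine (prob_no_copy (M := M p) (N := N) hB ⟨p, hpI⟩ hp.1 hMpos t hL true ?_).trans hs
    intro o
    cases o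
    · rw [hWf, hN]
      push_cast
      exact le_rfl
    · rw [hWt]
      have : (1 + tsize t) * (B * (Xa + 2)) ≤ N := Nat.mul_le_mul_left _ hXYB
      exact_mod_cast this
  have hP2 : (initLaw ⟨p, hpI⟩).real E2 ≤ ε / 2 := by
    refine (measureReal_biUnion_finset_le _ _).trans ?_
    refine (Finset.sum_le_sum (fun c _ => prob_noRun lam c q ⟨p, hpI⟩)).trans ?_
    rw [Finset.sum_const, nsmul_eq_mul, Int.card_Icc]
    refine le_trans ?_ he
    have g1 : ((((A : ℤ) + 1 - -(A : ℤ)).toNat : ℕ) : ℝ) = 2 * A + 1 := by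
      have : ((A : ℤ) + 1 - -(A : ℤ)).toNat = 2 * A + 1 := by omega
      rw [this]
      push_cast
      ring
    rw [g1]
    have g2 : (2 * (A : ℝ) + 1) ≤ (4 * c1 + 1) * p ^ (-β) := by
      have h5 : ((X + ρ : ℕ) : ℝ) ≤ c1 * p ^ (-β) := est1 x1 y1
      have h6 : (A : ℝ) = 2 * ((X + ρ : ℕ) : ℝ) := by
        rw [hA]
        push_cast
        ring
      rw [h6]
      linarith
    have g3 : p ^ (-η) ≤ q * p ^ lam := by
      have h1 : p ^ (-(lam + η)) ≤ q := Nat.le_ceil _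
      have h2 : p ^ lam = p ^ (lam : ℝ) := (Real.rpow_natCast p lam).symm
      have h3 : 0 < p ^ (lam : ℝ) := Real.rpow_pos_of_pos hp.1 _
      rw [h2]
      calc p ^ (-η) = p ^ (-(lam + η)) * p ^ (lam : ℝ) := by
            rw [← Real.rpow_add hp.1]
            congr 1
            ring
        _ ≤ q * p ^ (lam : ℝ) := mul_le_mul_of_nonneg_right h1 h3.le
    have g4 : Real.exp (-(q * p ^ lam)) ≤ Real.exp (-(p ^ (-η))) :=
      Real.exp_le_exp.2 (by linarith)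
    exact mul_le_mul g2 g4 (Real.exp_pos _).le (by positivity)
  set T0 : ℕ := C * (N + (X + ρ) + l) with hT0
  have hXρ : ((X + ρ : ℕ) : ℝ) ≤ c1 * p ^ (-β) := est1 x1 y1
  have htime : ((T0 + (X + ρ) * (lam * q) : ℕ) : ℝ) ≤ p ^ (-γ') := by
    refine le_trans ?_ hc
    have hy0 : 0 < p ^ (-(γa + η)) := Real.rpow_pos_of_pos hp.1 _
    have m1 : p ^ (-γa) ≤ p ^ (-(γa + η)) :=
      Real.rpow_le_rpow_of_exponent_ge hp.1 hp.2.le (by linarith)
    have m2 : p ^ (-(lam + η)) ≤ p ^ (-(γa + η)) :=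
      Real.rpow_le_rpow_of_exponent_ge hp.1 hp.2.le (by linarith)
    have m3 : p ^ (-β) ≤ p ^ (-(γa + η)) :=
      Real.rpow_le_rpow_of_exponent_ge hp.1 hp.2.le (by rw [hβ]; linarith)
    have m4 : p ^ (-β) * p ^ (-(lam + η)) = p ^ (-(γa + η)) := by
      rw [← Real.rpow_add hp.1]
      congr 1
      rw [hβ]
      ring
    have hlb : (l : ℝ) ≤ 2 * lam * p ^ (-(lam + η)) := by
      rw [hldef, Nat.cast_mul]
      have := mul_le_mul_of_nonneg_left y3 hlam0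
      linarith
    have hNb : (N : ℝ) ≤ (1 + tsize t) * (4 * B) * p ^ (-(γa + η)) := by
      rw [hN]
      push_cast
      have h1 : (Ya : ℝ) + 2 ≤ 4 * p ^ (-(γa + η)) := by linarith
      have h2 : (0 : ℝ) ≤ (1 + tsize t) * B := by positivity
      calc (1 + (tsize t : ℝ)) * (B * (Ya + 2)) = ((1 + tsize t) * B) * (Ya + 2) := by ring
        _ ≤ ((1 + tsize t) * B) * (4 * p ^ (-(γa + η))) := mul_le_mul_of_nonneg_left h1 h2
        _ = _ := by ring
    have hmain := est2 (by positivity) m3 m2 m4 hNb hXρ hlb hldef hT0 hc2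
    linarith
  have hsub : {ξ | ENNReal.ofReal (p ^ (-γ')) < ((hitTime ρ Z ξ : ℕ∞) : ENNReal)} ⊆ E1 ∪ E2 := by
    intro ξ hξ
    by_contra hcon
    simp only [Set.mem_union, not_or] at hcon
    obtain ⟨n1, n2⟩ := hcon
    rw [hE1, Set.mem_ofPred_eq, not_not] at n1
    obtain ⟨z, hz0, hz1, hcont⟩ := n1
    have hruns : ∀ c : ℤ, |c| ≤ (A : ℤ) → ∃ i < q, (runF lam c i : Set (ℤ × ℤ)) ⊆ ξ := by
      intro c hc
      by_contra hno
      push Not at hno
      apply n2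
      rw [hE2]
      simp only [Set.mem_iUnion]
      rw [abs_le] at hc
      exact ⟨c, Finset.mem_Icc.2 hc, hno⟩
    rw [hWt] at hz1
    have hzN : z.natAbs ≤ N := by omega
    set x0 : ℤ := k + z with hx0
    have hx0X : x0.natAbs ≤ X := by omega
    have hx0X' : |x0| ≤ (X : ℤ) := by
      have : ((x0.natAbs : ℕ) : ℤ) ≤ X := by exact_mod_cast hx0X
      rwa [Int.natCast_natAbs] at this
    have hfull : ∀ j : ℕ, j < ρ → Full ρ Z ξ (lam * q) (x0 + j) T0 := by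
      intro j hj b hb0 hb1
      have h1 := hC j (Finset.mem_range.2 hj) N ξ z hN1 hzN hcont
      have h2 : pt true (k + j + z) b ∈ evolve ρ Z ξ (C * (N + (k + j + z).natAbs + b.natAbs)) :=
        h1 b
      have h3 : k + j + z = x0 + j := by rw [hx0]; ring
      rw [h3] at h2
      refine evolve_mono ρ Z ξ (Nat.mul_le_mul_left _ ?_) h2
      rw [← hldef] at hb1
      omega
    have htr := travel (q := q) hd.hZ hd.hlam hd.lam_le hfull hruns (X + ρ) (by
      rw [hA]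
      push_cast
      linarith) 0 (by push_cast; have := le_abs_self x0; linarith) (by
      push_cast
      have := neg_abs_le x0
      have hρ' : (1 : ℤ) ≤ ρ := by exact_mod_cast hρ1
      linarith)
    have horig := htr 0 le_rfl (by exact_mod_cast hl0)
    have hle := hitTime_le horig
    have hle' : ((hitTime ρ Z ξ : ℕ∞) : ENNReal) ≤ ENNReal.ofReal (p ^ (-γ')) := by
      have hfin : ((T0 + (X + ρ) * (lam * q) : ℕ) : ℝ) ≤ p ^ (-γ') := htime
      generalize T0 + (X + ρ) * (lam * q) = Tt at hle hfin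
      have b1 : ((hitTime ρ Z ξ : ℕ∞) : ENNReal) ≤ (((Tt : ℕ) : ℕ∞) : ENNReal) := by
        exact_mod_cast hle
      refine b1.trans ?_
      have b2 : (((Tt : ℕ) : ℕ∞) : ENNReal) = ENNReal.ofReal (Tt : ℝ) := by
        simp
      rw [b2]
      exact ENNReal.ofReal_le_ofReal hfin
    exact absurd hle' (not_le.2 hξ)
  refine (measureReal_mono hsub (measure_ne_top _ _)).trans ?_
  have u1 := measureReal_union_le (μ := initLaw ⟨p, hpI⟩) E1 E2
  linarith

end Pool.Agent.MP_e7dab6_pr
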