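import Pool.Agent.Lib.MP_e7dab6_pr.SparseProb

/-!
# Without a filling tree the origin is not reached
-/

set_option autoImplicit false

open Filter Topology MeasureTheory

namespace Pool.Agent.MP_e7dab6_pr

/-- Finite speed of propagation. -/
lemma finite_speed {ρ : ℕ} {Z : Set (ℕ × ℕ)} (hZ : IsLowerSet Z) {ξ ξ' : Set (ℤ × ℤ)} (t : ℕ) :
    ∀ z : ℤ × ℤ, (∀ w : ℤ × ℤ, (∀ o, |crd o w - crd o z| ≤ (ρ : ℤ) * t) → w ∈ ξ → w ∈ ξ') →
      z ∈ evolve ρ Z ξ t → z ∈ evolve ρ Z ξ' t := by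
  induction t with
  | zero =>
    intro z h hz
    exact h z (by simp) hz
  | succ t ih =>
    intro z h hz
    have hρ0 : (0 : ℤ) ≤ ρ := by positivity
    have hbig : ∀ w : ℤ × ℤ, (∀ o, |crd o w - crd o z| ≤ (ρ : ℤ)) →
        w ∈ evolve ρ Z ξ t → w ∈ evolve ρ Z ξ' t := by
      intro w hw hwt
      refine ih w (fun v hv hvξ => h v (fun o => ?_) hvξ) hwt
      have h1 := hw o
      have h2 := hv o
      push_cast
      calc |crd o v - crd o z| = |(crd o v - crd o w) + (crd o w - crd o z)| := by congr 1; ring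
        _ ≤ |crd o v - crd o w| + |crd o w - crd o z| := abs_add_le _ _
        _ ≤ ρ * t + ρ := add_le_add h2 h1
        _ = ρ * (t + 1) := by ring
    obtain ⟨a, b⟩ := z
    change pt true a b ∈ step ρ Z _ at hz
    rw [mem_step_iff hZ] at hz
    rcases hz with hz | ⟨U, V, hU, hV, hb⟩
    · exact evolve_mono_succ ρ Z ξ' t (hbig (a, b) (by intro o; simp) hz)
    · refine mem_evolve_succ hZ true U V (fun x hx => ⟨(hU x hx).1, hbig _ ?_ (hU x hx).2⟩)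
        (fun x hx => ⟨(hV x hx).1, hbig _ ?_ (hV x hx).2⟩) hb
      · intro o
        cases o
        · simp
        · simpa using (hU x hx).1
      · intro o
        cases o
        · simpa using (hV x hx).1
        · simp

section
variable {ρ K0 K : ℕ} {Z : Set (ℕ × ℕ)} {Pa : Finset (Finset (ℤ × ℤ))} {st : Bool → Finset ℤ}
  {S : Finset (ℤ × ℤ)}

lemma two_rho_le_cL (ρ K0 K : ℕ) : 2 * (ρ : ℤ) ≤ cL ρ K0 K := by
  have h1 := cDc_le_mul ρ K0 K
  have h2 := cw_nonneg ρ K0 K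
  have h3 := KR_nonneg ρ K0 K
  have h4 : 2 * (ρ : ℤ) ≤ cDc ρ K0 K := by unfold cDc; linarith
  unfold cL
  linarith

lemma cL_nonneg (ρ K0 K : ℕ) : 0 ≤ cL ρ K0 K := by
  have := two_rho_le_cL ρ K0 K
  linarith [show (0 : ℤ) ≤ 2 * ρ by positivity]

/-- A point of the closed set away from the lines is close to a static site. -/
lemma near_static (hPa : Partn (cR ρ K0 K) K S Pa) {z : ℤ × ℤ}
    (hfar : ∀ o, ∀ y ∈ st o, 2 * (ρ : ℤ) < |y - crd o z|) (hz : z ∈ QQ ρ Z Pa st) :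
    ∃ P ∈ Pa, (∀ o, ∃ c ∈ cols o P, |c - crd o z| ≤ 2 * (ρ : ℤ)) ∧
      (∀ o, crd o z ∈ Gz ρ st (P, fun o => cols o P) o) ∧
      Der ρ Z (Lz ρ st (P, fun o => cols o P)) P (.site z) := by
  have hd0 : (0 : ℤ) ≤ 2 * ρ := by positivity
  rcases hz with ⟨o, ho⟩ | ⟨π, hπ, hG, hder⟩
  · have := hfar o _ ho
    rw [sub_self, abs_zero] at this
    linarith
  · have hends : ∀ o, ∃ c ∈ π.2 o, |c - crd o z| ≤ 2 * (ρ : ℤ) := by
      intro o
      obtain ⟨a, ha, a', ha', h1, h2, h3, -⟩ := hG o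
      have h4 : |a - crd o z| ≤ 2 * (ρ : ℤ) := by
        rw [abs_le]
        constructor <;> linarith
      rcases ha with ha | ha
      · exact absurd h4 (not_le.2 (hfar o a (by exact_mod_cast ha)))
      · exact ⟨a, by exact_mod_cast ha, h4⟩
    rcases hπ with ⟨P, hP, rfl⟩ | ⟨α, hα, rfl⟩
    · exact ⟨P, hP, hends, hG, hder⟩
    · obtain ⟨c, hc, h1⟩ := hends true
      simp only [Finset.mem_singleton] at hc
      subst hc
      exact absurd h1 (not_le.2 (hfar true _ (hα true)))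

lemma origin_not_mem (hPa : Partn (cR ρ K0 K) K S Pa)
    (hfar : ∀ o, ∀ y ∈ st o, cL ρ K0 K < |y - 0|)
    (hS : ∀ z ∈ S, ¬ ∀ o, |crd o z| ≤ 2 * (ρ : ℤ) + K * cR ρ K0 K) :
    ((0 : ℤ), (0 : ℤ)) ∉ QQ ρ Z Pa st := by
  intro hz
  have h0 : ∀ o, crd o ((0 : ℤ), (0 : ℤ)) = 0 := by intro o; cases o <;> rfl
  obtain ⟨P, hP, hc, -, -⟩ := near_static hPa (fun o y hy => by
    rw [h0]
    exact lt_of_le_of_lt (two_rho_le_cL ρ K0 K) (hfar o y hy)) hz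
  obtain ⟨c, hc1, hc2⟩ := hc true
  obtain ⟨z, hz1, rfl⟩ := mem_cols.1 hc1
  apply hS z (hPa.sub P hP hz1)
  intro o
  obtain ⟨c', hc1', hc2'⟩ := hc o
  obtain ⟨z', hz1', rfl⟩ := mem_cols.1 hc1'
  have h1 := tight_width (hPa.tight P hP) (hPa.card P hP) o hz1 hz1'
  have h2 := tight_width (hPa.tight P hP) (hPa.card P hP) o hz1' hz1
  rw [h0, sub_zero, abs_le] at hc2'
  rw [abs_le]
  constructor <;> linarith

end

/-- The root zone as a family of finite sets. -/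
noncomputable def rootFin (L : ℤ) (o : Bool) (x : ℤ) : Bool → Finset ℤ :=
  fun o' => if o' = o then Finset.Icc (x - 2 * L) (x + 2 * L) else ∅

lemma rootFin_coe (L : ℤ) (o : Bool) (x : ℤ) :
    (fun o' => (rootFin L o x o' : Set ℤ)) = rootZone L o x := by
  funext o'
  unfold rootFin rootZone
  split_ifs
  · rw [Finset.coe_Icc]
  · rw [Finset.coe_empty]

lemma rootFin_card (L : ℤ) (o : Bool) (x : ℤ) (o' : Bool) :
    (rootFin L o x o').card ≤ (4 * L + 1).toNat := by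
  unfold rootFin
  split_ifs
  · rw [Int.card_Icc]
    exact le_of_eq (by congr 1; ring)
  · simp

/-- Few static sites near a given place. -/
lemma prob_near (b : ℕ) {ε : ℝ} (hε : 0 < ε) :
    ∀ᶠ p : ℝ in 𝓝[>] 0, ∀ hp : p ∈ unitInterval,
      (initLaw ⟨p, hp⟩).real {ξ | ∃ z ∈ ξ, ∀ o, |crd o z| ≤ (b : ℤ)} ≤ ε := by
  set T : Finset (ℤ × ℤ) := Finset.Icc (-(b : ℤ)) b ×ˢ Finset.Icc (-(b : ℤ)) b with hT
  have hTp : (0 : ℝ) < T.card + 1 := by positivity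
  have h1 := ev_rpow_lt (e := 1) one_pos (div_pos hε hTp)
  filter_upwards [ev_pos, h1] with p hp hlt hpI
  rw [Real.rpow_one] at hlt
  have hsub : {ξ : Set (ℤ × ℤ) | ∃ z ∈ ξ, ∀ o, |crd o z| ≤ (b : ℤ)} ⊆
      ⋃ z ∈ T, {ξ | ((({z} : Finset (ℤ × ℤ)) : Set (ℤ × ℤ))) ⊆ ξ} := by
    rintro ξ ⟨z, hz, hzb⟩
    have h2 := hzb true
    have h3 := hzb false
    rw [abs_le] at h2 h3
    simp only [Set.mem_iUnion]
    refine ⟨z, ?_, ?_⟩
    · rw [hT, Finset.mem_product, Finset.mem_Icc, Finset.mem_Icc]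
      exact ⟨h2, h3⟩
    · simpa using hz
  refine (measureReal_mono hsub (measure_ne_top _ _)).trans ?_
  refine (measureReal_biUnion_finset_le _ _).trans ?_
  have h4 : ∀ z ∈ T, (initLaw ⟨p, hpI⟩).real
      {ξ | ((({z} : Finset (ℤ × ℤ)) : Set (ℤ × ℤ))) ⊆ ξ} = p := by
    intro z _
    rw [prob_subset_real]
    simp
  rw [Finset.sum_congr rfl h4, Finset.sum_const, nsmul_eq_mul]
  rw [lt_div_iff₀ hTp] at hlt
  nlinarith [hp.1]

theorem lower_fin_aux {ρ : ℕ} {Z : Set (ℕ × ℕ)} {hat : Bool → ℕ} {γt γ2 : ℝ} (hZ : IsLowerSet Z)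
    (hρ : 1 ≤ ρ) (hhat1 : ∀ o, 1 ≤ hat o) (hhat2 : ∀ o, hat o ≤ ρ)
    (hno : ¬ HasFill ρ Z hat (fun _ => γ2)) (h0 : 0 ≤ γt) (hγ : γt < γ2) {ε : ℝ} (hε : 0 < ε) :
    ∀ᶠ p : ℝ in 𝓝[>] 0, ∀ hp : p ∈ unitInterval,
      (initLaw ⟨p, hp⟩).real {ξ | ((hitTime ρ Z ξ : ℕ∞) : ENNReal) ≤
        ENNReal.ofReal (p ^ (-γt))} ≤ ε := by
  set κ := (γ2 - γt) / 2 with hκ
  have hκ0 : 0 < κ := by rw [hκ]; linarith
  set g0 : Bool → ℝ := fun _ => γt with hg0
  set g : Bool → ℝ := fun _ => γt + κ with hg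
  set g2 : Bool → ℝ := fun _ => γ2 with hg2
  set K0 : ℕ := ⌈(γt + κ) / κ⌉₊ with hK0
  set K : ℕ := ⌊γt + γt⌋₊ + 1 with hK
  have hd : DetData ρ Z hat g0 g g2 κ K0 K := by
    refine ⟨hZ, hρ, fun _ => h0, hκ0, fun _ => rfl, fun _ => ?_, fun _ => ?_, by omega, ?_, hhat1,
      hhat2, hno⟩
    · simp only [hg, hg2, hκ]
      ring
    · have h1 : (γt + κ) / κ ≤ K0 := Nat.le_ceil _
      rw [div_le_iff₀ hκ0] at h1
      simp only [hg]
      nlinarith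
    · simp only [hg0, hK]
      push_cast
      have := Nat.lt_floor_add_one (γt + γt)
      linarith
  set L := cL ρ K0 K with hL
  have hL0 : 0 ≤ L := cL_nonneg ρ K0 K
  set N : ℝ → Bool → ℕ := fun p _ => ρ * ⌈p ^ (-γt)⌉₊ with hN
  have hρr : (0 : ℝ) < ρ := by exact_mod_cast hρ
  have hNle : ∀ o, ∀ᶠ p : ℝ in 𝓝[>] 0, (N p o : ℝ) ≤ (2 * ρ) * p ^ (-(g0 o)) := by
    intro o
    filter_upwards [ev_pos] with p hp
    have h1 := ceil_le_two (one_le_rpow_neg hp.1 hp.2 h0)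
    simp only [hN, hg0]
    push_cast
    nlinarith
  set b : ℕ := (2 * (ρ : ℤ) + K * cR ρ K0 K).toNat with hb
  have hbeq : (b : ℤ) = 2 * (ρ : ℤ) + K * cR ρ K0 K := by
    rw [hb]
    apply Int.toNat_of_nonneg
    have := KR_nonneg ρ K0 K
    positivity
  have hε4 : 0 < ε / 4 := by linarith
  have e1 := sparse_whp (Kp := 2 * K0 * K) (c := (4 * L + 1).toNat) (fun _ => h0) hL0
    (by positivity : (0 : ℝ) < 2 * ρ) hNle hε4
  have e2 := prob_near b hε4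
  filter_upwards [ev_pos, e1, e2] with p hp h1 h2 hpI
  have s0 := h1 hpI (fun _ => ∅) (fun _ => by simp)
  have s1 := h1 hpI (rootFin L true 0) (rootFin_card L true 0)
  have s2 := h1 hpI (rootFin L false 0) (rootFin_card L false 0)
  have s3 := h2 hpI
  rw [rootFin_coe] at s1 s2
  set E0 : Set (Set (ℤ × ℤ)) := {ξ | ¬ SparseAt g0 (2 * K0 * K) L (ξ ∩ Box (N p))
    (fun _ => ((∅ : Finset ℤ) : Set ℤ))} with hE0
  set E1 : Set (Set (ℤ × ℤ)) := {ξ | ¬ SparseAt g0 (2 * K0 * K) L (ξ ∩ Box (N p))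
    (rootZone L true 0)} with hE1
  set E2 : Set (Set (ℤ × ℤ)) := {ξ | ¬ SparseAt g0 (2 * K0 * K) L (ξ ∩ Box (N p))
    (rootZone L false 0)} with hE2
  set E3 : Set (Set (ℤ × ℤ)) := {ξ | ∃ z ∈ ξ, ∀ o, |crd o z| ≤ (b : ℤ)} with hE3
  have hsub : {ξ | ((hitTime ρ Z ξ : ℕ∞) : ENNReal) ≤ ENNReal.ofReal (p ^ (-γt))} ⊆
      ((E0 ∪ E1) ∪ E2) ∪ E3 := by
    intro ξ hξ
    by_contra hcon
    simp only [Set.mem_union, not_or] at hcon
    obtain ⟨⟨⟨c0, c1⟩, c2⟩, c3⟩ := hcon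
    rw [hE0, Set.mem_ofPred_eq, not_not] at c0
    rw [hE1, Set.mem_ofPred_eq, not_not] at c1
    rw [hE2, Set.mem_ofPred_eq, not_not] at c2
    obtain ⟨t, ht, hmem⟩ := exists_of_hitTime_le hξ
    have hfin : (ξ ∩ Box (N p)).Finite := (box_finite _).subset Set.inter_subset_right
    set S : Finset (ℤ × ℤ) := hfin.toFinset with hS
    have hScoe : (S : Set (ℤ × ℤ)) = ξ ∩ Box (N p) := hfin.coe_toFinset
    rw [← hScoe] at c0 c1 c2
    obtain ⟨Pa, st, hPa, hsep, hcomp, -, hcl, hSQ, hroot⟩ := det hd (by simpa using c0)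
    have hfar : ∀ o, ∀ y ∈ st o, cL ρ K0 K < |y - 0| := by
      intro o y hy
      cases o
      · exact hroot false 0 c2 y hy
      · exact hroot true 0 c1 y hy
    have hnot := origin_not_mem (Z := Z) hPa hfar (by
      intro z hz hall
      apply c3
      have hz' : z ∈ ξ ∩ Box (N p) := by rw [← hScoe]; exact_mod_cast hz
      exact ⟨z, hz'.1, fun o => by rw [hbeq]; exact hall o⟩)
    apply hnot
    have ht' : (t : ℝ) ≤ p ^ (-γt) := by
      rwa [max_eq_left (Real.rpow_nonneg hp.1.le _)] at ht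
    have htN : t ≤ ⌈p ^ (-γt)⌉₊ := by
      have : (t : ℝ) ≤ ⌈p ^ (-γt)⌉₊ := ht'.trans (Nat.le_ceil _)
      exact_mod_cast this
    have hmem2 : ((0 : ℤ), (0 : ℤ)) ∈ evolve ρ Z (ξ ∩ Box (N p)) t := by
      refine finite_speed hZ t _ ?_ hmem
      intro w hw hwξ
      refine ⟨hwξ, fun o => ?_⟩
      have h3 := hw o
      have h00 : crd o ((0 : ℤ), (0 : ℤ)) = 0 := by cases o <;> rfl
      rw [h00, sub_zero] at h3
      refine h3.trans ?_
      simp only [hN]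
      push_cast
      exact mul_le_mul_of_nonneg_left (by exact_mod_cast htN) (by positivity)
    rw [← hScoe] at hmem2
    exact evolve_subset_of_closed hZ hSQ hcl t hmem2
  refine (measureReal_mono hsub (measure_ne_top _ _)).trans ?_
  have u1 := measureReal_union_le (μ := initLaw ⟨p, hpI⟩) ((E0 ∪ E1) ∪ E2) E3
  have u2 := measureReal_union_le (μ := initLaw ⟨p, hpI⟩) (E0 ∪ E1) E2
  have u3 := measureReal_union_le (μ := initLaw ⟨p, hpI⟩) E0 E1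
  linarith

theorem lower_fin {ρ : ℕ} {Z : Set (ℕ × ℕ)} {hat : Bool → ℕ} {γt γ2 : ℝ} (hZ : IsLowerSet Z)
    (hρ : 1 ≤ ρ) (hhat1 : ∀ o, 1 ≤ hat o) (hhat2 : ∀ o, hat o ≤ ρ)
    (hno : ¬ HasFill ρ Z hat (fun _ => γ2)) (h2 : 0 < γ2) (hγ : γt < γ2) {ε : ℝ} (hε : 0 < ε) :
    ∀ᶠ p : ℝ in 𝓝[>] 0, ∀ hp : p ∈ unitInterval,
      (initLaw ⟨p, hp⟩).real {ξ | ((hitTime ρ Z ξ : ℕ∞) : ENNReal) ≤
        ENNReal.ofReal (p ^ (-γt))} ≤ ε := by
  have h3 := lower_fin_aux (γt := max γt 0) hZ hρ hhat1 hhat2 hno (le_max_right _ _)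
    (max_lt hγ h2) hε
  filter_upwards [ev_pos, h3] with p hp h4 hpI
  refine (measureReal_mono ?_ (measure_ne_top _ _)).trans (h4 hpI)
  intro ξ hξ
  have hξ' : ((hitTime ρ Z ξ : ℕ∞) : ENNReal) ≤ ENNReal.ofReal (p ^ (-γt)) := hξ
  refine hξ'.trans (ENNReal.ofReal_le_ofReal ?_)
  apply Real.rpow_le_rpow_of_exponent_ge hp.1 hp.2.le
  linarith [le_max_left γt 0]

end Pool.Agent.MP_e7dab6_pr
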