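import Pool.Agent.Lib.MP_e7dab6_pr.Der

/-!
# Moving the content of a line to an adjacent line

If the line `x` can be derived, then after adding the line `x` and moving the given sites of the
line `x` to the line `x + ε`, the line `x + ε` can be derived.
-/

set_option autoImplicit false

namespace Pool.Agent.MP_e7dab6_pr

/-- Move a site of the `o`-line `x` to the line `x + ε`. -/
def mvSite (o : Bool) (x ε : ℤ) (z : ℤ × ℤ) : ℤ × ℤ :=
  if crd o z = x then pt o (x + ε) (crd (!o) z) else z

/-- Move an item. -/
def mvItem (o : Bool) (x ε : ℤ) : Item → Item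
  | .site z => .site (mvSite o x ε z)
  | .line o' a => if o' = o ∧ a = x then .line o (x + ε) else .line o' a

/-- Add the `o`-line `x`. -/
def addLine (o : Bool) (x : ℤ) (L : Bool → Set ℤ) : Bool → Set ℤ :=
  fun o' => if o' = o then insert x (L o') else L o'

lemma mvSite_self (o : Bool) (x ε b : ℤ) : mvSite o x ε (pt o x b) = pt o (x + ε) b := by
  simp [mvSite]

lemma mvSite_of_ne {o : Bool} {x ε a b : ℤ} (h : a ≠ x) : mvSite o x ε (pt o a b) = pt o a b := by
  simp [mvSite, h]

lemma mvItem_self (o : Bool) (x ε : ℤ) : mvItem o x ε (.line o x) = .line o (x + ε) := by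
  simp [mvItem]

lemma mvItem_of_ne {o : Bool} {x ε a : ℤ} (h : a ≠ x) :
    mvItem o x ε (.line o a) = .line o a := by
  simp [mvItem, h]

lemma mvItem_not (o : Bool) (x ε a : ℤ) : mvItem o x ε (.line (!o) a) = .line (!o) a := by
  simp [mvItem]

lemma mem_addLine_self (o : Bool) (x : ℤ) (L : Bool → Set ℤ) : x ∈ addLine o x L o := by
  simp [addLine]

lemma subset_addLine (o o' : Bool) (x : ℤ) (L : Bool → Set ℤ) : L o' ⊆ addLine o x L o' := by
  intro y hy
  unfold addLine
  split_ifs
  · exact Set.mem_insert_of_mem _ hy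
  · exact hy

lemma card_swap {x ε : ℤ} {ρ : ℕ} {U : Finset ℤ} (hxU : x ∉ U) :
    U.card ≤ (insert x (U.erase (x - ε * ρ))).card := by
  classical
  rw [Finset.card_insert_of_notMem (fun h => hxU (Finset.mem_of_mem_erase h))]
  have := Finset.pred_card_le_card_erase (s := U) (a := x - ε * ρ)
  omega

lemma near_swap {x ε a' : ℤ} {ρ : ℕ} (hε : ε = 1 ∨ ε = -1) (hρ : 1 ≤ ρ) (h : |a' - x| ≤ (ρ : ℤ))
    (h1 : a' ≠ x - ε * ρ) : |a' - (x + ε)| ≤ (ρ : ℤ) := by
  rw [abs_le] at *
  rcases hε with rfl | rfl
  · constructor
    · have : a' ≠ x - ρ := by simpa using h1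
      omega
    · omega
  · constructor
    · omega
    · have : a' ≠ x + ρ := by simpa using h1
      omega

lemma der_move {ρ : ℕ} {Z : Set (ℕ × ℕ)} (hZ : IsLowerSet Z) (hρ : 1 ≤ ρ) {o : Bool} {x ε : ℤ}
    (hε : ε = 1 ∨ ε = -1) {L : Bool → Set ℤ} {F : Set (ℤ × ℤ)} (hx : x ∉ L o) {i : Item}
    (h : Der ρ Z L F i) :
    Der ρ Z (addLine o x L) (mvSite o x ε '' F) (mvItem o x ε i) := by
  classical
  have hε1 : |x - (x + ε)| ≤ (ρ : ℤ) := by
    rcases hε with rfl | rfl <;> simp <;> omega
  have hbase : Der ρ Z (addLine o x L) (mvSite o x ε '' F) (.line o x) :=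
    .baseLine (mem_addLine_self o x L)
  -- the site step in direction `o`
  have hsite : ∀ (a b : ℤ) (U V : Finset ℤ), (∀ a' ∈ U, |a' - a| ≤ (ρ : ℤ)) →
      (∀ b' ∈ V, |b' - b| ≤ (ρ : ℤ)) →
      (∀ a' ∈ U, Der ρ Z (addLine o x L) (mvSite o x ε '' F) (mvItem o x ε (.site (pt o a' b)))) →
      (∀ b' ∈ V, Der ρ Z (addLine o x L) (mvSite o x ε '' F) (mvItem o x ε (.site (pt o a b')))) →
      bad Z o U.card V.card →
      Der ρ Z (addLine o x L) (mvSite o x ε '' F) (mvItem o x ε (.site (pt o a b))) := by
    intro a b U V hU hV ihU ihV hb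
    simp only [mvItem] at ihU ihV ⊢
    by_cases ha : a = x
    · subst ha
      simp only [mvSite_self] at ihV ⊢
      by_cases h1 : a ∈ U
      · simpa only [mvSite_self] using ihU a h1
      by_cases h2 : a + ε ∈ U
      · have hne : a + ε ≠ a := by rcases hε with rfl | rfl <;> simp
        have := ihU _ h2
        rwa [mvSite_of_ne hne] at this
      refine .siteStep (insert a (U.erase (a - ε * ρ))) V ?_ hV ?_ ihV
        (hb.mono hZ (card_swap h1) le_rfl)
      · intro a' ha'
        rcases Finset.mem_insert.1 ha' with rfl | ha'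
        · exact hε1
        · exact near_swap hε hρ (hU _ (Finset.mem_of_mem_erase ha')) (Finset.ne_of_mem_erase ha')
      · intro a' ha'
        rcases Finset.mem_insert.1 ha' with rfl | ha'
        · exact hbase.ofLine
        · have hm := Finset.mem_of_mem_erase ha'
          have hne : a' ≠ a := fun h => h1 (h ▸ hm)
          have := ihU _ hm
          rwa [mvSite_of_ne hne] at this
    · simp only [mvSite_of_ne ha] at ihV ⊢
      refine .siteStep U V hU hV ?_ ihV hb
      intro a' ha'
      by_cases hne : a' = x
      · subst hne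
        exact hbase.ofLine
      · have := ihU _ ha'
        rwa [mvSite_of_ne hne] at this
  induction h with
  | baseSite h => exact .baseSite ⟨_, h, rfl⟩
  | @baseLine o' a h =>
    by_cases h1 : o' = o ∧ a = x
    · obtain ⟨rfl, rfl⟩ := h1
      exact absurd h hx
    · simp only [mvItem, if_neg h1]
      exact .baseLine (subset_addLine _ _ _ _ h)
  | @ofLine o' a b _ ih =>
    rcases Bool.eq_or_eq_not o' o with rfl | rfl
    · by_cases ha : a = x
      · subst ha
        rw [mvItem_self] at ih
        simp only [mvItem, mvSite_self]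
        exact ih.ofLine
      · rw [mvItem_of_ne ha] at ih
        simp only [mvItem, mvSite_of_ne ha]
        exact ih.ofLine
    · rw [mvItem_not] at ih
      simp only [mvItem]
      rw [pt_not]
      by_cases hb : b = x
      · subst hb
        rw [mvSite_self, ← pt_not]
        exact ih.ofLine
      · rw [mvSite_of_ne hb, ← pt_not]
        exact ih.ofLine
  | @siteStep o' a b U V hU hV _ _ hb ihU ihV =>
    rcases Bool.eq_or_eq_not o' o with rfl | rfl
    · exact hsite a b U V hU hV ihU ihV hb
    · rw [pt_not]
      refine hsite b a V U hV hU ?_ ?_ (bad_not.1 hb)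
      · intro b' hb'
        have := ihV b' hb'
        rwa [pt_not] at this
      · intro a' ha'
        have := ihU a' ha'
        rwa [pt_not] at this
  | @lineStep o' a b U hU _ _ hb ihU ihS =>
    rcases Bool.eq_or_eq_not o' o with rfl | rfl
    · by_cases ha : a = x
      · subst ha
        rw [mvItem_self]
        by_cases h1 : a ∈ U
        · simpa only [mvItem_self] using ihU a h1
        by_cases h2 : a + ε ∈ U
        · have hne : a + ε ≠ a := by rcases hε with rfl | rfl <;> simp
          have := ihU _ h2
          rwa [mvItem_of_ne hne] at this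
        refine .lineStep (b := b) (insert a (U.erase (a - ε * ρ))) ?_ ?_ ?_
          (hb.mono hZ (card_swap h1) le_rfl)
        · intro a' ha'
          rcases Finset.mem_insert.1 ha' with rfl | ha'
          · exact hε1
          · exact near_swap hε hρ (hU _ (Finset.mem_of_mem_erase ha')) (Finset.ne_of_mem_erase ha')
        · intro a' ha'
          rcases Finset.mem_insert.1 ha' with rfl | ha'
          · exact hbase
          · have hm := Finset.mem_of_mem_erase ha'
            have hne : a' ≠ a := fun h => h1 (h ▸ hm)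
            have := ihU _ hm
            rwa [mvItem_of_ne hne] at this
        · intro j hj
          have := ihS j hj
          simpa only [mvItem, mvSite_self] using this
      · rw [mvItem_of_ne ha]
        refine .lineStep (b := b) U hU ?_ ?_ hb
        · intro a' ha'
          by_cases hne : a' = x
          · subst hne
            exact hbase
          · have := ihU _ ha'
            rwa [mvItem_of_ne hne] at this
        · intro j hj
          have := ihS j hj
          simpa only [mvItem, mvSite_of_ne ha] using this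
    · rw [mvItem_not]
      refine .lineStep (b := b) U hU ?_ ?_ hb
      · intro a' ha'
        have := ihU _ ha'
        rwa [mvItem_not] at this
      · intro j hj
        by_cases hb' : b + j = x
        · rw [hb', pt_not]
          exact hbase.ofLine
        · have := ihS j hj
          simp only [mvItem] at this
          rwa [pt_not, mvSite_of_ne hb', ← pt_not] at this

/-- Add the lines `x, x + ε, …, x + (j - 1) ε`. -/
def addLines (o : Bool) (x ε : ℤ) (j : ℕ) (L : Bool → Set ℤ) : Bool → Set ℤ :=
  fun o' => if o' = o then L o' ∪ {y | ∃ i : ℕ, i < j ∧ y = x + i * ε} else L o'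

/-- The sites after `j` moves. -/
def mvF (o : Bool) (x ε : ℤ) : ℕ → Finset (ℤ × ℤ) → Finset (ℤ × ℤ)
  | 0, F => F
  | j + 1, F => (mvF o x ε j F).image (mvSite o (x + j * ε) ε)

lemma card_mvF_le (o : Bool) (x ε : ℤ) (j : ℕ) (F : Finset (ℤ × ℤ)) :
    (mvF o x ε j F).card ≤ F.card := by
  induction j with
  | zero => exact le_rfl
  | succ j ih => exact Finset.card_image_le.trans ih

lemma addLines_succ (o : Bool) (x ε : ℤ) (j : ℕ) (L : Bool → Set ℤ) :
    addLines o x ε (j + 1) L = addLine o (x + j * ε) (addLines o x ε j L) := by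
  funext o'
  unfold addLine addLines
  split_ifs with h
  · ext y
    simp only [Set.mem_union, Set.mem_ofPred_eq, Set.mem_insert_iff]
    constructor
    · rintro (hy | ⟨i, hi, rfl⟩)
      · exact Or.inr (Or.inl hy)
      · rcases Nat.lt_succ_iff_lt_or_eq.1 hi with hi | rfl
        · exact Or.inr (Or.inr ⟨i, hi, rfl⟩)
        · exact Or.inl rfl
    · rintro (rfl | hy | ⟨i, hi, rfl⟩)
      · exact Or.inr ⟨j, Nat.lt_succ_self j, rfl⟩
      · exact Or.inl hy
      · exact Or.inr ⟨i, Nat.lt_succ_of_lt hi, rfl⟩
  · rfl

lemma der_moveN {ρ : ℕ} {Z : Set (ℕ × ℕ)} (hZ : IsLowerSet Z) (hρ : 1 ≤ ρ) {o : Bool} {x ε : ℤ}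
    (hε : ε = 1 ∨ ε = -1) {L : Bool → Set ℤ} {F : Finset (ℤ × ℤ)} (j : ℕ)
    (hx : ∀ i : ℕ, i < j → x + i * ε ∉ L o) :
    (Der ρ Z L F (.line o x) →
      Der ρ Z (addLines o x ε j L) (mvF o x ε j F) (.line o (x + j * ε))) ∧
    ∀ y, Der ρ Z L F (.line (!o) y) →
      Der ρ Z (addLines o x ε j L) (mvF o x ε j F) (.line (!o) y) := by
  classical
  have hε0 : ε ≠ 0 := by rcases hε with rfl | rfl <;> simp
  induction j with
  | zero =>
    have : addLines o x ε 0 L = L := by
      funext o'
      simp [addLines]
    rw [this]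
    simp [mvF]
  | succ j ih =>
    have ih' := ih (fun i hi => hx i (Nat.lt_succ_of_lt hi))
    have hnot : x + j * ε ∉ addLines o x ε j L o := by
      simp only [addLines, if_true]
      rintro (h | ⟨i, hi, h⟩)
      · exact hx j (Nat.lt_succ_self j) h
      · have h2 : (j : ℤ) = i := by
          have : (j : ℤ) * ε = i * ε := by linarith
          exact mul_right_cancel₀ hε0 this
        have : j = i := by exact_mod_cast h2
        omega
    rw [addLines_succ]
    constructor
    · intro h
      have := der_move hZ hρ hε hnot (ih'.1 h)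
      rw [mvItem_self, ← Finset.coe_image] at this
      rw [show x + ((j + 1 : ℕ) : ℤ) * ε = x + j * ε + ε by push_cast; ring]
      exact this
    · intro y h
      have := der_move hZ hρ hε hnot (ih'.2 y h)
      rw [mvItem_not, ← Finset.coe_image] at this
      exact this

end Pool.Agent.MP_e7dab6_pr
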