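import Pool.Agent.Lib.MP_e7dab6_pr.Conn

/-!
# Partition of a finite set of sites into tight, pairwise separated parts
-/

set_option autoImplicit false

namespace Pool.Agent.MP_e7dab6_pr

/-- The diameter of `P` in both directions is at most `(|P| - 1) R`. -/
def Tight (R : ℤ) (P : Finset (ℤ × ℤ)) : Prop :=
  ∀ o, ∀ z ∈ P, ∀ z' ∈ P, crd o z - crd o z' ≤ ((P.card : ℤ) - 1) * R

/-- The two sets are more than `R` apart in one of the directions. -/
def Sep (R : ℤ) (P P' : Finset (ℤ × ℤ)) : Prop :=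
  ∃ o, (∀ z ∈ P, ∀ z' ∈ P', crd o z + R < crd o z') ∨ (∀ z ∈ P, ∀ z' ∈ P', crd o z' + R < crd o z)

/-- A partition of `S` into tight parts of size at most `K`. -/
structure Partn (R : ℤ) (K : ℕ) (S : Finset (ℤ × ℤ)) (Pa : Finset (Finset (ℤ × ℤ))) : Prop where
  nonempty : ∀ P ∈ Pa, P.Nonempty
  tight : ∀ P ∈ Pa, Tight R P
  card : ∀ P ∈ Pa, P.card ≤ K
  disj : ∀ P ∈ Pa, ∀ P' ∈ Pa, P ≠ P' → Disjoint P P'
  sub : ∀ P ∈ Pa, P ⊆ S
  cover : ∀ z ∈ S, ∃ P ∈ Pa, z ∈ P

lemma exists_partn {R : ℤ} (hR : 0 ≤ R) {K : ℕ} (hK : 1 ≤ K) (S : Finset (ℤ × ℤ))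
    (hmerge : ∀ P ⊆ S, Tight R P → P.card ≤ 2 * K → P.card ≤ K) :
    ∃ Pa, Partn R K S Pa ∧ ∀ P ∈ Pa, ∀ P' ∈ Pa, P ≠ P' → Sep R P P' := by
  classical
  have hex : ∃ n : ℕ, ∃ Pa, Partn R K S Pa ∧ Pa.card = n := by
    refine ⟨_, S.image (fun z => {z}), ⟨?_, ?_, ?_, ?_, ?_, ?_⟩, rfl⟩
    · intro P hP
      rw [Finset.mem_image] at hP
      obtain ⟨z, -, rfl⟩ := hP
      exact Finset.singleton_nonempty z
    · intro P hP
      rw [Finset.mem_image] at hP
      obtain ⟨z, -, rfl⟩ := hP
      intro o a ha b hb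
      rw [Finset.mem_singleton] at ha hb
      subst ha hb
      simp
    · intro P hP
      rw [Finset.mem_image] at hP
      obtain ⟨z, -, rfl⟩ := hP
      simpa using hK
    · intro P hP P' hP' hne
      rw [Finset.mem_image] at hP hP'
      obtain ⟨z, -, rfl⟩ := hP
      obtain ⟨z', -, rfl⟩ := hP'
      rw [Finset.disjoint_singleton]
      rintro rfl
      exact hne rfl
    · intro P hP
      rw [Finset.mem_image] at hP
      obtain ⟨z, hz, rfl⟩ := hP
      simpa using hz
    · intro z hz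
      exact ⟨{z}, Finset.mem_image.2 ⟨z, hz, rfl⟩, by simp⟩
  obtain ⟨Pa, hPa, hcard⟩ := Nat.find_spec hex
  have hmin : ∀ Pb, Partn R K S Pb → Pa.card ≤ Pb.card := by
    intro Pb hPb
    rw [hcard]
    exact Nat.find_min' hex ⟨Pb, hPb, rfl⟩
  refine ⟨Pa, hPa, ?_⟩
  intro P hP P' hP' hne
  by_contra hsep
  have hdis := hPa.disj P hP P' hP' hne
  have hcu : (P ∪ P').card = P.card + P'.card := Finset.card_union_of_disjoint hdis
  have hc1 := Finset.card_pos.2 (hPa.nonempty P hP)
  have hc2 := Finset.card_pos.2 (hPa.nonempty P' hP')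
  have hns : ∀ o, (∃ z ∈ P, ∃ z' ∈ P', crd o z' ≤ crd o z + R) ∧
      ∃ z ∈ P, ∃ z' ∈ P', crd o z ≤ crd o z' + R := by
    intro o
    constructor
    · by_contra h
      push Not at h
      exact hsep ⟨o, Or.inl h⟩
    · by_contra h
      push Not at h
      exact hsep ⟨o, Or.inr h⟩
  have hti : Tight R (P ∪ P') := by
    intro o z hz z' hz'
    obtain ⟨⟨z1, hz1, z1', hz1', h1⟩, ⟨z2, hz2, z2', hz2', h2⟩⟩ := hns o
    have t := hPa.tight P hP o
    have t' := hPa.tight P' hP' o
    have e : (((P ∪ P').card : ℕ) : ℤ) = P.card + P'.card := by rw [hcu]; push_cast; ring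
    rw [e]
    have hc1' : (1 : ℤ) ≤ P.card := by exact_mod_cast hc1
    have hc2' : (1 : ℤ) ≤ P'.card := by exact_mod_cast hc2
    have p1 : 0 ≤ (P.card : ℤ) * R := by positivity
    have p2 : 0 ≤ (P'.card : ℤ) * R := by positivity
    rcases Finset.mem_union.1 hz with hz | hz <;> rcases Finset.mem_union.1 hz' with hz' | hz'
    · have := t z hz z' hz'
      nlinarith
    · have a1 := t z hz z2 hz2
      have a2 := t' z2' hz2' z' hz'
      nlinarith
    · have a1 := t' z hz z1' hz1'
      have a2 := t z1 hz1 z' hz'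
      nlinarith
    · have := t' z hz z' hz'
      nlinarith
  have hsubU : P ∪ P' ⊆ S := Finset.union_subset (hPa.sub P hP) (hPa.sub P' hP')
  have hcardU := hmerge (P ∪ P') hsubU hti (by
    have := hPa.card P hP
    have := hPa.card P' hP'
    omega)
  have hnew : Partn R K S (insert (P ∪ P') ((Pa.erase P).erase P')) := by
    refine ⟨?_, ?_, ?_, ?_, ?_, ?_⟩
    · intro A hA
      rcases Finset.mem_insert.1 hA with rfl | hA
      · exact (hPa.nonempty P hP).mono Finset.subset_union_left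
      · exact hPa.nonempty A (Finset.mem_of_mem_erase (Finset.mem_of_mem_erase hA))
    · intro A hA
      rcases Finset.mem_insert.1 hA with rfl | hA
      · exact hti
      · exact hPa.tight A (Finset.mem_of_mem_erase (Finset.mem_of_mem_erase hA))
    · intro A hA
      rcases Finset.mem_insert.1 hA with rfl | hA
      · exact hcardU
      · exact hPa.card A (Finset.mem_of_mem_erase (Finset.mem_of_mem_erase hA))
    · intro A hA B hB hAB
      have key : ∀ B ∈ (Pa.erase P).erase P', Disjoint (P ∪ P') B := by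
        intro B hB
        have hB' := Finset.mem_of_mem_erase hB
        rw [Finset.disjoint_union_left]
        exact ⟨hPa.disj P hP B (Finset.mem_of_mem_erase hB') (Finset.ne_of_mem_erase hB').symm,
          hPa.disj P' hP' B (Finset.mem_of_mem_erase hB') (Finset.ne_of_mem_erase hB).symm⟩
      rcases Finset.mem_insert.1 hA with rfl | hA <;> rcases Finset.mem_insert.1 hB with rfl | hB
      · exact absurd rfl hAB
      · exact key B hB
      · exact (key A hA).symm
      · exact hPa.disj A (Finset.mem_of_mem_erase (Finset.mem_of_mem_erase hA)) B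
          (Finset.mem_of_mem_erase (Finset.mem_of_mem_erase hB)) hAB
    · intro A hA
      rcases Finset.mem_insert.1 hA with rfl | hA
      · exact hsubU
      · exact hPa.sub A (Finset.mem_of_mem_erase (Finset.mem_of_mem_erase hA))
    · intro z hz
      obtain ⟨A, hA, hzA⟩ := hPa.cover z hz
      by_cases h1 : A = P
      · exact ⟨P ∪ P', Finset.mem_insert_self _ _, Finset.mem_union_left _ (h1 ▸ hzA)⟩
      by_cases h2 : A = P'
      · exact ⟨P ∪ P', Finset.mem_insert_self _ _, Finset.mem_union_right _ (h2 ▸ hzA)⟩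
      exact ⟨A, Finset.mem_insert_of_mem
        (Finset.mem_erase.2 ⟨h2, Finset.mem_erase.2 ⟨h1, hA⟩⟩), hzA⟩
  have h1 := hmin _ hnew
  have h2 := Finset.card_insert_le (P ∪ P') ((Pa.erase P).erase P')
  rw [Finset.card_erase_of_mem (Finset.mem_erase.2 ⟨hne.symm, hP'⟩),
    Finset.card_erase_of_mem hP] at h2
  have h3 : 1 < Pa.card := Finset.one_lt_card.2 ⟨P, hP, P', hP', hne⟩
  omega

end Pool.Agent.MP_e7dab6_pr
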