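import Pool.Agent.Lib.MP_e7dab6_pr.Defs

/-!
# Probability that a Bernoulli set contains a given finite set; independence
-/

set_option autoImplicit false

open MeasureTheory

namespace Pool.Agent.MP_e7dab6_pr

instance instProbInitLaw (p : unitInterval) : IsProbabilityMeasure (initLaw p) := by
  unfold initLaw; infer_instance

lemma prob_subset (p : unitInterval) (F : Finset (ℤ × ℤ)) :
    initLaw p {ξ | (F : Set (ℤ × ℤ)) ⊆ ξ} = ENNReal.ofReal (p : ℝ) ^ F.card := by
  unfold initLaw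
  rw [ProbabilityTheory.setBernoulli_apply']
  have h1 : (fun q : ℤ × ℤ → Prop => {i | q i}) ⁻¹' {ξ | (F : Set (ℤ × ℤ)) ⊆ ξ} =
      Set.pi (F : Set (ℤ × ℤ)) (fun _ => {True}) := by
    ext q
    simp only [Set.mem_preimage, Set.mem_ofPred_eq, Set.mem_pi, Set.mem_singleton_iff, eq_iff_iff,
      iff_true]
    rfl
  have h2 : ENNReal.ofReal (p : ℝ) = ((unitInterval.toNNReal p : NNReal) : ENNReal) :=
    ENNReal.ofReal_eq_coe_nnreal p.2.1
  rw [h1, Measure.infinitePi_pi _ (fun i _ => MeasurableSet.singleton _)]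
  rw [Finset.prod_eq_pow_card (b := ENNReal.ofReal (p : ℝ))]
  intro i _
  rw [h2]
  simp only [Set.mem_univ, Measure.coe_add, Measure.coe_smul, Pi.add_apply, Pi.smul_apply]
  rw [Measure.dirac_apply' _ (MeasurableSet.singleton _),
    Measure.dirac_apply' _ (MeasurableSet.singleton _),
    Set.indicator_of_mem (Set.mem_singleton _), Set.indicator_of_notMem (by simp),
    smul_zero, add_zero, Pi.one_apply, ENNReal.smul_def, smul_eq_mul, mul_one]

lemma measurableSet_supset (F : Finset (ℤ × ℤ)) :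
    MeasurableSet {ξ : Set (ℤ × ℤ) | (F : Set (ℤ × ℤ)) ⊆ ξ} := by
  have : {ξ : Set (ℤ × ℤ) | (F : Set (ℤ × ℤ)) ⊆ ξ} = ⋂ z ∈ F, {ξ | z ∈ ξ} := by
    ext ξ
    simp [Set.subset_def]
  rw [this]
  exact Finset.measurableSet_biInter _ (fun z _ => measurableSet_setOfPred.2 (measurable_set_mem z))

lemma prob_subset_real (p : unitInterval) (F : Finset (ℤ × ℤ)) :
    (initLaw p).real {ξ | (F : Set (ℤ × ℤ)) ⊆ ξ} = (p : ℝ) ^ F.card := by
  rw [measureReal_def, prob_subset, ENNReal.toReal_pow, ENNReal.toReal_ofReal p.2.1]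

/-- The indicator of the event that the random set contains `A`. -/
noncomputable def indF (A : Finset (ℤ × ℤ)) (ξ : Set (ℤ × ℤ)) : ℝ :=
  Set.indicator {ξ : Set (ℤ × ℤ) | (A : Set (ℤ × ℤ)) ⊆ ξ} (fun _ => (1 : ℝ)) ξ

lemma indF_of_sub {A : Finset (ℤ × ℤ)} {ξ : Set (ℤ × ℤ)} (h : (A : Set (ℤ × ℤ)) ⊆ ξ) :
    indF A ξ = 1 := Set.indicator_of_mem (s := {ξ : Set (ℤ × ℤ) | (A : Set (ℤ × ℤ)) ⊆ ξ}) h _

lemma indF_of_not_sub {A : Finset (ℤ × ℤ)} {ξ : Set (ℤ × ℤ)} (h : ¬ (A : Set (ℤ × ℤ)) ⊆ ξ) :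
    indF A ξ = 0 := Set.indicator_of_notMem (s := {ξ : Set (ℤ × ℤ) | (A : Set (ℤ × ℤ)) ⊆ ξ}) h _

lemma indF_nonneg (A : Finset (ℤ × ℤ)) (ξ : Set (ℤ × ℤ)) : 0 ≤ indF A ξ := by
  by_cases h : (A : Set (ℤ × ℤ)) ⊆ ξ
  · rw [indF_of_sub h]; norm_num
  · rw [indF_of_not_sub h]

lemma indF_le_one (A : Finset (ℤ × ℤ)) (ξ : Set (ℤ × ℤ)) : indF A ξ ≤ 1 := by
  by_cases h : (A : Set (ℤ × ℤ)) ⊆ ξ
  · rw [indF_of_sub h]
  · rw [indF_of_not_sub h]; norm_num

lemma indF_mul (A B : Finset (ℤ × ℤ)) (ξ : Set (ℤ × ℤ)) :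
    indF A ξ * indF B ξ = indF (A ∪ B) ξ := by
  by_cases hA : (A : Set (ℤ × ℤ)) ⊆ ξ
  · by_cases hB : (B : Set (ℤ × ℤ)) ⊆ ξ
    · rw [indF_of_sub hA, indF_of_sub hB, indF_of_sub, one_mul]
      rw [Finset.coe_union]
      exact Set.union_subset hA hB
    · rw [indF_of_not_sub hB, mul_zero, indF_of_not_sub]
      rw [Finset.coe_union]
      exact fun h => hB (Set.subset_union_right.trans h)
  · rw [indF_of_not_sub hA, zero_mul, indF_of_not_sub]
    rw [Finset.coe_union]
    exact fun h => hA (Set.subset_union_left.trans h)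

lemma measurable_indF (A : Finset (ℤ × ℤ)) : Measurable (indF A) :=
  measurable_const.indicator (measurableSet_supset A)

lemma integrable_indF (p : unitInterval) (A : Finset (ℤ × ℤ)) :
    Integrable (indF A) (initLaw p) :=
  (integrable_const (1 : ℝ)).indicator (measurableSet_supset A)

lemma integral_indF (p : unitInterval) (A : Finset (ℤ × ℤ)) :
    ∫ ξ, indF A ξ ∂(initLaw p) = (p : ℝ) ^ A.card := by
  unfold indF
  rw [integral_indicator_const _ (measurableSet_supset A), prob_subset_real]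
  simp

/-- Linear combinations of the indicators `indF A` with `A ⊆ R`. -/
inductive Sp (R : Set (ℤ × ℤ)) : (Set (ℤ × ℤ) → ℝ) → Prop
  | ind (A : Finset (ℤ × ℤ)) (hA : (A : Set (ℤ × ℤ)) ⊆ R) : Sp R (indF A)
  | add {f g : Set (ℤ × ℤ) → ℝ} (hf : Sp R f) (hg : Sp R g) : Sp R (fun ξ => f ξ + g ξ)
  | smul {f : Set (ℤ × ℤ) → ℝ} (c : ℝ) (hf : Sp R f) : Sp R (fun ξ => c * f ξ)

namespace Sp
variable {R R' : Set (ℤ × ℤ)} {f g : Set (ℤ × ℤ) → ℝ}

lemma mono (h : Sp R f) (hR : R ⊆ R') : Sp R' f := by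
  induction h with
  | ind A hA => exact .ind A (hA.trans hR)
  | add _ _ ih1 ih2 => exact .add ih1 ih2
  | smul c _ ih => exact .smul c ih

lemma const (c : ℝ) : Sp R (fun _ => c) := by
  have h1 : Sp R (indF ∅) := .ind ∅ (by simp)
  have h2 := Sp.smul c h1
  have h3 : (fun ξ => c * indF ∅ ξ) = fun _ => c := by
    funext ξ
    rw [indF_of_sub (by simp), mul_one]
  rwa [h3] at h2

lemma sum {ι : Type*} (s : Finset ι) (F : ι → Set (ℤ × ℤ) → ℝ) (h : ∀ i ∈ s, Sp R (F i)) :
    Sp R (fun ξ => ∑ i ∈ s, F i ξ) := by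
  classical
  induction s using Finset.induction_on with
  | empty => simpa using Sp.const (R := R) 0
  | insert a s ha ih =>
    have h1 := ih (fun i hi => h i (Finset.mem_insert_of_mem hi))
    have h2 := Sp.add (h a (Finset.mem_insert_self a s)) h1
    have h3 : (fun ξ => ∑ i ∈ insert a s, F i ξ) = fun ξ => F a ξ + ∑ i ∈ s, F i ξ := by
      funext ξ
      rw [Finset.sum_insert ha]
    rwa [h3]

lemma mul (hf : Sp R f) (hg : Sp R g) : Sp R (fun ξ => f ξ * g ξ) := by
  induction hf with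
  | ind A hA =>
    induction hg with
    | ind B hB =>
      have : (fun ξ => indF A ξ * indF B ξ) = indF (A ∪ B) := by
        funext ξ
        exact indF_mul A B ξ
      rw [this]
      exact .ind _ (by rw [Finset.coe_union]; exact Set.union_subset hA hB)
    | @add f g _ _ ih1 ih2 =>
      have : (fun ξ => indF A ξ * (f ξ + g ξ)) = fun ξ => indF A ξ * f ξ + indF A ξ * g ξ := by
        funext ξ; ring
      rw [this]
      exact .add ih1 ih2
    | @smul f c _ ih =>
      have : (fun ξ => indF A ξ * (c * f ξ)) = fun ξ => c * (indF A ξ * f ξ) := by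
        funext ξ; ring
      rw [this]
      exact .smul c ih
  | @add f1 f2 _ _ ih1 ih2 =>
    have : (fun ξ => (f1 ξ + f2 ξ) * g ξ) = fun ξ => f1 ξ * g ξ + f2 ξ * g ξ := by
      funext ξ; ring
    rw [this]
    exact .add ih1 ih2
  | @smul f c _ ih =>
    have : (fun ξ => (c * f ξ) * g ξ) = fun ξ => c * (f ξ * g ξ) := by
      funext ξ; ring
    rw [this]
    exact .smul c ih

lemma integrable (h : Sp R f) (p : unitInterval) : Integrable f (initLaw p) := by
  induction h with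
  | ind A _ => exact integrable_indF p A
  | add _ _ ih1 ih2 => exact ih1.add ih2
  | smul c _ ih => exact ih.const_mul c

/-- Independence over disjoint regions. -/
lemma integral_mul (hf : Sp R f) (hg : Sp R' g) (hd : Disjoint R R') (p : unitInterval) :
    ∫ ξ, f ξ * g ξ ∂(initLaw p) = (∫ ξ, f ξ ∂(initLaw p)) * ∫ ξ, g ξ ∂(initLaw p) := by
  induction hf with
  | ind A hA =>
    induction hg with
    | ind B hB =>
      have h1 : (fun ξ => indF A ξ * indF B ξ) = indF (A ∪ B) := by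
        funext ξ
        exact indF_mul A B ξ
      rw [h1, integral_indF, integral_indF, integral_indF, ← pow_add]
      congr 1
      apply Finset.card_union_of_disjoint
      rw [← Finset.disjoint_coe]
      exact hd.mono hA hB
    | @add f g hf hg ih1 ih2 =>
      have h1 : (fun ξ => indF A ξ * (f ξ + g ξ)) = fun ξ => indF A ξ * f ξ + indF A ξ * g ξ := by
        funext ξ; ring
      have hA' : Sp (R ∪ R') (indF A) := .ind A (hA.trans Set.subset_union_left)
      have hf' : Sp (R ∪ R') f := hf.mono Set.subset_union_right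
      have hg' : Sp (R ∪ R') g := hg.mono Set.subset_union_right
      rw [h1, integral_add ((hA'.mul hf').integrable p) ((hA'.mul hg').integrable p), ih1, ih2,
        integral_add (hf.integrable p) (hg.integrable p)]
      ring
    | @smul f c _ ih =>
      have h1 : (fun ξ => indF A ξ * (c * f ξ)) = fun ξ => c * (indF A ξ * f ξ) := by
        funext ξ; ring
      rw [h1, integral_const_mul, ih, integral_const_mul]
      ring
  | @add f1 f2 hf1 hf2 ih1 ih2 =>
    have h1 : (fun ξ => (f1 ξ + f2 ξ) * g ξ) = fun ξ => f1 ξ * g ξ + f2 ξ * g ξ := by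
      funext ξ; ring
    have h1' : Sp (R ∪ R') f1 := hf1.mono Set.subset_union_left
    have h2' : Sp (R ∪ R') f2 := hf2.mono Set.subset_union_left
    have hg' : Sp (R ∪ R') g := hg.mono Set.subset_union_right
    rw [h1, integral_add ((h1'.mul hg').integrable p) ((h2'.mul hg').integrable p), ih1, ih2,
      integral_add (hf1.integrable p) (hf2.integrable p)]
    ring
  | @smul f c _ ih =>
    have h1 : (fun ξ => (c * f ξ) * g ξ) = fun ξ => c * (f ξ * g ξ) := by
      funext ξ; ring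
    rw [h1, integral_const_mul, ih, integral_const_mul]
    ring

end Sp

/-- Chebyshev: the probability that `f` vanishes. -/
lemma prob_zero_le {R : Set (ℤ × ℤ)} {f : Set (ℤ × ℤ) → ℝ} (hf : Sp R f) (p : unitInterval)
    (E : Set (Set (ℤ × ℤ))) (hE : ∀ ξ ∈ E, f ξ = 0) :
    (initLaw p).real E * (∫ ξ, f ξ ∂(initLaw p)) ^ 2 ≤
      ∫ ξ, f ξ * f ξ ∂(initLaw p) - (∫ ξ, f ξ ∂(initLaw p)) ^ 2 := by
  set m := ∫ ξ, f ξ ∂(initLaw p) with hm
  have h1 : Sp R (fun ξ => (f ξ + -m) * (f ξ + -m)) := (hf.add (Sp.const _)).mul (hf.add (Sp.const _))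
  have h2 : ∫ ξ, (f ξ + -m) * (f ξ + -m) ∂(initLaw p) = ∫ ξ, f ξ * f ξ ∂(initLaw p) - m ^ 2 := by
    have e : (fun ξ => (f ξ + -m) * (f ξ + -m)) = fun ξ => f ξ * f ξ + ((-2 * m) * f ξ + m ^ 2) := by
      funext ξ; ring
    have i1 : Integrable (fun ξ => (-2 * m) * f ξ) (initLaw p) := (hf.integrable p).const_mul _
    have i2 : Integrable (fun _ : Set (ℤ × ℤ) => m ^ 2) (initLaw p) := integrable_const _
    have i3 : Integrable (fun ξ => (-2 * m) * f ξ + m ^ 2) (initLaw p) := i1.add i2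
    rw [e, integral_add ((hf.mul hf).integrable p) i3, integral_add i1 i2, integral_const_mul,
      ← hm, integral_const, smul_eq_mul, probReal_univ]
    ring
  rw [← h2]
  have h3 : ∫ ξ, (f ξ + -m) * (f ξ + -m) ∂(initLaw p) ≥
      ∫ ξ in {ξ | f ξ = 0}, m ^ 2 ∂(initLaw p) := by
    have hmeas : AEStronglyMeasurable f (initLaw p) := (hf.integrable p).aestronglyMeasurable
    have hnull : NullMeasurableSet {ξ | f ξ = 0} (initLaw p) := by
      have := hmeas.aemeasurable.nullMeasurableSet_preimage (measurableSet_singleton (0 : ℝ))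
      exact this
    calc ∫ ξ in {ξ | f ξ = 0}, m ^ 2 ∂(initLaw p)
        = ∫ ξ in {ξ | f ξ = 0}, (f ξ + -m) * (f ξ + -m) ∂(initLaw p) := by
          refine integral_congr_ae ?_
          rw [Filter.EventuallyEq, ae_restrict_iff'₀ hnull]
          refine Filter.Eventually.of_forall (fun ξ hξ => ?_)
          have : f ξ = 0 := hξ
          rw [this]
          ring
      _ ≤ ∫ ξ, (f ξ + -m) * (f ξ + -m) ∂(initLaw p) :=
          setIntegral_le_integral (h1.integrable p)
            (Filter.Eventually.of_forall (fun ξ => mul_self_nonneg _))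
  have h4 : ∫ ξ in {ξ | f ξ = 0}, m ^ 2 ∂(initLaw p) = (initLaw p).real {ξ | f ξ = 0} * m ^ 2 := by
    rw [setIntegral_const, smul_eq_mul]
  rw [h4] at h3
  refine le_trans ?_ h3
  refine mul_le_mul_of_nonneg_right ?_ (sq_nonneg m)
  exact measureReal_mono hE (measure_ne_top _ _)

end Pool.Agent.MP_e7dab6_pr
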