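import Pool.Agent.Lib.MP_e7dab6_pr.Move

/-!
# Labelled trees, their containment in a set, excess and forced lines
-/

set_option autoImplicit false

namespace Pool.Agent.MP_e7dab6_pr

/-- Trees with labelled edges; the type (column or row) of the nodes alternates. -/
inductive Tr : Type
  | leaf : Tr
  | att (t : Tr) (F : Finset (ℤ × ℤ)) (c : Tr) : Tr

/-- `S` contains a copy of the tree with root line-group at position `z`, all positions being
at most `N` in absolute value. -/
def ContainsN (N : ℕ) (S : Set (ℤ × ℤ)) : Tr → Bool → ℤ → Prop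
  | .leaf, _, _ => True
  | .att t F c, o, z => ContainsN N S t o z ∧
      ∃ w : ℤ, w.natAbs ≤ N ∧ (∀ f ∈ F, f + pt o z w ∈ S) ∧ ContainsN N S c (!o) w

/-- The excess of a tree at weights `g`. -/
noncomputable def ex (g : Bool → ℝ) : Tr → Bool → ℝ
  | .leaf, o => g o
  | .att t F c, o => ex g t o + min 0 (ex g c (!o) - F.card)

/-- All rooted branches have positive excess. -/
def pres (g : Bool → ℝ) : Tr → Bool → Prop
  | .leaf, o => 0 < g o
  | .att t F c, o => pres g t o ∧ pres g c (!o) ∧ 0 < ex g (.att t F c) o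

/-- The tree forces the line `k` (relative to its root), in linear time. -/
def ForcesT (ρ : ℕ) (Z : Set (ℕ × ℕ)) (t : Tr) (o : Bool) (k : ℤ) : Prop :=
  ∃ C : ℕ, ∀ (N : ℕ) (S : Set (ℤ × ℤ)) (z : ℤ), 1 ≤ N → z.natAbs ≤ N → ContainsN N S t o z →
    Rl ρ Z S N C (.line o (k + z))

/-- A present tree forces `hat o` adjacent lines. -/
def HasFill (ρ : ℕ) (Z : Set (ℕ × ℕ)) (hat : Bool → ℕ) (g : Bool → ℝ) : Prop :=
  ∃ (t : Tr) (o : Bool) (k : ℤ), pres g t o ∧ ∀ j : ℕ, j < hat o → ForcesT ρ Z t o (k + j)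

lemma ex_le (g : Bool → ℝ) (t : Tr) (o : Bool) : ex g t o ≤ g o := by
  induction t generalizing o with
  | leaf => exact le_rfl
  | att t F c iht _ =>
    have h1 := iht o
    have h2 : min 0 (ex g c (!o) - F.card) ≤ 0 := min_le_left _ _
    simp only [ex]
    linarith

lemma ex_pos_of_pres {g : Bool → ℝ} {t : Tr} {o : Bool} (h : pres g t o) : 0 < ex g t o := by
  cases t with
  | leaf => exact h
  | att t F c => exact h.2.2

lemma ex_shift {g g' : Bool → ℝ} {κ : ℝ} (hκ : 0 ≤ κ) (h : ∀ o, g' o + κ ≤ g o) (t : Tr)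
    (o : Bool) : ex g' t o + κ ≤ ex g t o := by
  induction t generalizing o with
  | leaf => exact h o
  | att t F c iht ihc =>
    have h1 := iht o
    have h2 := ihc (!o)
    simp only [ex]
    have h3 : min 0 (ex g' c (!o) - F.card) ≤ min 0 (ex g c (!o) - F.card) := by
      apply min_le_min le_rfl
      linarith
    linarith

lemma ex_mono {g g' : Bool → ℝ} (h : ∀ o, g' o ≤ g o) (t : Tr) (o : Bool) :
    ex g' t o ≤ ex g t o := by
  have := ex_shift (κ := 0) le_rfl (fun o => by simpa using h o) t o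
  simpa using this

lemma pres_mono {g g' : Bool → ℝ} (h : ∀ o, g' o ≤ g o) {t : Tr} {o : Bool}
    (ht : pres g' t o) : pres g t o := by
  induction t generalizing o with
  | leaf => exact lt_of_lt_of_le ht (h o)
  | att t F c iht ihc =>
    exact ⟨iht ht.1, ihc ht.2.1, lt_of_lt_of_le ht.2.2 (ex_mono h _ o)⟩

lemma HasFill.mono {ρ : ℕ} {Z : Set (ℕ × ℕ)} {hat : Bool → ℕ} {g g' : Bool → ℝ}
    (h : ∀ o, g' o ≤ g o) (hf : HasFill ρ Z hat g') : HasFill ρ Z hat g := by
  obtain ⟨t, o, k, h1, h2⟩ := hf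
  exact ⟨t, o, k, pres_mono h h1, h2⟩

lemma ContainsN.monoN {N N' : ℕ} (hN : N ≤ N') {S : Set (ℤ × ℤ)} {t : Tr} {o : Bool} {z : ℤ}
    (h : ContainsN N S t o z) : ContainsN N' S t o z := by
  induction t generalizing o z with
  | leaf => trivial
  | att t F c iht ihc =>
    obtain ⟨h1, w, h2, h3, h4⟩ := h
    exact ⟨iht h1, w, h2.trans hN, h3, ihc h4⟩

/-! ### Folding a list of children -/

/-- Attach a list of labelled children to a leaf. -/
def attList {α : Type*} (lab : α → Finset (ℤ × ℤ)) (ch : α → Tr) (l : List α) : Tr :=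
  l.foldr (fun e t => Tr.att t (lab e) (ch e)) .leaf

lemma contains_attList {α : Type*} (lab : α → Finset (ℤ × ℤ)) (ch : α → Tr) (l : List α)
    {N : ℕ} {S : Set (ℤ × ℤ)} {o : Bool} {z : ℤ} :
    ContainsN N S (attList lab ch l) o z ↔ ∀ e ∈ l, ∃ w : ℤ, w.natAbs ≤ N ∧
      (∀ f ∈ lab e, f + pt o z w ∈ S) ∧ ContainsN N S (ch e) (!o) w := by
  induction l with
  | nil => simp [attList, ContainsN]
  | cons a l ih =>
    have : ContainsN N S (attList lab ch (a :: l)) o z ↔ ContainsN N S (attList lab ch l) o z ∧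
      ∃ w : ℤ, w.natAbs ≤ N ∧ (∀ f ∈ lab a, f + pt o z w ∈ S) ∧ ContainsN N S (ch a) (!o) w :=
      Iff.rfl
    rw [this, ih]
    simp only [List.mem_cons, forall_eq_or_imp]
    rw [and_comm]

lemma ex_attList {α : Type*} (lab : α → Finset (ℤ × ℤ)) (ch : α → Tr) (l : List α)
    (g : Bool → ℝ) (o : Bool) :
    ex g (attList lab ch l) o =
      g o + (l.map (fun e => min 0 (ex g (ch e) (!o) - (lab e).card))).sum := by
  induction l with
  | nil => simp [attList, ex]
  | cons a l ih =>
    have : ex g (attList lab ch (a :: l)) o = ex g (attList lab ch l) o +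
      min 0 (ex g (ch a) (!o) - (lab a).card) := rfl
    rw [this, ih, List.map_cons, List.sum_cons]
    ring

end Pool.Agent.MP_e7dab6_pr
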