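import Pool.Agent.Lib.MP_e7dab6_pr.Prob
import Pool.Agent.Lib.MP_e7dab6_pr.Tree

/-!
# Second moment for the number of copies of a tree
-/

set_option autoImplicit false

open MeasureTheory

namespace Pool.Agent.MP_e7dab6_pr

/-- Number of nodes of a tree besides the root. -/
def tsize : Tr → ℕ
  | .leaf => 0
  | .att t _ c => tsize t + 1 + tsize c

/-- All labels have coordinates smaller than `B / 2`. -/
def LabB (B : ℕ) : Tr → Prop
  | .leaf => True
  | .att t F c => LabB B t ∧ (∀ f ∈ F, ∀ o, 2 * |crd o f| < (B : ℤ)) ∧ LabB B c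

lemma LabB.mono {B B' : ℕ} (h : B ≤ B') {t : Tr} (ht : LabB B t) : LabB B' t := by
  induction t with
  | leaf => trivial
  | att t F c iht ihc =>
    obtain ⟨h1, h2, h3⟩ := ht
    exact ⟨iht h1, fun f hf o => lt_of_lt_of_le (h2 f hf o) (by exact_mod_cast h), ihc h3⟩

lemma exists_labB (t : Tr) : ∃ B : ℕ, 1 ≤ B ∧ LabB B t := by
  induction t with
  | leaf => exact ⟨1, le_rfl, trivial⟩
  | att t F c iht ihc =>
    obtain ⟨B1, h1, h1'⟩ := iht
    obtain ⟨B2, h2, h2'⟩ := ihc
    obtain ⟨B3, h3⟩ := exists_uniform (P := fun f B => ∀ o, 2 * |crd o f| < (B : ℤ))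
      (fun a c c' hc hP o => lt_of_lt_of_le (hP o) (by exact_mod_cast hc)) F (by
        intro f _
        refine ⟨2 * (f.1.natAbs + f.2.natAbs) + 1, fun o => ?_⟩
        have g1 := abs_nonneg f.1
        have g2 := abs_nonneg f.2
        cases o
        · rw [crd_false]; push_cast; linarith
        · rw [crd_true]; push_cast; linarith)
    refine ⟨B1 + B2 + B3, by omega, h1'.mono (by omega), fun f hf o => ?_, h2'.mono (by omega)⟩
    exact lt_of_lt_of_le (h3 f hf o) (by push_cast; omega)

section
variable (M : Bool → ℕ) (B : ℕ)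

/-- Width of a range. -/
def Wd (o : Bool) : ℤ := B * (M o + 2)

/-- The `k`-th position of the `i`-th range. -/
def pos (o : Bool) (i k : ℕ) : ℤ := i * Wd M B o + B * (k + 1)

/-- The label placed at `(z, w)`. -/
def plF (o : Bool) (z w : ℤ) (F : Finset (ℤ × ℤ)) : Finset (ℤ × ℤ) :=
  F.image (fun f => f + pt o z w)

/-- Number of copies of the tree with root at `z`, the nodes being placed in distinct ranges. -/
noncomputable def XX : Tr → Bool → ℤ → ℕ → Set (ℤ × ℤ) → ℝ
  | .leaf, _, _, _ => fun _ => 1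
  | .att t F c, o, z, j => fun ξ => XX t o z j ξ *
      ∑ k ∈ Finset.range (M (!o)), indF (plF o z (pos M B (!o) (j + tsize t) k) F) ξ *
        XX c (!o) (pos M B (!o) (j + tsize t) k) (j + tsize t + 1) ξ

/-- The larger of the two range indices of a site. -/
def idxB (z : ℤ × ℤ) : ℤ := max (z.1 / Wd M B true) (z.2 / Wd M B false)

/-- The sites whose larger index is in `[j, j + n)`. -/
def Rg (j n : ℕ) : Set (ℤ × ℤ) := {z | (j : ℤ) ≤ idxB M B z ∧ idxB M B z < j + n}

/-- The mean number of copies with given root. -/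
noncomputable def aa (p : ℝ) : Tr → Bool → ℝ
  | .leaf, _ => 1
  | .att t F c, o => aa p t o * (M (!o) * p ^ F.card * aa p c (!o))

/-- Bounds for normalised two-point functions, for different roots (`false`) and equal roots
(`true`). -/
noncomputable def DS (p : ℝ) : Tr → Bool → Bool → ℝ
  | .leaf, _, _ => 1
  | .att t F c, o, false => DS p t o false * (DS p c (!o) false + DS p c (!o) true / M (!o))
  | .att t F c, o, true => DS p t o true *
      (DS p c (!o) false + DS p c (!o) true / (M (!o) * p ^ F.card))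

variable {M B}

lemma Wd_pos (hB : 1 ≤ B) (o : Bool) : 0 < Wd M B o := by
  unfold Wd; positivity

lemma near_pos_div (hB : 1 ≤ B) {o : Bool} {i k : ℕ} (hk : k < M o) {f : ℤ}
    (hf : 2 * |f| < (B : ℤ)) : (f + pos M B o i k) / Wd M B o = i := by
  have hW := Wd_pos (M := M) hB o
  have hB' : (1 : ℤ) ≤ B := by exact_mod_cast hB
  have hk' : (k : ℤ) + 1 ≤ M o := by exact_mod_cast hk
  rw [Int.ediv_eq_iff_of_pos hW]
  have h1 : -|f| ≤ f := neg_abs_le f
  have h2 : f ≤ |f| := le_abs_self f
  unfold pos Wd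
  constructor
  · nlinarith
  · nlinarith

lemma idxB_pt (o : Bool) (z w : ℤ) :
    idxB M B (pt o z w) = max (z / Wd M B o) (w / Wd M B (!o)) := by
  cases o
  · simp [idxB, max_comm]
  · simp [idxB]

lemma plF_sub (hB : 1 ≤ B) {o : Bool} {i i' k k' : ℕ} (hk : k < M o) (hk' : k' < M (!o))
    (hi : i < i') {F : Finset (ℤ × ℤ)} (hF : ∀ f ∈ F, ∀ o, 2 * |crd o f| < (B : ℤ)) :
    (plF o (pos M B o i k) (pos M B (!o) i' k') F : Set (ℤ × ℤ)) ⊆ Rg M B i' 1 := by
  intro z hz
  rw [Finset.mem_coe, plF, Finset.mem_image] at hz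
  obtain ⟨f, hf, rfl⟩ := hz
  have h1 : f + pt o (pos M B o i k) (pos M B (!o) i' k') =
      pt o (crd o f + pos M B o i k) (crd (!o) f + pos M B (!o) i' k') := by
    rw [← pt_add, pt_crd]
  have h2 : idxB M B (f + pt o (pos M B o i k) (pos M B (!o) i' k')) = i' := by
    rw [h1, idxB_pt, near_pos_div hB hk (hF f hf o), near_pos_div hB hk' (hF f hf (!o))]
    exact max_eq_right (by exact_mod_cast hi.le)
  change (i' : ℤ) ≤ _ ∧ _ < (i' : ℤ) + (1 : ℕ)
  rw [h2]
  push_cast
  constructor <;> omega

lemma Rg_sub {j n j' n' : ℕ} (h1 : j ≤ j') (h2 : j' + n' ≤ j + n) : Rg M B j' n' ⊆ Rg M B j n := by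
  rintro z ⟨h3, h4⟩
  have h1' : (j : ℤ) ≤ j' := by exact_mod_cast h1
  have h2' : (j' : ℤ) + n' ≤ j + n := by exact_mod_cast h2
  exact ⟨by linarith, by linarith⟩

lemma Rg_disj {j n j' n' : ℕ} (h : j + n ≤ j') : Disjoint (Rg M B j n) (Rg M B j' n') := by
  rw [Set.disjoint_left]
  rintro z ⟨_, h2⟩ ⟨h3, _⟩
  have : (j : ℤ) + n ≤ j' := by exact_mod_cast h
  linarith

lemma sp_XX (hB : 1 ≤ B) (t : Tr) (hL : LabB B t) : ∀ (o : Bool) (i k j : ℕ), k < M o → i < j →
    Sp (Rg M B j (tsize t)) (XX M B t o (pos M B o i k) j) := by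
  induction t with
  | leaf =>
    intro o i k j _ _
    exact Sp.const 1
  | att t F c iht ihc =>
    intro o i k j hk hij
    obtain ⟨h1, h2, h3⟩ := hL
    refine Sp.mul ((iht h1 o i k j hk hij).mono (Rg_sub le_rfl (by simp [tsize]; omega))) ?_
    refine Sp.sum _ _ (fun k' hk' => ?_)
    rw [Finset.mem_range] at hk'
    refine Sp.mul (.ind _ ?_) ?_
    · exact (plF_sub hB hk hk' (by omega) h2).trans (Rg_sub (by omega) (by simp [tsize]; omega))
    · exact (ihc h3 (!o) (j + tsize t) k' (j + tsize t + 1) hk' (by omega)).mono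
        (Rg_sub (by omega) (by simp [tsize]; omega))

lemma sp_YY (hB : 1 ≤ B) {t c : Tr} {F : Finset (ℤ × ℤ)} (hL : LabB B (.att t F c)) {o : Bool}
    {i k j : ℕ} (hk : k < M o) (hij : i < j) : Sp (Rg M B (j + tsize t) (1 + tsize c))
      (fun ξ => ∑ k' ∈ Finset.range (M (!o)),
        indF (plF o (pos M B o i k) (pos M B (!o) (j + tsize t) k') F) ξ *
        XX M B c (!o) (pos M B (!o) (j + tsize t) k') (j + tsize t + 1) ξ) := by
  obtain ⟨h1, h2, h3⟩ := hL
  refine Sp.sum _ _ (fun k' hk' => ?_)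
  rw [Finset.mem_range] at hk'
  refine Sp.mul (.ind _ ?_) ?_
  · exact (plF_sub hB hk hk' (by omega) h2).trans (Rg_sub (by omega) (by omega))
  · exact (sp_XX hB c h3 (!o) (j + tsize t) k' (j + tsize t + 1) hk' (by omega)).mono
      (Rg_sub (by omega) (by omega))

lemma card_plF (o : Bool) (z w : ℤ) (F : Finset (ℤ × ℤ)) : (plF o z w F).card = F.card :=
  Finset.card_image_of_injective _ (fun a b h => by simpa using h)

lemma pos_inj (hB : 1 ≤ B) {o : Bool} {i k k' : ℕ} (h : pos M B o i k = pos M B o i k') :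
    k = k' := by
  unfold pos at h
  have hB' : (0 : ℤ) < B := by exact_mod_cast hB
  have h1 : (B : ℤ) * (k + 1) = B * (k' + 1) := by linarith
  have h2 := mul_left_cancel₀ hB'.ne' h1
  have h3 : (k : ℤ) = k' := by linarith
  exact_mod_cast h3

lemma pos_near_eq (hB : 1 ≤ B) {o : Bool} {i k k' : ℕ} {f f' : ℤ} (hf : 2 * |f| < (B : ℤ))
    (hf' : 2 * |f'| < (B : ℤ)) (h : f + pos M B o i k = f' + pos M B o i k') : k = k' := by
  unfold pos at h
  have hB' : (0 : ℤ) < B := by exact_mod_cast hB
  have h1 : (B : ℤ) * ((k : ℤ) - k') = f' - f := by linarith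
  have h2 : |f' - f| < B := by
    have := abs_sub f' f
    linarith
  have h3 : |(B : ℤ) * ((k : ℤ) - k')| < B := by rw [h1]; exact h2
  rw [abs_mul, abs_of_pos hB'] at h3
  have h4 : |(k : ℤ) - k'| < 1 := by
    by_contra hcon
    push Not at hcon
    nlinarith
  have h5 : (k : ℤ) - k' = 0 := Int.abs_lt_one_iff.1 h4
  have h6 : (k : ℤ) = k' := by linarith
  exact_mod_cast h6

lemma disj_plF (hB : 1 ≤ B) {o : Bool} {i i' k k' l l' : ℕ} {F : Finset (ℤ × ℤ)}
    (hF : ∀ f ∈ F, ∀ o, 2 * |crd o f| < (B : ℤ)) (hne : ¬ (k = k' ∧ l = l')) :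
    Disjoint (plF o (pos M B o i k) (pos M B (!o) i' l) F)
      (plF o (pos M B o i k') (pos M B (!o) i' l') F) := by
  rw [Finset.disjoint_left]
  intro z hz hz'
  rw [plF, Finset.mem_image] at hz hz'
  obtain ⟨f, hf, rfl⟩ := hz
  obtain ⟨f', hf', h⟩ := hz'
  have h1 := congrArg (crd o) h
  have h2 := congrArg (crd (!o)) h
  rw [crd_add, crd_add, crd_pt, crd_pt] at h1
  rw [crd_add, crd_add, crd_not_pt, crd_not_pt] at h2
  apply hne
  exact ⟨(pos_near_eq hB (hF f' hf' o) (hF f hf o) h1).symm,
    (pos_near_eq hB (hF f' hf' (!o)) (hF f hf (!o)) h2).symm⟩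

lemma aa_nonneg {p : ℝ} (hp : 0 ≤ p) (t : Tr) (o : Bool) : 0 ≤ aa M p t o := by
  induction t generalizing o with
  | leaf => simp [aa]
  | att t F c iht ihc =>
    have h1 := iht o
    have h2 := ihc (!o)
    simp only [aa]
    positivity

lemma aa_pos {p : ℝ} (hp : 0 < p) (hM : ∀ o, 0 < M o) (t : Tr) (o : Bool) : 0 < aa M p t o := by
  induction t generalizing o with
  | leaf => simp [aa]
  | att t F c iht ihc =>
    have h1 := iht o
    have h2 := ihc (!o)
    have h3 : (0 : ℝ) < M (!o) := by exact_mod_cast hM (!o)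
    simp only [aa]
    positivity

lemma DS_nonneg {p : ℝ} (hp : 0 ≤ p) (t : Tr) (o b : Bool) : 0 ≤ DS M p t o b := by
  induction t generalizing o b with
  | leaf => simp [DS]
  | att t F c iht ihc =>
    have h1 := iht o
    have h2 := ihc (!o)
    have h3 := h2 false
    have h4 := h2 true
    have h5 := h1 false
    have h6 := h1 true
    cases b
    · simp only [DS]; positivity
    · simp only [DS]; positivity

lemma mean_XX (hB : 1 ≤ B) (p : unitInterval) (t : Tr) (hL : LabB B t) :
    ∀ (o : Bool) (i k j : ℕ), k < M o → i < j →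
    ∫ ξ, XX M B t o (pos M B o i k) j ξ ∂(initLaw p) = aa M p t o := by
  induction t with
  | leaf =>
    intro o i k j _ _
    simp [XX, aa]
  | att t F c iht ihc =>
    intro o i k j hk hij
    have hLL := hL
    obtain ⟨h1, h2, h3⟩ := hL
    have e1 : (fun ξ => XX M B (.att t F c) o (pos M B o i k) j ξ) = fun ξ =>
        XX M B t o (pos M B o i k) j ξ * ∑ k' ∈ Finset.range (M (!o)),
        indF (plF o (pos M B o i k) (pos M B (!o) (j + tsize t) k') F) ξ *
        XX M B c (!o) (pos M B (!o) (j + tsize t) k') (j + tsize t + 1) ξ := rfl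
    rw [e1, Sp.integral_mul (sp_XX hB t h1 o i k j hk hij) (sp_YY hB hLL hk hij)
      (Rg_disj le_rfl) p, iht h1 o i k j hk hij, integral_finsetSum]
    · simp only [aa]
      congr 1
      have e2 : ∀ k' ∈ Finset.range (M (!o)),
          ∫ ξ, indF (plF o (pos M B o i k) (pos M B (!o) (j + tsize t) k') F) ξ *
            XX M B c (!o) (pos M B (!o) (j + tsize t) k') (j + tsize t + 1) ξ ∂(initLaw p) =
          (p : ℝ) ^ F.card * aa M p c (!o) := by
        intro k' hk'
        rw [Finset.mem_range] at hk'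
        rw [Sp.integral_mul (.ind _ (plF_sub hB hk hk' (by omega) h2))
          (sp_XX hB c h3 (!o) (j + tsize t) k' (j + tsize t + 1) hk' (by omega))
          (Rg_disj (by omega)) p, integral_indF, card_plF,
          ihc h3 (!o) (j + tsize t) k' (j + tsize t + 1) hk' (by omega)]
      rw [Finset.sum_congr rfl e2, Finset.sum_const, Finset.card_range, nsmul_eq_mul]
      ring
    · intro k' hk'
      rw [Finset.mem_range] at hk'
      exact ((Sp.ind _ ((plF_sub hB hk hk' (by omega) h2).trans (Set.subset_univ _))).mul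
        ((sp_XX hB c h3 (!o) (j + tsize t) k' (j + tsize t + 1) hk' (by omega)).mono
          (Set.subset_univ _))).integrable p

lemma double_sum_le {n : ℕ} {f : ℕ → ℕ → ℝ} {x y : ℝ} (hx : ∀ k < n, f k k ≤ x)
    (hy : ∀ k < n, ∀ l < n, k ≠ l → f k l ≤ y) (hy0 : 0 ≤ y) :
    ∑ k ∈ Finset.range n, ∑ l ∈ Finset.range n, f k l ≤ n * x + (n : ℝ) ^ 2 * y := by
  have h1 : ∀ k ∈ Finset.range n, ∑ l ∈ Finset.range n, f k l ≤ x + n * y := by
    intro k hk
    have hk' := Finset.mem_range.1 hk
    rw [← Finset.add_sum_erase _ _ hk]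
    have h2 : ∑ l ∈ (Finset.range n).erase k, f k l ≤ ∑ l ∈ (Finset.range n).erase k, y := by
      apply Finset.sum_le_sum
      intro l hl
      rw [Finset.mem_erase, Finset.mem_range] at hl
      exact hy k hk' l hl.2 hl.1.symm
    have h3 : ∑ l ∈ (Finset.range n).erase k, y ≤ n * y := by
      rw [Finset.sum_const, nsmul_eq_mul]
      refine mul_le_mul_of_nonneg_right ?_ hy0
      have := Finset.card_erase_le (s := Finset.range n) (a := k)
      rw [Finset.card_range] at this
      exact_mod_cast this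
    have := hx k hk'
    linarith
  refine (Finset.sum_le_sum h1).trans ?_
  rw [Finset.sum_const, Finset.card_range, nsmul_eq_mul]
  nlinarith

lemma two_XX (hB : 1 ≤ B) (p : unitInterval) (hp : 0 < (p : ℝ)) (hM : ∀ o, 0 < M o) (t : Tr)
    (hL : LabB B t) :
    ∀ (o : Bool) (i k k' j : ℕ), k < M o → k' < M o → i < j →
    ∫ ξ, XX M B t o (pos M B o i k) j ξ * XX M B t o (pos M B o i k') j ξ ∂(initLaw p) ≤
      DS M p t o (decide (k = k')) * (aa M p t o) ^ 2 := by
  induction t with
  | leaf =>
    intro o i k k' j _ _ _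
    simp [XX, aa, DS]
  | att t F c iht ihc =>
    intro o i k k' j hk hk' hij
    have hLL := hL
    obtain ⟨h1, h2, h3⟩ := hL
    set Y : ℕ → Set (ℤ × ℤ) → ℝ := fun k ξ => ∑ l ∈ Finset.range (M (!o)),
        indF (plF o (pos M B o i k) (pos M B (!o) (j + tsize t) l) F) ξ *
        XX M B c (!o) (pos M B (!o) (j + tsize t) l) (j + tsize t + 1) ξ with hY
    have e1 : (fun ξ => XX M B (.att t F c) o (pos M B o i k) j ξ *
        XX M B (.att t F c) o (pos M B o i k') j ξ) = fun ξ =>
        (XX M B t o (pos M B o i k) j ξ * XX M B t o (pos M B o i k') j ξ) *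
          (Y k ξ * Y k' ξ) := by
      funext ξ
      change (XX M B t o (pos M B o i k) j ξ * Y k ξ) * (XX M B t o (pos M B o i k') j ξ * Y k' ξ) =
        _
      ring
    have hYsp : ∀ k < M o, Sp (Rg M B (j + tsize t) (1 + tsize c)) (Y k) :=
      fun k hk => sp_YY hB hLL hk hij
    rw [e1, Sp.integral_mul ((sp_XX hB t h1 o i k j hk hij).mul (sp_XX hB t h1 o i k' j hk' hij))
      ((hYsp k hk).mul (hYsp k' hk')) (Rg_disj le_rfl) p]
    have hT := iht h1 o i k k' j hk hk' hij
    have hac := aa_nonneg (M := M) p.2.1 c (!o)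
    have hat' := aa_nonneg (M := M) p.2.1 t o
    have hMn : (0 : ℝ) < M (!o) := by exact_mod_cast hM (!o)
    have hDS := fun b => DS_nonneg (M := M) p.2.1 c (!o) b
    -- the second factor
    have hterm : ∀ l < M (!o), ∀ l' < M (!o),
        ∫ ξ, (indF (plF o (pos M B o i k) (pos M B (!o) (j + tsize t) l) F) ξ *
          XX M B c (!o) (pos M B (!o) (j + tsize t) l) (j + tsize t + 1) ξ) *
          (indF (plF o (pos M B o i k') (pos M B (!o) (j + tsize t) l') F) ξ *
          XX M B c (!o) (pos M B (!o) (j + tsize t) l') (j + tsize t + 1) ξ) ∂(initLaw p) ≤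
        (p : ℝ) ^ (plF o (pos M B o i k) (pos M B (!o) (j + tsize t) l) F ∪
          plF o (pos M B o i k') (pos M B (!o) (j + tsize t) l') F).card *
          (DS M p c (!o) (decide (l = l')) * (aa M p c (!o)) ^ 2) := by
      intro l hl l' hl'
      have e2 : (fun ξ => (indF (plF o (pos M B o i k) (pos M B (!o) (j + tsize t) l) F) ξ *
          XX M B c (!o) (pos M B (!o) (j + tsize t) l) (j + tsize t + 1) ξ) *
          (indF (plF o (pos M B o i k') (pos M B (!o) (j + tsize t) l') F) ξ *
          XX M B c (!o) (pos M B (!o) (j + tsize t) l') (j + tsize t + 1) ξ)) = fun ξ =>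
          indF (plF o (pos M B o i k) (pos M B (!o) (j + tsize t) l) F ∪
          plF o (pos M B o i k') (pos M B (!o) (j + tsize t) l') F) ξ *
          (XX M B c (!o) (pos M B (!o) (j + tsize t) l) (j + tsize t + 1) ξ *
          XX M B c (!o) (pos M B (!o) (j + tsize t) l') (j + tsize t + 1) ξ) := by
        funext ξ
        rw [← indF_mul]
        ring
      rw [e2, Sp.integral_mul (R := Rg M B (j + tsize t) 1)
        (R' := Rg M B (j + tsize t + 1) (tsize c))
        (.ind _ (by
          rw [Finset.coe_union]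
          exact Set.union_subset (plF_sub hB hk hl (show i < j + tsize t by omega) h2)
            (plF_sub hB hk' hl' (show i < j + tsize t by omega) h2)))
        ((sp_XX hB c h3 (!o) (j + tsize t) l (j + tsize t + 1) hl (by omega)).mul
          (sp_XX hB c h3 (!o) (j + tsize t) l' (j + tsize t + 1) hl' (by omega)))
        (Rg_disj le_rfl) p, integral_indF]
      refine mul_le_mul_of_nonneg_left ?_ (pow_nonneg p.2.1 _)
      exact ihc h3 (!o) (j + tsize t) l l' (j + tsize t + 1) hl hl' (by omega)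
    have hYY : ∫ ξ, Y k ξ * Y k' ξ ∂(initLaw p) =
        ∑ l ∈ Finset.range (M (!o)), ∑ l' ∈ Finset.range (M (!o)),
        ∫ ξ, (indF (plF o (pos M B o i k) (pos M B (!o) (j + tsize t) l) F) ξ *
          XX M B c (!o) (pos M B (!o) (j + tsize t) l) (j + tsize t + 1) ξ) *
          (indF (plF o (pos M B o i k') (pos M B (!o) (j + tsize t) l') F) ξ *
          XX M B c (!o) (pos M B (!o) (j + tsize t) l') (j + tsize t + 1) ξ) ∂(initLaw p) := by
      have e3 : (fun ξ => Y k ξ * Y k' ξ) = fun ξ =>
          ∑ l ∈ Finset.range (M (!o)), ∑ l' ∈ Finset.range (M (!o)),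
          (indF (plF o (pos M B o i k) (pos M B (!o) (j + tsize t) l) F) ξ *
          XX M B c (!o) (pos M B (!o) (j + tsize t) l) (j + tsize t + 1) ξ) *
          (indF (plF o (pos M B o i k') (pos M B (!o) (j + tsize t) l') F) ξ *
          XX M B c (!o) (pos M B (!o) (j + tsize t) l') (j + tsize t + 1) ξ) := by
        funext ξ
        rw [hY, Finset.sum_mul_sum]
      have hint : ∀ l < M (!o), ∀ l' < M (!o), Integrable (fun ξ =>
          (indF (plF o (pos M B o i k) (pos M B (!o) (j + tsize t) l) F) ξ *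
          XX M B c (!o) (pos M B (!o) (j + tsize t) l) (j + tsize t + 1) ξ) *
          (indF (plF o (pos M B o i k') (pos M B (!o) (j + tsize t) l') F) ξ *
          XX M B c (!o) (pos M B (!o) (j + tsize t) l') (j + tsize t + 1) ξ)) (initLaw p) := by
        intro l hl l' hl'
        exact (((Sp.ind _ (Set.subset_univ _)).mul
          ((sp_XX hB c h3 (!o) (j + tsize t) l (j + tsize t + 1) hl (by omega)).mono
            (Set.subset_univ _))).mul ((Sp.ind _ (Set.subset_univ _)).mul
          ((sp_XX hB c h3 (!o) (j + tsize t) l' (j + tsize t + 1) hl' (by omega)).mono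
            (Set.subset_univ _)))).integrable p
      rw [e3, integral_finsetSum]
      · refine Finset.sum_congr rfl (fun l hl => ?_)
        rw [integral_finsetSum]
        intro l' hl'
        exact hint l (Finset.mem_range.1 hl) l' (Finset.mem_range.1 hl')
      · intro l hl
        refine integrable_finsetSum _ (fun l' hl' => ?_)
        exact hint l (Finset.mem_range.1 hl) l' (Finset.mem_range.1 hl')
    have hpow : ∀ l l' : ℕ, ¬ (k = k' ∧ l = l') →
        (plF o (pos M B o i k) (pos M B (!o) (j + tsize t) l) F ∪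
          plF o (pos M B o i k') (pos M B (!o) (j + tsize t) l') F).card = 2 * F.card := by
      intro l l' hne
      rw [Finset.card_union_of_disjoint (disj_plF hB h2 hne), card_plF, card_plF]
      ring
    by_cases hkk : k = k'
    · subst hkk
      simp only [decide_true] at hT ⊢
      have hb : ∫ ξ, Y k ξ * Y k ξ ∂(initLaw p) ≤
          M (!o) * ((p : ℝ) ^ F.card * (DS M p c (!o) true * (aa M p c (!o)) ^ 2)) +
          (M (!o) : ℝ) ^ 2 * ((p : ℝ) ^ (2 * F.card) * (DS M p c (!o) false *
            (aa M p c (!o)) ^ 2)) := by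
        rw [hYY]
        refine double_sum_le ?_ ?_ (by have := hDS false; positivity)
        · intro l hl
          have := hterm l hl l hl
          rw [Finset.union_self, card_plF] at this
          simpa using this
        · intro l hl l' hl' hne
          have := hterm l hl l' hl'
          rw [hpow l l' (fun h => hne h.2)] at this
          simpa [hne] using this
      have hY0 : 0 ≤ ∫ ξ, Y k ξ * Y k ξ ∂(initLaw p) :=
        integral_nonneg (fun ξ => mul_self_nonneg _)
      have hDt := DS_nonneg (M := M) p.2.1 t o true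
      calc _ ≤ (DS M p t o true * aa M p t o ^ 2) *
          (M (!o) * ((p : ℝ) ^ F.card * (DS M p c (!o) true * (aa M p c (!o)) ^ 2)) +
          (M (!o) : ℝ) ^ 2 * ((p : ℝ) ^ (2 * F.card) * (DS M p c (!o) false *
            (aa M p c (!o)) ^ 2))) := mul_le_mul hT hb hY0 (by positivity)
        _ = DS M p (.att t F c) o true * aa M p (.att t F c) o ^ 2 := by
          simp only [DS, aa]
          rw [pow_mul']
          field_simp
          ring
    · have hkk' : decide (k = k') = false := by simp [hkk]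
      rw [hkk'] at hT ⊢
      have hb : ∫ ξ, Y k ξ * Y k' ξ ∂(initLaw p) ≤
          M (!o) * ((p : ℝ) ^ (2 * F.card) * (DS M p c (!o) true * (aa M p c (!o)) ^ 2)) +
          (M (!o) : ℝ) ^ 2 * ((p : ℝ) ^ (2 * F.card) * (DS M p c (!o) false *
            (aa M p c (!o)) ^ 2)) := by
        rw [hYY]
        refine double_sum_le ?_ ?_ (by have := hDS false; positivity)
        · intro l hl
          have := hterm l hl l hl
          rw [hpow l l (fun h => hkk h.1)] at this
          simpa using this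
        · intro l hl l' hl' hne
          have := hterm l hl l' hl'
          rw [hpow l l' (fun h => hne h.2)] at this
          simpa [hne] using this
      have hXnn : ∀ (t : Tr) (o : Bool) (z : ℤ) (j : ℕ) (ξ : Set (ℤ × ℤ)), 0 ≤ XX M B t o z j ξ := by
        intro t
        induction t with
        | leaf => intro o z j ξ; simp [XX]
        | att t F c iht ihc =>
          intro o z j ξ
          exact mul_nonneg (iht o z j ξ) (Finset.sum_nonneg (fun k _ =>
            mul_nonneg (indF_nonneg _ _) (ihc _ _ _ _)))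
      have hY0 : 0 ≤ ∫ ξ, Y k ξ * Y k' ξ ∂(initLaw p) :=
        integral_nonneg (fun ξ => mul_nonneg
          (Finset.sum_nonneg (fun l _ => mul_nonneg (indF_nonneg _ _) (hXnn _ _ _ _ _)))
          (Finset.sum_nonneg (fun l _ => mul_nonneg (indF_nonneg _ _) (hXnn _ _ _ _ _))))
      have hDt := DS_nonneg (M := M) p.2.1 t o false
      calc _ ≤ (DS M p t o false * aa M p t o ^ 2) *
          (M (!o) * ((p : ℝ) ^ (2 * F.card) * (DS M p c (!o) true * (aa M p c (!o)) ^ 2)) +
          (M (!o) : ℝ) ^ 2 * ((p : ℝ) ^ (2 * F.card) * (DS M p c (!o) false *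
            (aa M p c (!o)) ^ 2))) := mul_le_mul hT hb hY0 (by positivity)
        _ = DS M p (.att t F c) o false * aa M p (.att t F c) o ^ 2 := by
          simp only [DS, aa]
          rw [pow_mul']
          field_simp
          ring

lemma contains_of_XX (hB : 1 ≤ B) {N : ℕ} {ξ : Set (ℤ × ℤ)} (t : Tr) :
    ∀ (o : Bool) (z : ℤ) (j : ℕ), XX M B t o z j ξ ≠ 0 →
      (∀ o, ((j + tsize t : ℕ) : ℤ) * Wd M B o ≤ N) → ContainsN N ξ t o z := by
  induction t with
  | leaf => intro o z j _ _; trivial
  | att t F c iht ihc =>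
    intro o z j hne hN
    have h1 : XX M B t o z j ξ * ∑ k ∈ Finset.range (M (!o)),
        indF (plF o z (pos M B (!o) (j + tsize t) k) F) ξ *
        XX M B c (!o) (pos M B (!o) (j + tsize t) k) (j + tsize t + 1) ξ ≠ 0 := hne
    obtain ⟨h2, h3⟩ := mul_ne_zero_iff.1 h1
    obtain ⟨k, hk, h4⟩ := Finset.exists_ne_zero_of_sum_ne_zero h3
    obtain ⟨h5, h6⟩ := mul_ne_zero_iff.1 h4
    rw [Finset.mem_range] at hk
    refine ⟨iht o z j h2 (fun o' => le_trans ?_ (hN o')), pos M B (!o) (j + tsize t) k, ?_, ?_, ?_⟩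
    · have := Wd_pos (M := M) hB o'
      refine mul_le_mul_of_nonneg_right ?_ this.le
      simp only [tsize]
      push_cast
      omega
    · have hW := Wd_pos (M := M) hB (!o)
      have h7 := hN (!o)
      have hB' : (1 : ℤ) ≤ B := by exact_mod_cast hB
      have hk' : (k : ℤ) + 1 ≤ M (!o) := by exact_mod_cast hk
      have h8 : 0 ≤ pos M B (!o) (j + tsize t) k := by unfold pos; positivity
      have h9 : pos M B (!o) (j + tsize t) k ≤ ((j + tsize t + 1 : ℕ) : ℤ) * Wd M B (!o) := by
        unfold pos Wd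
        push_cast
        nlinarith
      have h10 : ((j + tsize t + 1 : ℕ) : ℤ) * Wd M B (!o) ≤
          ((j + tsize (.att t F c) : ℕ) : ℤ) * Wd M B (!o) := by
        refine mul_le_mul_of_nonneg_right ?_ hW.le
        simp only [tsize]
        push_cast
        omega
      omega
    · intro f hf
      by_contra hcon
      apply h5
      apply indF_of_not_sub
      intro hsub
      apply hcon
      apply hsub
      exact_mod_cast Finset.mem_image_of_mem _ hf
    · refine ihc (!o) _ (j + tsize t + 1) h6 (fun o' => ?_)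
      have := hN o'
      rw [show j + tsize t + 1 + tsize c = j + tsize (.att t F c) by simp [tsize]; omega]
      exact this

/-- The probability that no copy of the tree has its root in the first range. -/
theorem prob_no_copy (hB : 1 ≤ B) (p : unitInterval) (hp : 0 < (p : ℝ)) (hM : ∀ o, 0 < M o)
    (t : Tr) (hL : LabB B t) (o : Bool) {N : ℕ}
    (hN : ∀ o, ((1 + tsize t : ℕ) : ℤ) * Wd M B o ≤ N) :
    (initLaw p).real {ξ | ¬ ∃ z : ℤ, 0 ≤ z ∧ z ≤ Wd M B o ∧ ContainsN N ξ t o z} ≤
      DS M p t o false + DS M p t o true / M o - 1 := by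
  set X : Set (ℤ × ℤ) → ℝ := fun ξ => ∑ k ∈ Finset.range (M o), XX M B t o (pos M B o 0 k) 1 ξ
    with hX
  have hsp : Sp (Rg M B 1 (tsize t)) X :=
    Sp.sum _ _ (fun k hk => sp_XX hB t hL o 0 k 1 (Finset.mem_range.1 hk) (by omega))
  have hMn : (0 : ℝ) < M o := by exact_mod_cast hM o
  have ha := aa_pos (M := M) hp hM t o
  have hmean : ∫ ξ, X ξ ∂(initLaw p) = M o * aa M p t o := by
    rw [hX, integral_finsetSum]
    · rw [Finset.sum_congr rfl (fun k hk => mean_XX (M := M) hB p t hL o 0 k 1
        (Finset.mem_range.1 hk) (by omega)), Finset.sum_const, Finset.card_range, nsmul_eq_mul]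
    · intro k hk
      exact (sp_XX hB t hL o 0 k 1 (Finset.mem_range.1 hk) (by omega)).integrable p
  have hsq : ∫ ξ, X ξ * X ξ ∂(initLaw p) ≤ M o * (DS M p t o true * aa M p t o ^ 2) +
      (M o : ℝ) ^ 2 * (DS M p t o false * aa M p t o ^ 2) := by
    have e : (fun ξ => X ξ * X ξ) = fun ξ => ∑ k ∈ Finset.range (M o), ∑ l ∈ Finset.range (M o),
        XX M B t o (pos M B o 0 k) 1 ξ * XX M B t o (pos M B o 0 l) 1 ξ := by
      funext ξ
      rw [hX, Finset.sum_mul_sum]
    have hint : ∀ k < M o, ∀ l < M o, Integrable (fun ξ =>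
        XX M B t o (pos M B o 0 k) 1 ξ * XX M B t o (pos M B o 0 l) 1 ξ) (initLaw p) :=
      fun k hk l hl => ((sp_XX hB t hL o 0 k 1 hk (by omega)).mul
        (sp_XX hB t hL o 0 l 1 hl (by omega))).integrable p
    rw [e, integral_finsetSum]
    · rw [Finset.sum_congr rfl (fun k hk => integral_finsetSum _ (fun l hl =>
        hint k (Finset.mem_range.1 hk) l (Finset.mem_range.1 hl)))]
      refine double_sum_le ?_ ?_ (mul_nonneg (DS_nonneg p.2.1 t o false) (sq_nonneg _))
      · intro k hk
        simpa using two_XX hB p hp hM t hL o 0 k k 1 hk hk (by omega)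
      · intro k hk l hl hne
        simpa [hne] using two_XX hB p hp hM t hL o 0 k l 1 hk hl (by omega)
    · intro k hk
      exact integrable_finsetSum _ (fun l hl => hint k (Finset.mem_range.1 hk) l
        (Finset.mem_range.1 hl))
  have hzero : ∀ ξ ∈ {ξ | ¬ ∃ z : ℤ, 0 ≤ z ∧ z ≤ Wd M B o ∧ ContainsN N ξ t o z}, X ξ = 0 := by
    intro ξ hξ
    by_contra hne
    obtain ⟨k, hk, h4⟩ := Finset.exists_ne_zero_of_sum_ne_zero hne
    rw [Finset.mem_range] at hk
    apply hξ
    have hB' : (1 : ℤ) ≤ B := by exact_mod_cast hB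
    have hk' : (k : ℤ) + 1 ≤ M o := by exact_mod_cast hk
    refine ⟨pos M B o 0 k, by unfold pos Wd; positivity, ?_, contains_of_XX hB t o _ 1 h4 hN⟩
    unfold pos Wd
    push_cast
    nlinarith
  have hch := prob_zero_le hsp p _ hzero
  rw [hmean] at hch
  have hpos : 0 < (M o * aa M p t o) ^ 2 := by positivity
  rw [← mul_le_mul_iff_left₀ hpos]
  refine hch.trans ?_
  have e2 : (DS M p t o false + DS M p t o true / M o - 1) * (M o * aa M p t o) ^ 2 =
      M o * (DS M p t o true * aa M p t o ^ 2) +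
      (M o : ℝ) ^ 2 * (DS M p t o false * aa M p t o ^ 2) - (M o * aa M p t o) ^ 2 := by
    field_simp
    ring
  rw [e2]
  linarith

end

end Pool.Agent.MP_e7dab6_pr
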