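import Pool.Agent.Lib.MP_e7dab6_pr.UpperFin
import Pool.Agent.Lib.MP_e7dab6_pr.Det

/-!
# A Bernoulli set in a box is sparse with high probability
-/

set_option autoImplicit false

open Filter Topology MeasureTheory

namespace Pool.Agent.MP_e7dab6_pr

/-- The box with half side `N o` in direction `o`. -/
def Box (N : Bool → ℕ) : Set (ℤ × ℤ) := {z | ∀ o, |crd o z| ≤ (N o : ℤ)}

lemma box_finite (N : Bool → ℕ) : (Box N).Finite := by
  refine ((Set.finite_Icc (-(N true : ℤ)) (N true)).prod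
    (Set.finite_Icc (-(N false : ℤ)) (N false))).subset ?_
  intro z hz
  have h1 := hz true
  have h2 := hz false
  rw [abs_le] at h1 h2
  exact ⟨h1, h2⟩

section
variable (R0 : Bool → Finset ℤ) (L : ℤ)

/-- Coordinates covered by the root zone and the intervals starting in `A`. -/
noncomputable def cover (o : Bool) (A : Finset ℤ) : Finset ℤ := R0 o ∪ A.biUnion (fun a => Finset.Icc a (a + L))

/-- Sites covered in both directions. -/
noncomputable def Reg (A A' : Finset ℤ) : Finset (ℤ × ℤ) := cover R0 L true A ×ˢ cover R0 L false A'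

lemma cover_card {c Kp : ℕ} (hR : ∀ o, (R0 o).card ≤ c) (o : Bool) {A : Finset ℤ}
    (hA : A.card ≤ Kp) : (cover R0 L o A).card ≤ c + Kp * (L + 1).toNat := by
  unfold cover
  refine (Finset.card_union_le _ _).trans (Nat.add_le_add (hR o) ?_)
  refine Finset.card_biUnion_le.trans ?_
  refine (Finset.sum_le_card_nsmul _ _ (L + 1).toNat ?_).trans ?_
  · intro a _
    rw [Int.card_Icc]
    exact le_of_eq (by congr 1; ring)
  · rw [smul_eq_mul]
    exact Nat.mul_le_mul_right _ hA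

end

/-- The triples of numbers (intervals of both types, sites) violating sparseness. -/
noncomputable def badT (g0 : Bool → ℝ) (Kp : ℕ) : Finset (ℕ × ℕ × ℕ) :=
  (Finset.range (Kp + 1) ×ˢ Finset.range (Kp + 1) ×ˢ Finset.range (Kp + 1)).filter
    (fun q => g0 true * q.1 + g0 false * q.2.1 < q.2.2)

/-- A measurable event containing the failure of sparseness. -/
noncomputable def badEv (g0 : Bool → ℝ) (Kp : ℕ) (L : ℤ) (R0 : Bool → Finset ℤ) (N : Bool → ℕ) :
    Set (Set (ℤ × ℤ)) :=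
  ⋃ q ∈ badT g0 Kp, ⋃ A ∈ Finset.powersetCard q.1 (Finset.Icc (-(N true : ℤ) - L) (N true)),
    ⋃ A' ∈ Finset.powersetCard q.2.1 (Finset.Icc (-(N false : ℤ) - L) (N false)),
    ⋃ F ∈ Finset.powersetCard q.2.2 (Reg R0 L A A'), {ξ | (F : Set (ℤ × ℤ)) ⊆ ξ}

lemma measurableSet_badEv (g0 : Bool → ℝ) (Kp : ℕ) (L : ℤ) (R0 : Bool → Finset ℤ)
    (N : Bool → ℕ) : MeasurableSet (badEv g0 Kp L R0 N) :=
  Finset.measurableSet_biUnion _ (fun _ _ => Finset.measurableSet_biUnion _ (fun _ _ =>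
    Finset.measurableSet_biUnion _ (fun _ _ => Finset.measurableSet_biUnion _ (fun F _ =>
      measurableSet_supset F))))

lemma not_sparse_sub {g0 : Bool → ℝ} (hg0 : ∀ o, 0 ≤ g0 o) {Kp : ℕ} {L : ℤ}
    (R0 : Bool → Finset ℤ) (N : Bool → ℕ) :
    {ξ : Set (ℤ × ℤ) | ¬ SparseAt g0 Kp L (ξ ∩ Box N) (fun o => (R0 o : Set ℤ))} ⊆
      badEv g0 Kp L R0 N := by
  classical
  unfold badEv
  intro ξ hξ
  simp only [Set.mem_ofPred_eq, SparseAt] at hξ
  push Not at hξ
  obtain ⟨F, hF, hFc, A, hA, hlt⟩ := hξ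
  have hch : ∀ o, ∀ z : ℤ × ℤ, ∃ a : ℤ, z ∈ F → crd o z ∉ R0 o →
      a ∈ A o ∧ a ≤ crd o z ∧ crd o z ≤ a + L := by
    intro o z
    by_cases h : z ∈ F ∧ crd o z ∉ R0 o
    · rcases hA z h.1 o with h1 | ⟨a, ha, h2, h3⟩
      · exact absurd (by exact_mod_cast h1) h.2
      · exact ⟨a, fun _ _ => ⟨ha, h2, h3⟩⟩
    · exact ⟨0, fun h1 h2 => absurd ⟨h1, h2⟩ h⟩
  choose ch hch using hch
  set A2 : Bool → Finset ℤ := fun o => (F.filter (fun z => crd o z ∉ R0 o)).image (ch o) with hA2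
  have hA2card : ∀ o, (A2 o).card ≤ F.card := fun o =>
    Finset.card_image_le.trans (Finset.card_filter_le _ _)
  have hA2sub : ∀ o, A2 o ⊆ A o := by
    intro o a ha
    rw [hA2, Finset.mem_image] at ha
    obtain ⟨z, hz, rfl⟩ := ha
    rw [Finset.mem_filter] at hz
    exact (hch o z hz.1 hz.2).1
  have hA2box : ∀ o, A2 o ⊆ Finset.Icc (-(N o : ℤ) - L) (N o) := by
    intro o a ha
    rw [hA2, Finset.mem_image] at ha
    obtain ⟨z, hz, rfl⟩ := ha
    rw [Finset.mem_filter] at hz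
    obtain ⟨-, h2, h3⟩ := hch o z hz.1 hz.2
    have h4 := (hF (by exact_mod_cast hz.1)).2 o
    rw [abs_le] at h4
    rw [Finset.mem_Icc]
    constructor <;> linarith [h4.1, h4.2]
  have hlt2 : g0 true * (A2 true).card + g0 false * (A2 false).card < F.card := by
    refine lt_of_le_of_lt (add_le_add ?_ ?_) hlt
    · exact mul_le_mul_of_nonneg_left (by exact_mod_cast Finset.card_le_card (hA2sub true))
        (hg0 true)
    · exact mul_le_mul_of_nonneg_left (by exact_mod_cast Finset.card_le_card (hA2sub false))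
        (hg0 false)
  have hcov : ∀ z ∈ F, ∀ o, crd o z ∈ cover R0 L o (A2 o) := by
    intro z hz o
    unfold cover
    rw [Finset.mem_union, Finset.mem_biUnion]
    by_cases h : crd o z ∈ R0 o
    · exact Or.inl h
    · obtain ⟨-, h2, h3⟩ := hch o z hz h
      exact Or.inr ⟨ch o z, Finset.mem_image_of_mem _ (Finset.mem_filter.2 ⟨hz, h⟩),
        Finset.mem_Icc.2 ⟨h2, h3⟩⟩
  simp only [Set.mem_iUnion]
  refine ⟨((A2 true).card, (A2 false).card, F.card), ?_, A2 true, ?_, A2 false, ?_, F, ?_, ?_⟩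
  · unfold badT
    rw [Finset.mem_filter, Finset.mem_product, Finset.mem_product, Finset.mem_range,
      Finset.mem_range, Finset.mem_range]
    have h1 := hA2card true
    have h2 := hA2card false
    refine ⟨⟨?_, ?_, ?_⟩, hlt2⟩
    · simp only; omega
    · simp only; omega
    · simp only; omega
  · exact Finset.mem_powersetCard.2 ⟨hA2box true, rfl⟩
  · exact Finset.mem_powersetCard.2 ⟨hA2box false, rfl⟩
  · refine Finset.mem_powersetCard.2 ⟨?_, rfl⟩
    intro z hz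
    unfold Reg
    rw [Finset.mem_product]
    exact ⟨hcov z hz true, hcov z hz false⟩
  · exact fun z hz => (hF hz).1

lemma prob_badEv {g0 : Bool → ℝ} {Kp c : ℕ} {L : ℤ}
    (R0 : Bool → Finset ℤ) (hR : ∀ o, (R0 o).card ≤ c) (N : Bool → ℕ) (p : unitInterval) :
    (initLaw p).real (badEv g0 Kp L R0 N) ≤
      ∑ q ∈ badT g0 Kp, ((2 * (N true : ℤ) + L + 1).toNat : ℝ) ^ q.1 *
        (((2 * (N false : ℤ) + L + 1).toNat : ℝ) ^ q.2.1 *
        (2 ^ ((c + Kp * (L + 1).toNat) * (c + Kp * (L + 1).toNat)) * (p : ℝ) ^ q.2.2)) := by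
  unfold badEv
  refine (measureReal_biUnion_finset_le _ _).trans ?_
  refine Finset.sum_le_sum (fun q hq => ?_)
  have hq' : q.1 ≤ Kp ∧ q.2.1 ≤ Kp ∧ q.2.2 ≤ Kp := by
    unfold badT at hq
    rw [Finset.mem_filter, Finset.mem_product, Finset.mem_product, Finset.mem_range,
      Finset.mem_range, Finset.mem_range] at hq
    omega
  set c2 := (c + Kp * (L + 1).toNat) * (c + Kp * (L + 1).toNat) with hc2
  have hcardI : ∀ (n : ℕ) (a : ℕ), ((Finset.powersetCard a
      (Finset.Icc (-(n : ℤ) - L) n)).card : ℝ) ≤ ((2 * (n : ℤ) + L + 1).toNat : ℝ) ^ a := by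
    intro n a
    rw [Finset.card_powersetCard, Int.card_Icc]
    have e : ((n : ℤ) + 1 - (-(n : ℤ) - L)).toNat = (2 * (n : ℤ) + L + 1).toNat := by
      congr 1; ring
    rw [e]
    exact_mod_cast Nat.choose_le_pow _ _
  have hp0 : (0 : ℝ) ≤ (p : ℝ) := p.2.1
  refine (measureReal_biUnion_finset_le _ _).trans ?_
  have hA : ∀ A ∈ Finset.powersetCard q.1 (Finset.Icc (-(N true : ℤ) - L) (N true)),
      (initLaw p).real (⋃ A' ∈ Finset.powersetCard q.2.1
        (Finset.Icc (-(N false : ℤ) - L) (N false)),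
        ⋃ F ∈ Finset.powersetCard q.2.2 (Reg R0 L A A'), {ξ | (F : Set (ℤ × ℤ)) ⊆ ξ}) ≤
      ((2 * (N false : ℤ) + L + 1).toNat : ℝ) ^ q.2.1 * (2 ^ c2 * (p : ℝ) ^ q.2.2) := by
    intro A hA
    rw [Finset.mem_powersetCard] at hA
    refine (measureReal_biUnion_finset_le _ _).trans ?_
    have hA' : ∀ A' ∈ Finset.powersetCard q.2.1 (Finset.Icc (-(N false : ℤ) - L) (N false)),
        (initLaw p).real (⋃ F ∈ Finset.powersetCard q.2.2 (Reg R0 L A A'),
          {ξ | (F : Set (ℤ × ℤ)) ⊆ ξ}) ≤ 2 ^ c2 * (p : ℝ) ^ q.2.2 := by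
      intro A' hA'
      rw [Finset.mem_powersetCard] at hA'
      refine (measureReal_biUnion_finset_le _ _).trans ?_
      have hF : ∀ F ∈ Finset.powersetCard q.2.2 (Reg R0 L A A'),
          (initLaw p).real {ξ | (F : Set (ℤ × ℤ)) ⊆ ξ} = (p : ℝ) ^ q.2.2 := by
        intro F hF
        rw [prob_subset_real, (Finset.mem_powersetCard.1 hF).2]
      rw [Finset.sum_congr rfl hF, Finset.sum_const, nsmul_eq_mul]
      refine mul_le_mul_of_nonneg_right ?_ (pow_nonneg hp0 _)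
      have h1 : (Finset.powersetCard q.2.2 (Reg R0 L A A')).card ≤ 2 ^ c2 := by
        have hsub : Finset.powersetCard q.2.2 (Reg R0 L A A') ⊆ (Reg R0 L A A').powerset :=
          fun F hF => Finset.mem_powerset.2 (Finset.mem_powersetCard.1 hF).1
        refine (Finset.card_le_card hsub).trans ?_
        rw [Finset.card_powerset]
        refine Nat.pow_le_pow_right (by norm_num) ?_
        unfold Reg
        rw [Finset.card_product]
        exact Nat.mul_le_mul (cover_card R0 L hR true (by omega)) (cover_card R0 L hR false (by omega))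
      exact_mod_cast h1
    refine (Finset.sum_le_sum hA').trans ?_
    rw [Finset.sum_const, nsmul_eq_mul]
    exact mul_le_mul_of_nonneg_right (hcardI (N false) q.2.1)
      (mul_nonneg (by positivity) (pow_nonneg hp0 _))
  refine (Finset.sum_le_sum hA).trans ?_
  rw [Finset.sum_const, nsmul_eq_mul]
  refine mul_le_mul_of_nonneg_right (hcardI (N true) q.1) ?_
  exact mul_nonneg (by positivity) (mul_nonneg (by positivity) (pow_nonneg hp0 _))

/-- The bad event has small probability, uniformly in root zones of bounded size. -/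
theorem badEv_small {g0 : Bool → ℝ} (hg0 : ∀ o, 0 ≤ g0 o) {Kp c : ℕ} {L : ℤ} (hL : 0 ≤ L)
    {N : ℝ → Bool → ℕ} {CN : ℝ} (hCN : 0 < CN)
    (hN : ∀ o, ∀ᶠ p : ℝ in 𝓝[>] 0, (N p o : ℝ) ≤ CN * p ^ (-(g0 o))) {ε : ℝ} (hε : 0 < ε) :
    ∀ᶠ p : ℝ in 𝓝[>] 0, ∀ hp : p ∈ unitInterval, ∀ R0 : Bool → Finset ℤ,
      (∀ o, (R0 o).card ≤ c) → (initLaw ⟨p, hp⟩).real (badEv g0 Kp L R0 (N p)) ≤ ε := by
  set c2 : ℕ := (c + Kp * (L + 1).toNat) * (c + Kp * (L + 1).toNat) with hc2
  set C1 : ℝ := 2 * CN + L + 1 with hC1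
  have hLr : (0 : ℝ) ≤ L := by exact_mod_cast hL
  have hC1p : 0 < C1 := by rw [hC1]; linarith
  have hterm : ∀ q ∈ badT g0 Kp, ∀ᶠ p : ℝ in 𝓝[>] 0,
      ((2 * (N p true : ℤ) + L + 1).toNat : ℝ) ^ q.1 *
        (((2 * (N p false : ℤ) + L + 1).toNat : ℝ) ^ q.2.1 *
        (2 ^ c2 * (p : ℝ) ^ q.2.2)) ≤ ε / ((badT g0 Kp).card + 1) := by
    intro q hq
    have hq' : g0 true * q.1 + g0 false * q.2.1 < q.2.2 := (Finset.mem_filter.1 hq).2
    set e : ℝ := q.2.2 - (g0 true * q.1 + g0 false * q.2.1) with he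
    have he0 : 0 < e := by rw [he]; linarith
    have hD : 0 < C1 ^ q.1 * (C1 ^ q.2.1 * 2 ^ c2) := by positivity
    have hn : (0 : ℝ) < ε / ((badT g0 Kp).card + 1) := by positivity
    filter_upwards [ev_pos, hN true, hN false,
      ev_rpow_lt (e := e) he0 (div_pos hn hD)] with p hp h1 h2 h3
    have hb : ∀ o, (N p o : ℝ) ≤ CN * p ^ (-(g0 o)) →
        ((2 * (N p o : ℤ) + L + 1).toNat : ℝ) ≤ C1 * p ^ (-(g0 o)) := by
      intro o ho
      have e1 : (((2 * (N p o : ℤ) + L + 1).toNat : ℕ) : ℝ) = 2 * (N p o : ℝ) + L + 1 := by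
        have : (((2 * (N p o : ℤ) + L + 1).toNat : ℕ) : ℤ) = 2 * (N p o : ℤ) + L + 1 :=
          Int.toNat_of_nonneg (by positivity)
        have h4 : ((((2 * (N p o : ℤ) + L + 1).toNat : ℕ) : ℤ) : ℝ) =
          ((2 * (N p o : ℤ) + L + 1 : ℤ) : ℝ) := by rw [this]
        push_cast at h4
        exact_mod_cast h4
      rw [e1, hC1]
      have h5 : 1 ≤ p ^ (-(g0 o)) := one_le_rpow_neg hp.1 hp.2 (hg0 o)
      nlinarith
    have hb1 := hb true h1
    have hb2 := hb false h2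
    have hpow : ∀ (x a : ℝ) (n : ℕ), 0 ≤ x → x ≤ C1 * p ^ (-a) → x ^ n ≤
        C1 ^ n * p ^ (-(a * n)) := by
      intro x a n hx hxa
      calc x ^ n ≤ (C1 * p ^ (-a)) ^ n := pow_le_pow_left₀ hx hxa n
        _ = C1 ^ n * p ^ (-(a * n)) := by
          rw [mul_pow, ← Real.rpow_natCast (p ^ (-a)) n, ← Real.rpow_mul hp.1.le]
          congr 2
          ring
    have k1 := hpow _ _ q.1 (Nat.cast_nonneg _) hb1
    have k2 := hpow _ _ q.2.1 (Nat.cast_nonneg _) hb2
    have hpp : (p : ℝ) ^ q.2.2 = p ^ ((q.2.2 : ℕ) : ℝ) := (Real.rpow_natCast p q.2.2).symm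
    calc ((2 * (N p true : ℤ) + L + 1).toNat : ℝ) ^ q.1 *
        (((2 * (N p false : ℤ) + L + 1).toNat : ℝ) ^ q.2.1 * (2 ^ c2 * (p : ℝ) ^ q.2.2)) ≤
        (C1 ^ q.1 * p ^ (-(g0 true * q.1))) * ((C1 ^ q.2.1 * p ^ (-(g0 false * q.2.1))) *
          (2 ^ c2 * (p : ℝ) ^ q.2.2)) := by
          have hp0 := hp.1.le
          refine mul_le_mul k1 (mul_le_mul_of_nonneg_right k2 (by positivity)) (by positivity)
            (mul_nonneg (by positivity) (Real.rpow_nonneg hp0 _))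
      _ = (C1 ^ q.1 * (C1 ^ q.2.1 * 2 ^ c2)) * p ^ e := by
          rw [hpp]
          have : p ^ e = p ^ (-(g0 true * q.1)) * (p ^ (-(g0 false * q.2.1)) *
              p ^ ((q.2.2 : ℕ) : ℝ)) := by
            rw [← Real.rpow_add hp.1, ← Real.rpow_add hp.1]
            congr 1
            rw [he]
            ring
          rw [this]
          ring
      _ ≤ ε / ((badT g0 Kp).card + 1) := by
          have := mul_lt_mul_of_pos_left h3 hD
          rw [mul_div_cancel₀ _ hD.ne'] at this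
          exact this.le
  have hall := (Filter.eventually_all_finset (badT g0 Kp)).2 hterm
  filter_upwards [hall] with p hall hp R0 hR
  refine (prob_badEv R0 hR (N p) ⟨p, hp⟩).trans ?_
  refine (Finset.sum_le_sum (fun q hq => hall q hq)).trans ?_
  rw [Finset.sum_const, nsmul_eq_mul]
  have h1 : (0 : ℝ) < (badT g0 Kp).card + 1 := by positivity
  rw [mul_div_assoc', div_le_iff₀ h1]
  nlinarith

/-- Sparseness fails with small probability, uniformly in root zones of bounded size. -/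
theorem sparse_whp {g0 : Bool → ℝ} (hg0 : ∀ o, 0 ≤ g0 o) {Kp c : ℕ} {L : ℤ} (hL : 0 ≤ L)
    {N : ℝ → Bool → ℕ} {CN : ℝ} (hCN : 0 < CN)
    (hN : ∀ o, ∀ᶠ p : ℝ in 𝓝[>] 0, (N p o : ℝ) ≤ CN * p ^ (-(g0 o))) {ε : ℝ} (hε : 0 < ε) :
    ∀ᶠ p : ℝ in 𝓝[>] 0, ∀ hp : p ∈ unitInterval, ∀ R0 : Bool → Finset ℤ,
      (∀ o, (R0 o).card ≤ c) →
      (initLaw ⟨p, hp⟩).real {ξ : Set (ℤ × ℤ) | ¬ SparseAt g0 Kp L (ξ ∩ Box (N p))
        (fun o => (R0 o : Set ℤ))} ≤ ε := by
  filter_upwards [badEv_small (Kp := Kp) (c := c) hg0 hL hCN hN hε] with p h hp R0 hR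
  exact (measureReal_mono (not_sparse_sub hg0 R0 (N p)) (measure_ne_top _ _)).trans (h hp R0 hR)

end Pool.Agent.MP_e7dab6_pr
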