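import Pool.Agent.Lib.MP_e7dab6_pr.Asym

/-!
# Upper bound for the hitting time when adjacent lines spread on their own
-/

set_option autoImplicit false

open Filter Topology MeasureTheory

namespace Pool.Agent.MP_e7dab6_pr

/-! ### From convergence in probability to the definitions -/

lemma ev_unit {Q : unitInterval → Prop}
    (h : ∀ᶠ p : ℝ in 𝓝[>] 0, ∀ hp : p ∈ unitInterval, Q ⟨p, hp⟩) :
    ∀ᶠ p : unitInterval in 𝓝[>] 0, Q p := by
  have h1 : Tendsto (fun p : unitInterval => (p : ℝ)) (𝓝[>] 0) (𝓝[>] 0) := by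
    apply tendsto_nhdsWithin_of_tendsto_nhds_of_eventually_within
    · have : Tendsto (fun p : unitInterval => (p : ℝ)) (𝓝 0) (𝓝 ((0 : unitInterval) : ℝ)) :=
        continuous_subtype_val.tendsto 0
      exact this.mono_left nhdsWithin_le_nhds
    · filter_upwards [self_mem_nhdsWithin] with p hp
      exact hp
  filter_upwards [h1.eventually h] with p hp
  exact hp p.2

lemma hitTime_le {ρ : ℕ} {Z : Set (ℕ × ℕ)} {ξ : Set (ℤ × ℤ)} {t : ℕ}
    (h : ((0 : ℤ), (0 : ℤ)) ∈ evolve ρ Z ξ t) : hitTime ρ Z ξ ≤ t := by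
  unfold hitTime
  exact iInf₂_le t h

lemma exists_of_hitTime_le {ρ : ℕ} {Z : Set (ℕ × ℕ)} {ξ : Set (ℤ × ℤ)} {x : ℝ}
    (h : ((hitTime ρ Z ξ : ℕ∞) : ENNReal) ≤ ENNReal.ofReal x) :
    ∃ t : ℕ, (t : ℝ) ≤ max x 0 ∧ ((0 : ℤ), (0 : ℤ)) ∈ evolve ρ Z ξ t := by
  have hne : hitTime ρ Z ξ ≠ ⊤ := by
    intro htop
    rw [htop] at h
    simp at h
  have hex : ∃ t : ℕ, ((0 : ℤ), (0 : ℤ)) ∈ evolve ρ Z ξ t := by
    by_contra hcon
    push Not at hcon
    apply hne
    unfold hitTime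
    simp only [iInf_eq_top, Set.mem_ofPred_eq]
    intro t ht
    exact absurd ht (hcon t)
  classical
  refine ⟨Nat.find hex, ?_, Nat.find_spec hex⟩
  have h1 : ((Nat.find hex : ℕ) : ℕ∞) ≤ hitTime ρ Z ξ := by
    unfold hitTime
    refine le_iInf₂ (fun t ht => ?_)
    exact_mod_cast Nat.find_min' hex ht
  have h2 : (((Nat.find hex : ℕ) : ℕ∞) : ENNReal) ≤ ENNReal.ofReal x :=
    le_trans (by exact_mod_cast h1) h
  have h3 : ((Nat.find hex : ℕ) : ENNReal) ≤ ENNReal.ofReal x := by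
    simpa using h2
  have h4 := ENNReal.toReal_mono ENNReal.ofReal_ne_top h3
  rw [ENNReal.toReal_natCast] at h4
  rcases le_total 0 x with hx | hx
  · rw [ENNReal.toReal_ofReal hx] at h4
    exact h4.trans (le_max_left _ _)
  · rw [ENNReal.ofReal_of_nonpos hx, ENNReal.toReal_zero] at h4
    exact h4.trans (le_max_right _ _)

lemma timeLe_of {ρ : ℕ} {Z : Set (ℕ × ℕ)} {a : ℝ}
    (h : ∀ ε : ℝ, 0 < ε → ∀ᶠ p : ℝ in 𝓝[>] 0, ∀ hp : p ∈ unitInterval,
      (initLaw ⟨p, hp⟩).real {ξ | ENNReal.ofReal (p ^ (-a)) <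
        ((hitTime ρ Z ξ : ℕ∞) : ENNReal)} ≤ ε) : TimeLe ρ Z a := by
  unfold TimeLe
  have h1 : ∀ᶠ l : ℝ in atTop, limsup (fun p : unitInterval =>
      initLaw p {ξ | ENNReal.ofReal (l * (p : ℝ) ^ (-a)) ≤ ((hitTime ρ Z ξ : ℕ∞) : ENNReal)})
      (𝓝[>] 0) = 0 := by
    filter_upwards [eventually_gt_atTop 1] with l hl
    refine le_antisymm ?_ bot_le
    refine le_of_forall_pos_le_add (fun ε hε => ?_)
    rw [zero_add]
    by_cases htop : ε = ⊤
    · rw [htop]; exact le_top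
    have hε' : 0 < ε.toReal := ENNReal.toReal_pos hε.ne' htop
    have h2 := ev_unit (Q := fun p => (initLaw p).real {ξ | ENNReal.ofReal ((p : ℝ) ^ (-a)) <
      ((hitTime ρ Z ξ : ℕ∞) : ENNReal)} ≤ ε.toReal) (h ε.toReal hε')
    refine limsup_le_of_le (by isBoundedDefault) ?_
    filter_upwards [h2, self_mem_nhdsWithin] with p hp hp0
    have hp0' : (0 : ℝ) < p := hp0
    have h3 : {ξ | ENNReal.ofReal (l * (p : ℝ) ^ (-a)) ≤ ((hitTime ρ Z ξ : ℕ∞) : ENNReal)} ⊆
        {ξ | ENNReal.ofReal ((p : ℝ) ^ (-a)) < ((hitTime ρ Z ξ : ℕ∞) : ENNReal)} := by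
      intro ξ hξ
      have hξ' : ENNReal.ofReal (l * (p : ℝ) ^ (-a)) ≤ ((hitTime ρ Z ξ : ℕ∞) : ENNReal) := hξ
      refine lt_of_lt_of_le ?_ hξ'
      have h4 : 0 < (p : ℝ) ^ (-a) := Real.rpow_pos_of_pos hp0' _
      rw [ENNReal.ofReal_lt_ofReal_iff (by positivity)]
      nlinarith
    refine (measure_mono h3).trans ?_
    rw [← ofReal_measureReal]
    exact (ENNReal.ofReal_le_ofReal hp).trans (ENNReal.ofReal_toReal htop).le
  exact (tendsto_congr' h1).2 tendsto_const_nhds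

lemma timeGe_of {ρ : ℕ} {Z : Set (ℕ × ℕ)} {a : ℝ}
    (h : ∀ ε : ℝ, 0 < ε → ∀ᶠ p : ℝ in 𝓝[>] 0, ∀ hp : p ∈ unitInterval,
      (initLaw ⟨p, hp⟩).real {ξ | ((hitTime ρ Z ξ : ℕ∞) : ENNReal) ≤
        ENNReal.ofReal (p ^ (-a))} ≤ ε) : TimeGe ρ Z a := by
  unfold TimeGe
  have h1 : ∀ᶠ l : ℝ in 𝓝[>] 0, limsup (fun p : unitInterval =>
      initLaw p {ξ | ((hitTime ρ Z ξ : ℕ∞) : ENNReal) ≤ ENNReal.ofReal (l * (p : ℝ) ^ (-a))})
      (𝓝[>] 0) = 0 := by
    filter_upwards [ev_pos] with l hl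
    refine le_antisymm ?_ bot_le
    refine le_of_forall_pos_le_add (fun ε hε => ?_)
    rw [zero_add]
    by_cases htop : ε = ⊤
    · rw [htop]; exact le_top
    have hε' : 0 < ε.toReal := ENNReal.toReal_pos hε.ne' htop
    have h2 := ev_unit (Q := fun p => (initLaw p).real {ξ | ((hitTime ρ Z ξ : ℕ∞) : ENNReal) ≤
        ENNReal.ofReal ((p : ℝ) ^ (-a))} ≤ ε.toReal) (h ε.toReal hε')
    refine limsup_le_of_le (by isBoundedDefault) ?_
    filter_upwards [h2, self_mem_nhdsWithin] with p hp hp0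
    have hp0' : (0 : ℝ) < p := hp0
    have h3 : {ξ | ((hitTime ρ Z ξ : ℕ∞) : ENNReal) ≤ ENNReal.ofReal (l * (p : ℝ) ^ (-a))} ⊆
        {ξ | ((hitTime ρ Z ξ : ℕ∞) : ENNReal) ≤ ENNReal.ofReal ((p : ℝ) ^ (-a))} := by
      intro ξ hξ
      have hξ' : ((hitTime ρ Z ξ : ℕ∞) : ENNReal) ≤ ENNReal.ofReal (l * (p : ℝ) ^ (-a)) := hξ
      refine le_trans hξ' (ENNReal.ofReal_le_ofReal ?_)
      have h4 : 0 < (p : ℝ) ^ (-a) := Real.rpow_pos_of_pos hp0' _
      nlinarith [hl.2]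
    refine (measure_mono h3).trans ?_
    rw [← ofReal_measureReal]
    exact (ENNReal.ofReal_le_ofReal hp).trans (ENNReal.ofReal_toReal htop).le
  exact (tendsto_congr' h1).2 tendsto_const_nhds

/-! ### Spreading of adjacent sites -/

lemma spread {ρ h : ℕ} {Z : Set (ℕ × ℕ)} (hZ : IsLowerSet Z) {ξ : Set (ℤ × ℤ)} {o : Bool}
    (hh : h ≤ ρ) (hbad : bad Z o h 0) {x c : ℤ} {T : ℕ}
    (hrun : ∀ j : ℕ, j < h → pt o (x + j) c ∈ evolve ρ Z ξ T) (n : ℕ) :
    ∀ y : ℤ, x - n ≤ y → y < x + h + n → pt o y c ∈ evolve ρ Z ξ (T + n) := by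
  induction n with
  | zero =>
    intro y h1 h2
    have h3 := hrun (y - x).toNat (by omega)
    rwa [show x + (((y - x).toNat : ℕ) : ℤ) = y by omega] at h3
  | succ n ih =>
    intro y h1 h2
    by_cases hin : x - n ≤ y ∧ y < x + h + n
    · exact evolve_mono ρ Z ξ (by omega) (ih y hin.1 hin.2)
    · push_cast at h1 h2
      have hcase : y = x - (n + 1) ∨ y = x + h + n := by
        by_cases h6 : x - n ≤ y
        · right
          have : ¬ y < x + h + n := fun h7 => hin ⟨h6, h7⟩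
          omega
        · left
          omega
      rcases hcase with hy | hy
      · refine mem_evolve_succ hZ (ξ := ξ) (t := T + n) o
          ((Finset.Icc (1 : ℤ) h).map (addRightEmbedding y)) ∅ ?_ (by simp)
          (by rw [Finset.card_map, Int.card_Icc, Finset.card_empty,
                show ((h : ℤ) + 1 - 1).toNat = h by omega]; exact hbad)
        intro a ha
        rw [Finset.mem_map] at ha
        obtain ⟨b, hb, rfl⟩ := ha
        rw [Finset.mem_Icc] at hb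
        simp only [addRightEmbedding_apply]
        have hh' : (h : ℤ) ≤ ρ := by exact_mod_cast hh
        exact ⟨by rw [abs_le]; constructor <;> linarith [hb.1, hb.2],
          ih (b + y) (by omega) (by omega)⟩
      · refine mem_evolve_succ hZ (ξ := ξ) (t := T + n) o
          ((Finset.Icc (1 : ℤ) h).map (addRightEmbedding (y - h - 1))) ∅ ?_ (by simp)
          (by rw [Finset.card_map, Int.card_Icc, Finset.card_empty,
                show ((h : ℤ) + 1 - 1).toNat = h by omega]; exact hbad)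
        intro a ha
        rw [Finset.mem_map] at ha
        obtain ⟨b, hb, rfl⟩ := ha
        rw [Finset.mem_Icc] at hb
        simp only [addRightEmbedding_apply]
        have hh' : (h : ℤ) ≤ ρ := by exact_mod_cast hh
        exact ⟨by rw [abs_le]; constructor <;> linarith [hb.1, hb.2],
          ih (b + (y - h - 1)) (by omega) (by omega)⟩

/-- Once adjacent lines are realised, the origin is reached in linear time. -/
lemma origin_of_lines {ρ h : ℕ} {Z : Set (ℕ × ℕ)} (hZ : IsLowerSet Z) {ξ : Set (ℤ × ℤ)}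
    {o : Bool} (hh : h ≤ ρ) (hh1 : 1 ≤ h) (hbad : bad Z o h 0) {x : ℤ} {N C : ℕ}
    (hl : ∀ j : ℕ, j < h → Rl ρ Z ξ N C (.line o (x + j))) :
    ((0 : ℤ), (0 : ℤ)) ∈ evolve ρ Z ξ (C * (N + x.natAbs + h) + (x.natAbs + h)) := by
  have hrun : ∀ j : ℕ, j < h → pt o (x + j) 0 ∈ evolve ρ Z ξ (C * (N + x.natAbs + h)) := by
    intro j hj
    have h1 : pt o (x + j) 0 ∈ evolve ρ Z ξ (C * (N + (x + j).natAbs + (0 : ℤ).natAbs)) := hl j hj 0
    refine evolve_mono ρ Z ξ ?_ h1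
    exact Nat.mul_le_mul_left _ (by simp; omega)
  have h1 := spread hZ hh hbad hrun (x.natAbs + h) 0 (by omega) (by omega)
  have h3 : pt o 0 0 = ((0 : ℤ), (0 : ℤ)) := by cases o <;> rfl
  rwa [h3] at h1

end Pool.Agent.MP_e7dab6_pr
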